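import Pool.Agent.ClanGor.Stmts

/-!
# MP_fae1d7_ag: assembly of the main statement from the modules
-/

namespace ClanGor

open MvPolynomial Matrix

theorem unip_det {n : ℕ} (u : Low n → ℂ) : (unip u).det = 1 := by
  have h : (unip u).BlockTriangular OrderDual.toDual := by
    intro i j hij
    have hij' : i < j := hij
    unfold unip
    rw [dif_neg (not_lt.mpr hij'.le), if_neg hij'.ne]
  rw [Matrix.det_of_isLowerTriangular _ h]
  apply Finset.prod_eq_one
  intro i _
  simp [unip]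

/-- `PosCond` is invariant under the action of `GL₂`. -/
theorem PosCond.smul {n : ℕ} {linked : Bool} {a₁ a₂ b₁ b₂ : Fin n}
    {r : Matrix (Fin 2) (Fin n) ℂ} {c : Matrix (Fin n) (Fin 2) ℂ}
    (h : PosCond linked a₁ a₂ b₁ b₂ r c) (k : Matrix (Fin 2) (Fin 2) ℂ) (hk : IsUnit k.det) :
    PosCond linked a₁ a₂ b₁ b₂ (k * r) (c * k⁻¹) := by
  have hr : ∀ a j, (k * r) a j = k a 0 * r 0 j + k a 1 * r 1 j := by
    intro a j; simp [Matrix.mul_apply, Fin.sum_univ_two]
  have hdet : k.det = k 0 0 * k 1 1 - k 0 1 * k 1 0 := Matrix.det_fin_two k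
  have hk0 : k 0 0 * k 1 1 - k 0 1 * k 1 0 ≠ 0 := by rw [← hdet]; exact hk.ne_zero
  have hc0 : ∀ i, (c * k⁻¹) i 0 = (c i 0 * k 1 1 - c i 1 * k 1 0) * (k.det)⁻¹ := by
    intro i
    simp [Matrix.mul_apply, Fin.sum_univ_two, Matrix.inv_def, Matrix.adjugate_fin_two]
    ring
  have hc1 : ∀ i, (c * k⁻¹) i 1 = (-(c i 0 * k 0 1) + c i 1 * k 0 0) * (k.det)⁻¹ := by
    intro i
    simp [Matrix.mul_apply, Fin.sum_univ_two, Matrix.inv_def, Matrix.adjugate_fin_two]
    ring
  have hdi : k.det ≠ 0 := hk.ne_zero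
  have hpair : (c * k⁻¹) b₂ 0 * (k * r) 0 a₁ + (c * k⁻¹) b₂ 1 * (k * r) 1 a₁ =
      c b₂ 0 * r 0 a₁ + c b₂ 1 * r 1 a₁ := by
    rw [hc0, hc1, hr, hr]
    field_simp
    rw [hdet]
    ring
  constructor
  · intro j hj a
    rw [hr, h.rzero j hj 0, h.rzero j hj 1]; simp
  · intro j hj
    have := h.rline j hj
    simp only [hr]
    linear_combination (k 0 0 * k 1 1 - k 0 1 * k 1 0) * this
  · have := h.rdet
    simp only [hr]
    intro h0
    apply this
    have : (k 0 0 * k 1 1 - k 0 1 * k 1 0) * (r 0 a₁ * r 1 a₂ - r 0 a₂ * r 1 a₁) = 0 := by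
      linear_combination h0
    exact (mul_eq_zero.mp this).resolve_left hk0
  · intro i hi a
    have h0 := h.czero i hi 0
    have h1 := h.czero i hi 1
    fin_cases a
    · show (c * k⁻¹) i 0 = 0
      rw [hc0, h0, h1]; simp
    · show (c * k⁻¹) i 1 = 0
      rw [hc1, h0, h1]; simp
  · intro i hi
    have := h.cline i hi
    rw [hc0, hc1, hc0, hc1]
    linear_combination (k 0 0 * k 1 1 - k 0 1 * k 1 0) * (k.det)⁻¹ * (k.det)⁻¹ * this
  · have := h.cdet
    rw [hc0, hc1, hc0, hc1]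
    intro h0
    apply this
    have e : (k 0 0 * k 1 1 - k 0 1 * k 1 0) * ((k.det)⁻¹ * (k.det)⁻¹) *
        (c b₁ 0 * c b₂ 1 - c b₂ 0 * c b₁ 1) = 0 := by
      linear_combination h0
    refine (mul_eq_zero.mp e).resolve_left ?_
    exact mul_ne_zero hk0 (mul_ne_zero (inv_ne_zero hdi) (inv_ne_zero hdi))
  · intro hl
    rw [hpair]; exact h.link hl
  · intro hl
    rw [hpair]; exact h.nest hl

theorem chart_polyIso (hC1 : ChartCoords) (hC2a : OrbitRank) (hC2b : RankPos)
    {p : ℕ} {c : Fin (p + 2) → Letter} {linked : Bool} {a₁ a₂ b₁ b₂ : Fin (p + 2)}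
    (hd : ClanData c linked a₁ a₂ b₁ b₂) (w : Equiv.Perm (Fin (p + 2))) (s t : Fin (p + 2))
    (hst : s < t)
    (hw : (w (Fin.natAdd p 0) = s ∧ w (Fin.natAdd p 1) = t) ∨
      (w (Fin.natAdd p 0) = t ∧ w (Fin.natAdd p 1) = s)) :
    ∃ B : Type, Finite B ∧
      PolyIso (chartSet p c w) (cyl B (rcSet linked a₁ a₂ b₁ b₂ s t)) := by
  obtain ⟨B, hB, hiso⟩ := hC1 (p + 2) s t hst
  refine ⟨B, hB, ?_⟩
  have key : chartSet p c w = {u : Low (p + 2) → ℂ |
      PosCond linked a₁ a₂ b₁ b₂ ((unip u).submatrix ![s, t] id)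
        ((unip u)⁻¹.submatrix id ![s, t])} := by
    ext u
    simp only [chartSet, Set.mem_ofPred_eq]
    set U := unip u with hU
    have hUdet : U.det = 1 := unip_det u
    have hUu : IsUnit U.det := by rw [hUdet]; exact isUnit_one
    have hgdet : IsUnit ((U.submatrix w id).det) := by
      rw [Matrix.det_permute w U, hUdet, mul_one]
      rcases Int.units_eq_one_or (Equiv.Perm.sign w) with h | h <;> rw [h] <;> simp
    have hinv : (U.submatrix w id)⁻¹ = U⁻¹.submatrix id w := by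
      have := Matrix.inv_submatrix_equiv U w (Equiv.refl _)
      simpa using this
    rw [hC2a p c _ hgdet, hinv]
    have e1 : (U.submatrix w id).submatrix ![Fin.natAdd p 0, Fin.natAdd p 1] id =
        U.submatrix ![w (Fin.natAdd p 0), w (Fin.natAdd p 1)] id := by
      ext a j
      fin_cases a <;> rfl
    have e2 : (U⁻¹.submatrix id w).submatrix id ![Fin.natAdd p 0, Fin.natAdd p 1] =
        U⁻¹.submatrix id ![w (Fin.natAdd p 0), w (Fin.natAdd p 1)] := by
      ext j a
      fin_cases a <;> rfl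
    rw [e1, e2]
    have hmul : U * U⁻¹ = 1 := Matrix.mul_nonsing_inv U hUu
    have hone : ∀ x y : Fin (p + 2), x ≠ y →
        U.submatrix ![x, y] id * U⁻¹.submatrix id ![x, y] = 1 := by
      intro x y hxy
      have h1 : ∀ i j, ∑ k, U i k * U⁻¹ k j = (1 : Matrix _ _ ℂ) i j := by
        intro i j
        rw [← hmul, Matrix.mul_apply]
      ext a b
      rw [Matrix.mul_apply]
      simp only [Matrix.submatrix_apply, id]
      rw [h1]
      fin_cases a <;> fin_cases b <;> simp [Matrix.one_apply, hxy, hxy.symm]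
    rcases hw with ⟨h0, h1⟩ | ⟨h0, h1⟩
    · rw [h0, h1]
      exact hC2b _ c linked a₁ a₂ b₁ b₂ hd _ _ (hone s t hst.ne)
    · rw [h0, h1, hC2b _ c linked a₁ a₂ b₁ b₂ hd _ _ (hone t s hst.ne')]
      have hsw : ∀ x y : Fin (p + 2),
          PosCond linked a₁ a₂ b₁ b₂ (U.submatrix ![x, y] id) (U⁻¹.submatrix id ![x, y]) →
          PosCond linked a₁ a₂ b₁ b₂ (U.submatrix ![y, x] id) (U⁻¹.submatrix id ![y, x]) := by
        intro x y h
        have := h.smul !![0, 1; 1, 0] (by simp [Matrix.det_fin_two])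
        have i1 : (!![0, 1; 1, 0] : Matrix (Fin 2) (Fin 2) ℂ)⁻¹ = !![0, 1; 1, 0] := by
          simp [Matrix.inv_def, Matrix.det_fin_two, Matrix.adjugate_fin_two]
        rw [i1] at this
        convert this using 1
        · ext a j
          fin_cases a <;> simp [Matrix.mul_apply, Fin.sum_univ_two]
        · ext j a
          fin_cases a <;> simp [Matrix.mul_apply, Fin.sum_univ_two]
      exact ⟨hsw t s, hsw s t⟩
  rw [key]
  exact hiso (PosCond linked a₁ a₂ b₁ b₂) (fun r c k hk h => h.smul k hk)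

/-- Assembly of the main statement. -/
theorem main_of (hC1 : ChartCoords) (hC2a : OrbitRank) (hC2b : RankPos) (hC3 : ClanHasData)
    (hC4 : AvoidPos) (hP0 : PolyIsoGor) (hP1 : ModelP1) (hP2 : ModelP2) (hP3 : ModelP3)
    (hN1 : ModelN1) (hN2 : ModelN2) (hN3 : ModelN3) : MainStatement := by
  intro p hp c hc
  obtain ⟨linked, a₁, a₂, b₁, b₂, hd⟩ := hC3 p c hc
  rw [hC4 _ c linked a₁ a₂ b₁ b₂ hd]
  -- positive direction from a chartwise statement
  have hpos : (∀ (s t : Fin (p + 2)) (B : Type) [Finite B], s < t →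
      GorSet (cyl B (rcSet linked a₁ a₂ b₁ b₂ s t))) → GorensteinClosure p c := by
    intro h w
    have hne : w (Fin.natAdd p 0) ≠ w (Fin.natAdd p 1) := by
      intro h
      have := w.injective h
      simp [Fin.ext_iff] at this
    rcases lt_or_gt_of_ne hne with hlt | hlt
    · obtain ⟨B, hB, hiso⟩ := chart_polyIso hC1 hC2a hC2b hd w _ _ hlt (Or.inl ⟨rfl, rfl⟩)
      have := hB
      rw [hP0 _ _ _ _ hiso]
      exact h _ _ B hlt
    · obtain ⟨B, hB, hiso⟩ := chart_polyIso hC1 hC2a hC2b hd w _ _ hlt (Or.inr ⟨rfl, rfl⟩)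
      have := hB
      rw [hP0 _ _ _ _ hiso]
      exact h _ _ B hlt
  have hneg : ∀ (s t : Fin (p + 2)), s < t →
      (∀ (B : Type) [Finite B], ¬ GorSet (cyl B (rcSet linked a₁ a₂ b₁ b₂ s t))) →
      ¬ GorensteinClosure p c := by
    intro s t hst h hG
    -- a permutation with the prescribed values
    obtain ⟨w, hw0, hw1⟩ : ∃ w : Equiv.Perm (Fin (p + 2)),
        w (Fin.natAdd p 0) = s ∧ w (Fin.natAdd p 1) = t := by
      have hxy : (Fin.natAdd p (0 : Fin 2)) ≠ Fin.natAdd p 1 := by simp [Fin.ext_iff]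
      set x : Fin (p + 2) := Fin.natAdd p 0
      set y : Fin (p + 2) := Fin.natAdd p 1
      let w1 := Equiv.swap x s
      refine ⟨(Equiv.swap (w1 y) t) * w1, ?_, ?_⟩
      · have hx : w1 x = s := Equiv.swap_apply_left _ _
        have h1 : w1 y ≠ s := by
          rw [← hx]; exact fun h => hxy (w1.injective h.symm)
        simp only [Equiv.Perm.coe_mul, Function.comp_apply, hx]
        exact Equiv.swap_apply_of_ne_of_ne h1.symm hst.ne
      · simp [Equiv.swap_apply_left]
    obtain ⟨B, hB, hiso⟩ := chart_polyIso hC1 hC2a hC2b hd w s t hst (Or.inl ⟨hw0, hw1⟩)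
    have := hB
    exact h B ((hP0 _ _ _ _ hiso).mp (hG w))
  cases linked with
  | true =>
    simp only [if_true]
    obtain ⟨h1, h2, h3⟩ := hd.link rfl
    have hab1 : a₁ ≤ b₁ := by
      rcases h1 with h | h
      · exact h.1.le
      · exact h.1.le
    have hab2 : a₂ ≤ b₂ := by
      rcases h2 with h | h
      · exact h.1.le
      · exact h.1.le
    by_cases hlt : a₂ < b₁
    · constructor
      · intro hG _
        by_contra hcon
        refine hneg a₂ b₁ hlt ?_ hG
        intro B _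
        have ha : a₁.val < a₂.val := hd.a_lt
        have hb : b₁.val < b₂.val := hd.b_lt
        apply hN1 _ a₁ a₂ b₁ b₂ B hd.a_lt hlt hd.b_lt
        omega
      · intro h
        obtain ⟨ha, hb⟩ := h hlt
        exact hpos fun s t B _ hst => hP2 _ a₁ a₂ b₁ b₂ s t B ha hlt hb hst
    · have hlt' : b₁ < a₂ := lt_of_le_of_ne (not_lt.mp hlt) h3.symm
      constructor
      · intro _ h; exact absurd h hlt
      · intro _
        exact hpos fun s t B _ hst => hP1 _ a₁ a₂ b₁ b₂ s t B hab1 hlt' hab2 hst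
  | false =>
    simp only [Bool.false_eq_true, if_false]
    obtain ⟨h1, h2⟩ := hd.nest rfl
    have hab : a₂ ≤ b₁ := by
      rcases h2 with h | h
      · exact h.1.le
      · exact h.1.le
    have ha : a₁.val < a₂.val := hd.a_lt
    have hb : b₁.val < b₂.val := hd.b_lt
    have hab' : a₂.val ≤ b₁.val := hab
    constructor
    · intro hG
      by_contra hcon
      by_cases h3 : a₂.val ≤ a₁.val + 2
      · have h4 : b₁.val + 3 ≤ b₂.val := by
          by_contra h5
          exact hcon ⟨h3, by omega⟩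
        refine hneg a₁ b₁ (Fin.lt_def.mpr (by omega)) ?_ hG
        intro B _
        exact hN2 _ a₁ a₂ b₁ b₂ B hd.a_lt hab h4
      · refine hneg a₂ b₂ (Fin.lt_def.mpr (by omega)) ?_ hG
        intro B _
        exact hN3 _ a₁ a₂ b₁ b₂ B (by omega) hab hd.b_lt
    · rintro ⟨h3, h4⟩
      exact hpos fun s t B _ hst => hP3 _ a₁ a₂ b₁ b₂ s t B hd.a_lt hab hd.b_lt h3 h4 hst

end ClanGor
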