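import Pool.Agent.ClanGor.Stmts

/-!
# MP_fae1d7_ag, module C: coordinates `(b, h, r', c')` on the charts
-/

namespace ClanGor.ChartCoordsM

open MvPolynomial Matrix

variable {R : Type} [CommRing R] {R' : Type} [CommRing R'] {n : ℕ}

/-- Index set of the affine factor: entries of `b` (below the diagonal, rows and columns different
from `s,t`) and the entry `h = u_{ts}`. -/
abbrev Bt (s t : Fin n) : Type :=
  Option {x : Low n // (x.1.1 ≠ s ∧ x.1.1 ≠ t) ∧ (x.1.2 ≠ s ∧ x.1.2 ≠ t)}

variable (s t : Fin n)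

/-- normalised rows -/
def rr (U : Matrix (Fin n) (Fin n) R) (a : Fin 2) (j : Fin n) : R :=
  if a = 0 then U s j else U t j - U t s * U s j

/-- normalised columns of the inverse -/
def cc (U V : Matrix (Fin n) (Fin n) R) (k : Fin n) (a : Fin 2) : R :=
  if a = 0 then V k s + U t s * V k t else V k t

/-- chart -> model -/
def fwd (u : Low n → R) : Bt s t ⊕ RC n → R
  | Sum.inl none => unip u t s
  | Sum.inl (some x) => unip u x.1.1.1 x.1.1.2 - unip u x.1.1.1 s * rr s t (unip u) 0 x.1.1.2
      - unip u x.1.1.1 t * rr s t (unip u) 1 x.1.1.2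
  | Sum.inr (Sum.inl (a, j)) => rr s t (unip u) a j
  | Sum.inr (Sum.inr (a, k)) => cc s t (unip u) (adjugate (unip u)) k a

/-- the unipotent matrix `b` (only rows and columns outside `{s,t}`) -/
def bY (z : Bt s t ⊕ RC n → R) (i k : Fin n) : R :=
  if h : (i ≠ s ∧ i ≠ t) ∧ (k ≠ s ∧ k ≠ t) then
    (if h' : k < i then z (Sum.inl (some ⟨⟨(i, k), h'⟩, h⟩)) else if k = i then 1 else 0)
  else 0

/-- the matrix `u` -/
def bM (z : Bt s t ⊕ RC n → R) : Matrix (Fin n) (Fin n) R := fun i j =>
  if i = s then z (Sum.inr (Sum.inl (0, j)))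
  else if i = t then z (Sum.inr (Sum.inl (1, j))) + z (Sum.inl none) * z (Sum.inr (Sum.inl (0, j)))
  else bY s t z i j - (∑ k, bY s t z i k * z (Sum.inr (Sum.inr (0, k)))) * z (Sum.inr (Sum.inl (0, j)))
    - (∑ k, bY s t z i k * z (Sum.inr (Sum.inr (1, k)))) * z (Sum.inr (Sum.inl (1, j)))

/-- model -> chart -/
def bwd (z : Bt s t ⊕ RC n → R) : Low n → R := fun x => bM s t z x.1.1 x.1.2

theorem unip_map (φ : R →+* R') (u : Low n → R) (i j : Fin n) :
    φ (unip u i j) = unip (fun x => φ (u x)) i j := by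
  unfold unip
  split_ifs <;> simp

theorem unip_mapM (φ : R →+* R') (u : Low n → R) :
    φ.mapMatrix (unip u) = unip (fun x => φ (u x)) := by
  ext i j
  exact unip_map φ u i j

theorem adj_map (φ : R →+* R') (u : Low n → R) (i j : Fin n) :
    φ (adjugate (unip u) i j) = adjugate (unip (fun x => φ (u x))) i j := by
  rw [← unip_mapM, ← RingHom.map_adjugate]
  rfl

theorem rr_map (φ : R →+* R') (u : Low n → R) (a : Fin 2) (j : Fin n) :
    φ (rr s t (unip u) a j) = rr s t (unip (fun x => φ (u x))) a j := by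
  unfold rr
  split_ifs
  · exact unip_map φ u _ _
  · rw [map_sub, map_mul, unip_map, unip_map, unip_map]

theorem fwd_map (φ : R →+* R') (u : Low n → R) (y : Bt s t ⊕ RC n) :
    φ (fwd s t u y) = fwd s t (fun x => φ (u x)) y := by
  match y with
  | Sum.inl none => exact unip_map φ u _ _
  | Sum.inl (some x) =>
    simp only [fwd, map_sub, map_mul, unip_map, rr_map]
  | Sum.inr (Sum.inl (a, j)) => exact rr_map s t φ u a j
  | Sum.inr (Sum.inr (a, k)) =>
    simp only [fwd, cc]
    split_ifs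
    · rw [map_add, map_mul, adj_map, adj_map, unip_map]
    · rw [adj_map]

theorem bY_map (φ : R →+* R') (z : Bt s t ⊕ RC n → R) (i k : Fin n) :
    φ (bY s t z i k) = bY s t (fun x => φ (z x)) i k := by
  unfold bY
  split_ifs <;> simp

theorem bwd_map (φ : R →+* R') (z : Bt s t ⊕ RC n → R) (x : Low n) :
    φ (bwd s t z x) = bwd s t (fun y => φ (z y)) x := by
  unfold bwd bM
  split_ifs
  · rfl
  · rw [map_add, map_mul]
  · simp only [map_sub, map_mul, map_sum, bY_map]

/-! ### Facts about unipotent matrices -/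

theorem unip_diag (u : Low n → R) (i : Fin n) : unip u i i = 1 := by
  unfold unip; simp

theorem unip_up (u : Low n → R) {i j : Fin n} (h : i < j) : unip u i j = 0 := by
  unfold unip
  rw [dif_neg (not_lt.mpr h.le), if_neg h.ne]

theorem unip_low (u : Low n → R) {i j : Fin n} (h : j < i) : unip u i j = u ⟨(i, j), h⟩ := by
  unfold unip
  rw [dif_pos h]

theorem unip_det' (u : Low n → R) : (unip u).det = 1 := by
  have h : (unip u).BlockTriangular OrderDual.toDual := by
    intro i j hij
    exact unip_up u hij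
  rw [Matrix.det_of_isLowerTriangular _ h]
  apply Finset.prod_eq_one
  intro i _
  exact unip_diag u i

theorem mul_adj (u : Low n → R) : unip u * adjugate (unip u) = 1 := by
  rw [Matrix.mul_adjugate, unip_det', one_smul]

theorem adj_mul (u : Low n → R) : adjugate (unip u) * unip u = 1 := by
  rw [Matrix.adjugate_mul, unip_det', one_smul]

theorem inv_eq_adj (u : Low n → ℂ) : (unip u)⁻¹ = adjugate (unip u) :=
  Matrix.inv_eq_right_inv (mul_adj u)

theorem adj_low (u : Low n → R) : (adjugate (unip u)).BlockTriangular OrderDual.toDual := by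
  have h : (unip u).BlockTriangular OrderDual.toDual := by
    intro i j hij
    exact unip_up u hij
  let _ : Invertible (unip u) := ⟨adjugate (unip u), adj_mul u, mul_adj u⟩
  have h2 := Matrix.blockTriangular_inv_of_blockTriangular h
  have h3 : (unip u)⁻¹ = adjugate (unip u) := Matrix.inv_eq_right_inv (mul_adj u)
  rwa [h3] at h2

theorem adj_up (u : Low n → R) {i j : Fin n} (h : i < j) : adjugate (unip u) i j = 0 :=
  adj_low u h

theorem adj_diag (u : Low n → R) (i : Fin n) : adjugate (unip u) i i = 1 := by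
  have h := congrFun (congrFun (mul_adj u) i) i
  rw [Matrix.mul_apply, Finset.sum_eq_single i, unip_diag, one_mul] at h
  · rw [h]; simp
  · intro k _ hk
    rcases lt_or_gt_of_ne hk with h1 | h1
    · rw [adj_up u h1, mul_zero]
    · rw [unip_up u h1, zero_mul]
  · intro h; exact absurd (Finset.mem_univ i) h

theorem sum_mul_adj (u : Low n → R) (i j : Fin n) :
    ∑ k, unip u i k * adjugate (unip u) k j = if i = j then 1 else 0 := by
  have h := congrFun (congrFun (mul_adj u) i) j
  rw [Matrix.mul_apply] at h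
  rw [h, Matrix.one_apply]

/-- the normalised pair `(r', c')` of a unipotent matrix -/
theorem fwd_norm (hst : s < t) (u : Low n → ℂ) :
    RCNorm s t (rMat fun y => fwd s t u (Sum.inr y)) (cMat fun y => fwd s t u (Sum.inr y)) := by
  have hts : t ≠ s := hst.ne'
  constructor
  · simp [rMat, fwd, rr, unip_diag]
  · intro j hj
    simp [rMat, fwd, rr, unip_up u hj]
  · simp [rMat, fwd, rr, unip_diag]
  · simp [rMat, fwd, rr, unip_diag, unip_up u hst]
  · intro j hj
    simp [rMat, fwd, rr, unip_up u hj, unip_up u (hst.trans hj)]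
  · simp [cMat, fwd, cc, adj_diag, adj_up u hst]
  · intro k hk
    simp [cMat, fwd, cc, adj_up u hk, adj_up u (hk.trans hst)]
  · simp [cMat, fwd, cc, adj_diag]
  · intro k hk
    simp [cMat, fwd, cc, adj_up u hk]
  · show ∑ k, rr s t (unip u) 1 k * cc s t (unip u) (adjugate (unip u)) k 0 = 0
    have e : ∀ k, rr s t (unip u) 1 k * cc s t (unip u) (adjugate (unip u)) k 0 =
        unip u t k * adjugate (unip u) k s + unip u t s * (unip u t k * adjugate (unip u) k t)
        - unip u t s * (unip u s k * adjugate (unip u) k s)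
        - unip u t s * unip u t s * (unip u s k * adjugate (unip u) k t) := by
      intro k
      simp only [rr, cc, one_ne_zero, if_false, if_true]
      ring
    rw [Finset.sum_congr rfl fun k _ => e k]
    simp only [Finset.sum_sub_distrib, Finset.sum_add_distrib, ← Finset.mul_sum, sum_mul_adj]
    simp [hts, hst.ne]

/-- the change of basis `κ` -/
def kap (h : ℂ) : Matrix (Fin 2) (Fin 2) ℂ := !![1, 0; -h, 1]

theorem kap_det (h : ℂ) : (kap h).det = 1 := by simp [kap, Matrix.det_fin_two]

theorem kap_inv (h : ℂ) : (kap h)⁻¹ = !![1, 0; h, 1] := by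
  apply Matrix.inv_eq_right_inv
  ext i j
  fin_cases i <;> fin_cases j <;> simp [kap, Matrix.mul_apply, Fin.sum_univ_two]

theorem rMat_fwd (u : Low n → ℂ) :
    (rMat fun y => fwd s t u (Sum.inr y)) =
      kap (unip u t s) * (unip u).submatrix ![s, t] id := by
  ext a j
  rw [Matrix.mul_apply, Fin.sum_univ_two]
  fin_cases a
  · simp [rMat, fwd, rr, kap]
  · simp [rMat, fwd, rr, kap]
    ring

theorem cMat_fwd (u : Low n → ℂ) :
    (cMat fun y => fwd s t u (Sum.inr y)) =
      (unip u)⁻¹.submatrix id ![s, t] * (kap (unip u t s))⁻¹ := by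
  ext k a
  rw [kap_inv, inv_eq_adj, Matrix.mul_apply, Fin.sum_univ_two]
  fin_cases a
  · simp [cMat, fwd, cc]
    ring
  · simp [cMat, fwd, cc]

/-! ### model -> chart -/

theorem bY_up (z : Bt s t ⊕ RC n → R) {i k : Fin n} (h : i < k) : bY s t z i k = 0 := by
  unfold bY
  split_ifs with h1 h2 h3
  · exact absurd h (not_lt.mpr h2.le)
  · exact absurd h3 h.ne'
  · rfl
  · rfl

theorem bY_diag (z : Bt s t ⊕ RC n → R) {i : Fin n} (h : i ≠ s ∧ i ≠ t) : bY s t z i i = 1 := by
  unfold bY
  rw [dif_pos ⟨h, h⟩, dif_neg (lt_irrefl i), if_pos rfl]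

theorem bY_s (z : Bt s t ⊕ RC n → R) (i : Fin n) : bY s t z i s = 0 := by
  unfold bY
  rw [dif_neg]
  rintro ⟨_, h⟩
  exact h.1 rfl

theorem bY_t (z : Bt s t ⊕ RC n → R) (i : Fin n) : bY s t z i t = 0 := by
  unfold bY
  rw [dif_neg]
  rintro ⟨_, h⟩
  exact h.2 rfl

/-- `bM z` is lower unipotent when `(r', c')` is normalised. -/
theorem unip_bwd (hst : s < t) (z : Bt s t ⊕ RC n → ℂ)
    (hz : RCNorm s t (rMat fun y => z (Sum.inr y)) (cMat fun y => z (Sum.inr y))) :
    unip (bwd s t z) = bM s t z := by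
  have hts : t ≠ s := hst.ne'
  have r0s : z (Sum.inr (Sum.inl (0, s))) = 1 := hz.r0s
  have r0 : ∀ j, s < j → z (Sum.inr (Sum.inl (0, j))) = 0 := hz.r0
  have r1s : z (Sum.inr (Sum.inl (1, s))) = 0 := hz.r1s
  have r1t : z (Sum.inr (Sum.inl (1, t))) = 1 := hz.r1t
  have r1 : ∀ j, t < j → z (Sum.inr (Sum.inl (1, j))) = 0 := hz.r1
  have c0 : ∀ k, k < s → z (Sum.inr (Sum.inr (0, k))) = 0 := hz.c0
  have c1 : ∀ k, k < t → z (Sum.inr (Sum.inr (1, k))) = 0 := hz.c1
  -- the correction terms vanish on and above the diagonal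
  have key0 : ∀ i j, i ≠ s → i ≤ j →
      (∑ k, bY s t z i k * z (Sum.inr (Sum.inr (0, k)))) * z (Sum.inr (Sum.inl (0, j))) = 0 := by
    intro i j his hij
    by_cases hj : s < j
    · rw [r0 j hj, mul_zero]
    · have hi : i < s := lt_of_le_of_ne (hij.trans (not_lt.mp hj)) his
      rw [Finset.sum_eq_zero, zero_mul]
      intro k _
      by_cases hk : i < k
      · rw [bY_up s t z hk, zero_mul]
      · rw [c0 k (lt_of_le_of_lt (not_lt.mp hk) hi), mul_zero]
  have key1 : ∀ i j, i ≠ t → i ≤ j →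
      (∑ k, bY s t z i k * z (Sum.inr (Sum.inr (1, k)))) * z (Sum.inr (Sum.inl (1, j))) = 0 := by
    intro i j hit hij
    by_cases hj : t < j
    · rw [r1 j hj, mul_zero]
    · have hi : i < t := lt_of_le_of_ne (hij.trans (not_lt.mp hj)) hit
      rw [Finset.sum_eq_zero, zero_mul]
      intro k _
      by_cases hk : i < k
      · rw [bY_up s t z hk, zero_mul]
      · rw [c1 k (lt_of_le_of_lt (not_lt.mp hk) hi), mul_zero]
  ext i j
  rcases lt_trichotomy i j with h | h | h
  · rw [unip_up _ h]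
    unfold bM
    split_ifs with h1 h2
    · subst h1; rw [r0 j h]
    · subst h2; rw [r1 j h, r0 j (hst.trans h)]; simp
    · rw [bY_up s t z h, key0 i j h1 h.le, key1 i j h2 h.le]; simp
  · subst h
    rw [unip_diag]
    unfold bM
    split_ifs with h1 h2
    · subst h1; rw [r0s]
    · subst h2; rw [r1t, r0 _ hst]; simp
    · rw [bY_diag s t z ⟨h1, h2⟩, key0 i i h1 le_rfl, key1 i i h2 le_rfl]; simp
  · rw [unip_low _ h]
    rfl

theorem sum_r0 (_hst : s < t) (z : Bt s t ⊕ RC n → ℂ)
    (hz : RCNorm s t (rMat fun y => z (Sum.inr y)) (cMat fun y => z (Sum.inr y))) :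
    ∑ j, z (Sum.inr (Sum.inl (0, j))) * z (Sum.inr (Sum.inr (0, j))) = 1 := by
  have r0s : z (Sum.inr (Sum.inl (0, s))) = 1 := hz.r0s
  have r0 : ∀ j, s < j → z (Sum.inr (Sum.inl (0, j))) = 0 := hz.r0
  have c0s : z (Sum.inr (Sum.inr (0, s))) = 1 := hz.c0s
  have c0 : ∀ k, k < s → z (Sum.inr (Sum.inr (0, k))) = 0 := hz.c0
  rw [Finset.sum_eq_single s, r0s, c0s, one_mul]
  · intro k _ hk
    rcases lt_or_gt_of_ne hk with h | h
    · rw [c0 k h, mul_zero]
    · rw [r0 k h, zero_mul]
  · intro h; exact absurd (Finset.mem_univ s) h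

theorem sum_r01 (hst : s < t) (z : Bt s t ⊕ RC n → ℂ)
    (hz : RCNorm s t (rMat fun y => z (Sum.inr y)) (cMat fun y => z (Sum.inr y))) :
    ∑ j, z (Sum.inr (Sum.inl (0, j))) * z (Sum.inr (Sum.inr (1, j))) = 0 := by
  have r0 : ∀ j, s < j → z (Sum.inr (Sum.inl (0, j))) = 0 := hz.r0
  have c1 : ∀ k, k < t → z (Sum.inr (Sum.inr (1, k))) = 0 := hz.c1
  apply Finset.sum_eq_zero
  intro k _
  rcases lt_or_ge s k with h | h
  · rw [r0 k h, zero_mul]
  · rw [c1 k (lt_of_le_of_lt h hst), mul_zero]

theorem sum_r10 (z : Bt s t ⊕ RC n → ℂ)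
    (hz : RCNorm s t (rMat fun y => z (Sum.inr y)) (cMat fun y => z (Sum.inr y))) :
    ∑ j, z (Sum.inr (Sum.inl (1, j))) * z (Sum.inr (Sum.inr (0, j))) = 0 := hz.rel

theorem sum_r11 (z : Bt s t ⊕ RC n → ℂ)
    (hz : RCNorm s t (rMat fun y => z (Sum.inr y)) (cMat fun y => z (Sum.inr y))) :
    ∑ j, z (Sum.inr (Sum.inl (1, j))) * z (Sum.inr (Sum.inr (1, j))) = 1 := by
  have r1t : z (Sum.inr (Sum.inl (1, t))) = 1 := hz.r1t
  have r1 : ∀ j, t < j → z (Sum.inr (Sum.inl (1, j))) = 0 := hz.r1
  have c1t : z (Sum.inr (Sum.inr (1, t))) = 1 := hz.c1t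
  have c1 : ∀ k, k < t → z (Sum.inr (Sum.inr (1, k))) = 0 := hz.c1
  rw [Finset.sum_eq_single t, r1t, c1t, one_mul]
  · intro k _ hk
    rcases lt_or_gt_of_ne hk with h | h
    · rw [c1 k h, mul_zero]
    · rw [r1 k h, zero_mul]
  · intro h; exact absurd (Finset.mem_univ t) h

/-- `M c'₀ = e_s + h e_t` -/
theorem bM_c0 (hst : s < t) (z : Bt s t ⊕ RC n → ℂ)
    (hz : RCNorm s t (rMat fun y => z (Sum.inr y)) (cMat fun y => z (Sum.inr y))) (i : Fin n) :
    ∑ j, bM s t z i j * z (Sum.inr (Sum.inr (0, j))) =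
      if i = s then 1 else if i = t then z (Sum.inl none) else 0 := by
  have e0 := sum_r0 s t hst z hz
  have e01 := sum_r01 s t hst z hz
  have e10 := sum_r10 s t z hz
  have e11 := sum_r11 s t z hz
  unfold bM
  split_ifs with h1 h2
  · exact e0
  · simp only [add_mul, Finset.sum_add_distrib, mul_assoc, ← Finset.mul_sum, e0, e10]
    simp
  · simp only [sub_mul, Finset.sum_sub_distrib, mul_assoc, ← Finset.mul_sum, e0, e10]
    simp

/-- `M c'₁ = e_t` -/
theorem bM_c1 (hst : s < t) (z : Bt s t ⊕ RC n → ℂ)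
    (hz : RCNorm s t (rMat fun y => z (Sum.inr y)) (cMat fun y => z (Sum.inr y))) (i : Fin n) :
    ∑ j, bM s t z i j * z (Sum.inr (Sum.inr (1, j))) = if i = t then 1 else 0 := by
  have e0 := sum_r0 s t hst z hz
  have e01 := sum_r01 s t hst z hz
  have e10 := sum_r10 s t z hz
  have e11 := sum_r11 s t z hz
  unfold bM
  by_cases h1 : i = s
  · subst h1
    simp only [if_true, if_neg hst.ne]
    exact e01
  · simp only [if_neg h1]
    split_ifs with h2
    · simp only [add_mul, Finset.sum_add_distrib, mul_assoc, ← Finset.mul_sum, e01, e11]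
      simp
    · simp only [sub_mul, Finset.sum_sub_distrib, mul_assoc, ← Finset.mul_sum, e01, e11]
      simp

/-- the columns of the inverse -/
theorem adj_c0 (hst : s < t) (z : Bt s t ⊕ RC n → ℂ)
    (hz : RCNorm s t (rMat fun y => z (Sum.inr y)) (cMat fun y => z (Sum.inr y))) (k : Fin n) :
    adjugate (unip (bwd s t z)) k s + z (Sum.inl none) * adjugate (unip (bwd s t z)) k t =
      z (Sum.inr (Sum.inr (0, k))) := by
  have h : ((adjugate (unip (bwd s t z)) * unip (bwd s t z)) *ᵥ
      fun j => z (Sum.inr (Sum.inr (0, j)))) k = z (Sum.inr (Sum.inr (0, k))) := by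
    rw [adj_mul, Matrix.one_mulVec]
  rw [← Matrix.mulVec_mulVec, unip_bwd s t hst z hz] at h
  have e : (bM s t z *ᵥ fun j => z (Sum.inr (Sum.inr (0, j)))) =
      fun i => if i = s then 1 else if i = t then z (Sum.inl none) else 0 := by
    ext i
    exact bM_c0 s t hst z hz i
  rw [e] at h
  rw [← h, unip_bwd s t hst z hz, Matrix.mulVec, dotProduct]
  rw [← Finset.sum_erase_add _ _ (Finset.mem_univ s),
    ← Finset.sum_erase_add _ _ (Finset.mem_erase.mpr ⟨hst.ne', Finset.mem_univ t⟩)]
  rw [Finset.sum_eq_zero]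
  · simp [hst.ne']
    ring
  · intro j hj
    have h2 : j ≠ t := (Finset.mem_erase.mp hj).1
    have h3 : j ≠ s := (Finset.mem_erase.mp (Finset.mem_erase.mp hj).2).1
    simp [h2, h3]

theorem adj_c1 (hst : s < t) (z : Bt s t ⊕ RC n → ℂ)
    (hz : RCNorm s t (rMat fun y => z (Sum.inr y)) (cMat fun y => z (Sum.inr y))) (k : Fin n) :
    adjugate (unip (bwd s t z)) k t = z (Sum.inr (Sum.inr (1, k))) := by
  have h : ((adjugate (unip (bwd s t z)) * unip (bwd s t z)) *ᵥ
      fun j => z (Sum.inr (Sum.inr (1, j)))) k = z (Sum.inr (Sum.inr (1, k))) := by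
    rw [adj_mul, Matrix.one_mulVec]
  rw [← Matrix.mulVec_mulVec, unip_bwd s t hst z hz] at h
  have e : (bM s t z *ᵥ fun j => z (Sum.inr (Sum.inr (1, j)))) =
      fun i => if i = t then 1 else 0 := by
    ext i
    exact bM_c1 s t hst z hz i
  rw [e] at h
  rw [← h, unip_bwd s t hst z hz, Matrix.mulVec, dotProduct]
  simp

theorem bM_ts (hst : s < t) (z : Bt s t ⊕ RC n → ℂ)
    (hz : RCNorm s t (rMat fun y => z (Sum.inr y)) (cMat fun y => z (Sum.inr y))) :
    bM s t z t s = z (Sum.inl none) := by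
  have r0s : z (Sum.inr (Sum.inl (0, s))) = 1 := hz.r0s
  have r1s : z (Sum.inr (Sum.inl (1, s))) = 0 := hz.r1s
  unfold bM
  rw [if_neg hst.ne', if_pos rfl, r0s, r1s]; ring

theorem rr_bM (hst : s < t) (z : Bt s t ⊕ RC n → ℂ)
    (hz : RCNorm s t (rMat fun y => z (Sum.inr y)) (cMat fun y => z (Sum.inr y)))
    (a : Fin 2) (j : Fin n) :
    rr s t (bM s t z) a j = z (Sum.inr (Sum.inl (a, j))) := by
  have hts := bM_ts s t hst z hz
  have hs : ∀ j, bM s t z s j = z (Sum.inr (Sum.inl (0, j))) := by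
    intro j; unfold bM; rw [if_pos rfl]
  have ht : ∀ j, bM s t z t j = z (Sum.inr (Sum.inl (1, j))) +
      z (Sum.inl none) * z (Sum.inr (Sum.inl (0, j))) := by
    intro j; unfold bM; rw [if_neg hst.ne', if_pos rfl]
  unfold rr
  rw [hts, hs, ht]
  fin_cases a
  · rfl
  · simp

/-- model -> chart -> model is the identity -/
theorem fwd_bwd (hst : s < t) (z : Bt s t ⊕ RC n → ℂ)
    (hz : RCNorm s t (rMat fun y => z (Sum.inr y)) (cMat fun y => z (Sum.inr y)))
    (y : Bt s t ⊕ RC n) : fwd s t (bwd s t z) y = z y := by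
  have hU := unip_bwd s t hst z hz
  have hts := bM_ts s t hst z hz
  match y with
  | Sum.inl none =>
    show unip (bwd s t z) t s = _
    rw [hU, hts]
  | Sum.inl (some ⟨⟨(i, j), hij⟩, ⟨hi, hj⟩⟩) =>
    show unip (bwd s t z) i j - unip (bwd s t z) i s * rr s t (unip (bwd s t z)) 0 j
      - unip (bwd s t z) i t * rr s t (unip (bwd s t z)) 1 j = _
    rw [hU, rr_bM s t hst z hz, rr_bM s t hst z hz]
    have r0s : z (Sum.inr (Sum.inl (0, s))) = 1 := hz.r0s
    have r0t : z (Sum.inr (Sum.inl (0, t))) = 0 := hz.r0 t hst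
    have r1s : z (Sum.inr (Sum.inl (1, s))) = 0 := hz.r1s
    have r1t : z (Sum.inr (Sum.inl (1, t))) = 1 := hz.r1t
    have hM : ∀ l, bM s t z i l = bY s t z i l
        - (∑ k, bY s t z i k * z (Sum.inr (Sum.inr (0, k)))) * z (Sum.inr (Sum.inl (0, l)))
        - (∑ k, bY s t z i k * z (Sum.inr (Sum.inr (1, k)))) * z (Sum.inr (Sum.inl (1, l))) := by
      intro l
      unfold bM
      rw [if_neg hi.1, if_neg hi.2]
    have hY : bY s t z i j = z (Sum.inl (some ⟨⟨(i, j), hij⟩, ⟨hi, hj⟩⟩)) := by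
      unfold bY
      have hij' : j < i := hij
      rw [dif_pos ⟨hi, hj⟩, dif_pos hij']
    rw [hM j, hM s, hM t, bY_s, bY_t, r0s, r0t, r1s, r1t, hY]
    ring
  | Sum.inr (Sum.inl (a, j)) =>
    show rr s t (unip (bwd s t z)) a j = _
    rw [hU, rr_bM s t hst z hz]
  | Sum.inr (Sum.inr (a, k)) =>
    show cc s t (unip (bwd s t z)) (adjugate (unip (bwd s t z))) k a = _
    have h0 := adj_c0 s t hst z hz k
    have h1 := adj_c1 s t hst z hz k
    have h2 : unip (bwd s t z) t s = z (Sum.inl none) := by rw [hU, hts]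
    unfold cc
    rw [h2]
    fin_cases a
    · exact h0
    · exact h1

/-- chart -> model -> chart is the identity -/
theorem bwd_fwd (hst : s < t) (u : Low n → ℂ) (x : Low n) : bwd s t (fwd s t u) x = u x := by
  obtain ⟨⟨i, j⟩, hij⟩ := x
  have hij' : j < i := hij
  have hU : unip u i j = u ⟨(i, j), hij⟩ := unip_low u hij'
  rw [← hU]
  have hn := fwd_norm s t hst u
  show bM s t (fwd s t u) i j = _
  unfold bM
  split_ifs with h1 h2
  · subst h1
    show rr i t (unip u) 0 j = _
    simp [rr]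
  · subst h2
    show rr s i (unip u) 1 j + unip u i s * rr s i (unip u) 0 j = _
    simp [rr]
  · -- the extended matrix `ŷ`
    have hY : ∀ k, bY s t (fwd s t u) i k = unip u i k - unip u i s * rr s t (unip u) 0 k
        - unip u i t * rr s t (unip u) 1 k := by
      intro k
      have n0 : rr s t (unip u) 0 s = 1 := hn.r0s
      have n1 : rr s t (unip u) 1 s = 0 := hn.r1s
      have n2 : rr s t (unip u) 0 t = 0 := hn.r0 t hst
      have n3 : rr s t (unip u) 1 t = 1 := hn.r1t
      by_cases hks : k = s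
      · subst hks
        rw [bY_s, n0, n1]; ring
      by_cases hkt : k = t
      · subst hkt
        rw [bY_t, n2, n3]; ring
      -- products vanish on and above the diagonal
      have p0 : i ≤ k → unip u i s * rr s t (unip u) 0 k = 0 := by
        intro hik
        rcases lt_or_gt_of_ne h1 with h | h
        · rw [unip_up u h, zero_mul]
        · have : rr s t (unip u) 0 k = 0 := hn.r0 k (lt_of_lt_of_le h hik)
          rw [this, mul_zero]
      have p1 : i ≤ k → unip u i t * rr s t (unip u) 1 k = 0 := by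
        intro hik
        rcases lt_or_gt_of_ne h2 with h | h
        · rw [unip_up u h, zero_mul]
        · have : rr s t (unip u) 1 k = 0 := hn.r1 k (lt_of_lt_of_le h hik)
          rw [this, mul_zero]
      rcases lt_trichotomy i k with h | h | h
      · rw [bY_up s t _ h, p0 h.le, p1 h.le, unip_up u h]; simp
      · subst h
        rw [bY_diag s t _ ⟨h1, h2⟩, p0 le_rfl, p1 le_rfl, unip_diag]; simp
      · unfold bY
        rw [dif_pos ⟨⟨h1, h2⟩, ⟨hks, hkt⟩⟩, dif_pos h]
        rfl
    have e0 := sum_r0 s t hst _ hn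
    have e01 := sum_r01 s t hst _ hn
    have e10 := sum_r10 s t _ hn
    have e11 := sum_r11 s t _ hn
    have u0 : ∑ k, unip u i k * fwd s t u (Sum.inr (Sum.inr (0, k))) = 0 := by
      have e : ∀ k, unip u i k * fwd s t u (Sum.inr (Sum.inr (0, k))) =
          unip u i k * adjugate (unip u) k s +
            unip u t s * (unip u i k * adjugate (unip u) k t) := by
        intro k
        simp only [fwd, cc, if_true]
        ring
      rw [Finset.sum_congr rfl fun k _ => e k, Finset.sum_add_distrib, ← Finset.mul_sum,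
        sum_mul_adj, sum_mul_adj, if_neg h1, if_neg h2]
      ring
    have u1 : ∑ k, unip u i k * fwd s t u (Sum.inr (Sum.inr (1, k))) = 0 := by
      have e : ∀ k, unip u i k * fwd s t u (Sum.inr (Sum.inr (1, k))) =
          unip u i k * adjugate (unip u) k t := by
        intro k
        simp only [fwd, cc, one_ne_zero, if_false]
      rw [Finset.sum_congr rfl fun k _ => e k, sum_mul_adj, if_neg h2]
    have s0 : ∑ k, bY s t (fwd s t u) i k * fwd s t u (Sum.inr (Sum.inr (0, k))) =
        - unip u i s := by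
      have e : ∀ k, bY s t (fwd s t u) i k * fwd s t u (Sum.inr (Sum.inr (0, k))) =
          unip u i k * fwd s t u (Sum.inr (Sum.inr (0, k)))
          - unip u i s * (fwd s t u (Sum.inr (Sum.inl (0, k))) *
              fwd s t u (Sum.inr (Sum.inr (0, k))))
          - unip u i t * (fwd s t u (Sum.inr (Sum.inl (1, k))) *
              fwd s t u (Sum.inr (Sum.inr (0, k)))) := by
        intro k
        rw [hY k]
        simp only [fwd]
        ring
      rw [Finset.sum_congr rfl fun k _ => e k, Finset.sum_sub_distrib, Finset.sum_sub_distrib,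
        ← Finset.mul_sum, ← Finset.mul_sum, u0, e0, e10]
      ring
    have s1 : ∑ k, bY s t (fwd s t u) i k * fwd s t u (Sum.inr (Sum.inr (1, k))) =
        - unip u i t := by
      have e : ∀ k, bY s t (fwd s t u) i k * fwd s t u (Sum.inr (Sum.inr (1, k))) =
          unip u i k * fwd s t u (Sum.inr (Sum.inr (1, k)))
          - unip u i s * (fwd s t u (Sum.inr (Sum.inl (0, k))) *
              fwd s t u (Sum.inr (Sum.inr (1, k))))
          - unip u i t * (fwd s t u (Sum.inr (Sum.inl (1, k))) *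
              fwd s t u (Sum.inr (Sum.inr (1, k)))) := by
        intro k
        rw [hY k]
        simp only [fwd]
        ring
      rw [Finset.sum_congr rfl fun k _ => e k, Finset.sum_sub_distrib, Finset.sum_sub_distrib,
        ← Finset.mul_sum, ← Finset.mul_sum, u1, e01, e11]
      ring
    rw [s0, s1, hY j]
    simp only [fwd]
    ring

theorem chartCoords : ChartCoords := by
  intro n s t hst
  refine ⟨Bt s t, inferInstance, ?_⟩
  intro Φ hΦ
  refine ⟨fun y => fwd s t (fun x => X x) y, fun x => bwd s t (fun y => X y) x, ?_⟩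
  have ef : ∀ (u : Low n → ℂ) (y : Bt s t ⊕ RC n),
      eval u (fwd s t (fun x => X x) y) = fwd s t u y := by
    intro u y
    rw [fwd_map]
    simp
  have eg : ∀ (z : Bt s t ⊕ RC n → ℂ) (x : Low n),
      eval z (bwd s t (fun y => X y) x) = bwd s t z x := by
    intro z x
    rw [bwd_map]
    simp
  have hinv : ∀ (u : Low n → ℂ),
      Φ (rMat fun y => fwd s t u (Sum.inr y)) (cMat fun y => fwd s t u (Sum.inr y)) ↔
      Φ ((unip u).submatrix ![s, t] id) ((unip u)⁻¹.submatrix id ![s, t]) := by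
    intro u
    rw [rMat_fwd, cMat_fwd]
    have hd : IsUnit (kap (unip u t s)).det := by rw [kap_det]; exact isUnit_one
    constructor
    · intro h
      have hd' : IsUnit ((kap (unip u t s))⁻¹).det := by
        rw [Matrix.det_nonsing_inv, kap_det]; simp
      have h2 := hΦ _ _ _ hd' h
      rw [← Matrix.mul_assoc, Matrix.nonsing_inv_mul _ hd, Matrix.one_mul,
        Matrix.nonsing_inv_nonsing_inv _ hd, Matrix.mul_assoc, Matrix.nonsing_inv_mul _ hd,
        Matrix.mul_one] at h2
      exact h2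
    · intro h
      exact hΦ _ _ _ hd h
  refine ⟨?_, ?_, ?_, ?_⟩
  · intro u hu
    have hu' : Φ ((unip u).submatrix ![s, t] id) ((unip u)⁻¹.submatrix id ![s, t]) := hu
    have e : (fun j => eval u (fwd s t (fun x => X x) j)) = fwd s t u := by
      ext j; exact ef u j
    rw [e]
    exact ⟨fwd_norm s t hst u, (hinv u).mpr hu'⟩
  · intro z hz
    have e : (fun j => eval z (bwd s t (fun x => X x) j)) = bwd s t z := by
      ext j; exact eg z j
    rw [e]
    obtain ⟨h1, h2⟩ := hz
    refine (hinv (bwd s t z)).mp ?_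
    have e2 : fwd s t (bwd s t z) = z := by
      ext y; exact fwd_bwd s t hst z h1 y
    rw [e2]
    exact h2
  · intro u _ x
    have e : (fun j => eval u (fwd s t (fun x => X x) j)) = fwd s t u := by
      ext j; exact ef u j
    rw [e, eg]
    exact bwd_fwd s t hst u x
  · intro z hz y
    have e : (fun j => eval z (bwd s t (fun x => X x) j)) = bwd s t z := by
      ext j; exact eg z j
    rw [e, ef]
    exact fwd_bwd s t hst z hz.1 y

end ClanGor.ChartCoordsM
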