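import Pool.Agent.ClanGor.Defs

/-!
# MP_fae1d7_ag, module J: the `n!` charts cover the flag variety
-/

namespace ClanGor.Cover

open Matrix

variable {n : ℕ}

theorem flagOf_succ (g : Matrix (Fin n) (Fin n) ℂ) (k : Fin n) :
    flagOf g (k.val + 1) = flagOf g k.val ⊔ Submodule.span ℂ {fun i => g i k} := by
  unfold flagOf
  rw [← Submodule.span_union]
  congr 1
  ext x
  constructor
  · rintro ⟨⟨a, ha⟩, rfl⟩
    rcases Nat.lt_succ_iff_lt_or_eq.mp ha with h | h
    · exact Or.inl ⟨⟨a, h⟩, rfl⟩
    · right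
      have : a = k := Fin.ext h
      subst this
      rfl
  · rintro (⟨⟨a, ha⟩, rfl⟩ | h)
    · exact ⟨⟨a, ha.trans (Nat.lt_succ_self _)⟩, rfl⟩
    · rw [Set.mem_singleton_iff] at h
      subst h
      exact ⟨⟨k, Nat.lt_succ_self _⟩, rfl⟩

theorem col_not_mem (g : Matrix (Fin n) (Fin n) ℂ) (hg : IsUnit g.det) (k : Fin n) :
    (fun i => g i k) ∉ flagOf g k.val := by
  have hli : LinearIndependent ℂ g.col := by
    rw [Matrix.linearIndependent_cols_iff_isUnit]
    exact (Matrix.isUnit_iff_isUnit_det g).mpr hg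
  intro h
  have h2 : k ∉ {a : Fin n | a.val < k.val} := fun h => lt_irrefl k.val h
  have h3 : flagOf g k.val = Submodule.span ℂ (g.col '' {a : Fin n | a.val < k.val}) := by
    unfold flagOf
    congr 1
    ext x
    constructor
    · rintro ⟨⟨a, ha⟩, rfl⟩
      exact ⟨a, ha, rfl⟩
    · rintro ⟨a, ha, rfl⟩
      exact ⟨⟨a, ha⟩, rfl⟩
  rw [h3] at h
  exact hli.notMem_span_image h2 h

/-- elimination data for the first `k` columns -/
structure Data (g : Matrix (Fin n) (Fin n) ℂ) (k : ℕ) (ρ : Fin n → Fin n)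
    (v : Fin n → Fin n → ℂ) : Prop where
  diag : ∀ a : Fin n, a.val < k → v a (ρ a) = 1
  up : ∀ a b : Fin n, a.val < k → b < a → v a (ρ b) = 0
  flag : ∀ i ≤ k, flagOf g i = Submodule.span ℂ (Set.range fun a : {a : Fin n // a.val < i} => v a)
  elim : ∀ x : Fin n → ℂ, ∃ f ∈ flagOf g k, ∀ b : Fin n, b.val < k → x (ρ b) = f (ρ b)

theorem step (g : Matrix (Fin n) (Fin n) ℂ) (hg : IsUnit g.det) (k : Fin n) (ρ : Fin n → Fin n)
    (v : Fin n → Fin n → ℂ) (h : Data g k.val ρ v) : ∃ ρ' v', Data g (k.val + 1) ρ' v' := by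
  obtain ⟨f, hf, hfb⟩ := h.elim (fun i => g i k)
  have hne : (fun i => g i k) - f ≠ 0 := by
    intro h0
    apply col_not_mem g hg k
    rw [sub_eq_zero.mp h0]
    exact hf
  obtain ⟨j, hj⟩ := Function.ne_iff.mp hne
  set y : Fin n → ℂ := (fun i => g i k) - f with hy
  have hj0 : y j ≠ 0 := hj
  have hyb : ∀ b : Fin n, b.val < k.val → y (ρ b) = 0 := by
    intro b hb
    rw [hy, Pi.sub_apply, hfb b hb, sub_self]
  have hflag : flagOf g (k.val + 1) =
      flagOf g k.val ⊔ Submodule.span ℂ {(y j)⁻¹ • y} := by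
    rw [flagOf_succ]
    apply le_antisymm
    · apply sup_le le_sup_left
      rw [Submodule.span_singleton_le_iff_mem]
      have : (fun i => g i k) = f + y j • ((y j)⁻¹ • y) := by
        rw [smul_smul, mul_inv_cancel₀ hj0, one_smul, hy]; simp
      rw [this]
      exact Submodule.add_mem_sup hf (Submodule.smul_mem _ _ (Submodule.mem_span_singleton_self _))
    · apply sup_le le_sup_left
      rw [Submodule.span_singleton_le_iff_mem]
      apply Submodule.smul_mem
      rw [hy, sub_eq_add_neg, add_comm]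
      exact Submodule.add_mem_sup (Submodule.neg_mem _ hf) (Submodule.mem_span_singleton_self _)
  refine ⟨Function.update ρ k j, Function.update v k ((y j)⁻¹ • y), ?_⟩
  have hlt : ∀ a : Fin n, a.val < k.val → a ≠ k := fun a ha h' => by
    subst h'; exact lt_irrefl _ ha
  constructor
  · intro a ha
    rcases Nat.lt_succ_iff_lt_or_eq.mp ha with h1 | h1
    · rw [Function.update_of_ne (hlt a h1), Function.update_of_ne (hlt a h1)]
      exact h.diag a h1
    · have : a = k := Fin.ext h1
      subst this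
      simp [hj0]
  · intro a b ha hb
    rcases Nat.lt_succ_iff_lt_or_eq.mp ha with h1 | h1
    · rw [Function.update_of_ne (hlt a h1),
        Function.update_of_ne (hlt b (lt_trans (Fin.lt_def.mp hb) h1))]
      exact h.up a b h1 hb
    · have : a = k := Fin.ext h1
      subst this
      rw [Function.update_self, Function.update_of_ne hb.ne, Pi.smul_apply, hyb b hb, smul_zero]
  · intro i hi
    rcases Nat.lt_succ_iff_lt_or_eq.mp (Nat.lt_succ_of_le hi) with h1 | h1
    · rw [h.flag i (Nat.lt_succ_iff.mp h1)]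
      congr 1
      congr 1
      ext a
      rw [Function.update_of_ne (hlt a.1 (lt_of_lt_of_le a.2 (Nat.lt_succ_iff.mp h1)))]
    · subst h1
      rw [hflag, h.flag k.val le_rfl, ← Submodule.span_union]
      congr 1
      ext x
      constructor
      · rintro (⟨⟨a, ha⟩, rfl⟩ | h2)
        · refine ⟨⟨a, ha.trans (Nat.lt_succ_self _)⟩, ?_⟩
          simp only [Function.update_of_ne (hlt a ha)]
        · rw [Set.mem_singleton_iff] at h2
          subst h2
          exact ⟨⟨k, Nat.lt_succ_self _⟩, by simp⟩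
      · rintro ⟨⟨a, ha⟩, rfl⟩
        rcases Nat.lt_succ_iff_lt_or_eq.mp ha with h1 | h1
        · left
          exact ⟨⟨a, h1⟩, by simp only [Function.update_of_ne (hlt a h1)]⟩
        · right
          have : a = k := Fin.ext h1
          subst this
          simp
  · intro x
    obtain ⟨f', hf', hfb'⟩ := h.elim x
    refine ⟨f' + (x j - f' j) • ((y j)⁻¹ • y), ?_, ?_⟩
    · rw [hflag]
      exact Submodule.add_mem_sup hf' (Submodule.smul_mem _ _ (Submodule.mem_span_singleton_self _))
    · intro b hb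
      rcases Nat.lt_succ_iff_lt_or_eq.mp hb with h1 | h1
      · rw [Function.update_of_ne (hlt b h1)]
        simp [hyb b h1, hfb' b h1]
      · have : b = k := Fin.ext h1
        subst this
        simp [hj0]

theorem exists_data (g : Matrix (Fin n) (Fin n) ℂ) (hg : IsUnit g.det) :
    ∀ k ≤ n, ∃ ρ v, Data g k ρ v := by
  intro k
  induction k with
  | zero =>
    intro _
    refine ⟨id, fun _ => 0, ?_⟩
    constructor
    · intro a ha; exact absurd ha (Nat.not_lt_zero _)
    · intro a b ha; exact absurd ha (Nat.not_lt_zero _)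
    · intro i hi
      have : i = 0 := Nat.le_zero.mp hi
      subst this
      unfold flagOf
      congr 1
      ext x
      constructor
      · rintro ⟨⟨a, ha⟩, _⟩; exact absurd ha (Nat.not_lt_zero _)
      · rintro ⟨⟨a, ha⟩, _⟩; exact absurd ha (Nat.not_lt_zero _)
    · intro x
      exact ⟨0, Submodule.zero_mem _, fun b hb => absurd hb (Nat.not_lt_zero _)⟩
  | succ k ih =>
    intro hk
    obtain ⟨ρ, v, h⟩ := ih (Nat.le_of_succ_le hk)
    exact step g hg ⟨k, hk⟩ ρ v h

theorem chartCover : ChartCover := by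
  intro n g hg
  obtain ⟨ρ, v, h⟩ := exists_data g hg n le_rfl
  have hinj : Function.Injective ρ := by
    intro a b hab
    by_contra hne
    rcases lt_or_gt_of_ne hne with h1 | h1
    · have e1 := h.up b a b.2 h1
      rw [hab, h.diag b b.2] at e1
      exact one_ne_zero e1
    · have e1 := h.up a b a.2 h1
      rw [← hab, h.diag a a.2] at e1
      exact one_ne_zero e1
  have hbij : Function.Bijective ρ := Finite.injective_iff_bijective.mp hinj
  let σ : Equiv.Perm (Fin n) := Equiv.ofBijective ρ hbij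
  refine ⟨σ.symm, fun x => v x.1.2 (ρ x.1.1), ?_⟩
  have hU : ∀ i a, unip (fun x : Low n => v x.1.2 (ρ x.1.1)) i a = v a (ρ i) := by
    intro i a
    unfold unip
    split_ifs with h1 h2
    · rfl
    · subst h2; exact (h.diag i i.2).symm
    · have : i < a := lt_of_le_of_ne (not_lt.mp h1) h2
      exact (h.up a i a.2 this).symm
  intro i hi
  rw [h.flag i hi]
  unfold flagOf
  congr 1
  congr 1
  ext a k
  rw [Matrix.submatrix_apply, id_eq, hU]
  congr 1
  exact (σ.apply_symm_apply k).symm

end ClanGor.Cover
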