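import Pool.Agent.ClanGor.Stmts

/-!
# Module E1: positions and patterns of `(p,2)`-clans
-/

namespace ClanGor.Clans

open ClanGor Finset

variable {n : ℕ} {cl : Fin n → Letter}

/-! ### `ClanHasData` -/

theorem isPair_unique (htw : ∀ a k, cl a = Letter.num k → ∃! b, b ≠ a ∧ cl b = Letter.num k)
    {a b b' : Fin n} {k : ℕ} (ha : cl a = Letter.num k) (hb : b ≠ a) (hb' : b' ≠ a)
    (hbk : cl b = Letter.num k) (hbk' : cl b' = Letter.num k) : b = b' :=
  (htw a k ha).unique ⟨hb, hbk⟩ ⟨hb', hbk'⟩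

/-- the partner map -/
theorem exists_partner (htw : ∀ a k, cl a = Letter.num k → ∃! b, b ≠ a ∧ cl b = Letter.num k) :
    ∃ τ : Fin n → Fin n, (∀ x k, cl x = Letter.num k → τ x ≠ x ∧ cl (τ x) = Letter.num k) ∧
      (∀ x, (∀ k, cl x ≠ Letter.num k) → τ x = x) := by
  have h : ∀ x, ∃ y, (∀ k, cl x = Letter.num k → y ≠ x ∧ cl y = Letter.num k) ∧
      ((∀ k, cl x ≠ Letter.num k) → y = x) := by
    intro x
    by_cases hx : ∃ k, cl x = Letter.num k
    · obtain ⟨k, hk⟩ := hx
      obtain ⟨y, hy, _⟩ := htw x k hk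
      refine ⟨y, ?_, fun h => absurd hk (h k)⟩
      intro k' hk'
      have : k' = k := by
        rw [hk] at hk'
        exact (Letter.num.inj hk').symm
      rw [this]
      exact hy
    · push Not at hx
      exact ⟨x, fun k hk => absurd hk (hx k), fun _ => rfl⟩
  choose τ h1 h2 using h
  exact ⟨τ, fun x k hk => h1 x k hk, fun x hx => h2 x hx⟩

theorem clanHasData : ClanHasData := by
  classical
  intro p cl hcl
  obtain ⟨τ, hτ1, hτ2⟩ := exists_partner hcl.twice
  set A : Finset (Fin (p + 2)) := univ.filter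
    (fun x => cl x = Letter.minus ∨ ∃ y, IsPair cl x y) with hA
  set B : Finset (Fin (p + 2)) := univ.filter
    (fun y => cl y = Letter.minus ∨ ∃ x, IsPair cl x y) with hB
  have memA : ∀ x, x ∈ A ↔ (cl x = Letter.minus ∨ ∃ y, IsPair cl x y) := fun x => by
    rw [hA, mem_filter]; simp
  have memB : ∀ x, x ∈ B ↔ (cl x = Letter.minus ∨ ∃ y, IsPair cl y x) := fun x => by
    rw [hB, mem_filter]; simp
  -- involution
  have hττ : ∀ x, τ (τ x) = x := by
    intro x
    by_cases hx : ∃ k, cl x = Letter.num k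
    · obtain ⟨k, hk⟩ := hx
      have h1 := hτ1 x k hk
      have h2 := hτ1 (τ x) k h1.2
      exact isPair_unique hcl.twice h1.2 h2.1 h1.1.symm h2.2 hk
    · push Not at hx
      rw [hτ2 x hx, hτ2 x hx]
  have hinj : Function.Injective τ := fun x y h => by
    have := congrArg τ h
    rwa [hττ, hττ] at this
  have pair_τ : ∀ x y, IsPair cl x y → y = τ x := by
    intro x y ⟨hxy, k, hx, hy⟩
    have h1 := hτ1 x k hx
    exact isPair_unique hcl.twice hx hxy.ne' h1.1 hy h1.2
  have pair_τ' : ∀ x y, IsPair cl x y → x = τ y := by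
    intro x y h
    rw [pair_τ x y h, hττ]
  have minus_τ : ∀ x, cl x = Letter.minus → τ x = x := by
    intro x hx
    refine hτ2 x (fun k hk => ?_)
    rw [hx] at hk
    exact Letter.noConfusion hk
  have specA : ∀ x ∈ A, (τ x = x ∧ cl x = Letter.minus) ∨ IsPair cl x (τ x) := by
    intro x hx
    rcases (memA x).1 hx with h | ⟨y, h⟩
    · exact Or.inl ⟨minus_τ x h, h⟩
    · right
      rw [← pair_τ x y h]
      exact h
  have specB : ∀ x ∈ B, (τ x = x ∧ cl x = Letter.minus) ∨ IsPair cl (τ x) x := by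
    intro x hx
    rcases (memB x).1 hx with h | ⟨y, h⟩
    · exact Or.inl ⟨minus_τ x h, h⟩
    · right
      rw [← pair_τ' y x h]
      exact h
  have hAB : ∀ x ∈ A, τ x ∈ B := by
    intro x hx
    rw [memB]
    rcases specA x hx with h | h
    · left; rw [h.1]; exact h.2
    · exact Or.inr ⟨x, h⟩
  have hBA : ∀ x ∈ B, τ x ∈ A := by
    intro x hx
    rw [memA]
    rcases specB x hx with h | h
    · left; rw [h.1]; exact h.2
    · exact Or.inr ⟨x, h⟩
  have hcardAB : A.card = B.card := by
    refine card_bij (fun x _ => τ x) hAB (fun x _ y _ h => hinj h) ?_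
    intro y hy
    exact ⟨τ y, hBA y hy, hττ y⟩
  -- union and intersection
  have hinter : A ∩ B = univ.filter (fun x => cl x = Letter.minus) := by
    ext x
    have hx : x ∈ univ.filter (fun x => cl x = Letter.minus) ↔ cl x = Letter.minus := by simp
    rw [mem_inter, hx]
    constructor
    · rintro ⟨h1, h2⟩
      rcases specA x h1 with h | h
      · exact h.2
      · rcases specB x h2 with h' | h'
        · exact h'.2
        · exact absurd (h.1.trans h'.1) (lt_irrefl _)
    · intro h
      exact ⟨(memA x).2 (Or.inl h), (memB x).2 (Or.inl h)⟩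
  have hunion : A ∪ B = univ.filter (fun x => ¬ cl x = Letter.plus) := by
    ext x
    have hx : x ∈ univ.filter (fun x => ¬ cl x = Letter.plus) ↔ ¬ cl x = Letter.plus := by simp
    rw [mem_union, hx]
    constructor
    · rintro (h | h)
      · refine fun hp => ?_
        rcases specA x h with h' | ⟨_, k, h', _⟩
        · rw [h'.2] at hp; exact Letter.noConfusion hp
        · rw [h'] at hp; exact Letter.noConfusion hp
      · refine fun hp => ?_
        rcases specB x h with h' | ⟨_, k, _, h'⟩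
        · rw [h'.2] at hp; exact Letter.noConfusion hp
        · rw [h'] at hp; exact Letter.noConfusion hp
    · intro h
      cases hx : cl x with
      | plus => exact absurd hx h
      | minus => exact Or.inl ((memA x).2 (Or.inl hx))
      | num k =>
        have h1 := hτ1 x k hx
        rcases lt_or_gt_of_ne h1.1 with h2 | h2
        · exact Or.inr ((memB x).2 (Or.inr ⟨τ x, h2, k, h1.2, hx⟩))
        · exact Or.inl ((memA x).2 (Or.inr ⟨τ x, h2, k, hx, h1.2⟩))
  have hcard := card_union_add_card_inter A B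
  rw [hunion, hinter] at hcard
  have hsg := hcl.signs
  rw [Nat.card_eq_fintype_card, Nat.card_eq_fintype_card, Fintype.card_subtype,
    Fintype.card_subtype] at hsg
  have htot := card_filter_add_card_filter_not (s := (univ : Finset (Fin (p + 2))))
    (fun x => cl x = Letter.plus)
  rw [card_univ, Fintype.card_fin] at htot
  have hA2 : A.card = 2 := by omega
  have hB2 : B.card = 2 := by omega
  have two : ∀ S : Finset (Fin (p + 2)), S.card = 2 →
      ∃ x y, x < y ∧ x ∈ S ∧ y ∈ S ∧ ∀ z ∈ S, z = x ∨ z = y := by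
    intro S hS
    obtain ⟨x, y, hxy, hS'⟩ := card_eq_two.1 hS
    rcases lt_or_gt_of_ne hxy with h | h
    · refine ⟨x, y, h, by simp [hS'], by simp [hS'], fun z hz => ?_⟩
      rw [hS'] at hz; simpa using hz
    · refine ⟨y, x, h, by simp [hS'], by simp [hS'], fun z hz => ?_⟩
      rw [hS'] at hz; simpa [or_comm] using hz
  obtain ⟨a₁, a₂, hab, ha1, ha2, hAall⟩ := two A hA2
  obtain ⟨b₁, b₂, hbb, hb1, hb2, hBall⟩ := two B hB2
  have hplus : ∀ x, x ≠ a₁ → x ≠ a₂ → x ≠ b₁ → x ≠ b₂ → cl x = Letter.plus := by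
    intro x h1 h2 h3 h4
    by_contra h
    have hx : x ∈ A ∪ B := by rw [hunion, mem_filter]; exact ⟨mem_univ _, h⟩
    rcases mem_union.1 hx with hx | hx
    · rcases hAall x hx with h' | h'
      · exact h1 h'
      · exact h2 h'
    · rcases hBall x hx with h' | h'
      · exact h3 h'
      · exact h4 h'
  have hle : ∀ x ∈ A, x ≤ τ x := by
    intro x hx
    rcases specA x hx with h | h
    · exact h.1.symm.le
    · exact h.1.le
  have hpairA : ∀ x y, IsPair cl x y → (x = a₁ ∧ y = τ a₁) ∨ (x = a₂ ∧ y = τ a₂) := by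
    intro x y h
    have hx : x ∈ A := (memA x).2 (Or.inr ⟨y, h⟩)
    have hy := pair_τ x y h
    rcases hAall x hx with h' | h'
    · left; rw [h'] at hy; exact ⟨h', hy⟩
    · right; rw [h'] at hy; exact ⟨h', hy⟩
  rcases hBall (τ a₁) (hAB a₁ ha1) with h1 | h1
  · have h2 : τ a₂ = b₂ := by
      rcases hBall (τ a₂) (hAB a₂ ha2) with h | h
      · exact absurd (hinj (h1.trans h.symm)) hab.ne
      · exact h
    refine ⟨true, a₁, a₂, b₁, b₂, hab, hbb, hplus, ?_, ?_, ?_⟩
    · intro _
      have s1 := specA a₁ ha1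
      have s2 := specA a₂ ha2
      rw [h1] at s1
      rw [h2] at s2
      refine ⟨?_, ?_, ?_⟩
      · rcases s1 with h | h
        · exact Or.inl ⟨h.1.symm, h.2⟩
        · exact Or.inr h
      · rcases s2 with h | h
        · exact Or.inl ⟨h.1.symm, h.2⟩
        · exact Or.inr h
      · intro h
        rcases s2 with h' | h'
        · exact absurd (h.symm.trans h'.1.symm) hbb.ne
        · rcases specB b₁ hb1 with h'' | h''
          · obtain ⟨_, k, hk, _⟩ := h'
            rw [h, h''.2] at hk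
            exact Letter.noConfusion hk
          · rw [← h] at h''
            have e1 := pair_τ' _ _ h''
            have h3 : τ a₂ < a₂ := h''.1
            rw [h2] at h3
            exact absurd (h'.1.trans h3) (lt_irrefl _)
    · intro h; exact absurd h (by simp)
    · intro x y hxy
      rw [if_pos rfl]
      have := hpairA x y hxy
      rw [h1, h2] at this
      exact this
  · have h2 : τ a₂ = b₁ := by
      rcases hBall (τ a₂) (hAB a₂ ha2) with h | h
      · exact h
      · exact absurd (hinj (h1.trans h.symm)) hab.ne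
    refine ⟨false, a₁, a₂, b₁, b₂, hab, hbb, hplus, ?_, ?_, ?_⟩
    · intro h; exact absurd h (by simp)
    · intro _
      have s1 := specA a₁ ha1
      have s2 := specA a₂ ha2
      have l2 := hle a₂ ha2
      rw [h1] at s1
      rw [h2] at s2 l2
      refine ⟨?_, ?_⟩
      · rcases s1 with h | h
        · exact absurd ((hab.trans_le l2).trans hbb) (by rw [h.1]; exact lt_irrefl _)
        · exact h
      · rcases s2 with h | h
        · exact Or.inl ⟨h.1.symm, h.2⟩
        · exact Or.inr h
    · intro x y hxy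
      rw [if_neg (by simp)]
      have := hpairA x y hxy
      rw [h1, h2] at this
      exact this

/-! ### `AvoidPos` -/

/-- rename the integers -/
def ren (g : ℕ → ℕ) : Letter → Letter
  | Letter.plus => Letter.plus
  | Letter.minus => Letter.minus
  | Letter.num k => Letter.num (g k)

theorem contains_of {m : ℕ} {d : Fin m → Letter} (f : Fin m → Fin n) (hf : StrictMono f)
    (g : ℕ → ℕ) (h : ∀ j, cl (f j) = ren g (d j)) : Contains cl d := by
  refine ⟨f, hf, ?_, ?_, ?_⟩
  · intro j hj
    rw [h, hj]; rfl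
  · intro j hj
    rw [h, hj]; rfl
  · intro j j' k hj hj'
    refine ⟨g k, ?_, ?_⟩
    · rw [h, hj]; rfl
    · rw [h, hj']; rfl

theorem strict5 {x0 x1 x2 x3 x4 : Fin n} (h0 : x0 < x1) (h1 : x1 < x2) (h2 : x2 < x3)
    (h3 : x3 < x4) : StrictMono ![x0, x1, x2, x3, x4] := by
  rw [Fin.strictMono_iff_lt_succ]
  intro i
  fin_cases i
  · exact h0
  · exact h1
  · exact h2
  · exact h3

theorem strict6 {x0 x1 x2 x3 x4 x5 : Fin n} (h0 : x0 < x1) (h1 : x1 < x2) (h2 : x2 < x3)
    (h3 : x3 < x4) (h4 : x4 < x5) : StrictMono ![x0, x1, x2, x3, x4, x5] := by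
  rw [Fin.strictMono_iff_lt_succ]
  intro i
  fin_cases i
  · exact h0
  · exact h1
  · exact h2
  · exact h3
  · exact h4

open Letter in
theorem c1 (h : Contains cl ![num 1, plus, plus, minus, num 1]) :
    ∃ x0 x1 x2 x3 x4 : Fin n, x0 < x1 ∧ x1 < x2 ∧ x2 < x3 ∧ x3 < x4 ∧ IsPair cl x0 x4 ∧
      cl x3 = minus := by
  obtain ⟨f, hf, _, h2, h3⟩ := h
  obtain ⟨k, e1, e2⟩ := h3 0 4 1 rfl rfl
  exact ⟨f 0, f 1, f 2, f 3, f 4, hf (by decide), hf (by decide), hf (by decide),
    hf (by decide), ⟨hf (by decide), k, e1, e2⟩, h2 3 rfl⟩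

open Letter in
theorem c2 (h : Contains cl ![num 1, minus, plus, plus, num 1]) :
    ∃ x0 x1 x2 x3 x4 : Fin n, x0 < x1 ∧ x1 < x2 ∧ x2 < x3 ∧ x3 < x4 ∧ IsPair cl x0 x4 ∧
      cl x1 = minus := by
  obtain ⟨f, hf, _, h2, h3⟩ := h
  obtain ⟨k, e1, e2⟩ := h3 0 4 1 rfl rfl
  exact ⟨f 0, f 1, f 2, f 3, f 4, hf (by decide), hf (by decide), hf (by decide),
    hf (by decide), ⟨hf (by decide), k, e1, e2⟩, h2 1 rfl⟩

open Letter in
theorem c3 (h : Contains cl ![num 1, plus, plus, num 2, num 2, num 1]) :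
    ∃ x0 x1 x2 x3 x4 x5 : Fin n, x0 < x1 ∧ x1 < x2 ∧ x2 < x3 ∧ x3 < x4 ∧ x4 < x5 ∧
      IsPair cl x0 x5 ∧ IsPair cl x3 x4 := by
  obtain ⟨f, hf, _, h2, h3⟩ := h
  obtain ⟨k, e1, e2⟩ := h3 0 5 1 rfl rfl
  obtain ⟨k', e3, e4⟩ := h3 3 4 2 rfl rfl
  exact ⟨f 0, f 1, f 2, f 3, f 4, f 5, hf (by decide), hf (by decide), hf (by decide),
    hf (by decide), hf (by decide), ⟨hf (by decide), k, e1, e2⟩, ⟨hf (by decide), k', e3, e4⟩⟩

open Letter in
theorem c4 (h : Contains cl ![num 1, num 2, num 2, plus, plus, num 1]) :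
    ∃ x0 x1 x2 x3 x4 x5 : Fin n, x0 < x1 ∧ x1 < x2 ∧ x2 < x3 ∧ x3 < x4 ∧ x4 < x5 ∧
      IsPair cl x0 x5 ∧ IsPair cl x1 x2 := by
  obtain ⟨f, hf, _, h2, h3⟩ := h
  obtain ⟨k, e1, e2⟩ := h3 0 5 1 rfl rfl
  obtain ⟨k', e3, e4⟩ := h3 1 2 2 rfl rfl
  exact ⟨f 0, f 1, f 2, f 3, f 4, f 5, hf (by decide), hf (by decide), hf (by decide),
    hf (by decide), hf (by decide), ⟨hf (by decide), k, e1, e2⟩, ⟨hf (by decide), k', e3, e4⟩⟩

open Letter in
theorem c5 (h : Contains cl ![num 1, plus, num 2, num 1, num 2]) :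
    ∃ x0 x1 x2 x3 x4 : Fin n, x0 < x1 ∧ x1 < x2 ∧ x2 < x3 ∧ x3 < x4 ∧ IsPair cl x0 x3 ∧
      IsPair cl x2 x4 := by
  obtain ⟨f, hf, _, h2, h3⟩ := h
  obtain ⟨k, e1, e2⟩ := h3 0 3 1 rfl rfl
  obtain ⟨k', e3, e4⟩ := h3 2 4 2 rfl rfl
  exact ⟨f 0, f 1, f 2, f 3, f 4, hf (by decide), hf (by decide), hf (by decide),
    hf (by decide), ⟨hf (by decide), k, e1, e2⟩, ⟨hf (by decide), k', e3, e4⟩⟩

open Letter in
theorem c6 (h : Contains cl ![num 1, num 2, num 1, plus, num 2]) :
    ∃ x0 x1 x2 x3 x4 : Fin n, x0 < x1 ∧ x1 < x2 ∧ x2 < x3 ∧ x3 < x4 ∧ IsPair cl x0 x2 ∧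
      IsPair cl x1 x4 := by
  obtain ⟨f, hf, _, h2, h3⟩ := h
  obtain ⟨k, e1, e2⟩ := h3 0 2 1 rfl rfl
  obtain ⟨k', e3, e4⟩ := h3 1 4 2 rfl rfl
  exact ⟨f 0, f 1, f 2, f 3, f 4, hf (by decide), hf (by decide), hf (by decide),
    hf (by decide), ⟨hf (by decide), k, e1, e2⟩, ⟨hf (by decide), k', e3, e4⟩⟩

theorem avoidPos : AvoidPos := by
  intro n cl linked a₁ a₂ b₁ b₂ hd
  have hplus := hd.plus
  have hab := hd.a_lt
  have hbb := hd.b_lt
  cases linked with
  | true =>
    obtain ⟨hl1, hl2, hne⟩ := hd.link rfl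
    have hdiff : ∀ x y, IsPair cl x y → (x = a₁ ∧ y = b₁) ∨ (x = a₂ ∧ y = b₂) := by
      intro x y h
      have := hd.diff x y h
      rwa [if_pos rfl] at this
    have hminus : ∀ x, cl x = Letter.minus → (x = a₁ ∧ a₁ = b₁) ∨ (x = a₂ ∧ a₂ = b₂) := by
      intro x hx
      have hnp : ∀ u v, IsPair cl u v → x ≠ u ∧ x ≠ v := by
        rintro u v ⟨_, k, hu, hv⟩
        constructor
        · rintro rfl
          rw [hu] at hx; exact Letter.noConfusion hx
        · rintro rfl
          rw [hv] at hx; exact Letter.noConfusion hx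
      by_contra hcon
      push Not at hcon
      have e1 : x ≠ a₁ := by
        intro h
        rcases hl1 with h' | h'
        · exact hcon.1 h h'.1
        · exact (hnp _ _ h').1 h
      have e3 : x ≠ b₁ := by
        intro h
        rcases hl1 with h' | h'
        · exact hcon.1 (h.trans h'.1.symm) h'.1
        · exact (hnp _ _ h').2 h
      have e2 : x ≠ a₂ := by
        intro h
        rcases hl2 with h' | h'
        · exact hcon.2 h h'.1
        · exact (hnp _ _ h').1 h
      have e4 : x ≠ b₂ := by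
        intro h
        rcases hl2 with h' | h'
        · exact hcon.2 (h.trans h'.1.symm) h'.1
        · exact (hnp _ _ h').2 h
      have := hplus x e1 e2 e3 e4
      rw [hx] at this
      exact Letter.noConfusion this
    rw [if_pos rfl]
    constructor
    · rintro ⟨_, _, _, _, h5, h6⟩ hlt
      have p1 : IsPair cl a₁ b₁ := by
        rcases hl1 with h | h
        · exact absurd (hab.trans hlt) (by rw [h.1]; exact lt_irrefl _)
        · exact h
      have p2 : IsPair cl a₂ b₂ := by
        rcases hl2 with h | h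
        · exact absurd (hlt.trans hbb) (by rw [h.1]; exact lt_irrefl _)
        · exact h
      obtain ⟨_, k1, q1, q2⟩ := p1
      obtain ⟨_, k2, q3, q4⟩ := p2
      constructor
      · by_contra hcon
        have hx : a₁.val + 1 < a₂.val := by
          have : a₁.val < a₂.val := hab
          omega
        set x : Fin n := ⟨a₁.val + 1, by omega⟩ with hxdef
        have x1 : a₁ < x := by rw [Fin.lt_def]; simp [hxdef]
        have x2 : x < a₂ := by rw [Fin.lt_def]; simpa [hxdef] using hx
        have hxp : cl x = Letter.plus := hplus x x1.ne' x2.ne (x2.trans hlt).ne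
          (x2.trans (hlt.trans hbb)).ne
        refine h5 (contains_of _ (strict5 x1 x2 hlt hbb) (fun k => if k = 1 then k1 else k2) ?_)
        intro j
        fin_cases j
        · exact q1
        · exact hxp
        · exact q3
        · exact q2
        · exact q4
      · by_contra hcon
        have hx : b₁.val + 1 < b₂.val := by
          have : b₁.val < b₂.val := hbb
          omega
        set x : Fin n := ⟨b₁.val + 1, by omega⟩ with hxdef
        have x1 : b₁ < x := by rw [Fin.lt_def]; simp [hxdef]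
        have x2 : x < b₂ := by rw [Fin.lt_def]; simpa [hxdef] using hx
        have hxp : cl x = Letter.plus := hplus x ((hab.trans hlt).trans x1).ne'
          (hlt.trans x1).ne' x1.ne' x2.ne
        refine h6 (contains_of _ (strict5 hab hlt x1 x2) (fun k => if k = 1 then k1 else k2) ?_)
        intro j
        fin_cases j
        · exact q1
        · exact q3
        · exact q2
        · exact hxp
        · exact q4
    · intro hpos
      have hle1 : a₁ ≤ b₁ := by
        rcases hl1 with h | h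
        · exact h.1.le
        · exact h.1.le
      have hle2 : a₂ ≤ b₂ := by
        rcases hl2 with h | h
        · exact h.1.le
        · exact h.1.le
      refine ⟨?_, ?_, ?_, ?_, ?_, ?_⟩
      · intro h
        obtain ⟨x0, x1, x2, x3, x4, h0, h1, h2, h3, hp, hm⟩ := c1 h
        rcases hdiff _ _ hp with ⟨e1, e2⟩ | ⟨e1, e2⟩ <;>
          rcases hminus _ hm with ⟨e3, e4⟩ | ⟨e3, e4⟩ <;>
          simp only [Fin.lt_def, Fin.le_def, Fin.ext_iff] at * <;> omega
      · intro h
        obtain ⟨x0, x1, x2, x3, x4, h0, h1, h2, h3, hp, hm⟩ := c2 h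
        rcases hdiff _ _ hp with ⟨e1, e2⟩ | ⟨e1, e2⟩ <;>
          rcases hminus _ hm with ⟨e3, e4⟩ | ⟨e3, e4⟩ <;>
          simp only [Fin.lt_def, Fin.le_def, Fin.ext_iff] at * <;> omega
      · intro h
        obtain ⟨x0, x1, x2, x3, x4, x5, h0, h1, h2, h3, h4, hp, hq⟩ := c3 h
        rcases hdiff _ _ hp with ⟨e1, e2⟩ | ⟨e1, e2⟩ <;>
          rcases hdiff _ _ hq with ⟨e3, e4⟩ | ⟨e3, e4⟩ <;>
          simp only [Fin.lt_def, Fin.le_def, Fin.ext_iff] at * <;> omega
      · intro h
        obtain ⟨x0, x1, x2, x3, x4, x5, h0, h1, h2, h3, h4, hp, hq⟩ := c4 h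
        rcases hdiff _ _ hp with ⟨e1, e2⟩ | ⟨e1, e2⟩ <;>
          rcases hdiff _ _ hq with ⟨e3, e4⟩ | ⟨e3, e4⟩ <;>
          simp only [Fin.lt_def, Fin.le_def, Fin.ext_iff] at * <;> omega
      · intro h
        obtain ⟨x0, x1, x2, x3, x4, h0, h1, h2, h3, hp, hq⟩ := c5 h
        rcases hdiff _ _ hp with ⟨e1, e2⟩ | ⟨e1, e2⟩ <;>
          rcases hdiff _ _ hq with ⟨e3, e4⟩ | ⟨e3, e4⟩ <;>
          simp only [Fin.lt_def, Fin.le_def, Fin.ext_iff] at * <;> omega
      · intro h
        obtain ⟨x0, x1, x2, x3, x4, h0, h1, h2, h3, hp, hq⟩ := c6 h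
        rcases hdiff _ _ hp with ⟨e1, e2⟩ | ⟨e1, e2⟩ <;>
          rcases hdiff _ _ hq with ⟨e3, e4⟩ | ⟨e3, e4⟩ <;>
          simp only [Fin.lt_def, Fin.le_def, Fin.ext_iff] at * <;> omega
  | false =>
    obtain ⟨hp1, hl2⟩ := hd.nest rfl
    have hdiff : ∀ x y, IsPair cl x y → (x = a₁ ∧ y = b₂) ∨ (x = a₂ ∧ y = b₁) := by
      intro x y h
      have := hd.diff x y h
      rwa [if_neg (by simp)] at this
    have hle2 : a₂ ≤ b₁ := by
      rcases hl2 with h | h
      · exact h.1.le
      · exact h.1.le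
    have hminus : ∀ x, cl x = Letter.minus → x = a₂ ∧ a₂ = b₁ := by
      intro x hx
      have hnp : ∀ u v, IsPair cl u v → x ≠ u ∧ x ≠ v := by
        rintro u v ⟨_, k, hu, hv⟩
        constructor
        · rintro rfl
          rw [hu] at hx; exact Letter.noConfusion hx
        · rintro rfl
          rw [hv] at hx; exact Letter.noConfusion hx
      by_contra hcon
      have e1 : x ≠ a₁ := (hnp _ _ hp1).1
      have e4 : x ≠ b₂ := (hnp _ _ hp1).2
      have e2 : x ≠ a₂ := by
        intro h
        rcases hl2 with h' | h'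
        · exact hcon ⟨h, h'.1⟩
        · exact (hnp _ _ h').1 h
      have e3 : x ≠ b₁ := by
        intro h
        rcases hl2 with h' | h'
        · exact hcon ⟨h.trans h'.1.symm, h'.1⟩
        · exact (hnp _ _ h').2 h
      have := hplus x e1 e2 e3 e4
      rw [hx] at this
      exact Letter.noConfusion this
    rw [if_neg (by simp)]
    obtain ⟨hlt12, k1, q1, q2⟩ := hp1
    constructor
    · rintro ⟨h1, h2, h3, h4, _, _⟩
      constructor
      · by_contra hcon
        push Not at hcon
        set x : Fin n := ⟨a₁.val + 1, by omega⟩ with hxdef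
        set y : Fin n := ⟨a₁.val + 2, by omega⟩ with hydef
        have x1 : a₁ < x := by rw [Fin.lt_def]; simp [hxdef]
        have x2 : x < y := by rw [Fin.lt_def]; simp [hxdef, hydef]
        have x3 : y < a₂ := by rw [Fin.lt_def]; simpa [hydef] using hcon
        have hxp : cl x = Letter.plus := hplus x x1.ne' (x2.trans x3).ne
          ((x2.trans x3).trans_le hle2).ne (((x2.trans x3).trans_le hle2).trans hbb).ne
        have hyp : cl y = Letter.plus := hplus y (x1.trans x2).ne' x3.ne
          (x3.trans_le hle2).ne ((x3.trans_le hle2).trans hbb).ne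
        rcases hl2 with ⟨e1, e2⟩ | ⟨e1, k2, e2, e3⟩
        · refine h1 (contains_of _ (strict5 x1 x2 x3 (by rw [e1]; exact hbb))
            (fun k => k1) ?_)
          intro j
          fin_cases j
          · exact q1
          · exact hxp
          · exact hyp
          · exact e2
          · exact q2
        · refine h3 (contains_of _ (strict6 x1 x2 x3 e1 hbb)
            (fun k => if k = 1 then k1 else k2) ?_)
          intro j
          fin_cases j
          · exact q1
          · exact hxp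
          · exact hyp
          · exact e2
          · exact e3
          · exact q2
      · by_contra hcon
        push Not at hcon
        set x : Fin n := ⟨b₁.val + 1, by omega⟩ with hxdef
        set y : Fin n := ⟨b₁.val + 2, by omega⟩ with hydef
        have x1 : b₁ < x := by rw [Fin.lt_def]; simp [hxdef]
        have x2 : x < y := by rw [Fin.lt_def]; simp [hxdef, hydef]
        have x3 : y < b₂ := by rw [Fin.lt_def]; simpa [hydef] using hcon
        have hxp : cl x = Letter.plus := hplus x (hab.trans (hle2.trans_lt x1)).ne'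
          (hle2.trans_lt x1).ne' x1.ne' (x2.trans x3).ne
        have hyp : cl y = Letter.plus := hplus y (hab.trans (hle2.trans_lt (x1.trans x2))).ne'
          (hle2.trans_lt (x1.trans x2)).ne' (x1.trans x2).ne' x3.ne
        rcases hl2 with ⟨e1, e2⟩ | ⟨e1, k2, e2, e3⟩
        · refine h2 (contains_of _ (strict5 hab (by rw [e1]; exact x1) x2 x3)
            (fun k => k1) ?_)
          intro j
          fin_cases j
          · exact q1
          · exact e2
          · exact hxp
          · exact hyp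
          · exact q2
        · refine h4 (contains_of _ (strict6 hab e1 x1 x2 x3)
            (fun k => if k = 1 then k1 else k2) ?_)
          intro j
          fin_cases j
          · exact q1
          · exact e2
          · exact e3
          · exact hxp
          · exact hyp
          · exact q2
    · rintro ⟨hA, hB⟩
      refine ⟨?_, ?_, ?_, ?_, ?_, ?_⟩
      · intro h
        obtain ⟨x0, x1, x2, x3, x4, h0, h1, h2, h3, hp, hm⟩ := c1 h
        obtain ⟨e3, e4⟩ := hminus _ hm
        rcases hdiff _ _ hp with ⟨e1, e2⟩ | ⟨e1, e2⟩ <;>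
          simp only [Fin.lt_def, Fin.le_def, Fin.ext_iff] at * <;> omega
      · intro h
        obtain ⟨x0, x1, x2, x3, x4, h0, h1, h2, h3, hp, hm⟩ := c2 h
        obtain ⟨e3, e4⟩ := hminus _ hm
        rcases hdiff _ _ hp with ⟨e1, e2⟩ | ⟨e1, e2⟩ <;>
          simp only [Fin.lt_def, Fin.le_def, Fin.ext_iff] at * <;> omega
      · intro h
        obtain ⟨x0, x1, x2, x3, x4, x5, h0, h1, h2, h3, h4, hp, hq⟩ := c3 h
        rcases hdiff _ _ hp with ⟨e1, e2⟩ | ⟨e1, e2⟩ <;>
          rcases hdiff _ _ hq with ⟨e3, e4⟩ | ⟨e3, e4⟩ <;>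
          simp only [Fin.lt_def, Fin.le_def, Fin.ext_iff] at * <;> omega
      · intro h
        obtain ⟨x0, x1, x2, x3, x4, x5, h0, h1, h2, h3, h4, hp, hq⟩ := c4 h
        rcases hdiff _ _ hp with ⟨e1, e2⟩ | ⟨e1, e2⟩ <;>
          rcases hdiff _ _ hq with ⟨e3, e4⟩ | ⟨e3, e4⟩ <;>
          simp only [Fin.lt_def, Fin.le_def, Fin.ext_iff] at * <;> omega
      · intro h
        obtain ⟨x0, x1, x2, x3, x4, h0, h1, h2, h3, hp, hq⟩ := c5 h
        rcases hdiff _ _ hp with ⟨e1, e2⟩ | ⟨e1, e2⟩ <;>
          rcases hdiff _ _ hq with ⟨e3, e4⟩ | ⟨e3, e4⟩ <;>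
          simp only [Fin.lt_def, Fin.le_def, Fin.ext_iff] at * <;> omega
      · intro h
        obtain ⟨x0, x1, x2, x3, x4, h0, h1, h2, h3, hp, hq⟩ := c6 h
        rcases hdiff _ _ hp with ⟨e1, e2⟩ | ⟨e1, e2⟩ <;>
          rcases hdiff _ _ hq with ⟨e3, e4⟩ | ⟨e3, e4⟩ <;>
          simp only [Fin.lt_def, Fin.le_def, Fin.ext_iff] at * <;> omega

end ClanGor.Clans
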