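import Pool.Agent.ClanGor.Stmts

/-!
# MP_fae1d7_ag, module A (helper99): commutative algebra

Elementary theory of Gorenstein local rings (Cohen–Macaulay of type one): independence of the
socle of the maximal regular sequence, quotients by regular sequences, regular local rings are
Gorenstein, localisations of complete intersections in a polynomial ring.
-/

namespace ClanGor.CommAlg

open IsLocalRing RingTheory.Sequence Pointwise

universe u v


section Socle

variable (R : Type u) [CommRing R] [IsLocalRing R]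

/-- The module `M` has a simple (one-dimensional) socle: there is a nonzero `s` killed by the
maximal ideal such that every element killed by the maximal ideal is a multiple of `s`. -/
def SimpleSocle (M : Type v) [AddCommGroup M] [Module R M] : Prop :=
  ∃ s : M, s ≠ 0 ∧ (∀ r ∈ maximalIdeal R, r • s = 0) ∧
    ∀ t : M, (∀ r ∈ maximalIdeal R, r • t = 0) → ∃ c : R, t = c • s

/-- The module `M` has a nonzero socle. -/
def NonzeroSocle (M : Type v) [AddCommGroup M] [Module R M] : Prop :=
  ∃ s : M, s ≠ 0 ∧ (∀ r ∈ maximalIdeal R, r • s = 0)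

variable {R}
variable {M : Type v} [AddCommGroup M] [Module R M]

lemma SimpleSocle.nonzero (h : SimpleSocle R M) : NonzeroSocle R M := by
  obtain ⟨s, hs, h1, _⟩ := h
  exact ⟨s, hs, h1⟩

lemma SimpleSocle.of_equiv {M' : Type*} [AddCommGroup M'] [Module R M'] (e : M ≃ₗ[R] M')
    (h : SimpleSocle R M) : SimpleSocle R M' := by
  obtain ⟨s, hs, h1, h2⟩ := h
  refine ⟨e s, by simpa using hs, fun r hr => by rw [← map_smul, h1 r hr, map_zero], ?_⟩
  intro t ht
  obtain ⟨c, hc⟩ := h2 (e.symm t) (fun r hr => by rw [← map_smul, ht r hr, map_zero])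
  exact ⟨c, by rw [← map_smul, ← hc, e.apply_symm_apply]⟩

lemma NonzeroSocle.of_equiv {M' : Type*} [AddCommGroup M'] [Module R M'] (e : M ≃ₗ[R] M')
    (h : NonzeroSocle R M) : NonzeroSocle R M' := by
  obtain ⟨s, hs, h1⟩ := h
  exact ⟨e s, by simpa using hs, fun r hr => by rw [← map_smul, h1 r hr, map_zero]⟩

/-- a regular element of the maximal ideal excludes a socle -/
lemma not_nonzeroSocle_of_regular {x : R} (hx : x ∈ maximalIdeal R) (hr : IsSMulRegular M x) :
    ¬ NonzeroSocle R M := by
  rintro ⟨s, hs, h1⟩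
  exact hs (hr (by simpa using h1 x hx))

/-- if the socle vanishes there is a regular element in the maximal ideal -/
lemma exists_regular_of_not_nonzeroSocle [IsNoetherianRing R] [Module.Finite R M]
    (h : ¬ NonzeroSocle R M) : ∃ w ∈ maximalIdeal R, IsSMulRegular M w := by
  have key : Subsingleton ((R ⧸ maximalIdeal R) →ₗ[R] M) := by
    refine subsingleton_of_forall_eq 0 fun f => ?_
    have h0 : f 1 = 0 := by
      by_contra hne
      refine h ⟨f 1, hne, fun r hr => ?_⟩
      rw [← map_smul]
      have : r • (1 : R ⧸ maximalIdeal R) = 0 := by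
        rw [Algebra.smul_def, mul_one]
        exact Ideal.Quotient.eq_zero_iff_mem.2 hr
      rw [this, map_zero]
    ext
    simpa using h0
  rw [IsSMulRegular.subsingleton_linearMap_iff] at key
  obtain ⟨r, hr, hreg⟩ := key
  rw [Ideal.annihilator_quotient] at hr
  exact ⟨r, hr, hreg⟩

omit [IsLocalRing R] in
lemma mem_smul_top_iff {x : R} {m : M} : m ∈ (x • ⊤ : Submodule R M) ↔ ∃ n, x • n = m := by
  rw [Submodule.mem_smul_pointwise_iff_exists]
  simp

omit [IsLocalRing R] in
lemma quot_eq_zero_iff {x : R} {m : M} :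
    (Submodule.Quotient.mk m : QuotSMulTop x M) = 0 ↔ ∃ n, x • n = m := by
  rw [Submodule.Quotient.mk_eq_zero, mem_smul_top_iff]

omit [IsLocalRing R] in
lemma quot_smul_eq_zero_iff {x r : R} {m : M} :
    r • (Submodule.Quotient.mk m : QuotSMulTop x M) = 0 ↔ ∃ n, x • n = r • m := by
  rw [← Submodule.Quotient.mk_smul, quot_eq_zero_iff]

/-- Exchange: the socles of `M/xM` and `M/zM` agree, nonvanishing. -/
lemma NonzeroSocle.exchange {x z : R} (hx : IsSMulRegular M x) (hz : IsSMulRegular M z)
    (hz' : z ∈ maximalIdeal R)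
    (h : NonzeroSocle R (QuotSMulTop x M)) : NonzeroSocle R (QuotSMulTop z M) := by
  obtain ⟨s, hs, h1⟩ := h
  obtain ⟨s, rfl⟩ := Submodule.Quotient.mk_surjective _ s
  obtain ⟨s', hs'⟩ := quot_smul_eq_zero_iff.1 (h1 z hz')
  refine ⟨Submodule.Quotient.mk s', ?_, ?_⟩
  · intro h0
    obtain ⟨n, hn⟩ := quot_eq_zero_iff.1 h0
    apply hs
    rw [quot_eq_zero_iff]
    refine ⟨n, hz ?_⟩
    change z • (x • n) = z • s
    rw [← hs', ← hn, smul_comm]
  · intro r hr
    obtain ⟨n, hn⟩ := quot_smul_eq_zero_iff.1 (h1 r hr)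
    rw [quot_smul_eq_zero_iff]
    refine ⟨n, hx ?_⟩
    change x • (z • n) = x • (r • s')
    rw [smul_comm x z, hn, smul_comm z r, ← hs', smul_comm r x]

/-- Exchange: the socles of `M/xM` and `M/zM` agree, simplicity. -/
lemma SimpleSocle.exchange {x z : R} (hx : IsSMulRegular M x) (hz : IsSMulRegular M z)
    (hx' : x ∈ maximalIdeal R) (hz' : z ∈ maximalIdeal R)
    (h : SimpleSocle R (QuotSMulTop x M)) : SimpleSocle R (QuotSMulTop z M) := by
  obtain ⟨s, hs, h1, h2⟩ := h
  obtain ⟨s, rfl⟩ := Submodule.Quotient.mk_surjective _ s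
  obtain ⟨s', hs'⟩ := quot_smul_eq_zero_iff.1 (h1 z hz')
  refine ⟨Submodule.Quotient.mk s', ?_, ?_, ?_⟩
  · intro h0
    obtain ⟨n, hn⟩ := quot_eq_zero_iff.1 h0
    apply hs
    rw [quot_eq_zero_iff]
    refine ⟨n, hz ?_⟩
    change z • (x • n) = z • s
    rw [← hs', ← hn, smul_comm]
  · intro r hr
    obtain ⟨n, hn⟩ := quot_smul_eq_zero_iff.1 (h1 r hr)
    rw [quot_smul_eq_zero_iff]
    refine ⟨n, hx ?_⟩
    change x • (z • n) = x • (r • s')
    rw [smul_comm x z, hn, smul_comm z r, ← hs', smul_comm r x]
  · intro t ht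
    obtain ⟨t', rfl⟩ := Submodule.Quotient.mk_surjective _ t
    obtain ⟨t, ht'⟩ := quot_smul_eq_zero_iff.1 (ht x hx')
    -- `z • t = x • t'`
    obtain ⟨c, hc⟩ := h2 (Submodule.Quotient.mk t) (by
      intro r hr
      obtain ⟨n, hn⟩ := quot_smul_eq_zero_iff.1 (ht r hr)
      rw [quot_smul_eq_zero_iff]
      refine ⟨n, hz ?_⟩
      change z • (x • n) = z • (r • t)
      rw [smul_comm z x, hn, smul_comm z r, ht', smul_comm r x])
    rw [← Submodule.Quotient.mk_smul, ← sub_eq_zero, ← Submodule.Quotient.mk_sub,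
      quot_eq_zero_iff] at hc
    obtain ⟨n, hn⟩ := hc
    refine ⟨c, ?_⟩
    rw [← Submodule.Quotient.mk_smul, ← sub_eq_zero, ← Submodule.Quotient.mk_sub,
      quot_eq_zero_iff]
    refine ⟨n, hx ?_⟩
    change x • (z • n) = x • (t' - c • s')
    rw [smul_comm x z, hn, smul_sub, smul_sub, ht', smul_comm z c, ← hs', smul_comm c x]

end Socle

section Extension

variable {R : Type u} [CommRing R]

/-- quotient by a one-element list -/
noncomputable def singletonEquiv (N : Type v) [AddCommGroup N] [Module R N] (w : R) :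
    (N ⧸ (Ideal.ofList [w] • ⊤ : Submodule R N)) ≃ₗ[R] QuotSMulTop w N :=
  Submodule.quotEquivOfEq _ _ (by
    rw [Ideal.ofList_singleton, Submodule.ideal_span_singleton_smul])

/-- quotient by the empty list -/
noncomputable def nilEquiv (N : Type v) [AddCommGroup N] [Module R N] :
    (N ⧸ (Ideal.ofList ([] : List R) • ⊤ : Submodule R N)) ≃ₗ[R] N :=
  Submodule.quotEquivOfEqBot _ (by
    rw [Ideal.ofList_nil, Submodule.bot_smul])

/-- the two iterated quotients agree -/
noncomputable def swapEquiv (M : Type v) [AddCommGroup M] [Module R M] (f w : R) :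
    QuotSMulTop f (QuotSMulTop w M) ≃ₗ[R] QuotSMulTop w (QuotSMulTop f M) :=
  (QuotSMulTop.congr f (singletonEquiv M w).symm) ≪≫ₗ
    (Submodule.quotOfListConsSMulTopEquivQuotSMulTopOuter M f [w]).symm ≪≫ₗ
    (Submodule.quotOfListConsSMulTopEquivQuotSMulTopInner M f [w]) ≪≫ₗ
    singletonEquiv (QuotSMulTop f M) w

/-- a linear equivalence passes to the quotients by `I • ⊤` -/
noncomputable def quotSmulEquiv {M M' : Type*} [AddCommGroup M] [Module R M] [AddCommGroup M']
    [Module R M'] (e : M ≃ₗ[R] M') (I : Ideal R) :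
    (M ⧸ (I • ⊤ : Submodule R M)) ≃ₗ[R] (M' ⧸ (I • ⊤ : Submodule R M')) :=
  Submodule.Quotient.equiv _ _ e (by
    rw [Submodule.map_smul'', Submodule.map_top, LinearMap.range_eq_top.2 e.surjective])

lemma regular_prod_iff {M N : Type*} [AddCommGroup M] [Module R M] [AddCommGroup N] [Module R N]
    {w : R} (h : IsSMulRegular (M × N) w) : IsSMulRegular M w ∧ IsSMulRegular N w := by
  constructor
  · intro a b hab
    have := @h (a, 0) (b, 0) (by simpa using hab)
    simpa using this
  · intro a b hab
    have := @h (0, a) (0, b) (by simpa using hab)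
    simpa using this

variable [IsLocalRing R] [IsNoetherianRing R]

/-- Given a maximal regular sequence `zs` with simple socle, every regular element `f` can be
completed to such a sequence. -/
theorem extend_regular (d : ℕ) : ∀ (M : Type v) [AddCommGroup M] [Module R M] [Module.Finite R M]
    (zs : List R), zs.length = d + 1 → (∀ r ∈ zs, r ∈ maximalIdeal R) → IsWeaklyRegular M zs →
    SimpleSocle R (M ⧸ (Ideal.ofList zs • ⊤ : Submodule R M)) →
    ∀ f ∈ maximalIdeal R, IsSMulRegular M f →
    ∃ xs : List R, xs.length = d ∧ (∀ r ∈ xs, r ∈ maximalIdeal R) ∧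
      IsWeaklyRegular (QuotSMulTop f M) xs ∧
      SimpleSocle R ((QuotSMulTop f M) ⧸ (Ideal.ofList xs • ⊤ : Submodule R (QuotSMulTop f M))) := by
  induction d with
  | zero =>
    intro M _ _ _ zs hlen hmem hreg hsoc f hf hfreg
    obtain ⟨z, rfl⟩ := List.length_eq_one_iff.1 hlen
    rw [isWeaklyRegular_singleton_iff] at hreg
    refine ⟨[], rfl, by simp, IsWeaklyRegular.nil _ _, ?_⟩
    have h1 : SimpleSocle R (QuotSMulTop z M) := hsoc.of_equiv (singletonEquiv M z)
    have h2 : SimpleSocle R (QuotSMulTop f M) :=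
      h1.exchange hreg hfreg (hmem z (by simp)) hf
    exact h2.of_equiv (nilEquiv _).symm
  | succ d ih =>
    intro M _ _ _ zs hlen hmem hreg hsoc f hf hfreg
    -- the first two elements of `zs` : `QuotSMulTop f M` has no socle
    have hno : ¬ NonzeroSocle R (QuotSMulTop f M) := by
      intro hcon
      match zs, hlen, hmem, hreg with
      | z1 :: z2 :: zs', _, hmem, hreg =>
        rw [isWeaklyRegular_cons_iff, isWeaklyRegular_cons_iff] at hreg
        have h3 : NonzeroSocle R (QuotSMulTop z1 M) :=
          hcon.exchange hfreg hreg.1 (hmem z1 (by simp))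
        exact not_nonzeroSocle_of_regular (hmem z2 (by simp)) hreg.2.1 h3
    -- write `zs = ws ++ [z]`
    obtain ⟨ws, z, rfl⟩ : ∃ ws z, zs = ws ++ [z] := by
      have hne : zs ≠ [] := by
        intro h0
        simp [h0] at hlen
      exact ⟨zs.dropLast, zs.getLast hne, (List.dropLast_append_getLast hne).symm⟩
    have hwlen : ws.length = d + 1 := by simpa using hlen
    have hws : ∀ r ∈ ws, r ∈ maximalIdeal R := fun r hr => hmem r (by simp [hr])
    have hz : z ∈ maximalIdeal R := hmem z (by simp)
    rw [isWeaklyRegular_append_iff, isWeaklyRegular_singleton_iff] at hreg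
    obtain ⟨hregws, hregz⟩ := hreg
    set N := M ⧸ (Ideal.ofList ws • ⊤ : Submodule R M) with hN
    -- common regular element
    have hno2 : ¬ NonzeroSocle R ((QuotSMulTop f M) × N) := by
      rintro ⟨⟨a, b⟩, hab, h⟩
      have ha : a = 0 := by
        by_contra ha
        exact hno ⟨a, ha, fun r hr => (Prod.ext_iff.1 (h r hr)).1⟩
      have hb : b = 0 := by
        by_contra hb
        exact not_nonzeroSocle_of_regular hz hregz ⟨b, hb, fun r hr => (Prod.ext_iff.1 (h r hr)).2⟩
      exact hab (by rw [ha, hb]; rfl)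
    obtain ⟨w, hw, hwreg⟩ := exists_regular_of_not_nonzeroSocle hno2
    obtain ⟨hw1, hw2⟩ := regular_prod_iff hwreg
    -- the socle of `N/w`
    have hsocN : SimpleSocle R (QuotSMulTop z N) := by
      have e1 : (M ⧸ (Ideal.ofList (ws ++ [z]) • ⊤ : Submodule R M)) ≃ₗ[R]
          (M ⧸ (Ideal.ofList (z :: ws) • ⊤ : Submodule R M)) :=
        Submodule.quotEquivOfEq _ _ (by
          congr 1
          rw [Ideal.ofList_append, Ideal.ofList_singleton, Ideal.ofList_cons, sup_comm])
      exact (hsoc.of_equiv e1).of_equiv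
        (Submodule.quotOfListConsSMulTopEquivQuotSMulTopOuter M z ws)
    have hsocw : SimpleSocle R (QuotSMulTop w N) := hsocN.exchange hregz hw2 hz hw
    -- permute
    have hww : IsWeaklyRegular M (w :: ws) := by
      have h1 : IsWeaklyRegular M (ws ++ [w]) := by
        rw [isWeaklyRegular_append_iff, isWeaklyRegular_singleton_iff]
        exact ⟨hregws, hw2⟩
      refine IsLocalRing.isWeaklyRegular_of_perm_of_subset_maximalIdeal h1
        (List.perm_append_singleton w ws) ?_
      intro r hr
      rcases List.mem_append.1 hr with h | h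
      · exact hws r h
      · rw [List.mem_singleton.1 h]; exact hw
    rw [isWeaklyRegular_cons_iff] at hww
    obtain ⟨hwM, hwsM'⟩ := hww
    have hsocM' : SimpleSocle R ((QuotSMulTop w M) ⧸
        (Ideal.ofList ws • ⊤ : Submodule R (QuotSMulTop w M))) :=
      (hsocw.of_equiv (Submodule.quotOfListConsSMulTopEquivQuotSMulTopOuter M w ws).symm).of_equiv
        (Submodule.quotOfListConsSMulTopEquivQuotSMulTopInner M w ws)
    have hfM' : IsSMulRegular (QuotSMulTop w M) f := by
      have h1 : IsWeaklyRegular M [f, w] := by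
        rw [isWeaklyRegular_cons_iff, isWeaklyRegular_singleton_iff]
        exact ⟨hfreg, hw1⟩
      have h2 : IsWeaklyRegular M [w, f] := by
        refine IsLocalRing.isWeaklyRegular_of_perm_of_subset_maximalIdeal h1
          (List.Perm.swap _ _ _) ?_
        intro r hr
        simp only [List.mem_cons, List.not_mem_nil, or_false] at hr
        rcases hr with h | h
        · rw [h]; exact hf
        · rw [h]; exact hw
      rw [isWeaklyRegular_cons_iff, isWeaklyRegular_singleton_iff] at h2
      exact h2.2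
    obtain ⟨xs, hxlen, hxmem, hxreg, hxsoc⟩ :=
      ih (QuotSMulTop w M) ws hwlen hws hwsM' hsocM' f hf hfM'
    refine ⟨w :: xs, by simp [hxlen], ?_, ?_, ?_⟩
    · intro r hr
      rcases List.mem_cons.1 hr with h | h
      · rw [h]; exact hw
      · exact hxmem r h
    · rw [isWeaklyRegular_cons_iff]
      refine ⟨hw1, ?_⟩
      exact ((swapEquiv M f w).isWeaklyRegular_congr xs).1 hxreg
    · have e2 := quotSmulEquiv (swapEquiv M f w) (Ideal.ofList xs)
      exact (hxsoc.of_equiv e2).of_equiv
        (Submodule.quotOfListConsSMulTopEquivQuotSMulTopInner (QuotSMulTop f M) w xs).symm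

/-- Independence of the socle type: if one maximal regular sequence has a quotient with simple
socle, so has every other one, and the lengths agree. -/
theorem simpleSocle_unique (d : ℕ) : ∀ (M : Type v) [AddCommGroup M] [Module R M]
    [Module.Finite R M] (zs xs : List R), zs.length = d →
    (∀ r ∈ zs, r ∈ maximalIdeal R) → IsWeaklyRegular M zs →
    SimpleSocle R (M ⧸ (Ideal.ofList zs • ⊤ : Submodule R M)) →
    (∀ r ∈ xs, r ∈ maximalIdeal R) → IsWeaklyRegular M xs →
    NonzeroSocle R (M ⧸ (Ideal.ofList xs • ⊤ : Submodule R M)) →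
    xs.length = d ∧ SimpleSocle R (M ⧸ (Ideal.ofList xs • ⊤ : Submodule R M)) := by
  induction d with
  | zero =>
    intro M _ _ _ zs xs hlen hmem hreg hsoc hxmem hxreg hxsoc
    obtain rfl := List.length_eq_zero_iff.1 hlen
    have h0 : SimpleSocle R M := hsoc.of_equiv (nilEquiv M)
    cases xs with
    | nil => exact ⟨rfl, hsoc⟩
    | cons x xs =>
      rw [isWeaklyRegular_cons_iff] at hxreg
      exact absurd h0.nonzero (not_nonzeroSocle_of_regular (hxmem x (by simp)) hxreg.1)
  | succ d ih =>
    intro M _ _ _ zs xs hlen hmem hreg hsoc hxmem hxreg hxsoc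
    cases xs with
    | nil =>
      exfalso
      match zs, hlen, hmem, hreg with
      | z :: zs', _, hmem, hreg =>
        rw [isWeaklyRegular_cons_iff] at hreg
        exact not_nonzeroSocle_of_regular (hmem z (by simp)) hreg.1 (hxsoc.of_equiv (nilEquiv M))
    | cons x xs =>
      rw [isWeaklyRegular_cons_iff] at hxreg
      obtain ⟨ys, hylen, hymem, hyreg, hysoc⟩ :=
        extend_regular d M zs hlen hmem hreg hsoc x (hxmem x (by simp)) hxreg.1
      have hx2 := ih (QuotSMulTop x M) ys xs hylen hymem hyreg hysoc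
        (fun r hr => hxmem r (by simp [hr])) hxreg.2
        (hxsoc.of_equiv (Submodule.quotOfListConsSMulTopEquivQuotSMulTopInner M x xs))
      exact ⟨by simp [hx2.1], hx2.2.of_equiv
        (Submodule.quotOfListConsSMulTopEquivQuotSMulTopInner M x xs).symm⟩

end Extension


/-- A local ring `R` is Gorenstein if it is Noetherian and has a regular sequence `rs` in its
maximal ideal, of length `dim R` (so `R` is Cohen–Macaulay), such that `R/(rs)` has
one-dimensional socle (so the Cohen–Macaulay type is `1`). -/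
def GorLoc (R : Type u) [CommRing R] [IsLocalRing R] : Prop :=
  IsNoetherianRing R ∧ ∃ rs : List R, (∀ r ∈ rs, r ∈ maximalIdeal R) ∧ IsRegular R rs ∧
    (rs.length : WithBot ℕ∞) = ringKrullDim R ∧ SimpleSocle R (R ⧸ Ideal.ofList rs)

/-- A commutative ring all of whose local rings are Gorenstein. -/
def GorRing (R : Type u) [CommRing R] : Prop :=
  ∀ (p : Ideal R) [p.IsPrime], GorLoc (Localization.AtPrime p)

section Surjective

variable {R : Type u} [CommRing R] [IsLocalRing R] {S : Type v} [CommRing S] [IsLocalRing S]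
  [Algebra R S]

lemma mem_maximalIdeal_iff_of_surjective (hs : Function.Surjective (algebraMap R S)) {r : R} :
    algebraMap R S r ∈ maximalIdeal S ↔ r ∈ maximalIdeal R := by
  have := IsLocalHom.of_surjective (algebraMap R S) hs
  rw [mem_maximalIdeal, mem_maximalIdeal, map_mem_nonunits_iff]

lemma simpleSocle_iff_of_surjective (hs : Function.Surjective (algebraMap R S))
    {M : Type*} [AddCommGroup M] [Module R M] [Module S M] [IsScalarTower R S M] :
    SimpleSocle R M ↔ SimpleSocle S M := by
  have key : ∀ t : M, (∀ r ∈ maximalIdeal R, r • t = 0) ↔ (∀ r ∈ maximalIdeal S, r • t = 0) := by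
    intro t
    constructor
    · intro h s hs'
      obtain ⟨r, rfl⟩ := hs s
      rw [mem_maximalIdeal_iff_of_surjective hs] at hs'
      rw [algebraMap_smul]
      exact h r hs'
    · intro h r hr
      rw [← mem_maximalIdeal_iff_of_surjective hs] at hr
      rw [← algebraMap_smul S r t]
      exact h _ hr
  constructor
  · rintro ⟨s, h0, h1, h2⟩
    refine ⟨s, h0, (key s).1 h1, fun t ht => ?_⟩
    obtain ⟨c, hc⟩ := h2 t ((key t).2 ht)
    exact ⟨algebraMap R S c, by rw [algebraMap_smul, hc]⟩
  · rintro ⟨s, h0, h1, h2⟩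
    refine ⟨s, h0, (key s).2 h1, fun t ht => ?_⟩
    obtain ⟨c, hc⟩ := h2 t ((key t).1 ht)
    obtain ⟨c, rfl⟩ := hs c
    exact ⟨c, by rw [hc, algebraMap_smul]⟩

lemma nonzeroSocle_iff_of_surjective (hs : Function.Surjective (algebraMap R S))
    {M : Type*} [AddCommGroup M] [Module R M] [Module S M] [IsScalarTower R S M] :
    NonzeroSocle R M ↔ NonzeroSocle S M := by
  have key : ∀ t : M, (∀ r ∈ maximalIdeal R, r • t = 0) ↔ (∀ r ∈ maximalIdeal S, r • t = 0) := by
    intro t
    constructor
    · intro h s hs'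
      obtain ⟨r, rfl⟩ := hs s
      rw [mem_maximalIdeal_iff_of_surjective hs] at hs'
      rw [algebraMap_smul]
      exact h r hs'
    · intro h r hr
      rw [← mem_maximalIdeal_iff_of_surjective hs] at hr
      rw [← algebraMap_smul S r t]
      exact h _ hr
  constructor
  · rintro ⟨s, h0, h1⟩
    exact ⟨s, h0, (key s).1 h1⟩
  · rintro ⟨s, h0, h1⟩
    exact ⟨s, h0, (key s).2 h1⟩

/-- The quotient of the `R`-algebra `S` by `(xs) S`, as a quotient by an ideal of `S`. -/
noncomputable def quotMapEquiv (xs : List R) :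
    (S ⧸ (Ideal.ofList xs • ⊤ : Submodule R S)) ≃ₗ[R]
      (S ⧸ Ideal.ofList (xs.map (algebraMap R S))) :=
  (Submodule.quotEquivOfEq _ ((Ideal.ofList (xs.map (algebraMap R S))).restrictScalars R) (by
    rw [← Ideal.map_ofList, Ideal.smul_top_eq_map])) ≪≫ₗ
  (Submodule.Quotient.restrictScalarsEquiv R (Ideal.ofList (xs.map (algebraMap R S))))

/-- Criterion: `S` is Gorenstein, in terms of a sequence in a local ring surjecting onto `S`. -/
theorem GorLoc.of_surjective [IsNoetherianRing R]
    (hs : Function.Surjective (algebraMap R S)) (xs : List R)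
    (hmem : ∀ r ∈ xs, r ∈ maximalIdeal R) (hreg : IsWeaklyRegular S xs)
    (hlen : (xs.length : WithBot ℕ∞) = ringKrullDim S)
    (hsoc : SimpleSocle R (S ⧸ (Ideal.ofList xs • ⊤ : Submodule R S))) :
    GorLoc S := by
  have : IsNoetherianRing S := isNoetherianRing_of_surjective R S (algebraMap R S) hs
  have hmem' : ∀ s ∈ xs.map (algebraMap R S), s ∈ maximalIdeal S := by
    intro s hs'
    obtain ⟨r, hr, rfl⟩ := List.mem_map.1 hs'
    rw [mem_maximalIdeal_iff_of_surjective hs]
    exact hmem r hr
  refine ⟨inferInstance, xs.map (algebraMap R S), hmem', ?_, by simpa using hlen, ?_⟩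
  · refine IsRegular.of_isWeaklyRegular_of_mem_maximalIdeal S hmem' ?_
    rwa [isWeaklyRegular_map_algebraMap_iff]
  · rw [← simpleSocle_iff_of_surjective hs]
    exact hsoc.of_equiv (quotMapEquiv xs)

end Surjective

section RingEquiv

variable {R : Type u} [CommRing R] [IsLocalRing R] {S : Type v} [CommRing S] [IsLocalRing S]

/-- `R/(rs)` in the two forms. -/
noncomputable def quotSelfEquiv (rs : List R) :
    (R ⧸ (Ideal.ofList rs • ⊤ : Submodule R R)) ≃ₗ[R] (R ⧸ Ideal.ofList rs) :=
  Submodule.quotEquivOfEq _ _ (by simp)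

lemma GorLoc.of_ringEquiv (e : R ≃+* S) (h : GorLoc R) :
    GorLoc S := by
  obtain ⟨hN, rs, hmem, hreg, hlen, hsoc⟩ := h
  let _ : Algebra R S := (e : R →+* S).toAlgebra
  let e' : R ≃ₗ[R] S :=
    { e with
      map_smul' := fun r x => by
        change e (r * x) = e r * e x
        rw [map_mul] }
  have hs : Function.Surjective (algebraMap R S) := e.surjective
  refine GorLoc.of_surjective hs rs hmem
    ((e'.isWeaklyRegular_congr rs).1 hreg.toIsWeaklyRegular)
    (hlen.trans (ringKrullDim_eq_of_ringEquiv e)) ?_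
  exact (hsoc.of_equiv (quotSelfEquiv rs).symm).of_equiv (quotSmulEquiv e' (Ideal.ofList rs))

end RingEquiv

section Quotient

lemma add_one_cancel {a : WithBot ℕ∞} {d : ℕ} (h : a + 1 = (d : WithBot ℕ∞) + 1) :
    a = (d : WithBot ℕ∞) := by
  induction a with
  | bot =>
    exfalso
    rw [WithBot.bot_add] at h
    exact absurd h.symm (by exact_mod_cast WithBot.coe_ne_bot)
  | coe x =>
    have h' : x + 1 = (d : ℕ∞) + 1 := by exact_mod_cast h
    induction x with
    | top =>
      exfalso
      rw [top_add] at h'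
      exact absurd h'.symm (by exact_mod_cast ENat.natCast_ne_top (d + 1))
    | coe n =>
      have : n + 1 = d + 1 := by exact_mod_cast h'
      have h2 : n = d := by omega
      rw [h2]; rfl

variable {R : Type u} [CommRing R] [IsLocalRing R]

/-- The quotient of a Gorenstein local ring by a regular element is Gorenstein. -/
theorem GorLoc.quotient (h : GorLoc R) {f : R} (hf : f ∈ maximalIdeal R)
    (hreg : IsSMulRegular R f) [IsLocalRing (R ⧸ Ideal.span {f})] :
    GorLoc (R ⧸ Ideal.span {f}) := by
  obtain ⟨hN, rs, hmem, hrs, hlen, hsoc⟩ := h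
  have hsoc' : SimpleSocle R (R ⧸ (Ideal.ofList rs • ⊤ : Submodule R R)) :=
    hsoc.of_equiv (quotSelfEquiv rs).symm
  obtain ⟨d, hd⟩ : ∃ d, rs.length = d + 1 := by
    cases rs with
    | nil => exact absurd (hsoc'.of_equiv (nilEquiv R)).nonzero (not_nonzeroSocle_of_regular hf hreg)
    | cons a l => exact ⟨l.length, rfl⟩
  obtain ⟨xs, hxlen, hxmem, hxreg, hxsoc⟩ :=
    extend_regular d R rs hd hmem hrs.toIsWeaklyRegular hsoc' f hf hreg
  let e : QuotSMulTop f R ≃ₗ[R] (R ⧸ Ideal.span {f}) :=
    Submodule.quotEquivOfEq _ _ (by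
      rw [← Submodule.ideal_span_singleton_smul]; simp)
  have hdim := ringKrullDim_quotient_span_singleton_succ_eq_ringKrullDim hreg hf
  refine GorLoc.of_surjective (R := R) Ideal.Quotient.mk_surjective xs hxmem
    ((e.isWeaklyRegular_congr xs).1 hxreg) ?_ (hxsoc.of_equiv (quotSmulEquiv e _))
  rw [hxlen]
  rw [← hlen, hd] at hdim
  have : ((d + 1 : ℕ) : WithBot ℕ∞) = (d : WithBot ℕ∞) + 1 := by push_cast; rfl
  rw [this] at hdim
  exact (add_one_cancel hdim).symm

end Quotient


lemma le_of_succ_le_add_one {a : WithBot ℕ∞} {d : ℕ} (h : ((d + 1 : ℕ) : WithBot ℕ∞) ≤ a + 1) :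
    (d : WithBot ℕ∞) ≤ a := by
  induction a with
  | bot =>
    exfalso
    rw [WithBot.bot_add, le_bot_iff] at h
    exact absurd h (by exact_mod_cast WithBot.coe_ne_bot)
  | coe x =>
    have h' : ((d + 1 : ℕ) : ℕ∞) ≤ x + 1 := by exact_mod_cast h
    induction x with
    | top => exact_mod_cast le_top
    | coe n =>
      have h1 : d + 1 ≤ n + 1 := by exact_mod_cast h'
      have h2 : d ≤ n := by omega
      exact_mod_cast h2

/-- Replacing one generator: if `x ∈ 𝔪 \ 𝔪²` and `𝔪` is generated by `s`, then `𝔪` is generated by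
`x` and `s` minus one element. -/
lemma exists_replace {R : Type u} [CommRing R] [IsLocalRing R] {s : Finset R}
    (hs : Ideal.span (s : Set R) = maximalIdeal R) {x : R} (hx : x ∈ maximalIdeal R)
    (hx2 : x ∉ (maximalIdeal R) ^ 2) :
    ∃ t : Finset R, t ⊆ s ∧ t.card + 1 = s.card ∧
      maximalIdeal R ≤ Ideal.span {x} ⊔ Ideal.span (t : Set R) := by
  classical
  have hmem : x ∈ Submodule.span R (s : Set R) := by
    change x ∈ Ideal.span (s : Set R)
    rw [hs]; exact hx
  obtain ⟨c, hc⟩ := Submodule.mem_span_finset.1 hmem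
  obtain ⟨hsupp, hsum⟩ := hc
  have hex : ∃ g ∈ s, IsUnit (c g) := by
    by_contra hcon
    push Not at hcon
    apply hx2
    rw [← hsum]
    refine Ideal.sum_mem _ fun g hg => ?_
    rw [smul_eq_mul, sq]
    refine Ideal.mul_mem_mul ?_ ?_
    · exact (mem_maximalIdeal _).2 (hcon g hg)
    · rw [← hs]; exact Ideal.subset_span hg
  obtain ⟨g, hg, hu⟩ := hex
  refine ⟨s.erase g, Finset.erase_subset _ _, Finset.card_erase_add_one hg, ?_⟩
  have hg2 : g ∈ Ideal.span {x} ⊔ Ideal.span ((s.erase g : Finset R) : Set R) := by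
    obtain ⟨u, hu'⟩ := hu
    have h1 : c g * g = x - ∑ h ∈ s.erase g, c h * h := by
      rw [← hsum, ← Finset.add_sum_erase s (fun a => c a • a) hg]
      simp
    have h2 : (↑u⁻¹ : R) * (x - ∑ h ∈ s.erase g, c h * h) = g := by
      rw [← h1, ← hu', ← mul_assoc, Units.inv_mul, one_mul]
    have h3 : (↑u⁻¹ : R) * (x - ∑ h ∈ s.erase g, c h * h) ∈
        Ideal.span {x} ⊔ Ideal.span ((s.erase g : Finset R) : Set R) := by
      refine Ideal.mul_mem_left _ _ (Ideal.sub_mem _ ?_ ?_)
      · exact Ideal.mem_sup_left (Ideal.subset_span rfl)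
      · refine Ideal.sum_mem _ fun h hh => Ideal.mul_mem_left _ _ ?_
        exact Ideal.mem_sup_right (Ideal.subset_span hh)
    rwa [h2] at h3
  rw [← hs, Ideal.span_le]
  intro h hh
  by_cases hhg : h = g
  · rw [hhg]; exact hg2
  · exact Ideal.mem_sup_right (Ideal.subset_span (by
      simp only [Finset.coe_erase, Set.mem_sdiff, Finset.mem_coe, Set.mem_singleton_iff]
      exact ⟨hh, hhg⟩))

/-- Regular local rings are domains and their maximal ideal is generated by a regular sequence. -/
theorem regular_aux (d : ℕ) : ∀ (R : Type u) [CommRing R] [IsRegularLocalRing R],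
    ringKrullDim R = d → IsDomain R ∧ ∃ xs : List R, xs.length = d ∧ IsWeaklyRegular R xs ∧
      Ideal.ofList xs = maximalIdeal R := by
  induction d with
  | zero =>
    intro R _ _ hd
    have h0 : (maximalIdeal R).spanFinrank = 0 := by
      have := IsRegularLocalRing.spanFinrank_maximalIdeal (R := R)
      rw [hd] at this
      exact_mod_cast this
    have hbot : maximalIdeal R = ⊥ := by
      rwa [Submodule.spanFinrank_eq_zero_iff_eq_bot (IsNoetherian.noetherian _)] at h0
    have hf : IsField R := IsLocalRing.isField_iff_maximalIdeal_eq.2 hbot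
    refine ⟨hf.isDomain, [], rfl, IsWeaklyRegular.nil _ _, ?_⟩
    rw [Ideal.ofList_nil, hbot]
  | succ d ih =>
    intro R _ _ hd
    have hspan : (maximalIdeal R).spanFinrank = d + 1 := by
      have := IsRegularLocalRing.spanFinrank_maximalIdeal (R := R)
      rw [hd] at this
      exact_mod_cast this
    have hne : maximalIdeal R ≠ ⊥ := by
      intro h0
      rw [h0, Submodule.spanFinrank_bot] at hspan
      omega
    -- an element outside `𝔪²` and all minimal primes
    have hex : ∃ x ∈ maximalIdeal R, x ∉ (maximalIdeal R) ^ 2 ∧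
        ∀ p ∈ minimalPrimes R, x ∉ p := by
      by_contra hcon
      push Not at hcon
      have hsub : (maximalIdeal R : Set R) ⊆
          ⋃ I ∈ (insert ((maximalIdeal R) ^ 2) (minimalPrimes R) : Set (Ideal R)),
            ((id I : Ideal R) : Set R) := by
        intro x hx
        by_cases h2 : x ∈ (maximalIdeal R) ^ 2
        · exact Set.mem_biUnion (Set.mem_insert _ _) h2
        · obtain ⟨p, hp, hxp⟩ := hcon x hx h2
          exact Set.mem_biUnion (Set.mem_insert_of_mem _ hp) hxp
      rw [Ideal.subset_union_prime_finite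
        ((minimalPrimes.finite_of_isNoetherianRing R).insert _)
        ((maximalIdeal R) ^ 2) ((maximalIdeal R) ^ 2) (by
          intro I hI h1 _
          rcases hI with h | h
          · exact absurd h h1
          · exact h.1.1)] at hsub
      obtain ⟨I, hI, hle⟩ := hsub
      rcases hI with rfl | hI
      · -- `𝔪 ≤ 𝔪²`
        apply hne
        have hle' : maximalIdeal R ≤ maximalIdeal R • maximalIdeal R := by
          rw [smul_eq_mul, ← sq]; exact hle
        exact Submodule.eq_bot_of_le_smul_of_le_jacobson_bot _ _ (IsNoetherian.noetherian _) hle'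
          (by rw [IsLocalRing.jacobson_eq_maximalIdeal _ bot_ne_top])
      · -- `𝔪` minimal prime
        have h1 : maximalIdeal R ∈ minimalPrimes R := by
          have hIp : I.IsPrime := hI.1.1
          have h2 : I = maximalIdeal R :=
            le_antisymm (IsLocalRing.le_maximalIdeal hIp.ne_top) hle
          rw [← h2]; exact hI
        have h3 : (maximalIdeal R).height = 0 := by
          rw [Ideal.height_eq_zero_iff]
          exact h1
        have h4 := IsLocalRing.maximalIdeal_height_eq_ringKrullDim (R := R)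
        rw [h3, hd] at h4
        have h5 : (0 : ℕ) = d + 1 := by exact_mod_cast h4
        omega
    obtain ⟨x, hx, hx2, hxp⟩ := hex
    obtain ⟨s, hscard, hs⟩ := Submodule.FG.exists_span_finset_card_eq_spanFinrank
      (IsNoetherian.noetherian (maximalIdeal R))
    obtain ⟨t, hts, htcard, ht⟩ := exists_replace hs hx hx2
    have hxtop : Ideal.span {x} ≠ ⊤ := by
      intro h
      rw [Ideal.span_singleton_eq_top] at h
      exact (mem_maximalIdeal x).1 hx h
    have : Nontrivial (R ⧸ Ideal.span {x}) := Ideal.Quotient.nontrivial_iff.2 hxtop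
    have hloc : IsLocalRing (R ⧸ Ideal.span {x}) :=
      IsLocalRing.of_surjective' (Ideal.Quotient.mk _) Ideal.Quotient.mk_surjective
    have hlh := IsLocalHom.of_surjective (Ideal.Quotient.mk (Ideal.span {x}))
      Ideal.Quotient.mk_surjective
    -- the maximal ideal of the quotient
    have hmax : maximalIdeal (R ⧸ Ideal.span {x}) =
        (maximalIdeal R).map (Ideal.Quotient.mk (Ideal.span {x})) := by
      apply le_antisymm
      · intro y hy
        obtain ⟨r, rfl⟩ := Ideal.Quotient.mk_surjective y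
        refine Ideal.mem_map_of_mem _ ?_
        rw [mem_maximalIdeal, map_mem_nonunits_iff] at hy
        exact hy
      · rw [Ideal.map_le_iff_le_comap]
        intro r hr
        rw [Ideal.mem_comap, mem_maximalIdeal, map_mem_nonunits_iff]
        exact hr
    have hmax2 : maximalIdeal (R ⧸ Ideal.span {x}) =
        Ideal.span ((Ideal.Quotient.mk (Ideal.span {x})) '' (t : Set R)) := by
      rw [hmax, ← Ideal.map_span]
      apply le_antisymm
      · refine (Ideal.map_mono ht).trans ?_
        rw [Ideal.map_sup]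
        refine sup_le ?_ le_rfl
        rw [Ideal.map_span, Set.image_singleton]
        have h0 : (Ideal.Quotient.mk (Ideal.span {x})) x = 0 :=
          Ideal.Quotient.eq_zero_iff_mem.2 (Ideal.subset_span (Set.mem_singleton x))
        rw [h0, Ideal.span_singleton_eq_bot.2 rfl]
        exact bot_le
      · refine Ideal.map_mono ?_
        rw [← hs]
        exact Ideal.span_mono (by exact_mod_cast hts)
    have hspan' : (maximalIdeal (R ⧸ Ideal.span {x})).spanFinrank ≤ d := by
      rw [hmax2]
      refine (Submodule.spanFinrank_span_le_ncard_of_finite (t.finite_toSet.image _)).trans ?_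
      refine (Set.ncard_image_le t.finite_toSet).trans ?_
      rw [Set.ncard_coe_finset]
      omega
    have hdim1 : ringKrullDim R ≤ ringKrullDim (R ⧸ Ideal.span {x}) + 1 := by
      have h1 := ringKrullDim_le_ringKrullDim_quotSMulTop_succ hx
      have h2 : x • (⊤ : Ideal R) = Ideal.span {x} := by
        rw [← Submodule.ideal_span_singleton_smul]; simp
      rwa [h2] at h1
    have hdim2 : (d : WithBot ℕ∞) ≤ ringKrullDim (R ⧸ Ideal.span {x}) := by
      rw [hd] at hdim1
      exact le_of_succ_le_add_one hdim1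
    have hreg' : IsRegularLocalRing (R ⧸ Ideal.span {x}) :=
      IsRegularLocalRing.of_spanFinrank_maximalIdeal_le _
        (le_trans (by exact_mod_cast hspan') hdim2)
    have hdim3 : ringKrullDim (R ⧸ Ideal.span {x}) = d := by
      apply le_antisymm _ hdim2
      rw [← IsRegularLocalRing.spanFinrank_maximalIdeal (R := R ⧸ Ideal.span {x})]
      exact_mod_cast hspan'
    obtain ⟨hdom, xs, hxlen, hxreg, hxmax⟩ := ih (R ⧸ Ideal.span {x}) hdim3
    -- `R` is a domain
    have hxprime : (Ideal.span {x}).IsPrime := (Ideal.Quotient.isDomain_iff_prime _).1 hdom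
    obtain ⟨p, hp, hpx⟩ := Ideal.exists_minimalPrimes_le (I := ⊥) (J := Ideal.span {x}) bot_le
    have hxnp : x ∉ p := hxp p hp
    have hpp : p.IsPrime := hp.1.1
    have hpbot : p = ⊥ := by
      have hle : p ≤ maximalIdeal R • p := by
        intro a ha
        obtain ⟨b, hb⟩ := Ideal.mem_span_singleton'.1 (hpx ha)
        have hb' : b ∈ p := by
          rcases hpp.mem_or_mem (show b * x ∈ p by rw [hb]; exact ha) with h | h
          · exact h
          · exact absurd h hxnp
        rw [← hb, mul_comm, smul_eq_mul]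
        exact Ideal.mul_mem_mul hx hb'
      exact Submodule.eq_bot_of_le_smul_of_le_jacobson_bot _ _ (IsNoetherian.noetherian _) hle
        (by rw [IsLocalRing.jacobson_eq_maximalIdeal _ bot_ne_top])
    have hdomR : IsDomain R := by
      rw [hpbot] at hpp
      exact (IsDomain.of_bot_isPrime R)
    have hx0 : x ≠ 0 := by
      intro h
      apply hxnp
      rw [h]; exact p.zero_mem
    obtain ⟨ys, hys⟩ : ∃ ys : List R, ys.map (Ideal.Quotient.mk (Ideal.span {x})) = xs := by
      clear hxlen hxreg hxmax
      induction xs with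
      | nil => exact ⟨[], rfl⟩
      | cons a l ih =>
        obtain ⟨ys, hys⟩ := ih
        obtain ⟨b, hb⟩ := Ideal.Quotient.mk_surjective a
        exact ⟨b :: ys, by simp [hys, hb]⟩
    refine ⟨hdomR, x :: ys, ?_, ?_, ?_⟩
    · rw [← hys] at hxlen
      simpa using hxlen
    · rw [isWeaklyRegular_cons_iff]
      refine ⟨?_, ?_⟩
      · intro a b hab
        exact mul_left_cancel₀ hx0 (by simpa using hab)
      · let e : QuotSMulTop x R ≃ₗ[R] (R ⧸ Ideal.span {x}) :=
          Submodule.quotEquivOfEq _ _ (by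
            rw [← Submodule.ideal_span_singleton_smul]; simp)
        rw [e.isWeaklyRegular_congr]
        rw [← hys] at hxreg
        exact (isWeaklyRegular_map_algebraMap_iff (R ⧸ Ideal.span {x})
          (R ⧸ Ideal.span {x}) ys).1 hxreg
    · rw [Ideal.ofList_cons]
      have h1 : (Ideal.ofList ys).map (Ideal.Quotient.mk (Ideal.span {x})) =
          (maximalIdeal R).map (Ideal.Quotient.mk (Ideal.span {x})) := by
        rw [Ideal.map_ofList, hys, hxmax, hmax]
      have h2 := congrArg (Ideal.comap (Ideal.Quotient.mk (Ideal.span {x}))) h1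
      rw [Ideal.comap_map_of_surjective _ Ideal.Quotient.mk_surjective,
        Ideal.comap_map_of_surjective _ Ideal.Quotient.mk_surjective] at h2
      have h3 : Ideal.comap (Ideal.Quotient.mk (Ideal.span {x})) ⊥ = Ideal.span {x} := by
        rw [← RingHom.ker_eq_comap_bot, Ideal.mk_ker]
      rw [h3] at h2
      rw [sup_comm, h2]
      apply le_antisymm
      · refine sup_le le_rfl ?_
        rw [Ideal.span_le]
        intro y hy
        rw [Set.mem_singleton_iff.1 hy]
        exact hx
      · exact le_sup_left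

/-- Regular local rings are Gorenstein. -/
theorem isGorensteinLocal_of_regular (R : Type u) [CommRing R] [IsRegularLocalRing R] :
    GorLoc R := by
  have hd := IsRegularLocalRing.spanFinrank_maximalIdeal (R := R)
  obtain ⟨_, xs, hxlen, hxreg, hxmax⟩ := regular_aux _ R hd.symm
  have hmem : ∀ r ∈ xs, r ∈ maximalIdeal R := by
    intro r hr
    rw [← hxmax]
    exact Ideal.subset_span hr
  refine ⟨inferInstance, xs, hmem, IsRegular.of_isWeaklyRegular_of_mem_maximalIdeal R hmem hxreg,
    by rw [hxlen, hd], ?_⟩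
  rw [hxmax]
  refine ⟨1, one_ne_zero, ?_, ?_⟩
  · intro r hr
    rw [Algebra.smul_def, mul_one]
    exact Ideal.Quotient.eq_zero_iff_mem.2 hr
  · intro t _
    obtain ⟨c, rfl⟩ := Ideal.Quotient.mk_surjective t
    exact ⟨c, by rw [Algebra.smul_def, mul_one]; rfl⟩

section Sequences

variable {R : Type u} [CommRing R] [IsLocalRing R] [IsNoetherianRing R]

/-- If one regular sequence of length `d` has a quotient with simple socle, so has every other
regular sequence of length `d`. -/
theorem simpleSocle_of_length_eq (d : ℕ) : ∀ (M : Type v) [AddCommGroup M] [Module R M]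
    [Module.Finite R M] (zs xs : List R), zs.length = d → xs.length = d →
    (∀ r ∈ zs, r ∈ maximalIdeal R) → IsWeaklyRegular M zs →
    SimpleSocle R (M ⧸ (Ideal.ofList zs • ⊤ : Submodule R M)) →
    (∀ r ∈ xs, r ∈ maximalIdeal R) → IsWeaklyRegular M xs →
    SimpleSocle R (M ⧸ (Ideal.ofList xs • ⊤ : Submodule R M)) := by
  induction d with
  | zero =>
    intro M _ _ _ zs xs hlen hlen' hmem hreg hsoc hxmem hxreg
    obtain rfl := List.length_eq_zero_iff.1 hlen
    obtain rfl := List.length_eq_zero_iff.1 hlen'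
    exact hsoc
  | succ d ih =>
    intro M _ _ _ zs xs hlen hlen' hmem hreg hsoc hxmem hxreg
    match xs, hlen', hxmem, hxreg with
    | x :: xs, hlen', hxmem, hxreg =>
      rw [isWeaklyRegular_cons_iff] at hxreg
      obtain ⟨ys, hylen, hymem, hyreg, hysoc⟩ :=
        extend_regular d M zs hlen hmem hreg hsoc x (hxmem x (by simp)) hxreg.1
      have hx2 := ih (QuotSMulTop x M) ys xs hylen (by simpa using hlen') hymem hyreg hysoc
        (fun r hr => hxmem r (by simp [hr])) hxreg.2
      exact hx2.of_equiv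
        (Submodule.quotOfListConsSMulTopEquivQuotSMulTopInner M x xs).symm

/-- Extension of a regular sequence `qs` to a maximal one with simple socle. -/
theorem extend_list (qs : List R) : ∀ (M : Type v) [AddCommGroup M] [Module R M]
    [Module.Finite R M] (zs : List R),
    (∀ r ∈ zs, r ∈ maximalIdeal R) → IsWeaklyRegular M zs →
    SimpleSocle R (M ⧸ (Ideal.ofList zs • ⊤ : Submodule R M)) →
    (∀ r ∈ qs, r ∈ maximalIdeal R) → IsWeaklyRegular M qs →
    ∃ xs : List R, xs.length + qs.length = zs.length ∧ (∀ r ∈ xs, r ∈ maximalIdeal R) ∧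
      IsWeaklyRegular (M ⧸ (Ideal.ofList qs • ⊤ : Submodule R M)) xs ∧
      SimpleSocle R ((M ⧸ (Ideal.ofList qs • ⊤ : Submodule R M)) ⧸
        (Ideal.ofList xs • ⊤ : Submodule R (M ⧸ (Ideal.ofList qs • ⊤ : Submodule R M)))) := by
  induction qs with
  | nil =>
    intro M _ _ _ zs hmem hreg hsoc _ _
    refine ⟨zs, rfl, hmem, ((nilEquiv M).symm.isWeaklyRegular_congr zs).1 hreg, ?_⟩
    exact hsoc.of_equiv (quotSmulEquiv (nilEquiv M).symm (Ideal.ofList zs))
  | cons q qs ih =>
    intro M _ _ _ zs hmem hreg hsoc hqmem hqreg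
    rw [isWeaklyRegular_cons_iff] at hqreg
    obtain ⟨d, hd⟩ : ∃ d, zs.length = d + 1 := by
      cases zs with
      | nil =>
        exact absurd (hsoc.of_equiv (nilEquiv M)).nonzero
          (not_nonzeroSocle_of_regular (hqmem q (by simp)) hqreg.1)
      | cons a l => exact ⟨l.length, rfl⟩
    obtain ⟨ys, hylen, hymem, hyreg, hysoc⟩ :=
      extend_regular d M zs hd hmem hreg hsoc q (hqmem q (by simp)) hqreg.1
    obtain ⟨xs, hxlen, hxmem, hxreg, hxsoc⟩ := ih (QuotSMulTop q M) ys hymem hyreg hysoc
      (fun r hr => hqmem r (by simp [hr])) hqreg.2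
    have e := (Submodule.quotOfListConsSMulTopEquivQuotSMulTopInner M q qs).symm
    refine ⟨xs, by simp only [List.length_cons]; omega, hxmem,
      (e.isWeaklyRegular_congr xs).1 hxreg, ?_⟩
    exact hxsoc.of_equiv (quotSmulEquiv e (Ideal.ofList xs))

lemma add_nat_cancel {a : WithBot ℕ∞} {k n : ℕ} (h : a + (k : WithBot ℕ∞) = ((n + k : ℕ) : WithBot ℕ∞)) :
    a = (n : WithBot ℕ∞) := by
  induction a with
  | bot =>
    exfalso
    rw [WithBot.bot_add] at h
    exact absurd h.symm (by exact_mod_cast WithBot.coe_ne_bot)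
  | coe x =>
    have h' : x + (k : ℕ∞) = ((n + k : ℕ) : ℕ∞) := by exact_mod_cast h
    induction x with
    | top =>
      exfalso
      rw [top_add] at h'
      exact absurd h'.symm (by exact_mod_cast ENat.natCast_ne_top (n + k))
    | coe m =>
      have : m + k = n + k := by exact_mod_cast h'
      have h2 : m = n := by omega
      rw [h2]; rfl

omit [IsNoetherianRing R] in
/-- The quotient of a Gorenstein local ring by a regular sequence is Gorenstein. -/
theorem GorLoc.quotient_list (h : GorLoc R) (qs : List R)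
    (hqmem : ∀ r ∈ qs, r ∈ maximalIdeal R) (hqreg : IsRegular R qs)
    [IsLocalRing (R ⧸ Ideal.ofList qs)] : GorLoc (R ⧸ Ideal.ofList qs) := by
  obtain ⟨hN, rs, hmem, hrs, hlen, hsoc⟩ := h
  have hsoc' : SimpleSocle R (R ⧸ (Ideal.ofList rs • ⊤ : Submodule R R)) :=
    hsoc.of_equiv (quotSelfEquiv rs).symm
  obtain ⟨xs, hxlen, hxmem, hxreg, hxsoc⟩ :=
    extend_list qs R rs hmem hrs.toIsWeaklyRegular hsoc' hqmem hqreg.toIsWeaklyRegular
  have hdim := ringKrullDim_add_length_eq_ringKrullDim_of_isRegular qs hqreg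
  refine GorLoc.of_surjective (R := R) Ideal.Quotient.mk_surjective xs hxmem
    (((quotSelfEquiv qs).isWeaklyRegular_congr xs).1 hxreg) ?_
    (hxsoc.of_equiv (quotSmulEquiv (quotSelfEquiv qs) _))
  rw [← hlen, ← hxlen] at hdim
  exact (add_nat_cancel hdim).symm

end Sequences

section Convert

/-- The two forms of the simple socle condition. -/
lemma isSimpleModule_socle_iff (R : Type u) [CommRing R] [IsLocalRing R] (I : Ideal R) :
    IsSimpleModule R (socle R I) ↔ SimpleSocle R (R ⧸ I) := by
  constructor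
  · intro h
    have hnt : Nontrivial (socle R I) := IsSimpleModule.nontrivial R _
    obtain ⟨s, hs⟩ := exists_ne (0 : socle R I)
    refine ⟨s.1, fun h0 => hs (Subtype.ext h0), s.2, ?_⟩
    intro t ht
    have h1 : Submodule.span R {s} = ⊤ := by
      rcases eq_bot_or_eq_top (Submodule.span R {s}) with h | h
      · exact absurd (Submodule.span_singleton_eq_bot.1 h) hs
      · exact h
    have h2 : (⟨t, ht⟩ : socle R I) ∈ Submodule.span R {s} := by
      rw [h1]; trivial
    obtain ⟨c, hc⟩ := Submodule.mem_span_singleton.1 h2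
    exact ⟨c, (congrArg Subtype.val hc).symm⟩
  · rintro ⟨s, hs, h1, h2⟩
    have hnt : Nontrivial (socle R I) :=
      ⟨⟨⟨s, h1⟩, 0, fun h => hs (congrArg Subtype.val h)⟩⟩
    refine { toIsSimpleOrder := { eq_bot_or_eq_top := fun N => ?_ } }
    by_cases hN : N = ⊥
    · exact Or.inl hN
    · refine Or.inr ?_
      obtain ⟨t, htN, ht0⟩ := (Submodule.ne_bot_iff N).1 hN
      obtain ⟨c, hc⟩ := h2 t.1 t.2
      have hcu : IsUnit c := by
        by_contra hcu
        apply ht0
        apply Subtype.ext
        rw [hc]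
        exact h1 c hcu
      obtain ⟨c, rfl⟩ := hcu
      have hsN : (⟨s, h1⟩ : socle R I) ∈ N := by
        have : (⟨s, h1⟩ : socle R I) = (↑c⁻¹ : R) • t := by
          apply Subtype.ext
          change s = (↑c⁻¹ : R) • t.1
          rw [hc, smul_smul, Units.inv_mul, one_smul]
        rw [this]
        exact N.smul_mem _ htN
      rw [eq_top_iff]
      intro x _
      obtain ⟨d, hd⟩ := h2 x.1 x.2
      have : x = d • (⟨s, h1⟩ : socle R I) := Subtype.ext hd
      rw [this]
      exact N.smul_mem _ hsN

/-- The two definitions of a Gorenstein local ring agree. -/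
lemma gorLoc_iff (R : Type u) [CommRing R] [h : IsLocalRing R] :
    IsGorensteinLocal R ↔ GorLoc R := by
  constructor
  · rintro ⟨hl, hN, rs, h1, h2, h3, h4⟩
    exact ⟨hN, rs, h1, h2, h3, (isSimpleModule_socle_iff R _).1 h4⟩
  · rintro ⟨hN, rs, h1, h2, h3, h4⟩
    exact ⟨h, hN, rs, h1, h2, h3, (isSimpleModule_socle_iff R _).2 h4⟩

end Convert

/-- (G1) -/
theorem socleIndep : SocleIndep := by
  intro R _ _ _ rs rs' hmem hmem' hreg hreg' hlen h
  rw [isSimpleModule_socle_iff] at h ⊢
  have h1 : SimpleSocle R (R ⧸ (Ideal.ofList rs • ⊤ : Submodule R R)) :=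
    h.of_equiv (quotSelfEquiv rs).symm
  exact (simpleSocle_of_length_eq rs.length R rs rs' rfl hlen.symm hmem hreg.toIsWeaklyRegular h1
    hmem' hreg'.toIsWeaklyRegular).of_equiv (quotSelfEquiv rs')

/-- (G2) -/
theorem ciGorenstein : CIGorenstein := by
  intro R _ _ qs hmem hreg
  have hne : Ideal.ofList qs ≠ ⊤ := by
    intro h
    apply hreg.top_ne_smul
    rw [h]; simp
  have : Nontrivial (R ⧸ Ideal.ofList qs) := Ideal.Quotient.nontrivial_iff.2 hne
  have hloc : IsLocalRing (R ⧸ Ideal.ofList qs) :=
    IsLocalRing.of_surjective' (Ideal.Quotient.mk _) Ideal.Quotient.mk_surjective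
  rw [gorLoc_iff]
  exact (isGorensteinLocal_of_regular R).quotient_list qs hmem hreg

/-- The localisation of a quotient is the quotient of the localisation. -/
lemma exists_localization_quotient_equiv {B : Type u} [CommRing B] (I : Ideal B)
    (P : Ideal (B ⧸ I)) [hP : P.IsPrime] (Q : Ideal B) [hQ : Q.IsPrime]
    (hPQ : Q = P.comap (Ideal.Quotient.mk I)) :
    Nonempty ((Localization.AtPrime Q ⧸ I.map (algebraMap B (Localization.AtPrime Q))) ≃+*
      Localization.AtPrime P) := by
  have h1 : Algebra.algebraMapSubmonoid (B ⧸ I) Q.primeCompl = P.primeCompl := by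
    ext x
    constructor
    · rintro ⟨b, hb, rfl⟩ hbP
      apply hb
      rw [hPQ]
      exact hbP
    · intro hx
      obtain ⟨b, rfl⟩ := Ideal.Quotient.mk_surjective x
      refine ⟨b, fun hb => hx ?_, rfl⟩
      rw [SetLike.mem_coe, hPQ] at hb
      exact hb
  have h2 : IsLocalization (Algebra.algebraMapSubmonoid (B ⧸ I) Q.primeCompl)
      (Localization.AtPrime Q ⧸ I.map (algebraMap B (Localization.AtPrime Q))) := inferInstance
  rw [h1] at h2
  exact ⟨(IsLocalization.algEquiv P.primeCompl
    (Localization.AtPrime Q ⧸ I.map (algebraMap B (Localization.AtPrime Q)))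
    (Localization.AtPrime P)).toRingEquiv⟩

/-- Transport of the Gorenstein property along ring isomorphisms. -/
lemma isGorensteinLocal_of_ringEquiv {R : Type u} [CommRing R] {S : Type v} [CommRing S]
    (e : R ≃+* S) (h : IsGorensteinLocal R) : IsGorensteinLocal S := by
  have hR : IsLocalRing R := h.1
  have hS : IsLocalRing S := e.isLocalRing
  rw [gorLoc_iff] at h ⊢
  exact h.of_ringEquiv e

/-- (G3) -/
theorem ciGorensteinPoly : CIGorensteinPoly := by
  intro τ _ qs hreg P _
  set Q : Ideal (MvPolynomial τ ℂ) := P.comap (Ideal.Quotient.mk (Ideal.ofList qs)) with hQ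
  have hQp : Q.IsPrime := by rw [hQ]; infer_instance
  have hmem : ∀ q ∈ qs, q ∈ Q := by
    intro q hq
    rw [hQ, Ideal.mem_comap]
    have h0 : (Ideal.Quotient.mk (Ideal.ofList qs)) q = 0 :=
      Ideal.Quotient.eq_zero_iff_mem.2 (Ideal.subset_span hq)
    rw [h0]
    exact P.zero_mem
  have hreg' := hreg.isRegular_of_isLocalization_of_mem (Localization.AtPrime Q) Q hmem
  have hci := ciGorenstein (Localization.AtPrime Q)
    (qs.map (algebraMap (MvPolynomial τ ℂ) (Localization.AtPrime Q))) (by
      intro r hr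
      obtain ⟨q, hq, rfl⟩ := List.mem_map.1 hr
      rw [IsLocalization.AtPrime.to_map_mem_maximal_iff (Localization.AtPrime Q) Q]
      exact hmem q hq) hreg'
  obtain ⟨e⟩ := exists_localization_quotient_equiv (Ideal.ofList qs) P Q hQ
  refine isGorensteinLocal_of_ringEquiv ?_ hci
  exact (Ideal.quotientEquivAlgOfEq (Localization.AtPrime Q)
    (Ideal.map_ofList (algebraMap (MvPolynomial τ ℂ) (Localization.AtPrime Q)) qs).symm).toRingEquiv.trans e

end ClanGor.CommAlg
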