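import Mathlib

/-!
# Gorenstein orbit closures for `(p,2)`-clans: definitions (problem MP_fae1d7_ag)

* clans, the orbits `Q_γ` in the variety of complete flags of `ℂ^{p+q}`, pattern avoidance;
* Gorenstein local rings (Cohen–Macaulay of type one);
* the property that the closure `Y_γ` of `Q_γ` is Gorenstein, through the `n!` standard affine
  charts `w N⁻ F₀` (`w` a permutation matrix) of the flag variety.

No statement in this file is an assumption: it only contains definitions.
-/

namespace ClanGor

open MvPolynomial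

/-! ### Clans -/

/-- A letter of a clan: a sign or a natural number. -/
inductive Letter
  | plus
  | minus
  | num (k : ℕ)
deriving DecidableEq

variable {n : ℕ}

/-- Positions `a < b` carry the same natural number (an equal-integer pair). -/
def IsPair (c : Fin n → Letter) (a b : Fin n) : Prop :=
  a < b ∧ ∃ k, c a = Letter.num k ∧ c b = Letter.num k

/-- `c` is a `(p,q)`-clan: every natural number occurs exactly twice or not at all, and
`#{+} - #{-} = p - q`.  (Positions are numbered `0, …, p+q-1`.) -/
structure IsClan (p q : ℕ) (c : Fin (p + q) → Letter) : Prop where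
  twice : ∀ a k, c a = Letter.num k → ∃! b, b ≠ a ∧ c b = Letter.num k
  signs : (Nat.card {a // c a = Letter.plus} : ℤ) - Nat.card {a // c a = Letter.minus} = p - q

/-- `γ(i;+)`: the number of `+` among the first `i` letters plus the number of equal-integer pairs
with both positions among the first `i`. -/
noncomputable def gPlus (c : Fin n → Letter) (i : ℕ) : ℕ :=
  Nat.card {a : Fin n // a.val < i ∧ c a = Letter.plus} +
    Nat.card {x : Fin n × Fin n // IsPair c x.1 x.2 ∧ x.2.val < i}

/-- `γ(i;-)`: the same with `-` in place of `+`. -/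
noncomputable def gMinus (c : Fin n → Letter) (i : ℕ) : ℕ :=
  Nat.card {a : Fin n // a.val < i ∧ c a = Letter.minus} +
    Nat.card {x : Fin n × Fin n // IsPair c x.1 x.2 ∧ x.2.val < i}

/-- `γ(i;j)`: the number of equal-integer pairs whose first position is among the first `i` letters
and whose second position is *not* among the first `j` letters (`s ≤ i < j < t` in the usual
`1`-based numbering). -/
noncomputable def gPair (c : Fin n → Letter) (i j : ℕ) : ℕ :=
  Nat.card {x : Fin n × Fin n // IsPair c x.1 x.2 ∧ x.1.val < i ∧ j ≤ x.2.val}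

/-! ### Flags and orbits -/

/-- `F_i`: the span of the first `i` columns of the matrix `g`. -/
noncomputable def flagOf (g : Matrix (Fin n) (Fin n) ℂ) (i : ℕ) : Submodule ℂ (Fin n → ℂ) :=
  Submodule.span ℂ (Set.range fun a : {a : Fin n // a.val < i} => fun k => g k a)

/-- `E = ⟨e_1, …, e_p⟩`. -/
def subE (n p : ℕ) : Submodule ℂ (Fin n → ℂ) where
  carrier := {v | ∀ k : Fin n, p ≤ k.val → v k = 0}
  add_mem' {v w} hv hw k hk := by simp [hv k hk, hw k hk]
  zero_mem' _ _ := rfl
  smul_mem' a v hv k hk := by simp [hv k hk]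

/-- `E' = ⟨e_{p+1}, …, e_n⟩`. -/
def subE' (n p : ℕ) : Submodule ℂ (Fin n → ℂ) where
  carrier := {v | ∀ k : Fin n, k.val < p → v k = 0}
  add_mem' {v w} hv hw k hk := by simp [hv k hk, hw k hk]
  zero_mem' _ _ := rfl
  smul_mem' a v hv k hk := by simp [hv k hk]

/-- The projection `π` onto `E` along `E'`. -/
def projE (n p : ℕ) : (Fin n → ℂ) →ₗ[ℂ] (Fin n → ℂ) where
  toFun v k := if k.val < p then v k else 0
  map_add' v w := by ext k; by_cases h : k.val < p <;> simp [h]
  map_smul' a v := by ext k; by_cases h : k.val < p <;> simp [h]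

/-- The flag `F_0 ⊂ F_1 ⊂ ⋯ ⊂ F_n` of `g` lies in the orbit `Q_γ`. -/
def InOrbit (p : ℕ) (c : Fin n → Letter) (g : Matrix (Fin n) (Fin n) ℂ) : Prop :=
  (∀ i ≤ n, Module.finrank ℂ (flagOf g i ⊓ subE n p : Submodule ℂ (Fin n → ℂ)) = gPlus c i) ∧
  (∀ i ≤ n, Module.finrank ℂ (flagOf g i ⊓ subE' n p : Submodule ℂ (Fin n → ℂ)) = gMinus c i) ∧
  (∀ i j, i < j → j ≤ n →
    Module.finrank ℂ ((flagOf g i).map (projE n p) ⊔ flagOf g j : Submodule ℂ (Fin n → ℂ)) =
      j + gPair c i j)

/-! ### Gorenstein local rings -/

/-- The socle `{z : 𝔪 z = 0}` of `R / I`, for a local ring `R`. -/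
def socle (R : Type*) [CommRing R] [IsLocalRing R] (I : Ideal R) : Submodule R (R ⧸ I) where
  carrier := {z | ∀ a ∈ IsLocalRing.maximalIdeal R, a • z = 0}
  add_mem' {x y} hx hy a ha := by rw [smul_add, hx a ha, hy a ha, add_zero]
  zero_mem' a _ := smul_zero a
  smul_mem' r x hx a ha := by rw [smul_comm, hx a ha, smul_zero]

/-- `R` is a Gorenstein local ring: it is Noetherian, local, Cohen–Macaulay (there is an
`R`-regular sequence `rs` in the maximal ideal whose length is the Krull dimension of `R`) and of
Cohen–Macaulay type one (the socle of `R / (rs)`, a vector space over the residue field, is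
one-dimensional, i.e. a simple `R`-module). -/
def IsGorensteinLocal (R : Type*) [CommRing R] : Prop :=
  ∃ _ : IsLocalRing R, IsNoetherianRing R ∧
    ∃ rs : List R, (∀ r ∈ rs, r ∈ IsLocalRing.maximalIdeal R) ∧
      RingTheory.Sequence.IsRegular R rs ∧
      (rs.length : WithBot ℕ∞) = ringKrullDim R ∧
      IsSimpleModule R (socle R (Ideal.ofList rs))

/-! ### Coordinate rings and charts -/

/-- The coordinate ring of the Zariski closure of `S` in the affine space `ℂ^σ`. -/
abbrev coordRing {σ : Type*} (S : Set (σ → ℂ)) : Type _ :=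
  MvPolynomial σ ℂ ⧸ (vanishingIdeal ℂ S : Ideal (MvPolynomial σ ℂ))

/-- All local rings (at all prime ideals) of the Zariski closure of `S` are Gorenstein. -/
def GorSet {σ : Type*} (S : Set (σ → ℂ)) : Prop :=
  ∀ (P : Ideal (coordRing S)) [P.IsPrime], IsGorensteinLocal (Localization.AtPrime P)

/-- Index set of the entries strictly below the diagonal. -/
abbrev Low (n : ℕ) : Type := {x : Fin n × Fin n // x.2 < x.1}

/-- The lower unipotent matrix with entries `u` below the diagonal. -/
def unip {R : Type*} [Zero R] [One R] (u : Low n → R) : Matrix (Fin n) (Fin n) R :=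
  fun i j => if h : j < i then u ⟨(i, j), h⟩ else if i = j then 1 else 0

/-- The points `u` of the chart `w N⁻ F₀ ≅ ℂ^{n(n-1)/2}` whose flag lies in `Q_γ`.  The rows of
`unip u` are permuted by `w`; as `w` runs over all permutations these `n!` affine open charts
cover the flag variety, see `ChartCover` (proved in `ClanGor.Cover.chartCover`). -/
def chartSet (p : ℕ) (c : Fin n → Letter) (w : Equiv.Perm (Fin n)) : Set (Low n → ℂ) :=
  {u | InOrbit p c ((unip u).submatrix w id)}

/-- `Y_γ`, the closure of the orbit `Q_γ` in the flag variety, is Gorenstein: in each of the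
`n!` standard charts, all the local rings (at all prime ideals) of the coordinate ring
`ℂ[N⁻] / {P : P = 0 on Q_γ ∩ chart}` of `Y_γ ∩ chart` are Gorenstein. -/
def GorensteinClosure (p : ℕ) (c : Fin n → Letter) : Prop :=
  ∀ w : Equiv.Perm (Fin n), GorSet (chartSet p c w)

/-! ### Patterns -/

/-- `c` contains the pattern `d`. -/
def Contains {m : ℕ} (c : Fin n → Letter) (d : Fin m → Letter) : Prop :=
  ∃ f : Fin m → Fin n, StrictMono f ∧
    (∀ j, d j = Letter.plus → c (f j) = Letter.plus) ∧
    (∀ j, d j = Letter.minus → c (f j) = Letter.minus) ∧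
    (∀ j j' k, d j = Letter.num k → d j' = Letter.num k →
      ∃ k', c (f j) = Letter.num k' ∧ c (f j') = Letter.num k')

open Letter in
/-- `γ` avoids `1++-1`, `1-++1`, `1++221`, `122++1`, `1+212`, `121+2`. -/
def AvoidsAll (c : Fin n → Letter) : Prop :=
  ¬ Contains c ![num 1, plus, plus, minus, num 1] ∧
  ¬ Contains c ![num 1, minus, plus, plus, num 1] ∧
  ¬ Contains c ![num 1, plus, plus, num 2, num 2, num 1] ∧
  ¬ Contains c ![num 1, num 2, num 2, plus, plus, num 1] ∧
  ¬ Contains c ![num 1, plus, num 2, num 1, num 2] ∧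
  ¬ Contains c ![num 1, num 2, num 1, plus, num 2]

/-- The main statement. -/
def MainStatement : Prop :=
  ∀ p : ℕ, 2 ≤ p → ∀ c : Fin (p + 2) → Letter, IsClan p 2 c →
    (GorensteinClosure p c ↔ AvoidsAll c)

/-- The `n!` charts cover the flag variety: every complete flag (given by an invertible matrix `g`)
is the flag of `w · u` for a permutation matrix `w` and a lower unipotent matrix `u`. -/
def ChartCover : Prop :=
  ∀ (n : ℕ) (g : Matrix (Fin n) (Fin n) ℂ), IsUnit g.det →
    ∃ (w : Equiv.Perm (Fin n)) (u : Low n → ℂ),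
      ∀ i ≤ n, flagOf g i = flagOf ((unip u).submatrix w id) i

end ClanGor
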