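import Pool.Agent.ClanGor.Models

/-!
# MP_fae1d7_ag: sets which are dense in (affine space) × (2 × m matrices of rank ≤ 1)
-/

namespace ClanGor

open MvPolynomial

/-- The rank condition on the coordinates `i (a, j)` (with signs `ε`). -/
def RankOne {κ : Type} {m : ℕ} (i : Fin 2 × Fin m → κ) (ε : Fin 2 × Fin m → ℂ) (y : κ → ℂ) : Prop :=
  ∃ (l : Fin 2 → ℂ) (s : Fin m → ℂ), ∀ a j, ε (a, j) * y (i (a, j)) = l a * s j

section

variable {κ : Type} {m : ℕ}

open Classical in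
/-- Parametrisation of the set `RankOne`. -/
noncomputable def rankPar (i : Fin 2 × Fin m → κ) (ε : Fin 2 × Fin m → ℂ) :
    κ → MvPolynomial (κ ⊕ (Fin 2 ⊕ Fin m)) ℂ :=
  fun k => if h : ∃ x, i x = k then
      C (ε h.choose) * X (Sum.inr (Sum.inl h.choose.1)) * X (Sum.inr (Sum.inr h.choose.2))
    else X (Sum.inl k)

lemma eval_rankPar_of {i : Fin 2 × Fin m → κ} (hi : Function.Injective i) (ε : Fin 2 × Fin m → ℂ)
    (w : κ ⊕ (Fin 2 ⊕ Fin m) → ℂ) (x : Fin 2 × Fin m) :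
    eval w (rankPar i ε (i x)) = ε x * w (Sum.inr (Sum.inl x.1)) * w (Sum.inr (Sum.inr x.2)) := by
  have h : ∃ x', i x' = i x := ⟨x, rfl⟩
  have h2 : h.choose = x := hi h.choose_spec
  unfold rankPar
  rw [dif_pos h, h2]
  simp

lemma eval_rankPar_not {i : Fin 2 × Fin m → κ} (ε : Fin 2 × Fin m → ℂ)
    (w : κ ⊕ (Fin 2 ⊕ Fin m) → ℂ) {k : κ} (hk : ¬ ∃ x, i x = k) :
    eval w (rankPar i ε k) = w (Sum.inl k) := by
  unfold rankPar
  rw [dif_neg hk]
  simp

lemma rankOne_iff {i : Fin 2 × Fin m → κ} (hi : Function.Injective i) {ε : Fin 2 × Fin m → ℂ}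
    (hε : ∀ x, ε x * ε x = 1) (y : κ → ℂ) :
    RankOne i ε y ↔ ∃ w, (fun k => eval w (rankPar i ε k)) = y := by
  constructor
  · rintro ⟨l, s, h⟩
    refine ⟨Sum.elim y (Sum.elim l s), ?_⟩
    funext k
    by_cases hk : ∃ x, i x = k
    · obtain ⟨⟨a, j⟩, rfl⟩ := hk
      rw [eval_rankPar_of hi]
      simp only [Sum.elim_inr, Sum.elim_inl]
      rw [mul_assoc, ← h, ← mul_assoc, hε, one_mul]
    · rw [eval_rankPar_not ε _ hk]
      rfl
  · rintro ⟨w, rfl⟩
    refine ⟨fun a => w (Sum.inr (Sum.inl a)), fun j => w (Sum.inr (Sum.inr j)), fun a j => ?_⟩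
    beta_reduce
    rw [eval_rankPar_of hi, ← mul_assoc, ← mul_assoc, hε, one_mul]

lemma eval_aeval {σ ω : Type} (f : σ → MvPolynomial ω ℂ) (P : MvPolynomial σ ℂ) (w : ω → ℂ) :
    eval w (aeval f P) = eval (fun k => eval w (f k)) P := by
  have h1 := MvPolynomial.comp_aeval_apply (φ := (aeval w : MvPolynomial ω ℂ →ₐ[ℂ] ℂ)) f P
  simp only [aeval_eq_eval] at h1
  exact h1

/-- Density: a set sandwiched between `RankOne ∩ {h ≠ 0}` and `RankOne`. -/
lemma vanishing_rankOne {i : Fin 2 × Fin m → κ} (hi : Function.Injective i)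
    {ε : Fin 2 × Fin m → ℂ} (hε : ∀ x, ε x * ε x = 1) (S : Set (κ → ℂ)) (h : MvPolynomial κ ℂ)
    (h1 : ∀ y ∈ S, RankOne i ε y) (h2 : ∀ y, RankOne i ε y → eval y h ≠ 0 → y ∈ S)
    (h3 : ∃ y, RankOne i ε y ∧ eval y h ≠ 0) :
    (vanishingIdeal ℂ S : Ideal (MvPolynomial κ ℂ)) = vanishingIdeal ℂ {y | RankOne i ε y} := by
  apply le_antisymm
  · intro P hP
    rw [mem_vanIdeal] at hP ⊢
    have hz : aeval (rankPar i ε) P * aeval (rankPar i ε) h = 0 := by
      rw [← map_mul]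
      apply MvPolynomial.funext
      intro w
      rw [eval_aeval, map_zero, map_mul]
      by_cases h0 : eval (fun k => eval w (rankPar i ε k)) h = 0
      · rw [h0, mul_zero]
      · rw [hP _ (h2 _ ((rankOne_iff hi hε _).2 ⟨w, rfl⟩) h0), zero_mul]
    have hh : aeval (rankPar i ε) h ≠ 0 := by
      intro h0
      obtain ⟨y, hy, hyh⟩ := h3
      obtain ⟨w, rfl⟩ := (rankOne_iff hi hε y).1 hy
      apply hyh
      rw [← eval_aeval, h0, map_zero]
    have hP0 : aeval (rankPar i ε) P = 0 := (mul_eq_zero.1 hz).resolve_right hh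
    intro y hy
    obtain ⟨w, rfl⟩ := (rankOne_iff hi hε y).1 hy
    rw [← eval_aeval, hP0, map_zero]
  · exact vanishingIdeal_anti_mono h1

/-- Reordering the coordinates. -/
lemma polyIso_rankOne {i : Fin 2 × Fin m → κ} (hi : Function.Injective i)
    {ε : Fin 2 × Fin m → ℂ} (hε : ∀ x, ε x * ε x = 1) :
    PolyIso {y : κ → ℂ | RankOne i ε y} (segreSet {k : κ // ¬ ∃ x, i x = k} m) := by
  classical
  refine ⟨Sum.elim (fun k => X k.1) (fun x => C (ε x) * X (i x)),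
    fun k => if h : ∃ x, i x = k then C (ε h.choose) * X (Sum.inr h.choose)
      else X (Sum.inl ⟨k, h⟩), ?_, ?_, ?_, ?_⟩
  · rintro y ⟨l, s, h⟩
    exact ⟨l, s, fun a j => by simpa using h a j⟩
  · rintro z ⟨l, s, h⟩
    refine ⟨l, s, fun a j => ?_⟩
    have hx : ∃ x', i x' = i (a, j) := ⟨_, rfl⟩
    have hx2 : hx.choose = (a, j) := hi hx.choose_spec
    beta_reduce
    rw [dif_pos hx, hx2, map_mul, eval_C, eval_X, ← mul_assoc, hε, one_mul, h]
  · intro y hy k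
    beta_reduce
    by_cases hk : ∃ x, i x = k
    · rw [dif_pos hk, map_mul, eval_C, eval_X]
      simp only [Sum.elim_inr, map_mul, eval_C, eval_X]
      rw [← mul_assoc, hε, one_mul, hk.choose_spec]
    · rw [dif_neg hk, eval_X]
      simp
  · intro z hz j
    rcases j with k | x
    · simp only [Sum.elim_inl, eval_X]
      rw [dif_neg k.2, eval_X]
    · simp only [Sum.elim_inr, map_mul, eval_C, eval_X]
      have hx : ∃ x', i x' = i x := ⟨_, rfl⟩
      have hx2 : hx.choose = x := hi hx.choose_spec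
      rw [dif_pos hx, hx2, map_mul, eval_C, eval_X, ← mul_assoc, hε, one_mul]

end

/-- A set dense in (affine space) × (2 × m matrices of rank ≤ 1), `m ≥ 3`, is not Gorenstein. -/
theorem not_gorSet_of_rankOne (hN : SegreNotGor) {κ : Type} [Finite κ] {m : ℕ} (hm : 3 ≤ m)
    {i : Fin 2 × Fin m → κ} (hi : Function.Injective i)
    {ε : Fin 2 × Fin m → ℂ} (hε : ∀ x, ε x * ε x = 1) (S : Set (κ → ℂ)) (h : MvPolynomial κ ℂ)
    (h1 : ∀ y ∈ S, RankOne i ε y) (h2 : ∀ y, RankOne i ε y → eval y h ≠ 0 → y ∈ S)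
    (h3 : ∃ y, RankOne i ε y ∧ eval y h ≠ 0) : ¬ GorSet S := by
  intro hG
  have e1 := vanishing_rankOne hi hε S h h1 h2 h3
  have hG2 : GorSet {y : κ → ℂ | RankOne i ε y} :=
    GorRing.of_ringEquiv (Ideal.quotEquivOfEq e1) hG
  exact hN _ m hm ((polyIso_rankOne hi hε).gorSet hG2)

/-- The same for cylinders. -/
theorem not_gorSet_of_segre (hN : SegreNotGor) (B : Type) {κ : Type} [Finite B] [Finite κ] {m : ℕ}
    (hm : 3 ≤ m) (S : Set (κ → ℂ)) (i : Fin 2 × Fin m → κ) (hi : Function.Injective i)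
    (ε : Fin 2 × Fin m → ℂ) (hε : ∀ x, ε x * ε x = 1) (h : MvPolynomial κ ℂ)
    (h1 : ∀ y ∈ S, RankOne i ε y) (h2 : ∀ y, RankOne i ε y → eval y h ≠ 0 → y ∈ S)
    (h3 : ∃ y, RankOne i ε y ∧ eval y h ≠ 0) : ¬ GorSet (cyl B S) := by
  refine not_gorSet_of_rankOne hN hm (i := fun x => (Sum.inr (i x) : B ⊕ κ)) ?_ hε (cyl B S)
    (rename Sum.inr h) ?_ ?_ ?_
  · exact fun a b hab => hi (Sum.inr_injective hab)
  · intro y hy
    exact h1 _ hy
  · intro y hy hyh
    rw [eval_rename] at hyh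
    exact h2 _ hy hyh
  · obtain ⟨y, hy, hyh⟩ := h3
    refine ⟨Sum.elim (fun _ => 0) y, hy, ?_⟩
    rw [eval_rename]
    exact hyh

end ClanGor
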