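import Pool.Agent.ClanGor.ModelP2
import Pool.Agent.ClanGor.SegreModel

/-!
# MP_fae1d7_ag: the model N1 (linked type `1212`, chart `s = a₂`, `t = b₁`)
-/

namespace ClanGor

open MvPolynomial

variable {n : ℕ}

theorem nrm_of_mayFree {A : Type*} [CommRing A] {s t : Fin n} {Y : RC n → A} {x : RC n}
    (h : MayFree s t x) : nrm s t Y x = Y x := by
  rcases x with ⟨e, j⟩ | ⟨e, k⟩
  · fin_cases e
    · simp only [MayFree, Fin.zero_eta, if_true] at h
      change nrm s t Y (Sum.inl (0, j)) = _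
      rw [nrm_r0, if_neg h.ne, add_zero]; rfl
    · simp [MayFree] at h
      change nrm s t Y (Sum.inl (1, j)) = _
      rw [nrm_r1, if_neg h.1.ne, add_zero]; rfl
  · fin_cases e
    · simp [MayFree] at h
      change nrm s t Y (Sum.inr (0, k)) = _
      rw [nrm_c0, if_neg h.1.ne', if_neg h.2, add_zero, sub_zero]; rfl
    · simp [MayFree] at h
      change nrm s t Y (Sum.inr (1, k)) = _
      rw [nrm_c1, if_neg h.ne', add_zero]; rfl

namespace N1

/-- the position of the entry `x` of the `2 × m` matrix -/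
def idx (a₁ a₂ b₁ b₂ : Fin n) (x : Fin 2 × Fin ((a₂.val - a₁.val) + (b₂.val - b₁.val))) : RC n :=
  if h : x.2.val < a₂.val - a₁.val then Sum.inl (x.1, ⟨a₁.val + x.2.val, by omega⟩)
  else Sum.inr (1 - x.1, ⟨b₁.val + 1 + (x.2.val - (a₂.val - a₁.val)), by omega⟩)

lemma free_l0 {a b s t j : Fin n} : P2.free a b s t (Sum.inl (0, j)) ↔ a ≤ j ∧ j < s := by
  simp [P2.free]

lemma free_l1 {a b s t j : Fin n} :
    P2.free a b s t (Sum.inl (1, j)) ↔ a ≤ j ∧ j < t ∧ j ≠ s := by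
  simp [P2.free]

lemma free_r0 {a b s t k : Fin n} :
    P2.free a b s t (Sum.inr (0, k)) ↔ s < k ∧ k ≠ t ∧ k ≤ b := by
  simp [P2.free]

lemma free_r1 {a b s t k : Fin n} : P2.free a b s t (Sum.inr (1, k)) ↔ t < k ∧ k ≤ b := by
  simp [P2.free]

lemma idx_free {a₁ a₂ b₁ b₂ : Fin n} (h12 : a₁ < a₂) (h3 : a₂ < b₁) (h4 : b₁ < b₂)
    (x : Fin 2 × Fin ((a₂.val - a₁.val) + (b₂.val - b₁.val))) :
    P2.free a₁ b₂ a₂ b₁ (idx a₁ a₂ b₁ b₂ x) := by
  obtain ⟨e, j⟩ := x
  have hj := j.2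
  rw [Fin.lt_def] at h12 h3 h4
  unfold idx
  split_ifs with h
  · simp only at h
    fin_cases e
    · refine free_l0.2 ⟨?_, ?_⟩
      · rw [Fin.le_def]; simp only; omega
      · rw [Fin.lt_def]; simp only; omega
    · refine free_l1.2 ⟨?_, ?_, ?_⟩
      · rw [Fin.le_def]; simp only; omega
      · rw [Fin.lt_def]; simp only; omega
      · intro h; have := congrArg Fin.val h; simp only at this; omega
  · simp only at h
    fin_cases e
    · refine free_r1.2 ⟨?_, ?_⟩
      · rw [Fin.lt_def]; simp only; omega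
      · rw [Fin.le_def]; simp only; omega
    · refine free_r0.2 ⟨?_, ?_, ?_⟩
      · rw [Fin.lt_def]; simp only; omega
      · intro h; have := congrArg Fin.val h; simp only at this; omega
      · rw [Fin.le_def]; simp only; omega

lemma idx_inj {a₁ a₂ b₁ b₂ : Fin n} : Function.Injective (idx a₁ a₂ b₁ b₂) := by
  rintro ⟨e, j⟩ ⟨e', j'⟩ h
  unfold idx at h
  simp only at h
  split_ifs at h with h1 h2 h2
  · simp only [Sum.inl.injEq, Prod.mk.injEq, Fin.mk.injEq] at h
    refine Prod.ext h.1 (Fin.ext ?_)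
    simp only
    omega
  · simp only [Sum.inr.injEq, Prod.mk.injEq, Fin.mk.injEq, sub_right_inj] at h
    refine Prod.ext h.1 (Fin.ext ?_)
    simp only
    omega

/-- the signs -/
def sgn (a₁ a₂ b₁ b₂ : Fin n) (x : Fin 2 × Fin ((a₂.val - a₁.val) + (b₂.val - b₁.val))) : ℂ :=
  if x.2.val < a₂.val - a₁.val then 1 else if x.1 = 0 then -1 else 1

/-- the rank condition in terms of the entries -/
lemma rankOne_iff' {a₁ a₂ b₁ b₂ : Fin n} (h12 : a₁ < a₂) (h3 : a₂ < b₁) (h4 : b₁ < b₂)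
    (y : {x : RC n // P2.free a₁ b₂ a₂ b₁ x} → ℂ) (v : RC n → ℂ)
    (hv : ∀ x (hx : P2.free a₁ b₂ a₂ b₁ x), v x = y ⟨x, hx⟩) :
    RankOne (fun x => (⟨idx a₁ a₂ b₁ b₂ x, idx_free h12 h3 h4 x⟩ : {x // P2.free a₁ b₂ a₂ b₁ x}))
      (sgn a₁ a₂ b₁ b₂) y ↔
    ∃ (l₀ l₁ : ℂ) (sx sz : Fin n → ℂ),
      (∀ j, a₁ ≤ j → j < a₂ → v (Sum.inl (0, j)) = l₀ * sx j ∧ v (Sum.inl (1, j)) = l₁ * sx j) ∧
      (∀ k, b₁ < k → k ≤ b₂ → v (Sum.inr (1, k)) = -(l₀ * sz k) ∧
        v (Sum.inr (0, k)) = l₁ * sz k) := by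
  rw [Fin.lt_def] at h12 h3 h4
  constructor
  · rintro ⟨l, s, h⟩
    refine ⟨l 0, l 1,
      fun j => if h : j.val - a₁.val < (a₂.val - a₁.val) + (b₂.val - b₁.val) then
        s ⟨j.val - a₁.val, h⟩ else 0,
      fun k => if h : (a₂.val - a₁.val) + (k.val - b₁.val - 1) <
          (a₂.val - a₁.val) + (b₂.val - b₁.val) then
        s ⟨(a₂.val - a₁.val) + (k.val - b₁.val - 1), h⟩ else 0, ?_, ?_⟩
    · intro j hj1 hj2
      rw [Fin.le_def] at hj1
      rw [Fin.lt_def] at hj2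
      have hlt : j.val - a₁.val < (a₂.val - a₁.val) + (b₂.val - b₁.val) := by omega
      simp only [dif_pos hlt]
      have key : ∀ e : Fin 2, v (Sum.inl (e, j)) = l e * s ⟨j.val - a₁.val, hlt⟩ := by
        intro e
        rw [← h e ⟨j.val - a₁.val, hlt⟩, ← hv]
        have e1 : idx a₁ a₂ b₁ b₂ (e, ⟨j.val - a₁.val, hlt⟩) = Sum.inl (e, j) := by
          unfold idx
          rw [dif_pos (by simp only; omega)]
          congr 2
          exact Fin.ext (by simp only; omega)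
        have e2 : sgn a₁ a₂ b₁ b₂ (e, ⟨j.val - a₁.val, hlt⟩) = 1 := by
          unfold sgn
          rw [if_pos (by simp only; omega)]
        rw [e1, e2, one_mul]
      exact ⟨key 0, key 1⟩
    · intro k hk1 hk2
      rw [Fin.le_def] at hk2
      rw [Fin.lt_def] at hk1
      have hlt : (a₂.val - a₁.val) + (k.val - b₁.val - 1) <
          (a₂.val - a₁.val) + (b₂.val - b₁.val) := by omega
      simp only [dif_pos hlt]
      have e1 : ∀ e, idx a₁ a₂ b₁ b₂ (e, ⟨(a₂.val - a₁.val) + (k.val - b₁.val - 1), hlt⟩) =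
          Sum.inr (1 - e, k) := by
        intro e
        unfold idx
        rw [dif_neg (by simp only; omega)]
        congr 2
        exact Fin.ext (by simp only; omega)
      constructor
      · rw [← h 0 ⟨(a₂.val - a₁.val) + (k.val - b₁.val - 1), hlt⟩, ← hv, e1]
        have e2 : sgn a₁ a₂ b₁ b₂ (0, ⟨(a₂.val - a₁.val) + (k.val - b₁.val - 1), hlt⟩) = -1 := by
          unfold sgn
          rw [if_neg (by simp only; omega), if_pos rfl]
        rw [e2]
        simp
      · rw [← h 1 ⟨(a₂.val - a₁.val) + (k.val - b₁.val - 1), hlt⟩, ← hv, e1]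
        have e2 : sgn a₁ a₂ b₁ b₂ (1, ⟨(a₂.val - a₁.val) + (k.val - b₁.val - 1), hlt⟩) = 1 := by
          unfold sgn
          rw [if_neg (by simp only; omega), if_neg (by simp)]
        rw [e2]
        simp
  · rintro ⟨l₀, l₁, sx, sz, hx, hz⟩
    refine ⟨![l₀, l₁], fun j => if h : j.val < a₂.val - a₁.val then
        sx ⟨a₁.val + j.val, by omega⟩ else sz ⟨b₁.val + 1 + (j.val - (a₂.val - a₁.val)), by omega⟩,
      ?_⟩
    intro e j
    have hj := j.2
    by_cases h : j.val < a₂.val - a₁.val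
    · simp only [dif_pos h]
      have e1 : idx a₁ a₂ b₁ b₂ (e, j) = Sum.inl (e, ⟨a₁.val + j.val, by omega⟩) := by
        unfold idx; rw [dif_pos h]
      have e2 : sgn a₁ a₂ b₁ b₂ (e, j) = 1 := by
        unfold sgn; rw [if_pos h]
      rw [← hv, e1, e2, one_mul]
      have h5 := hx ⟨a₁.val + j.val, by omega⟩ (by rw [Fin.le_def]; simp)
        (by rw [Fin.lt_def]; simp only; omega)
      fin_cases e
      · exact h5.1
      · exact h5.2
    · simp only [dif_neg h]
      have e1 : idx a₁ a₂ b₁ b₂ (e, j) =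
          Sum.inr (1 - e, ⟨b₁.val + 1 + (j.val - (a₂.val - a₁.val)), by omega⟩) := by
        unfold idx; rw [dif_neg h]
      rw [← hv, e1]
      have h5 := hz ⟨b₁.val + 1 + (j.val - (a₂.val - a₁.val)), by omega⟩
        (by rw [Fin.lt_def]; simp only; omega) (by rw [Fin.le_def]; simp only; omega)
      fin_cases e
      · have e2 : sgn a₁ a₂ b₁ b₂ (0, j) = -1 := by
          unfold sgn; rw [if_neg h, if_pos rfl]
        simp only [Fin.zero_eta]
        rw [e2]
        have := h5.1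
        simp only [sub_zero, Matrix.cons_val_zero]
        rw [this]; ring
      · have e2 : sgn a₁ a₂ b₁ b₂ (1, j) = 1 := by
          unfold sgn; rw [if_neg h, if_neg (by simp)]
        simp only [Fin.mk_one]
        rw [e2]
        have := h5.2
        simp only [sub_self, Matrix.cons_val_one, Matrix.cons_val_fin_one]
        rw [this]; ring

/-- the polynomial `h` -/
noncomputable def hpol (a₁ a₂ b₁ b₂ : Fin n) :
    MvPolynomial {x : RC n // P2.free a₁ b₂ a₂ b₁ x} ℂ :=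
  phi a₂ b₁ (P2.free a₁ b₂ a₂ b₁) (Sum.inl (1, a₁)) *
  phi a₂ b₁ (P2.free a₁ b₂ a₂ b₁) (Sum.inr (0, b₂)) *
  (phi a₂ b₁ (P2.free a₁ b₂ a₂ b₁) (Sum.inr (0, b₁)) *
    phi a₂ b₁ (P2.free a₁ b₂ a₂ b₁) (Sum.inl (0, a₁)) +
   phi a₂ b₁ (P2.free a₁ b₂ a₂ b₁) (Sum.inl (1, a₁)))

end N1

open N1 in
theorem modelN1 (hN : SegreNotGor) : ModelN1 := by
  intro n a₁ a₂ b₁ b₂ B _ h12 h3 h4 hsum hG
  have hiso := P2.iso (a₁ := a₁) (a₂ := a₂) (b₁ := b₁) (b₂ := b₂) (s := a₂) (t := b₁) B h3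
  have hG2 := hiso.gorSet hG
  have hv : ∀ (y : {x : RC n // P2.free a₁ b₂ a₂ b₁ x} → ℂ) (x : RC n)
      (hx : P2.free a₁ b₂ a₂ b₁ x),
      nrm a₂ b₁ (ext0 (P2.free a₁ b₂ a₂ b₁) y) x = y ⟨x, hx⟩ := by
    intro y x hx
    rw [nrm_of_mayFree (P2.free_may hx), ext0_of hx]
  have ha₁l : P2.free a₁ b₂ a₂ b₁ (Sum.inl (0, a₁)) := free_l0.2 ⟨le_rfl, h12⟩
  refine not_gorSet_of_segre hN B (m := (a₂.val - a₁.val) + (b₂.val - b₁.val)) ?_ _
    (fun x => (⟨idx a₁ a₂ b₁ b₂ x, idx_free h12 h3 h4 x⟩ : {x // P2.free a₁ b₂ a₂ b₁ x}))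
    ?_ (sgn a₁ a₂ b₁ b₂) ?_ (hpol a₁ a₂ b₁ b₂) ?_ ?_ ?_ hG2
  · rw [Fin.lt_def] at h12 h4
    omega
  · intro x x' h
    exact idx_inj (congrArg Subtype.val h)
  · intro x
    unfold sgn
    split_ifs <;> norm_num
  · -- points of the set satisfy the rank condition
    rintro y ⟨hn, hp⟩
    rw [rankOne_iff' h12 h3 h4 y _ (hv y)]
    set v := nrm a₂ b₁ (ext0 (P2.free a₁ b₂ a₂ b₁) y) with hvdef
    have hr1 : v (Sum.inl (1, a₁)) ≠ 0 := by
      have h := hp.rdet
      have e1 := hn.r1s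
      have e0 := hn.r0s
      simp only [rMat] at h e1 e0
      intro h0
      apply h
      rw [e1, h0]; ring
    have hc0 : v (Sum.inr (0, b₂)) ≠ 0 := by
      intro h0
      have hl := hp.link rfl
      have hcd := hp.cdet
      simp only [rMat, cMat] at hl hcd
      rw [h0] at hl hcd
      have h1 : v (Sum.inr (1, b₂)) = 0 := by
        have : v (Sum.inr (1, b₂)) * v (Sum.inl (1, a₁)) = 0 := by linear_combination hl
        exact (mul_eq_zero.1 this).resolve_right hr1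
      apply hcd
      rw [h1]; ring
    refine ⟨v (Sum.inl (0, a₁)), v (Sum.inl (1, a₁)),
      fun j => v (Sum.inl (1, j)) / v (Sum.inl (1, a₁)),
      fun k => v (Sum.inr (0, k)) / v (Sum.inl (1, a₁)), ?_, ?_⟩
    · intro j hj1 hj2
      have h := hp.rline j hj2
      simp only [rMat] at h
      constructor
      · field_simp
        linear_combination h
      · field_simp
    · intro k hk1 hk2
      have h := hp.cline k hk1
      have hl := hp.link rfl
      simp only [rMat, cMat] at h hl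
      constructor
      · field_simp
        have : v (Sum.inr (0, b₂)) * (v (Sum.inr (1, k)) * v (Sum.inl (1, a₁)) +
            v (Sum.inl (0, a₁)) * v (Sum.inr (0, k))) = 0 := by
          linear_combination (-v (Sum.inl (1, a₁))) * h + v (Sum.inr (0, k)) * hl
        have h2 := (mul_eq_zero.1 this).resolve_left hc0
        linear_combination h2
      · field_simp
  · intro y hy hyh
    rw [rankOne_iff' h12 h3 h4 y _ (hv y)] at hy
    unfold hpol at hyh
    simp only [map_mul, map_add, eval_phi] at hyh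
    have hYf : ∀ x, ¬ P2.free a₁ b₂ a₂ b₁ x → ext0 (P2.free a₁ b₂ a₂ b₁) y x = 0 :=
      fun x hx => ext0_of_not hx
    have hnorm := rcNorm_nrm h3 (ext0 (P2.free a₁ b₂ a₂ b₁) y)
      (fun x hx => hYf x fun h => hx (P2.free_may h))
    change nrm a₂ b₁ (ext0 (P2.free a₁ b₂ a₂ b₁) y) ∈ rcSet true a₁ a₂ b₁ b₂ a₂ b₁
    have hr0 : ∀ j, j < a₁ → ∀ e,
        rMat (nrm a₂ b₁ (ext0 (P2.free a₁ b₂ a₂ b₁) y)) e j = 0 := by
      intro j hj e
      fin_cases e
      · change nrm a₂ b₁ _ (Sum.inl (0, j)) = 0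
        rw [nrm_r0, if_neg (hj.trans h12).ne, add_zero]
        apply hYf; rw [free_l0]; exact fun h => absurd h.1 (not_le.mpr hj)
      · change nrm a₂ b₁ _ (Sum.inl (1, j)) = 0
        rw [nrm_r1, if_neg ((hj.trans h12).trans h3).ne, add_zero]
        apply hYf; rw [free_l1]; exact fun h => absurd h.1 (not_le.mpr hj)
    have hc0 : ∀ k, b₂ < k → ∀ e,
        cMat (nrm a₂ b₁ (ext0 (P2.free a₁ b₂ a₂ b₁) y)) k e = 0 := by
      intro k hk e
      fin_cases e
      · change nrm a₂ b₁ _ (Sum.inr (0, k)) = 0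
        rw [nrm_c0, if_neg ((h3.trans h4).trans hk).ne', if_neg (h4.trans hk).ne',
          add_zero, sub_zero]
        apply hYf; rw [free_r0]; exact fun h => absurd h.2.2 (not_le.mpr hk)
      · change nrm a₂ b₁ _ (Sum.inr (1, k)) = 0
        rw [nrm_c1, if_neg (h4.trans hk).ne', add_zero]
        apply hYf; rw [free_r1]; exact fun h => absurd h.2 (not_le.mpr hk)
    set v := nrm a₂ b₁ (ext0 (P2.free a₁ b₂ a₂ b₁) y) with hvdef
    obtain ⟨l₀, l₁, sx, sz, hx, hz⟩ := hy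
    obtain ⟨e1, e2⟩ := hx a₁ le_rfl h12
    obtain ⟨e3, e4⟩ := hz b₂ h4 le_rfl
    have k1 := left_ne_zero_of_mul (left_ne_zero_of_mul hyh)
    have k2 := right_ne_zero_of_mul (left_ne_zero_of_mul hyh)
    have k3 := right_ne_zero_of_mul hyh
    have n1 := hnorm.r1s
    have n0 := hnorm.r0s
    have n2 := hnorm.c1t
    simp only [rMat, cMat] at n1 n0 n2
    refine ⟨hnorm, hr0, ?_, ?_, hc0, ?_, ?_, ?_, fun h => absurd h (by simp)⟩
    · intro j hj
      by_cases hj1 : j < a₁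
      · rw [hr0 j hj1, hr0 j hj1]; ring
      · obtain ⟨f1, f2⟩ := hx j (not_lt.mp hj1) hj
        simp only [rMat]
        rw [f1, f2, e1, e2]; ring
    · simp only [rMat]
      rw [n1, n0]
      intro h
      apply k1
      linear_combination -h
    · intro k hk
      by_cases hk2 : b₂ < k
      · rw [hc0 k hk2, hc0 k hk2]; ring
      · obtain ⟨f1, f2⟩ := hz k hk (not_lt.mp hk2)
        simp only [cMat]
        rw [f1, f2, e3, e4]; ring
    · simp only [cMat]
      rw [n2]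
      intro h
      apply mul_ne_zero k2 k3
      rw [e3, e4] at h
      rw [e1, e2, e4]
      linear_combination (-(l₁ * sx a₁)) * h
    · intro _
      simp only [rMat, cMat]
      rw [e1, e2, e3, e4]; ring
  · -- a point
    refine ⟨fun x => if (∃ j, j < a₂ ∧ x.1 = Sum.inl (1, j)) ∨ (∃ k, b₁ < k ∧ x.1 = Sum.inr (0, k))
      then 1 else 0, ?_, ?_⟩
    · rw [rankOne_iff' h12 h3 h4 _ _ (hv _)]
      refine ⟨0, 1, fun _ => 1, fun _ => 1, ?_, ?_⟩
      · intro j hj1 hj2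
        constructor
        · rw [hv _ _ (free_l0.2 ⟨hj1, hj2⟩), if_neg]
          · ring
          · rintro (⟨_, _, h⟩ | ⟨_, _, h⟩) <;> simp at h
        · rw [hv _ _ (free_l1.2 ⟨hj1, hj2.trans h3, hj2.ne⟩), if_pos]
          · ring
          · exact Or.inl ⟨j, hj2, rfl⟩
      · intro k hk1 hk2
        constructor
        · rw [hv _ _ (free_r1.2 ⟨hk1, hk2⟩), if_neg]
          · ring
          · rintro (⟨_, _, h⟩ | ⟨_, _, h⟩) <;> simp at h
        · rw [hv _ _ (free_r0.2 ⟨h3.trans hk1, hk1.ne', hk2⟩), if_pos]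
          · ring
          · exact Or.inr ⟨k, hk1, rfl⟩
    · unfold hpol
      simp only [map_mul, map_add, eval_phi]
      rw [hv _ _ (free_l1.2 ⟨le_rfl, h12.trans h3, h12.ne⟩),
        hv _ _ (free_r0.2 ⟨h3.trans h4, h4.ne', le_rfl⟩), hv _ _ ha₁l]
      rw [if_pos (Or.inl ⟨a₁, h12, rfl⟩), if_pos (Or.inr ⟨b₂, h4, rfl⟩), if_neg]
      · simp
      · rintro (⟨_, _, h⟩ | ⟨_, _, h⟩) <;> simp at h

end ClanGor
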