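import Pool.Agent.ClanGor.ModelN1

/-!
# MP_fae1d7_ag: the model N2 (nested, `b₂ ≥ b₁ + 3`, chart `s = a₁`, `t = b₁`)
-/

namespace ClanGor

open MvPolynomial

variable {n : ℕ}

namespace N2

/-- free coordinates -/
def free (a₁ a₂ b₁ b₂ : Fin n) : RC n → Prop
  | Sum.inl (e, j) => if e = 0 then False else a₂ ≤ j ∧ j < b₁
  | Sum.inr (e, k) => if e = 0 then a₁ < k ∧ k ≠ b₁ ∧ k ≤ b₂ else b₁ < k ∧ k ≤ b₂

instance (a₁ a₂ b₁ b₂ : Fin n) : DecidablePred (free a₁ a₂ b₁ b₂) := by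
  intro x
  rcases x with ⟨e, j⟩ | ⟨e, k⟩
  · unfold free; infer_instance
  · unfold free; infer_instance

variable {a₁ a₂ b₁ b₂ : Fin n}

lemma free_l0 {j : Fin n} : ¬ free a₁ a₂ b₁ b₂ (Sum.inl (0, j)) := by
  simp [free]

lemma free_l1 {j : Fin n} : free a₁ a₂ b₁ b₂ (Sum.inl (1, j)) ↔ a₂ ≤ j ∧ j < b₁ := by
  simp [free]

lemma free_r0 {k : Fin n} :
    free a₁ a₂ b₁ b₂ (Sum.inr (0, k)) ↔ a₁ < k ∧ k ≠ b₁ ∧ k ≤ b₂ := by
  simp [free]

lemma free_r1 {k : Fin n} : free a₁ a₂ b₁ b₂ (Sum.inr (1, k)) ↔ b₁ < k ∧ k ≤ b₂ := by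
  simp [free]

lemma free_may (h12 : a₁ < a₂) {x : RC n} (h : free a₁ a₂ b₁ b₂ x) : MayFree a₁ b₁ x := by
  rcases x with ⟨e, j⟩ | ⟨e, k⟩
  · fin_cases e
    · exact absurd h free_l0
    · obtain ⟨h1, h2⟩ := free_l1.1 h
      simp only [MayFree, Fin.mk_one, one_ne_zero, if_false]
      exact ⟨h2, (h12.trans_le h1).ne'⟩
  · fin_cases e
    · obtain ⟨h1, h2, h3⟩ := free_r0.1 h
      simp only [MayFree, Fin.zero_eta, if_true]
      exact ⟨h1, h2⟩
    · obtain ⟨h1, h2⟩ := free_r1.1 h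
      simp only [MayFree, Fin.mk_one, one_ne_zero, if_false]
      exact h1

/-- the position of the entry `x` of the `2 × m` matrix -/
def idx (b₁ b₂ : Fin n) (x : Fin 2 × Fin (b₂.val - b₁.val)) : RC n :=
  Sum.inr (x.1, ⟨b₁.val + 1 + x.2.val, by omega⟩)

lemma idx_free (h12 : a₁ < a₂) (h3 : a₂ ≤ b₁) (x : Fin 2 × Fin (b₂.val - b₁.val)) :
    free a₁ a₂ b₁ b₂ (idx b₁ b₂ x) := by
  obtain ⟨e, j⟩ := x
  have hj := j.2
  rw [Fin.lt_def] at h12
  rw [Fin.le_def] at h3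
  unfold idx
  fin_cases e
  · refine free_r0.2 ⟨?_, ?_, ?_⟩
    · rw [Fin.lt_def]; simp only; omega
    · intro h; have := congrArg Fin.val h; simp only at this; omega
    · rw [Fin.le_def]; simp only; omega
  · refine free_r1.2 ⟨?_, ?_⟩
    · rw [Fin.lt_def]; simp only; omega
    · rw [Fin.le_def]; simp only; omega

lemma idx_inj : Function.Injective (idx b₁ b₂) := by
  rintro ⟨e, j⟩ ⟨e', j'⟩ h
  unfold idx at h
  simp only [Sum.inr.injEq, Prod.mk.injEq, Fin.mk.injEq] at h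
  refine Prod.ext h.1 (Fin.ext ?_)
  simp only
  omega

/-- the rank condition in terms of the entries -/
lemma rankOne_iff' (h12 : a₁ < a₂) (h3 : a₂ ≤ b₁)
    (y : {x : RC n // free a₁ a₂ b₁ b₂ x} → ℂ) (v : RC n → ℂ)
    (hv : ∀ x (hx : free a₁ a₂ b₁ b₂ x), v x = y ⟨x, hx⟩) :
    RankOne (fun x => (⟨idx b₁ b₂ x, idx_free h12 h3 x⟩ : {x // free a₁ a₂ b₁ b₂ x}))
      (fun _ => 1) y ↔
    ∃ (l₀ l₁ : ℂ) (sz : Fin n → ℂ),
      (∀ k, b₁ < k → k ≤ b₂ → v (Sum.inr (0, k)) = l₀ * sz k ∧ v (Sum.inr (1, k)) = l₁ * sz k) := by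
  constructor
  · rintro ⟨l, s, h⟩
    refine ⟨l 0, l 1,
      fun k => if h : k.val - b₁.val - 1 < b₂.val - b₁.val then
        s ⟨k.val - b₁.val - 1, h⟩ else 0, ?_⟩
    intro k hk1 hk2
    rw [Fin.le_def] at hk2
    rw [Fin.lt_def] at hk1
    have hlt : k.val - b₁.val - 1 < b₂.val - b₁.val := by omega
    simp only [dif_pos hlt]
    have e1 : ∀ e, idx b₁ b₂ (e, ⟨k.val - b₁.val - 1, hlt⟩) = Sum.inr (e, k) := by
      intro e
      unfold idx
      congr 2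
      exact Fin.ext (by simp only; omega)
    constructor
    · rw [← h 0 ⟨k.val - b₁.val - 1, hlt⟩, ← hv, e1, one_mul]
    · rw [← h 1 ⟨k.val - b₁.val - 1, hlt⟩, ← hv, e1, one_mul]
  · rintro ⟨l₀, l₁, sz, hz⟩
    refine ⟨![l₀, l₁], fun j => sz ⟨b₁.val + 1 + j.val, by omega⟩, ?_⟩
    intro e j
    have hj := j.2
    rw [← hv, one_mul]
    have h5 := hz ⟨b₁.val + 1 + j.val, by omega⟩
      (by rw [Fin.lt_def]; simp only; omega) (by rw [Fin.le_def]; simp only; omega)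
    fin_cases e
    · exact h5.1
    · exact h5.2

theorem iso (B : Type) (h12 : a₁ < a₂) (h3 : a₂ ≤ b₁) :
    PolyIso (cyl B (rcSet false a₁ a₂ b₁ b₂ a₁ b₁))
      (cyl B {y : {x : RC n // free a₁ a₂ b₁ b₂ x} → ℂ |
        nrm a₁ b₁ (ext0 (free a₁ a₂ b₁ b₂) y) ∈ rcSet false a₁ a₂ b₁ b₂ a₁ b₁}) := by
  refine polyIso_nrm B a₁ b₁ (h12.trans_le h3) _ _ (fun x hx => free_may h12 hx) ?_
  rintro v ⟨hn, hp⟩
  refine ⟨hn, ?_⟩
  rintro (⟨e, j⟩ | ⟨e, k⟩) hx hx'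
  · fin_cases e
    · simp only [MayFree, Fin.zero_eta, if_true] at hx
      exact hp.rzero j hx 0
    · simp only [MayFree, Fin.mk_one, one_ne_zero, if_false] at hx
      have hj : j < a₂ := by
        by_contra hc
        exact hx' (free_l1.2 ⟨not_lt.mp hc, hx.1⟩)
      have h := hp.rline j hj
      have e1 := hn.r1s
      have e0 := hn.r0s
      rw [e1, e0] at h
      change v (Sum.inl (1, j)) = 0
      simp only [rMat] at h
      linear_combination -h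
  · fin_cases e
    · simp only [MayFree, Fin.zero_eta, if_true] at hx
      exact hp.czero k (by
        by_contra hc
        exact hx' (free_r0.2 ⟨hx.1, hx.2, not_lt.mp hc⟩)) 0
    · simp only [MayFree, Fin.mk_one, one_ne_zero, if_false] at hx
      exact hp.czero k (by
        by_contra hc
        exact hx' (free_r1.2 ⟨hx, not_lt.mp hc⟩)) 1

/-- the polynomial `h` -/
noncomputable def hpol (a₁ a₂ b₁ b₂ : Fin n) :
    MvPolynomial {x : RC n // free a₁ a₂ b₁ b₂ x} ℂ :=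
  phi a₁ b₁ (free a₁ a₂ b₁ b₂) (Sum.inl (1, a₂)) *
  phi a₁ b₁ (free a₁ a₂ b₁ b₂) (Sum.inr (0, b₂)) *
  (phi a₁ b₁ (free a₁ a₂ b₁ b₂) (Sum.inr (0, b₁)) *
    phi a₁ b₁ (free a₁ a₂ b₁ b₂) (Sum.inr (1, b₂)) -
   phi a₁ b₁ (free a₁ a₂ b₁ b₂) (Sum.inr (0, b₂)))

end N2

open N2 in
theorem modelN2 (hN : SegreNotGor) : ModelN2 := by
  intro n a₁ a₂ b₁ b₂ B _ h12 h3 hsum hG
  have h4 : b₁ < b₂ := by rw [Fin.lt_def]; omega
  have hst : a₁ < b₁ := h12.trans_le h3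
  have hG2 := (N2.iso (b₂ := b₂) B h12 h3).gorSet hG
  have hv : ∀ (y : {x : RC n // free a₁ a₂ b₁ b₂ x} → ℂ) (x : RC n)
      (hx : free a₁ a₂ b₁ b₂ x),
      nrm a₁ b₁ (ext0 (free a₁ a₂ b₁ b₂) y) x = y ⟨x, hx⟩ := by
    intro y x hx
    rw [nrm_of_mayFree (free_may h12 hx), ext0_of hx]
  refine not_gorSet_of_segre hN B (m := b₂.val - b₁.val) (by omega) _
    (fun x => (⟨idx b₁ b₂ x, idx_free h12 h3 x⟩ : {x // free a₁ a₂ b₁ b₂ x}))
    ?_ (fun _ => 1) (by intro x; norm_num) (N2.hpol a₁ a₂ b₁ b₂) ?_ ?_ ?_ hG2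
  · intro x x' h
    exact idx_inj (congrArg Subtype.val h)
  · -- points of the set satisfy the rank condition
    rintro y ⟨hn, hp⟩
    rw [N2.rankOne_iff' h12 h3 y _ (hv y)]
    set v := nrm a₁ b₁ (ext0 (free a₁ a₂ b₁ b₂) y) with hvdef
    have hc0 : v (Sum.inr (0, b₂)) ≠ 0 := by
      have h := hp.nest rfl
      rw [hn.r0s, hn.r1s] at h
      simp only [cMat] at h
      intro h0
      apply h
      rw [h0]; ring
    refine ⟨v (Sum.inr (0, b₂)), v (Sum.inr (1, b₂)),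
      fun k => v (Sum.inr (0, k)) / v (Sum.inr (0, b₂)), ?_⟩
    intro k hk1 hk2
    have h := hp.cline k hk1
    simp only [cMat] at h
    constructor
    · field_simp
    · field_simp
      linear_combination -h
  · intro y hy hyh
    rw [N2.rankOne_iff' h12 h3 y _ (hv y)] at hy
    unfold N2.hpol at hyh
    simp only [map_mul, map_sub, eval_phi] at hyh
    have hYf : ∀ x, ¬ free a₁ a₂ b₁ b₂ x → ext0 (free a₁ a₂ b₁ b₂) y x = 0 :=
      fun x hx => ext0_of_not hx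
    have hnorm := rcNorm_nrm hst (ext0 (free a₁ a₂ b₁ b₂) y)
      (fun x hx => hYf x fun h => hx (free_may h12 h))
    change nrm a₁ b₁ (ext0 (free a₁ a₂ b₁ b₂) y) ∈ rcSet false a₁ a₂ b₁ b₂ a₁ b₁
    have hr1 : ∀ j, j < a₂ → nrm a₁ b₁ (ext0 (free a₁ a₂ b₁ b₂) y) (Sum.inl (1, j)) = 0 := by
      intro j hj
      rw [nrm_r1, if_neg (hj.trans_le h3).ne, add_zero]
      apply hYf; rw [free_l1]; exact fun h => absurd h.1 (not_le.mpr hj)
    have hr0 : ∀ j, j < a₁ → ∀ e,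
        rMat (nrm a₁ b₁ (ext0 (free a₁ a₂ b₁ b₂) y)) e j = 0 := by
      intro j hj e
      fin_cases e
      · change nrm a₁ b₁ _ (Sum.inl (0, j)) = 0
        rw [nrm_r0, if_neg hj.ne, add_zero]
        exact hYf _ free_l0
      · exact hr1 j (hj.trans h12)
    have hc0 : ∀ k, b₂ < k → ∀ e,
        cMat (nrm a₁ b₁ (ext0 (free a₁ a₂ b₁ b₂) y)) k e = 0 := by
      intro k hk e
      fin_cases e
      · change nrm a₁ b₁ _ (Sum.inr (0, k)) = 0
        rw [nrm_c0, if_neg ((hst.trans h4).trans hk).ne', if_neg (h4.trans hk).ne',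
          add_zero, sub_zero]
        apply hYf; rw [free_r0]; exact fun h => absurd h.2.2 (not_le.mpr hk)
      · change nrm a₁ b₁ _ (Sum.inr (1, k)) = 0
        rw [nrm_c1, if_neg (h4.trans hk).ne', add_zero]
        apply hYf; rw [free_r1]; exact fun h => absurd h.2 (not_le.mpr hk)
    set v := nrm a₁ b₁ (ext0 (free a₁ a₂ b₁ b₂) y) with hvdef
    obtain ⟨l₀, l₁, sz, hz⟩ := hy
    obtain ⟨e3, e4⟩ := hz b₂ h4 le_rfl
    have k1 := left_ne_zero_of_mul (left_ne_zero_of_mul hyh)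
    have k2 := right_ne_zero_of_mul (left_ne_zero_of_mul hyh)
    have k3 := right_ne_zero_of_mul hyh
    refine ⟨hnorm, hr0, ?_, ?_, hc0, ?_, ?_, fun h => absurd h (by simp), ?_⟩
    · intro j hj
      rw [hnorm.r1s, hnorm.r0s]
      simp only [rMat]
      rw [hr1 j hj]; ring
    · rw [hnorm.r1s, hnorm.r0s]
      simp only [rMat]
      intro h
      apply k1
      linear_combination h
    · intro k hk
      by_cases hk2 : b₂ < k
      · rw [hc0 k hk2, hc0 k hk2]; ring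
      · obtain ⟨f1, f2⟩ := hz k hk (not_lt.mp hk2)
        simp only [cMat]
        rw [f1, f2, e3, e4]; ring
    · rw [hnorm.c1t]
      simp only [cMat]
      intro h
      apply k3
      linear_combination h
    · intro _
      rw [hnorm.r1s, hnorm.r0s]
      simp only [cMat]
      intro h
      apply k2
      linear_combination h
  · -- a point
    refine ⟨fun x => if (x.1 = Sum.inl (1, a₂)) ∨ (∃ k, b₁ < k ∧ x.1 = Sum.inr (0, k))
      then 1 else 0, ?_, ?_⟩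
    · rw [N2.rankOne_iff' h12 h3 _ _ (hv _)]
      refine ⟨1, 0, fun _ => 1, ?_⟩
      intro k hk1 hk2
      constructor
      · rw [hv _ _ (free_r0.2 ⟨hst.trans hk1, hk1.ne', hk2⟩), if_pos]
        · ring
        · exact Or.inr ⟨k, hk1, rfl⟩
      · rw [hv _ _ (free_r1.2 ⟨hk1, hk2⟩), if_neg]
        · ring
        · rintro (h | ⟨_, _, h⟩) <;> simp at h
    · unfold N2.hpol
      simp only [map_mul, map_sub, eval_phi]
      rw [hv _ _ (free_r0.2 ⟨hst.trans h4, h4.ne', le_rfl⟩),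
        hv _ _ (free_r1.2 ⟨h4, le_rfl⟩), if_pos (Or.inr ⟨b₂, h4, rfl⟩), if_neg]
      · have h5 : nrm a₁ b₁ (ext0 (free a₁ a₂ b₁ b₂) (fun x =>
            if (x.1 = Sum.inl (1, a₂)) ∨ (∃ k, b₁ < k ∧ x.1 = Sum.inr (0, k)) then (1 : ℂ) else 0))
            (Sum.inl (1, a₂)) = 1 := by
          rw [nrm_r1]
          by_cases ha : a₂ = b₁
          · rw [if_pos ha, ext0_of_not, zero_add]
            rw [free_l1]; exact fun h => h.2.ne ha
          · have hlt : a₂ < b₁ := lt_of_le_of_ne h3 ha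
            rw [if_neg ha, ext0_of (free_l1.2 ⟨le_rfl, hlt⟩), if_pos (Or.inl rfl), add_zero]
        rw [h5]
        simp
      · rintro (h | ⟨_, _, h⟩) <;> simp at h

end ClanGor
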