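import Pool.Agent.ClanGor.ModelN1

/-!
# MP_fae1d7_ag: the model N3 (nested type with `a₂ - a₁ ≥ 3`, chart `s = a₂`, `t = b₂`)
-/

namespace ClanGor

open MvPolynomial

variable {n : ℕ}

namespace N3

/-- free coordinates for N3 -/
def free (a₁ a₂ b₁ b₂ : Fin n) : RC n → Prop
  | Sum.inl (e, j) => if e = 0 then a₁ ≤ j ∧ j < a₂ else a₁ ≤ j ∧ j < b₂ ∧ j ≠ a₂
  | Sum.inr (e, k) => if e = 0 then a₂ < k ∧ k ≤ b₁ else False

instance (a₁ a₂ b₁ b₂ : Fin n) : DecidablePred (free a₁ a₂ b₁ b₂) := by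
  intro x
  rcases x with ⟨e, j⟩ | ⟨e, k⟩
  · unfold free; infer_instance
  · unfold free; infer_instance

lemma free_l0 {a₁ a₂ b₁ b₂ j : Fin n} :
    free a₁ a₂ b₁ b₂ (Sum.inl (0, j)) ↔ a₁ ≤ j ∧ j < a₂ := by
  simp [free]

lemma free_l1 {a₁ a₂ b₁ b₂ j : Fin n} :
    free a₁ a₂ b₁ b₂ (Sum.inl (1, j)) ↔ a₁ ≤ j ∧ j < b₂ ∧ j ≠ a₂ := by
  simp [free]

lemma free_r0 {a₁ a₂ b₁ b₂ k : Fin n} :
    free a₁ a₂ b₁ b₂ (Sum.inr (0, k)) ↔ a₂ < k ∧ k ≤ b₁ := by
  simp [free]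

lemma free_r1 {a₁ a₂ b₁ b₂ k : Fin n} : ¬ free a₁ a₂ b₁ b₂ (Sum.inr (1, k)) := by
  simp [free]

theorem free_may {a₁ a₂ b₁ b₂ : Fin n} (h4 : b₁ < b₂) {x : RC n}
    (h : free a₁ a₂ b₁ b₂ x) : MayFree a₂ b₂ x := by
  rcases x with ⟨e, j⟩ | ⟨e, k⟩
  · fin_cases e <;> simp [free, MayFree] at h ⊢ <;> tauto
  · fin_cases e
    · simp [free, MayFree] at h ⊢
      exact ⟨h.1, (h.2.trans_lt h4).ne⟩
    · simp [free] at h

theorem iso {a₁ a₂ b₁ b₂ : Fin n} (B : Type) (h24 : a₂ < b₂) (h4 : b₁ < b₂) :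
    PolyIso (cyl B (rcSet false a₁ a₂ b₁ b₂ a₂ b₂))
      (cyl B {y : {x : RC n // free a₁ a₂ b₁ b₂ x} → ℂ |
        nrm a₂ b₂ (ext0 (free a₁ a₂ b₁ b₂) y) ∈ rcSet false a₁ a₂ b₁ b₂ a₂ b₂}) := by
  refine polyIso_nrm B a₂ b₂ h24 _ _ (fun x hx => free_may h4 hx) ?_
  rintro v ⟨hn, hp⟩
  refine ⟨hn, ?_⟩
  rintro (⟨e, j⟩ | ⟨e, k⟩) hx hx'
  · fin_cases e
    · simp only [MayFree, free, Fin.zero_eta, if_true] at hx hx'
      exact hp.rzero j (by
        by_contra hc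
        exact hx' ⟨not_lt.mp hc, hx⟩) 0
    · simp [MayFree, free] at hx hx'
      exact hp.rzero j (by
        by_contra hc
        exact hx.2 (hx' (not_lt.mp hc) hx.1)) 1
  · fin_cases e
    · simp only [MayFree, free, Fin.zero_eta, if_true] at hx hx'
      have hb1k : b₁ < k := by
        by_contra hc
        exact hx' ⟨hx.1, not_lt.mp hc⟩
      rcases lt_or_gt_of_ne hx.2 with hk | hk
      · have h1 := hp.cline k hb1k
        have h2 := hn.c1t
        have h3 := hn.c1 k hk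
        simp only [cMat] at h1 h2 h3
        change v (Sum.inr (0, k)) = 0
        rw [h2, h3] at h1
        linear_combination h1
      · exact hp.czero k hk 0
    · simp [MayFree] at hx
      exact hp.czero k hx 1

/-- the position of the entry `x` of the `2 × m` matrix -/
def idx (a₁ a₂ : Fin n) (x : Fin 2 × Fin (a₂.val - a₁.val)) : RC n :=
  Sum.inl (x.1, ⟨a₁.val + x.2.val, by omega⟩)

lemma idx_free {a₁ a₂ b₁ b₂ : Fin n} (h24 : a₂ < b₂) (x : Fin 2 × Fin (a₂.val - a₁.val)) :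
    free a₁ a₂ b₁ b₂ (idx a₁ a₂ x) := by
  obtain ⟨e, j⟩ := x
  have hj := j.2
  rw [Fin.lt_def] at h24
  unfold idx
  fin_cases e
  · refine free_l0.2 ⟨?_, ?_⟩
    · rw [Fin.le_def]; simp only; omega
    · rw [Fin.lt_def]; simp only; omega
  · refine free_l1.2 ⟨?_, ?_, ?_⟩
    · rw [Fin.le_def]; simp only; omega
    · rw [Fin.lt_def]; simp only; omega
    · intro h; have := congrArg Fin.val h; simp only at this; omega

lemma idx_inj {a₁ a₂ : Fin n} : Function.Injective (idx a₁ a₂) := by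
  rintro ⟨e, j⟩ ⟨e', j'⟩ h
  unfold idx at h
  simp only [Sum.inl.injEq, Prod.mk.injEq, Fin.mk.injEq] at h
  refine Prod.ext h.1 (Fin.ext ?_)
  simp only
  omega

/-- the rank condition in terms of the entries -/
lemma rankOne_iff' {a₁ a₂ b₁ b₂ : Fin n} (h24 : a₂ < b₂)
    (y : {x : RC n // free a₁ a₂ b₁ b₂ x} → ℂ) (v : RC n → ℂ)
    (hv : ∀ x (hx : free a₁ a₂ b₁ b₂ x), v x = y ⟨x, hx⟩) :
    RankOne (fun x => (⟨idx a₁ a₂ x, idx_free h24 x⟩ : {x // free a₁ a₂ b₁ b₂ x}))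
      (fun _ => 1) y ↔
    ∃ (l₀ l₁ : ℂ) (sx : Fin n → ℂ),
      ∀ j, a₁ ≤ j → j < a₂ → v (Sum.inl (0, j)) = l₀ * sx j ∧ v (Sum.inl (1, j)) = l₁ * sx j := by
  constructor
  · rintro ⟨l, s, h⟩
    refine ⟨l 0, l 1,
      fun j => if h : j.val - a₁.val < a₂.val - a₁.val then s ⟨j.val - a₁.val, h⟩ else 0, ?_⟩
    intro j hj1 hj2
    rw [Fin.le_def] at hj1
    rw [Fin.lt_def] at hj2
    have hlt : j.val - a₁.val < a₂.val - a₁.val := by omega
    simp only [dif_pos hlt]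
    have key : ∀ e : Fin 2, v (Sum.inl (e, j)) = l e * s ⟨j.val - a₁.val, hlt⟩ := by
      intro e
      rw [← h e ⟨j.val - a₁.val, hlt⟩, ← hv]
      have e1 : idx a₁ a₂ (e, ⟨j.val - a₁.val, hlt⟩) = Sum.inl (e, j) := by
        unfold idx
        congr 2
        exact Fin.ext (by simp only; omega)
      rw [e1, one_mul]
    exact ⟨key 0, key 1⟩
  · rintro ⟨l₀, l₁, sx, hx⟩
    refine ⟨![l₀, l₁], fun j => sx ⟨a₁.val + j.val, by omega⟩, ?_⟩
    intro e j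
    have hj := j.2
    have e1 : idx a₁ a₂ (e, j) = Sum.inl (e, ⟨a₁.val + j.val, by omega⟩) := rfl
    rw [← hv, e1, one_mul]
    have h5 := hx ⟨a₁.val + j.val, by omega⟩ (by rw [Fin.le_def]; simp)
      (by rw [Fin.lt_def]; simp only; omega)
    fin_cases e
    · exact h5.1
    · exact h5.2

/-- the polynomial `h` -/
noncomputable def hpol (a₁ a₂ b₁ b₂ : Fin n) :
    MvPolynomial {x : RC n // free a₁ a₂ b₁ b₂ x} ℂ :=
  phi a₂ b₂ (free a₁ a₂ b₁ b₂) (Sum.inl (1, a₁)) *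
  phi a₂ b₂ (free a₁ a₂ b₁ b₂) (Sum.inr (0, b₁)) *
  (phi a₂ b₂ (free a₁ a₂ b₁ b₂) (Sum.inr (0, b₂)) *
    phi a₂ b₂ (free a₁ a₂ b₁ b₂) (Sum.inl (0, a₁)) +
   phi a₂ b₂ (free a₁ a₂ b₁ b₂) (Sum.inl (1, a₁)))

end N3

open N3 in
theorem modelN3 (hN : SegreNotGor) : ModelN3 := by
  intro n a₁ a₂ b₁ b₂ B _ h3 h2 h4 hG
  have h24 : a₂ < b₂ := h2.trans_lt h4
  have h12 : a₁ < a₂ := by rw [Fin.lt_def]; omega
  have hiso := N3.iso (a₁ := a₁) (a₂ := a₂) (b₁ := b₁) (b₂ := b₂) B h24 h4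
  have hG2 := hiso.gorSet hG
  have hv : ∀ (y : {x : RC n // free a₁ a₂ b₁ b₂ x} → ℂ) (x : RC n)
      (hx : free a₁ a₂ b₁ b₂ x),
      nrm a₂ b₂ (ext0 (free a₁ a₂ b₁ b₂) y) x = y ⟨x, hx⟩ := by
    intro y x hx
    rw [nrm_of_mayFree (free_may h4 hx), ext0_of hx]
  refine not_gorSet_of_segre hN B (m := a₂.val - a₁.val) (by omega) _
    (fun x => (⟨idx a₁ a₂ x, idx_free h24 x⟩ : {x // free a₁ a₂ b₁ b₂ x}))
    ?_ (fun _ => 1) (by intro x; norm_num) (hpol a₁ a₂ b₁ b₂) ?_ ?_ ?_ hG2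
  · intro x x' h
    exact idx_inj (congrArg Subtype.val h)
  · -- points of the set satisfy the rank condition
    rintro y ⟨hn, hp⟩
    rw [rankOne_iff' h24 y _ (hv y)]
    set v := nrm a₂ b₂ (ext0 (free a₁ a₂ b₁ b₂) y) with hvdef
    have hr1 : v (Sum.inl (1, a₁)) ≠ 0 := by
      have h := hp.rdet
      have e1 := hn.r1s
      have e0 := hn.r0s
      simp only [rMat] at h e1 e0
      intro h0
      apply h
      rw [e1, h0]; ring
    refine ⟨v (Sum.inl (0, a₁)), v (Sum.inl (1, a₁)),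
      fun j => v (Sum.inl (1, j)) / v (Sum.inl (1, a₁)), ?_⟩
    intro j hj1 hj2
    have h := hp.rline j hj2
    simp only [rMat] at h
    constructor
    · field_simp
      linear_combination h
    · field_simp
  · intro y hy hyh
    rw [rankOne_iff' h24 y _ (hv y)] at hy
    unfold hpol at hyh
    simp only [map_mul, map_add, eval_phi] at hyh
    have hYf : ∀ x, ¬ free a₁ a₂ b₁ b₂ x → ext0 (free a₁ a₂ b₁ b₂) y x = 0 :=
      fun x hx => ext0_of_not hx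
    have hnorm := rcNorm_nrm h24 (ext0 (free a₁ a₂ b₁ b₂) y)
      (fun x hx => hYf x fun h => hx (free_may h4 h))
    change nrm a₂ b₂ (ext0 (free a₁ a₂ b₁ b₂) y) ∈ rcSet false a₁ a₂ b₁ b₂ a₂ b₂
    have hr0 : ∀ j, j < a₁ → ∀ e,
        rMat (nrm a₂ b₂ (ext0 (free a₁ a₂ b₁ b₂) y)) e j = 0 := by
      intro j hj e
      fin_cases e
      · change nrm a₂ b₂ _ (Sum.inl (0, j)) = 0
        rw [nrm_r0, if_neg (hj.trans h12).ne, add_zero]
        apply hYf; rw [free_l0]; exact fun h => absurd h.1 (not_le.mpr hj)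
      · change nrm a₂ b₂ _ (Sum.inl (1, j)) = 0
        rw [nrm_r1, if_neg ((hj.trans h12).trans h24).ne, add_zero]
        apply hYf; rw [free_l1]; exact fun h => absurd h.1 (not_le.mpr hj)
    have hc0 : ∀ k, b₁ < k → k ≠ b₂ →
        nrm a₂ b₂ (ext0 (free a₁ a₂ b₁ b₂) y) (Sum.inr (0, k)) = 0 := by
      intro k hk hk2
      rw [nrm_c0, if_neg (h2.trans_lt hk).ne', if_neg hk2, add_zero, sub_zero]
      apply hYf; rw [free_r0]; exact fun h => absurd h.2 (not_le.mpr hk)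
    have hc1 : ∀ k, k ≠ b₂ →
        nrm a₂ b₂ (ext0 (free a₁ a₂ b₁ b₂) y) (Sum.inr (1, k)) = 0 := by
      intro k hk
      rw [nrm_c1, if_neg hk, add_zero]
      exact hYf _ free_r1
    set v := nrm a₂ b₂ (ext0 (free a₁ a₂ b₁ b₂) y) with hvdef
    obtain ⟨l₀, l₁, sx, hx⟩ := hy
    obtain ⟨e1, e2⟩ := hx a₁ le_rfl h12
    have k1 := left_ne_zero_of_mul (left_ne_zero_of_mul hyh)
    have k2 := right_ne_zero_of_mul (left_ne_zero_of_mul hyh)
    have k3 := right_ne_zero_of_mul hyh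
    have n1 := hnorm.r1s
    have n0 := hnorm.r0s
    have n2 := hnorm.c1t
    simp only [rMat, cMat] at n1 n0 n2
    refine ⟨hnorm, hr0, ?_, ?_, ?_, ?_, ?_, fun h => absurd h (by simp), ?_⟩
    · intro j hj
      by_cases hj1 : j < a₁
      · rw [hr0 j hj1, hr0 j hj1]; ring
      · obtain ⟨f1, f2⟩ := hx j (not_lt.mp hj1) hj
        simp only [rMat]
        rw [f1, f2, e1, e2]; ring
    · simp only [rMat]
      rw [n1, n0]
      intro h
      apply k1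
      linear_combination -h
    · intro k hk e
      fin_cases e
      · exact hc0 k (h4.trans hk) hk.ne'
      · exact hc1 k hk.ne'
    · intro k hk
      simp only [cMat]
      by_cases hk2 : k = b₂
      · rw [hk2]
      · rw [hc0 k hk hk2, hc1 k hk2]; ring
    · simp only [cMat]
      rw [n2, hc1 b₁ h4.ne, mul_one, mul_zero, sub_zero]
      exact k2
    · intro _
      simp only [rMat, cMat]
      rw [n2, one_mul]
      exact k3
  · -- a point
    refine ⟨fun x => if (∃ j, j < a₂ ∧ x.1 = Sum.inl (1, j)) ∨ x.1 = Sum.inr (0, b₁)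
      then 1 else 0, ?_, ?_⟩
    · rw [rankOne_iff' h24 _ _ (hv _)]
      refine ⟨0, 1, fun _ => 1, ?_⟩
      intro j hj1 hj2
      constructor
      · rw [hv _ _ (free_l0.2 ⟨hj1, hj2⟩), if_neg]
        · ring
        · rintro (⟨_, _, h⟩ | h) <;> simp at h
      · rw [hv _ _ (free_l1.2 ⟨hj1, hj2.trans h24, hj2.ne⟩), if_pos]
        · ring
        · exact Or.inl ⟨j, hj2, rfl⟩
    · unfold hpol
      simp only [map_mul, map_add, eval_phi]
      have v1 := hv (fun x => if (∃ j, j < a₂ ∧ x.1 = Sum.inl (1, j)) ∨ x.1 = Sum.inr (0, b₁)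
        then 1 else 0) _ (free_l1.2 ⟨le_rfl, h12.trans h24, h12.ne⟩ : free a₁ a₂ b₁ b₂ _)
      have v0 := hv (fun x => if (∃ j, j < a₂ ∧ x.1 = Sum.inl (1, j)) ∨ x.1 = Sum.inr (0, b₁)
        then 1 else 0) _ (free_l0.2 ⟨le_rfl, h12⟩ : free a₁ a₂ b₁ b₂ _)
      rw [if_pos (Or.inl ⟨a₁, h12, rfl⟩)] at v1
      rw [if_neg (by rintro (⟨_, _, h⟩ | h) <;> simp at h)] at v0
      rw [v1, v0, mul_zero, zero_add, mul_one, one_mul]
      by_cases h5 : a₂ = b₁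
      · rw [nrm_c0, if_pos h5.symm, if_neg h4.ne, sub_zero,
          ext0_of_not (by rw [free_r0]; exact fun h => absurd h.1 (by rw [h5]; exact lt_irrefl _)),
          zero_add]
        exact one_ne_zero
      · rw [hv _ _ (free_r0.2 ⟨lt_of_le_of_ne h2 h5, le_rfl⟩), if_pos (Or.inr rfl)]
        exact one_ne_zero

end ClanGor
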