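import Pool.Agent.ClanGor.ModelP12

/-!
# MP_fae1d7_ag: the model P2 (linked type `1212` with `a₂ = a₁ + 1`, `b₂ = b₁ + 1`)
-/

namespace ClanGor

open MvPolynomial

variable {n : ℕ} {τ : Type}

theorem irreducible_lin {κ : Type} (i : κ) (g : MvPolynomial κ ℂ) (hi : i ∉ g.vars) :
    Irreducible (X i + g) := by
  have := irreducible_mul_X_add (1 : MvPolynomial κ ℂ) g i one_ne_zero (by simp) hi
    isRelPrime_one_left
  rwa [one_mul] at this

/-- Zariski dense subsets of `B × {y_i + g(y) = 0}`. -/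
theorem gorSet_lin (hCI : CIGorensteinPoly) (B : Type) [Finite B] [Finite τ] (S' : Set (τ → ℂ))
    (i : τ) (g h : MvPolynomial τ ℂ) (hi : i ∉ g.vars)
    (h1 : ∀ y ∈ S', y i + eval y g = 0)
    (h2 : ∀ y, y i + eval y g = 0 → eval y h ≠ 0 → y ∈ S')
    (h3 : ∃ y, y i + eval y g = 0 ∧ eval y h ≠ 0) : GorSet (cyl B S') := by
  classical
  refine gorSet_hyper hCI (cyl B S') (X (Sum.inr i) + rename Sum.inr g)
    (rename Sum.inr h) (irreducible_lin _ _ ?_) ?_ ?_ ?_
  · intro hmem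
    obtain ⟨x, hx, hx'⟩ := Finset.mem_image.mp (vars_rename _ _ hmem)
    rw [Sum.inr_injective hx'] at hx
    exact hi hx
  · intro y hy
    rw [map_add, eval_X, eval_rename]
    exact h1 _ hy
  · intro y hy hy'
    rw [map_add, eval_X, eval_rename] at hy
    rw [eval_rename] at hy'
    exact h2 _ hy hy'
  · obtain ⟨y, hy, hhy⟩ := h3
    refine ⟨Sum.elim (fun _ => 0) y, ?_, ?_⟩
    · rw [map_add, eval_X, eval_rename]
      exact hy
    · rw [eval_rename]; exact hhy

namespace P2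

/-- free coordinates for P2 -/
def free (a b s t : Fin n) : RC n → Prop
  | Sum.inl (e, j) => if e = 0 then a ≤ j ∧ j < s else a ≤ j ∧ j < t ∧ j ≠ s
  | Sum.inr (e, k) => if e = 0 then s < k ∧ k ≠ t ∧ k ≤ b else t < k ∧ k ≤ b

instance (a b s t : Fin n) : DecidablePred (free a b s t) := by
  intro x
  rcases x with ⟨e, j⟩ | ⟨e, k⟩
  · unfold free; infer_instance
  · unfold free; infer_instance

theorem free_may {a b s t : Fin n} {x : RC n} (h : free a b s t x) : MayFree s t x := by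
  rcases x with ⟨e, j⟩ | ⟨e, k⟩
  · fin_cases e <;> simp [free, MayFree] at h ⊢ <;> tauto
  · fin_cases e <;> simp [free, MayFree] at h ⊢ <;> tauto

/-- The pairs obtained from free coordinates: membership in `rcSet`. -/
theorem mem_iff {a₁ a₂ b₁ b₂ s t : Fin n} (ha : a₂.val = a₁.val + 1) (hb : b₂.val = b₁.val + 1)
    (hst : s < t) (h1 : a₁ ≤ s) (h4 : t ≤ b₂) (y : {x : RC n // free a₁ b₂ s t x} → ℂ) :
    nrm s t (ext0 (free a₁ b₂ s t) y) ∈ rcSet true a₁ a₂ b₁ b₂ s t ↔
      (nrm s t (ext0 (free a₁ b₂ s t) y) (Sum.inr (0, b₂)) *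
          nrm s t (ext0 (free a₁ b₂ s t) y) (Sum.inl (0, a₁)) +
        nrm s t (ext0 (free a₁ b₂ s t) y) (Sum.inr (1, b₂)) *
          nrm s t (ext0 (free a₁ b₂ s t) y) (Sum.inl (1, a₁)) = 0) ∧
      (nrm s t (ext0 (free a₁ b₂ s t) y) (Sum.inl (0, a₁)) *
          nrm s t (ext0 (free a₁ b₂ s t) y) (Sum.inl (1, a₂)) -
        nrm s t (ext0 (free a₁ b₂ s t) y) (Sum.inl (0, a₂)) *
          nrm s t (ext0 (free a₁ b₂ s t) y) (Sum.inl (1, a₁))) *
      (nrm s t (ext0 (free a₁ b₂ s t) y) (Sum.inr (0, b₁)) *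
          nrm s t (ext0 (free a₁ b₂ s t) y) (Sum.inr (1, b₂)) -
        nrm s t (ext0 (free a₁ b₂ s t) y) (Sum.inr (0, b₂)) *
          nrm s t (ext0 (free a₁ b₂ s t) y) (Sum.inr (1, b₁))) ≠ 0 := by
  set Y := ext0 (free a₁ b₂ s t) y with hY
  have hYf : ∀ x, ¬ free a₁ b₂ s t x → Y x = 0 := fun x hx => ext0_of_not hx
  have ha12 : a₁ < a₂ := Fin.lt_def.mpr (by omega)
  have hb12 : b₁ < b₂ := Fin.lt_def.mpr (by omega)
  constructor
  · rintro ⟨hn, hp⟩
    refine ⟨hp.link rfl, mul_ne_zero hp.rdet hp.cdet⟩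
  · rintro ⟨hF, hH⟩
    have hr0 : ∀ j, j < a₁ → ∀ e, rMat (nrm s t Y) e j = 0 := by
      intro j hj e
      fin_cases e
      · change nrm s t Y (Sum.inl (0, j)) = 0
        rw [nrm_r0, if_neg (hj.trans_le h1).ne, add_zero]
        apply hYf; simp [free, not_le.mpr hj]
      · change nrm s t Y (Sum.inl (1, j)) = 0
        rw [nrm_r1, if_neg ((hj.trans_le h1).trans hst).ne, add_zero]
        apply hYf; simp [free, not_le.mpr hj]
    have hc0 : ∀ k, b₂ < k → ∀ e, cMat (nrm s t Y) k e = 0 := by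
      intro k hk e
      fin_cases e
      · change nrm s t Y (Sum.inr (0, k)) = 0
        rw [nrm_c0, if_neg (h4.trans_lt hk).ne', if_neg ((hst.trans_le h4).trans hk).ne',
          add_zero, sub_zero]
        apply hYf; simp [free, hk]
      · change nrm s t Y (Sum.inr (1, k)) = 0
        rw [nrm_c1, if_neg (h4.trans_lt hk).ne', add_zero]
        apply hYf; simp [free, hk]
    refine ⟨rcNorm_nrm hst _ fun x hx => hYf x fun h => hx (free_may h), ?_⟩
    refine ⟨hr0, ?_, left_ne_zero_of_mul hH, hc0, ?_, right_ne_zero_of_mul hH, fun _ => hF,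
      fun h => absurd h (by simp)⟩
    · intro j hj
      have : j < a₁ ∨ j = a₁ := by
        rw [Fin.lt_def] at hj ⊢; rw [Fin.ext_iff]; omega
      rcases this with h | rfl
      · rw [hr0 j h, hr0 j h]; ring
      · rfl
    · intro k hk
      have : b₂ < k ∨ k = b₂ := by
        rw [Fin.lt_def] at hk ⊢; rw [Fin.ext_iff]; omega
      rcases this with h | rfl
      · rw [hc0 k h, hc0 k h]; ring
      · rfl

/-- the polynomial `h` -/
noncomputable def hpol (a₁ a₂ b₁ b₂ s t : Fin n) :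
    MvPolynomial {x : RC n // free a₁ b₂ s t x} ℂ :=
  (phi s t (free a₁ b₂ s t) (Sum.inl (0, a₁)) * phi s t (free a₁ b₂ s t) (Sum.inl (1, a₂)) -
    phi s t (free a₁ b₂ s t) (Sum.inl (0, a₂)) * phi s t (free a₁ b₂ s t) (Sum.inl (1, a₁))) *
  (phi s t (free a₁ b₂ s t) (Sum.inr (0, b₁)) * phi s t (free a₁ b₂ s t) (Sum.inr (1, b₂)) -
    phi s t (free a₁ b₂ s t) (Sum.inr (0, b₂)) * phi s t (free a₁ b₂ s t) (Sum.inr (1, b₁)))

theorem iso {a₁ a₂ b₁ b₂ s t : Fin n} (B : Type) (hst : s < t) :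
    PolyIso (cyl B (rcSet true a₁ a₂ b₁ b₂ s t))
      (cyl B {y : {x : RC n // free a₁ b₂ s t x} → ℂ |
        nrm s t (ext0 (free a₁ b₂ s t) y) ∈ rcSet true a₁ a₂ b₁ b₂ s t}) := by
  refine polyIso_nrm B s t hst _ _ (fun x hx => free_may hx) ?_
  rintro v ⟨hn, hp⟩
  refine ⟨hn, ?_⟩
  rintro (⟨e, j⟩ | ⟨e, k⟩) hx hx'
  · fin_cases e
    · simp only [MayFree, free, Fin.zero_eta, if_true] at hx hx'
      exact hp.rzero j (by
        by_contra hc
        exact hx' ⟨not_lt.mp hc, hx⟩) 0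
    · simp [MayFree, free] at hx hx'
      exact hp.rzero j (by
        by_contra hc
        exact hx.2 (hx' (not_lt.mp hc) hx.1)) 1
  · fin_cases e
    · simp only [MayFree, free, Fin.zero_eta, if_true] at hx hx'
      exact hp.czero k (by
        by_contra hc
        exact hx' ⟨hx.1, hx.2, not_lt.mp hc⟩) 0
    · simp [MayFree, free] at hx hx'
      exact hp.czero k (hx' hx) 1

/-- case A: `a₂ ≤ s`, `t ≤ b₁` -/
theorem caseA (hCI : CIGorensteinPoly) {a₁ a₂ b₁ b₂ s t : Fin n} (B : Type) [Finite B]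
    (ha : a₂.val = a₁.val + 1) (_hab : a₂ < b₁) (hb : b₂.val = b₁.val + 1) (hst : s < t)
    (hs : a₂ ≤ s) (ht : t ≤ b₁) :
    GorSet (cyl B (rcSet true a₁ a₂ b₁ b₂ s t)) := by
  have ha12 : a₁ < a₂ := Fin.lt_def.mpr (by omega)
  have hb12 : b₁ < b₂ := Fin.lt_def.mpr (by omega)
  have h1 : a₁ < s := ha12.trans_le hs
  have h2 : t < b₂ := ht.trans_lt hb12
  have h3 : a₁ < t := h1.trans hst
  have h4 : s < b₂ := hst.trans h2
  have f1 : free a₁ b₂ s t (Sum.inl (0, a₁)) := by simp [free, h1]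
  have f2 : free a₁ b₂ s t (Sum.inl (1, a₁)) := by simp [free, h3, h1.ne]
  have f3 : free a₁ b₂ s t (Sum.inr (0, b₂)) := by simp [free, h4, h2.ne']
  have f4 : free a₁ b₂ s t (Sum.inr (1, b₂)) := by simp [free, h2]
  refine (iso B hst).symm.gorSet ?_
  -- values of the relevant entries
  have v1 : ∀ Y : RC n → ℂ, nrm s t Y (Sum.inl (0, a₁)) = Y (Sum.inl (0, a₁)) := by
    intro Y; rw [nrm_r0, if_neg h1.ne, add_zero]
  have v2 : ∀ Y : RC n → ℂ, nrm s t Y (Sum.inl (1, a₁)) = Y (Sum.inl (1, a₁)) := by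
    intro Y; rw [nrm_r1, if_neg h3.ne, add_zero]
  have v3 : ∀ Y : RC n → ℂ, nrm s t Y (Sum.inr (0, b₂)) = Y (Sum.inr (0, b₂)) := by
    intro Y; rw [nrm_c0, if_neg h4.ne', if_neg h2.ne', add_zero, sub_zero]
  have v4 : ∀ Y : RC n → ℂ, nrm s t Y (Sum.inr (1, b₂)) = Y (Sum.inr (1, b₂)) := by
    intro Y; rw [nrm_c1, if_neg h2.ne', add_zero]
  refine gorSet_quad hCI B _ ⟨_, f3⟩ ⟨_, f1⟩ (X ⟨_, f4⟩ * X ⟨_, f2⟩) (hpol a₁ a₂ b₁ b₂ s t)
    (by simp) ?_ ?_ ?_ ?_ ?_
  · intro h
    classical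
    have := vars_mul _ _ h
    simp at this
  · refine ⟨fun x => if x.1 = Sum.inl (0, a₁) then 0 else 1, by simp, by simp⟩
  · intro y hy
    have := ((mem_iff ha hb hst h1.le h2.le y).mp hy).1
    rw [v1, v2, v3, v4, ext0_of f1, ext0_of f2, ext0_of f3, ext0_of f4] at this
    rw [map_mul, eval_X, eval_X]
    linear_combination this
  · intro y hy hy'
    refine (mem_iff ha hb hst h1.le h2.le y).mpr ⟨?_, ?_⟩
    · rw [v1, v2, v3, v4, ext0_of f1, ext0_of f2, ext0_of f3, ext0_of f4]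
      rw [map_mul, eval_X, eval_X] at hy
      linear_combination hy
    · simpa only [hpol, map_mul, map_sub, eval_phi] using hy'
  · let Y : RC n → ℂ := fun x => if x = Sum.inl (1, a₁) ∨ x = Sum.inl (0, a₂) ∨
      x = Sum.inr (0, b₂) ∨ x = Sum.inr (1, b₁) then 1 else 0
    refine ⟨fun x => Y x.1, ?_, ?_⟩
    · simp [Y, ha12.ne, hb12.ne']
    · simp only [hpol, map_mul, map_sub, eval_phi]
      have g1 : nrm s t (ext0 (free a₁ b₂ s t) fun x => Y x.1) (Sum.inl (0, a₁)) = 0 := by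
        rw [v1, ext0_of f1]; simp [Y, ha12.ne]
      have g2 : nrm s t (ext0 (free a₁ b₂ s t) fun x => Y x.1) (Sum.inl (1, a₁)) = 1 := by
        rw [v2, ext0_of f2]; simp [Y]
      have g3 : nrm s t (ext0 (free a₁ b₂ s t) fun x => Y x.1) (Sum.inr (0, b₂)) = 1 := by
        rw [v3, ext0_of f3]; simp [Y]
      have g4 : nrm s t (ext0 (free a₁ b₂ s t) fun x => Y x.1) (Sum.inr (1, b₂)) = 0 := by
        rw [v4, ext0_of f4]; simp [Y, hb12.ne']
      have g5 : nrm s t (ext0 (free a₁ b₂ s t) fun x => Y x.1) (Sum.inl (0, a₂)) = 1 := by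
        rw [nrm_r0, ext0_restrict Y]
        rcases hs.lt_or_eq with h | h
        · simp [free, h, h.ne, Y, ha12.le]
        · simp [free, h]
      have g6 : nrm s t (ext0 (free a₁ b₂ s t) fun x => Y x.1) (Sum.inr (1, b₁)) = 1 := by
        rw [nrm_c1, ext0_restrict Y]
        rcases ht.lt_or_eq with h | h
        · simp [free, h, h.ne', Y, hb12.le]
        · simp [free, h]
      rw [g1, g2, g3, g4, g5, g6]
      simp

/-- case B: `s = a₁`, `t ≤ b₁` -/
theorem caseB (hCI : CIGorensteinPoly) {a₁ a₂ b₁ b₂ s t : Fin n} (B : Type) [Finite B]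
    (ha : a₂.val = a₁.val + 1) (hab : a₂ < b₁) (hb : b₂.val = b₁.val + 1) (hst : s < t)
    (hs : s = a₁) (ht : t ≤ b₁) :
    GorSet (cyl B (rcSet true a₁ a₂ b₁ b₂ s t)) := by
  subst hs
  have ha12 : s < a₂ := Fin.lt_def.mpr (by omega)
  have hb12 : b₁ < b₂ := Fin.lt_def.mpr (by omega)
  have h2 : t < b₂ := ht.trans_lt hb12
  have h4 : s < b₂ := hst.trans h2
  have h5 : a₂ ≤ t := Fin.le_def.mpr (by rw [Fin.lt_def] at hst; omega)
  have f3 : free s b₂ s t (Sum.inr (0, b₂)) := by simp [free, h4, h2.ne']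
  have f4 : free s b₂ s t (Sum.inr (1, b₂)) := by simp [free, h2]
  refine (iso B hst).symm.gorSet ?_
  have v1 : ∀ y : {x : RC n // free s b₂ s t x} → ℂ,
      nrm s t (ext0 (free s b₂ s t) y) (Sum.inl (0, s)) = 1 := by
    intro y; rw [nrm_r0, ext0_of_not (by simp [free]), if_pos rfl, zero_add]
  have v2 : ∀ y : {x : RC n // free s b₂ s t x} → ℂ,
      nrm s t (ext0 (free s b₂ s t) y) (Sum.inl (1, s)) = 0 := by
    intro y; rw [nrm_r1, ext0_of_not (by simp [free]), if_neg hst.ne, zero_add]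
  have v3 : ∀ Y : RC n → ℂ, nrm s t Y (Sum.inr (0, b₂)) = Y (Sum.inr (0, b₂)) := by
    intro Y; rw [nrm_c0, if_neg h4.ne', if_neg h2.ne', add_zero, sub_zero]
  have v4 : ∀ Y : RC n → ℂ, nrm s t Y (Sum.inr (1, b₂)) = Y (Sum.inr (1, b₂)) := by
    intro Y; rw [nrm_c1, if_neg h2.ne', add_zero]
  refine gorSet_lin hCI B _ ⟨_, f3⟩ 0 (hpol s a₂ b₁ b₂ s t) (by simp) ?_ ?_ ?_
  · intro y hy
    have := ((mem_iff ha hb hst le_rfl h2.le y).mp hy).1
    rw [v1, v2, v3, v4, ext0_of f3, ext0_of f4] at this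
    rw [map_zero]
    linear_combination this
  · intro y hy hy'
    refine (mem_iff ha hb hst le_rfl h2.le y).mpr ⟨?_, ?_⟩
    · rw [v1, v2, v3, v4, ext0_of f3, ext0_of f4]
      rw [map_zero] at hy
      linear_combination hy
    · simpa only [hpol, map_mul, map_sub, eval_phi] using hy'
  · let Y : RC n → ℂ := fun x => if x = Sum.inl (1, a₂) ∨ x = Sum.inr (1, b₂) ∨
      x = Sum.inr (0, b₁) ∨ x = Sum.inr (0, a₂) then 1 else 0
    refine ⟨fun x => Y x.1, ?_, ?_⟩
    · simp [Y, hb12.ne', (hab.trans hb12).ne']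
    · simp only [hpol, map_mul, map_sub, eval_phi]
      have g3 : nrm s t (ext0 (free s b₂ s t) fun x => Y x.1) (Sum.inr (0, b₂)) = 0 := by
        rw [v3, ext0_of f3]; simp [Y, hb12.ne', (hab.trans hb12).ne']
      have g4 : nrm s t (ext0 (free s b₂ s t) fun x => Y x.1) (Sum.inr (1, b₂)) = 1 := by
        rw [v4, ext0_of f4]; simp [Y]
      have g5 : nrm s t (ext0 (free s b₂ s t) fun x => Y x.1) (Sum.inl (1, a₂)) = 1 := by
        rw [nrm_r1, ext0_restrict Y]
        rcases h5.lt_or_eq with h | h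
        · simp [free, h, h.ne, Y, ha12.le, ha12.ne']
        · simp [free, h]
      have g6 : nrm s t (ext0 (free s b₂ s t) fun x => Y x.1) (Sum.inr (0, b₁)) ≠ 0 := by
        have hb1s : s < b₁ := hst.trans_le ht
        rw [nrm_c0, ext0_restrict Y]
        rcases ht.lt_or_eq with h | h
        · simp [free, h.ne', Y, hb12.le, hb1s, hb1s.ne']
        · have hsum : ∑ k', ext0 (free s b₂ s t) (fun x => Y x.1) (Sum.inl (1, k')) *
              ext0 (free s b₂ s t) (fun x => Y x.1) (Sum.inr (0, k')) = 1 := by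
            rw [Finset.sum_eq_single a₂]
            · rw [ext0_restrict Y, ext0_restrict Y]
              have : a₂ < t := h ▸ hab
              simp [free, Y, ha12.le, ha12.ne', ha12, this, this.ne, (hab.trans hb12).le]
            · intro k' _ hk'
              rw [ext0_restrict Y]
              simp [Y, hk']
            · simp
          rw [hsum]
          simp [free, h, Y, hb1s.ne']
      rw [v1, v2, g3, g4, g5]
      simpa using g6

theorem notMem_vars_ext0 {free : RC n → Prop} [DecidablePred free] {x : RC n}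
    {i : {x : RC n // free x}} (h : x ≠ i.1) :
    i ∉ (ext0 free (X : _ → MvPolynomial {x : RC n // free x} ℂ) x).vars := by
  unfold ext0
  split_ifs with h'
  · rw [vars_X, Finset.mem_singleton]
    rintro rfl
    exact h rfl
  · simp

/-- case C: `a₂ ≤ s`, `t = b₂` -/
theorem caseC (hCI : CIGorensteinPoly) {a₁ a₂ b₁ b₂ s t : Fin n} (B : Type) [Finite B]
    (ha : a₂.val = a₁.val + 1) (hab : a₂ < b₁) (hb : b₂.val = b₁.val + 1) (hst : s < t)
    (hs : a₂ ≤ s) (ht : t = b₂) :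
    GorSet (cyl B (rcSet true a₁ a₂ b₁ b₂ s t)) := by
  classical
  subst ht
  have ha12 : a₁ < a₂ := Fin.lt_def.mpr (by omega)
  have hb12 : b₁ < t := Fin.lt_def.mpr (by omega)
  have h1 : a₁ < s := ha12.trans_le hs
  have h3 : a₁ < t := h1.trans hst
  have hsb : s ≤ b₁ := Fin.le_def.mpr (by rw [Fin.lt_def] at hst; omega)
  have f1 : free a₁ t s t (Sum.inl (0, a₁)) := by simp [free, h1]
  have f2 : free a₁ t s t (Sum.inl (1, a₁)) := by simp [free, h3, h1.ne]
  refine (iso B hst).symm.gorSet ?_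
  have v1 : ∀ Y : RC n → ℂ, nrm s t Y (Sum.inl (0, a₁)) = Y (Sum.inl (0, a₁)) := by
    intro Y; rw [nrm_r0, if_neg h1.ne, add_zero]
  have v2 : ∀ Y : RC n → ℂ, nrm s t Y (Sum.inl (1, a₁)) = Y (Sum.inl (1, a₁)) := by
    intro Y; rw [nrm_r1, if_neg h3.ne, add_zero]
  have v3 : ∀ y : {x : RC n // free a₁ t s t x} → ℂ,
      nrm s t (ext0 (free a₁ t s t) y) (Sum.inr (0, t)) =
        -∑ k', ext0 (free a₁ t s t) y (Sum.inl (1, k')) *
          ext0 (free a₁ t s t) y (Sum.inr (0, k')) := by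
    intro y
    rw [nrm_c0, if_neg hst.ne', if_pos rfl, ext0_of_not (by simp [free]), add_zero, zero_sub]
  have v4 : ∀ y : {x : RC n // free a₁ t s t x} → ℂ,
      nrm s t (ext0 (free a₁ t s t) y) (Sum.inr (1, t)) = 1 := by
    intro y
    rw [nrm_c1, if_pos rfl, ext0_of_not (by simp [free]), zero_add]
  have hev : ∀ (y : {x : RC n // free a₁ t s t x} → ℂ) x,
      eval y (ext0 (free a₁ t s t) (X : _ → MvPolynomial {x : RC n // free a₁ t s t x} ℂ) x) =
        ext0 (free a₁ t s t) y x := by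
    intro y x
    unfold ext0
    split_ifs
    · rw [eval_X]
    · rw [map_zero]
  refine gorSet_lin hCI B _ ⟨_, f2⟩
    (-((∑ k', ext0 (free a₁ t s t) X (Sum.inl (1, k')) *
      ext0 (free a₁ t s t) X (Sum.inr (0, k'))) * X ⟨_, f1⟩)) (hpol a₁ a₂ b₁ t s t) ?_ ?_ ?_ ?_
  · rw [vars_neg]
    intro hmem
    rcases Finset.mem_union.mp (vars_mul _ _ hmem) with h | h
    · obtain ⟨k', _, hk'⟩ := Finset.mem_biUnion.mp (vars_sum_subset _ _ h)
      by_cases hk : k' = a₁
      · subst hk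
        rw [ext0_of_not (x := Sum.inr (0, k')) (by simp [free, h1.le]), mul_zero, vars_0] at hk'
        simp at hk'
      · rcases Finset.mem_union.mp (vars_mul _ _ hk') with h' | h'
        · exact notMem_vars_ext0 (by simpa using hk) h'
        · exact notMem_vars_ext0 (by simp) h'
    · simp at h
  · intro y hy
    have := ((mem_iff ha hb hst h1.le le_rfl y).mp hy).1
    rw [v1, v2, v3, v4, ext0_of f1, ext0_of f2] at this
    rw [map_neg, map_mul, map_sum, eval_X]
    simp only [map_mul, hev]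
    linear_combination this
  · intro y hy hy'
    refine (mem_iff ha hb hst h1.le le_rfl y).mpr ⟨?_, ?_⟩
    · rw [v1, v2, v3, v4, ext0_of f1, ext0_of f2]
      rw [map_neg, map_mul, map_sum, eval_X] at hy
      simp only [map_mul, hev] at hy
      linear_combination hy
    · simpa only [hpol, map_mul, map_sub, eval_phi] using hy'
  · rcases hs.lt_or_eq with h | h
    · -- `a₂ < s`
      let Y : RC n → ℂ := fun x => if x = Sum.inl (0, a₁) ∨ x = Sum.inl (1, a₂) ∨
        x = Sum.inr (0, b₁) then 1 else 0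
      have hsum : ∑ k', ext0 (free a₁ t s t) (fun x => Y x.1) (Sum.inl (1, k')) *
          ext0 (free a₁ t s t) (fun x => Y x.1) (Sum.inr (0, k')) = 0 := by
        apply Finset.sum_eq_zero
        intro k' _
        rw [ext0_restrict Y, ext0_restrict Y]
        by_cases hk : k' = a₂
        · subst hk; simp [free, h.le]
        · simp [Y, hk]
      have g1 : nrm s t (ext0 (free a₁ t s t) fun x => Y x.1) (Sum.inl (0, a₁)) = 1 := by
        rw [v1, ext0_of f1]; simp [Y]
      have g2 : nrm s t (ext0 (free a₁ t s t) fun x => Y x.1) (Sum.inl (1, a₁)) = 0 := by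
        rw [v2, ext0_of f2]; simp [Y, ha12.ne]
      have g3 : nrm s t (ext0 (free a₁ t s t) fun x => Y x.1) (Sum.inr (0, t)) = 0 := by
        rw [v3, hsum, neg_zero]
      have g5 : nrm s t (ext0 (free a₁ t s t) fun x => Y x.1) (Sum.inl (1, a₂)) = 1 := by
        have h5 : a₂ < t := h.trans hst
        rw [nrm_r1, ext0_restrict Y]
        simp [free, h.ne, h5, h5.ne, Y, ha12.le]
      have g6 : nrm s t (ext0 (free a₁ t s t) fun x => Y x.1) (Sum.inr (0, b₁)) = 1 := by
        rw [nrm_c0, ext0_restrict Y, if_neg hb12.ne, sub_zero]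
        rcases hsb.lt_or_eq with h' | h'
        · simp [free, h', h'.ne', Y, hb12.le, hb12.ne]
        · simp [free, h']
      refine ⟨fun x => Y x.1, ?_, ?_⟩
      · rw [map_neg, map_mul, map_sum, eval_X]
        simp only [map_mul, hev]
        rw [hsum]
        simp [Y, ha12.ne]
      · simp only [hpol, map_mul, map_sub, eval_phi]
        rw [g1, g2, g3, v4, g5, g6]
        simp
    · -- `a₂ = s`
      subst h
      let Y : RC n → ℂ := fun x => if x = Sum.inl (0, a₁) ∨ x = Sum.inl (1, b₁) ∨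
        x = Sum.inr (0, b₁) ∨ x = Sum.inl (1, a₁) then 1 else 0
      have hsum : ∑ k', ext0 (free a₁ t a₂ t) (fun x => Y x.1) (Sum.inl (1, k')) *
          ext0 (free a₁ t a₂ t) (fun x => Y x.1) (Sum.inr (0, k')) = 1 := by
        rw [Finset.sum_eq_single b₁]
        · rw [ext0_restrict Y, ext0_restrict Y]
          simp [free, Y, hab, hab.ne', hb12, hb12.ne, hb12.le, (ha12.trans hab).le]
        · intro k' _ hk'
          rw [ext0_restrict Y, ext0_restrict Y]
          simp [Y, hk']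
        · simp
      have g1 : nrm a₂ t (ext0 (free a₁ t a₂ t) fun x => Y x.1) (Sum.inl (0, a₁)) = 1 := by
        rw [v1, ext0_of f1]; simp [Y]
      have g2 : nrm a₂ t (ext0 (free a₁ t a₂ t) fun x => Y x.1) (Sum.inl (1, a₁)) = 1 := by
        rw [v2, ext0_of f2]; simp [Y]
      have g3 : nrm a₂ t (ext0 (free a₁ t a₂ t) fun x => Y x.1) (Sum.inr (0, t)) = -1 := by
        rw [v3, hsum]
      have g5 : nrm a₂ t (ext0 (free a₁ t a₂ t) fun x => Y x.1) (Sum.inl (1, a₂)) = 0 := by
        rw [nrm_r1, ext0_restrict Y]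
        simp [free, hst.ne]
      have g7 : nrm a₂ t (ext0 (free a₁ t a₂ t) fun x => Y x.1) (Sum.inl (0, a₂)) = 1 := by
        rw [nrm_r0, ext0_restrict Y]
        simp [free]
      have g6 : nrm a₂ t (ext0 (free a₁ t a₂ t) fun x => Y x.1) (Sum.inr (0, b₁)) = 1 := by
        rw [nrm_c0, ext0_restrict Y, if_neg hb12.ne, sub_zero]
        simp [free, hab, hab.ne', Y, hb12.le, hb12.ne]
      have g8 : nrm a₂ t (ext0 (free a₁ t a₂ t) fun x => Y x.1) (Sum.inr (1, b₁)) = 0 := by
        rw [nrm_c1, ext0_restrict Y, if_neg hb12.ne]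
        simp [free, hb12.le, hb12.le.not_gt]
      refine ⟨fun x => Y x.1, ?_, ?_⟩
      · rw [map_neg, map_mul, map_sum, eval_X]
        simp only [map_mul, hev]
        rw [hsum]
        simp [Y]
      · simp only [hpol, map_mul, map_sub, eval_phi]
        rw [g1, g2, g3, v4, g5, g6, g7, g8]
        simp

/-- case D: `s = a₁`, `t = b₂` -/
theorem caseD (hCI : CIGorensteinPoly) {a₁ a₂ b₁ b₂ s t : Fin n} (B : Type) [Finite B]
    (ha : a₂.val = a₁.val + 1) (hab : a₂ < b₁) (hb : b₂.val = b₁.val + 1) (hst : s < t)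
    (hs : s = a₁) (ht : t = b₂) :
    GorSet (cyl B (rcSet true a₁ a₂ b₁ b₂ s t)) := by
  classical
  subst ht
  subst hs
  have ha12 : s < a₂ := Fin.lt_def.mpr (by omega)
  have hb12 : b₁ < t := Fin.lt_def.mpr (by omega)
  have hat : a₂ < t := hab.trans hb12
  have hsb : s < b₁ := ha12.trans hab
  refine (iso B hst).symm.gorSet ?_
  have v1 : ∀ y : {x : RC n // free s t s t x} → ℂ,
      nrm s t (ext0 (free s t s t) y) (Sum.inl (0, s)) = 1 := by
    intro y; rw [nrm_r0, ext0_of_not (by simp [free]), if_pos rfl, zero_add]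
  have v2 : ∀ y : {x : RC n // free s t s t x} → ℂ,
      nrm s t (ext0 (free s t s t) y) (Sum.inl (1, s)) = 0 := by
    intro y; rw [nrm_r1, ext0_of_not (by simp [free]), if_neg hst.ne, zero_add]
  have v3 : ∀ y : {x : RC n // free s t s t x} → ℂ,
      nrm s t (ext0 (free s t s t) y) (Sum.inr (0, t)) =
        -∑ k', ext0 (free s t s t) y (Sum.inl (1, k')) *
          ext0 (free s t s t) y (Sum.inr (0, k')) := by
    intro y
    rw [nrm_c0, if_neg hst.ne', if_pos rfl, ext0_of_not (by simp [free]), add_zero, zero_sub]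
  have v4 : ∀ y : {x : RC n // free s t s t x} → ℂ,
      nrm s t (ext0 (free s t s t) y) (Sum.inr (1, t)) = 1 := by
    intro y
    rw [nrm_c1, if_pos rfl, ext0_of_not (by simp [free]), zero_add]
  have hev : ∀ (y : {x : RC n // free s t s t x} → ℂ) x,
      eval y (ext0 (free s t s t) (X : _ → MvPolynomial {x : RC n // free s t s t x} ℂ) x) =
        ext0 (free s t s t) y x := by
    intro y x
    unfold ext0
    split_ifs
    · rw [eval_X]
    · rw [map_zero]
  have f1 : free s t s t (Sum.inr (0, a₂)) := by simp [free, ha12, hat.ne, hat.le]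
  have f2 : free s t s t (Sum.inl (1, a₂)) := by simp [free, ha12.ne', ha12.le, hat]
  have hsplit : ∀ y : {x : RC n // free s t s t x} → ℂ,
      ∑ k', ext0 (free s t s t) y (Sum.inl (1, k')) * ext0 (free s t s t) y (Sum.inr (0, k')) =
        y ⟨_, f2⟩ * y ⟨_, f1⟩ + ∑ k' ∈ Finset.univ.erase a₂,
          ext0 (free s t s t) y (Sum.inl (1, k')) * ext0 (free s t s t) y (Sum.inr (0, k')) := by
    intro y
    rw [← Finset.add_sum_erase _ _ (Finset.mem_univ a₂), ext0_of f1, ext0_of f2]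
  refine gorSet_quad hCI B _ ⟨_, f1⟩ ⟨_, f2⟩
    (∑ k' ∈ Finset.univ.erase a₂, ext0 (free s t s t) X (Sum.inl (1, k')) *
      ext0 (free s t s t) X (Sum.inr (0, k'))) (hpol s a₂ b₁ t s t) (by simp) ?_ ?_ ?_ ?_ ?_
  · intro h
    obtain ⟨k', hk, hk'⟩ := Finset.mem_biUnion.mp (vars_sum_subset _ _ h)
    have hk := Finset.ne_of_mem_erase hk
    rcases Finset.mem_union.mp (vars_mul _ _ hk') with h' | h'
    · exact notMem_vars_ext0 (by simp) h'
    · exact notMem_vars_ext0 (by simpa using hk) h'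
  · let Y : RC n → ℂ := fun x => if x = Sum.inl (1, b₁) ∨ x = Sum.inr (0, b₁) then 1 else 0
    refine ⟨fun x => Y x.1, by simp [Y, hab.ne], ?_⟩
    rw [map_sum]
    simp only [map_mul, hev]
    rw [Finset.sum_eq_single b₁]
    · rw [ext0_restrict Y, ext0_restrict Y]
      simp [free, Y, hsb, hsb.ne', hsb.le, hb12, hb12.ne, hb12.le]
    · intro k' _ hk'
      rw [ext0_restrict Y, ext0_restrict Y]
      simp [Y, hk']
    · intro h
      exact absurd (Finset.mem_erase.mpr ⟨hab.ne', Finset.mem_univ _⟩) h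
  · intro y hy
    have := ((mem_iff ha hb hst le_rfl le_rfl y).mp hy).1
    rw [v1, v2, v3, v4, hsplit] at this
    rw [map_sum]
    simp only [map_mul, hev]
    linear_combination -this
  · intro y hy hy'
    refine (mem_iff ha hb hst le_rfl le_rfl y).mpr ⟨?_, ?_⟩
    · rw [v1, v2, v3, v4, hsplit]
      rw [map_sum] at hy
      simp only [map_mul, hev] at hy
      linear_combination -hy
    · simpa only [hpol, map_mul, map_sub, eval_phi] using hy'
  · let Y : RC n → ℂ := fun x => if x = Sum.inl (1, a₂) ∨ x = Sum.inr (0, b₁) then 1 else 0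
    have hsum : ∑ k', ext0 (free s t s t) (fun x => Y x.1) (Sum.inl (1, k')) *
        ext0 (free s t s t) (fun x => Y x.1) (Sum.inr (0, k')) = 0 := by
      apply Finset.sum_eq_zero
      intro k' _
      rw [ext0_restrict Y, ext0_restrict Y]
      by_cases hk : k' = a₂
      · subst hk; simp [Y, hab.ne]
      · simp [Y, hk]
    refine ⟨fun x => Y x.1, ?_, ?_⟩
    · have := hsplit (fun x => Y x.1)
      rw [hsum] at this
      rw [map_sum]
      simp only [map_mul, hev]
      exact this.symm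
    · simp only [hpol, map_mul, map_sub, eval_phi]
      have g5 : nrm s t (ext0 (free s t s t) fun x => Y x.1) (Sum.inl (1, a₂)) = 1 := by
        rw [nrm_r1, ext0_restrict Y]
        simp [free, ha12.le, ha12.ne', hat, hat.ne, Y]
      have g6 : nrm s t (ext0 (free s t s t) fun x => Y x.1) (Sum.inr (0, b₁)) = 1 := by
        rw [nrm_c0, ext0_restrict Y, if_neg hb12.ne, sub_zero]
        simp [free, hsb, hsb.ne', Y, hb12.le, hb12.ne]
      have g8 : nrm s t (ext0 (free s t s t) fun x => Y x.1) (Sum.inr (1, b₁)) = 0 := by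
        rw [nrm_c1, ext0_restrict Y, if_neg hb12.ne]
        simp [free, hb12.le.not_gt]
      have g3 : nrm s t (ext0 (free s t s t) fun x => Y x.1) (Sum.inr (0, t)) = 0 := by
        rw [v3, hsum, neg_zero]
      rw [v1, v2, g3, v4, g5, g6, g8]
      simp

theorem modelP2 (hCI : CIGorensteinPoly) : ModelP2 := by
  intro n a₁ a₂ b₁ b₂ s t B _ ha hab hb hst
  by_cases hne : (rcSet true a₁ a₂ b₁ b₂ s t).Nonempty
  swap
  · exact gorSet_cyl_of_empty B _ (Set.not_nonempty_iff_eq_empty.mp hne)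
  obtain ⟨v0, hv0⟩ := hne
  obtain ⟨h1, h2, h3, h4⟩ := rcSet_bounds hst hv0
  have hs : s = a₁ ∨ a₂ ≤ s := by
    rw [Fin.ext_iff, Fin.le_def]; rw [Fin.le_def] at h1; omega
  have ht : t = b₂ ∨ t ≤ b₁ := by
    rw [Fin.ext_iff, Fin.le_def]; rw [Fin.le_def] at h4; omega
  rcases hs with hs | hs <;> rcases ht with ht | ht
  · exact caseD hCI B ha hab hb hst hs ht
  · exact caseB hCI B ha hab hb hst hs ht
  · exact caseC hCI B ha hab hb hst hs ht
  · exact caseA hCI B ha hab hb hst hs ht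

end P2

end ClanGor
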