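import Pool.Agent.ClanGor.Models

/-!
# MP_fae1d7_ag: two quadrics in disjoint sets of variables
-/

namespace ClanGor

namespace TwoQuad

/-- `a X + b` is a prime element of `D[X]` when `a` is prime and does not divide `b`. -/
theorem prime_linear {D : Type*} [CommRing D] [IsDomain D] (a b : D) (ha : Prime a)
    (hab : ¬ a ∣ b) : Prime (Polynomial.C a * Polynomial.X + Polynomial.C b) := by
  classical
  set p : Polynomial D := Polynomial.C a * Polynomial.X + Polynomial.C b with hp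
  have hdeg : p.natDegree = 1 := by
    rw [hp]; exact Polynomial.natDegree_linear ha.ne_zero
  have hp0 : p ≠ 0 := by
    intro h
    rw [h, Polynomial.natDegree_zero] at hdeg
    exact absurd hdeg (by norm_num)
  have hred : ∀ f : Polynomial D, ∃ (N : ℕ) (r : D),
      p ∣ Polynomial.C a ^ N * f - Polynomial.C r := by
    intro f
    induction f using Polynomial.induction_on' with
    | add f g hf hg =>
      obtain ⟨N1, r1, h1⟩ := hf
      obtain ⟨N2, r2, h2⟩ := hg
      refine ⟨N1 + N2, a ^ N2 * r1 + a ^ N1 * r2, ?_⟩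
      have := (h1.mul_left (Polynomial.C a ^ N2)).add (h2.mul_left (Polynomial.C a ^ N1))
      convert this using 1
      simp only [map_add, map_mul, map_pow]
      ring
    | monomial n c =>
      refine ⟨n, c * (-b) ^ n, ?_⟩
      have h := sub_dvd_pow_sub_pow (Polynomial.C a * Polynomial.X) (-(Polynomial.C b)) n
      rw [sub_neg_eq_add] at h
      have h2 := h.mul_left (Polynomial.C c)
      convert h2 using 1
      rw [← Polynomial.C_mul_X_pow_eq_monomial]
      simp only [map_mul, map_pow, map_neg]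
      ring
  let K := FractionRing D
  let x0 : K := -(algebraMap D K b) / (algebraMap D K a)
  have ha0 : algebraMap D K a ≠ 0 := by
    intro h
    exact ha.ne_zero ((IsFractionRing.injective D K) (by rw [h, map_zero]))
  have hpx : Polynomial.aeval x0 p = 0 := by
    rw [hp]
    simp only [map_add, map_mul, Polynomial.aeval_C, Polynomial.aeval_X]
    have : algebraMap D K a * x0 = -(algebraMap D K b) := by
      show algebraMap D K a * (-(algebraMap D K b) / (algebraMap D K a)) = _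
      rw [mul_comm, div_mul_cancel₀ _ ha0]
    rw [this]
    ring
  have hCa : Prime (Polynomial.C a) := Polynomial.prime_C_iff.mpr ha
  have hndvd : ¬ Polynomial.C a ∣ p := by
    intro h
    rw [hp] at h
    have h2 := (dvd_add_right (dvd_mul_right (Polynomial.C a) Polynomial.X)).mp h
    apply hab
    rw [Polynomial.C_dvd_iff_dvd_coeff] at h2
    simpa using h2 0
  have hker : ∀ f : Polynomial D, Polynomial.aeval x0 f = 0 → p ∣ f := by
    intro f hf
    obtain ⟨N, r, hr⟩ := hred f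
    have h1 : Polynomial.aeval x0 (Polynomial.C a ^ N * f - Polynomial.C r) = 0 := by
      obtain ⟨q, hq⟩ := hr
      rw [hq, map_mul, hpx, zero_mul]
    rw [map_sub, map_mul, hf, mul_zero, zero_sub, neg_eq_zero, Polynomial.aeval_C] at h1
    have hr0 : r = 0 := (IsFractionRing.injective D K) (by rw [h1, map_zero])
    rw [hr0, map_zero, sub_zero] at hr
    obtain ⟨Q, hQ⟩ := hr
    have h2 : Polynomial.C a ^ N ∣ p * Q := ⟨f, hQ.symm⟩
    have h3 := hCa.pow_dvd_of_dvd_mul_left N hndvd h2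
    obtain ⟨Q', hQ'⟩ := h3
    refine ⟨Q', ?_⟩
    have h4 : Polynomial.C a ^ N * f = Polynomial.C a ^ N * (p * Q') := by
      rw [hQ, hQ']; ring
    exact mul_left_cancel₀ (pow_ne_zero N hCa.ne_zero) h4
  refine ⟨hp0, ?_, ?_⟩
  · intro hu
    have := Polynomial.natDegree_eq_zero_of_isUnit hu
    omega
  · intro f g hfg
    obtain ⟨q, hq⟩ := hfg
    have h1 : Polynomial.aeval x0 f * Polynomial.aeval x0 g = 0 := by
      rw [← map_mul, hq, map_mul, hpx, zero_mul]
    rcases mul_eq_zero.mp h1 with h | h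
    · exact Or.inl (hker f h)
    · exact Or.inr (hker g h)

open MvPolynomial

open scoped Pointwise

theorem two_quad_aux {κ D : Type*} [CommRing D] [IsDomain D] (mk : MvPolynomial κ ℂ →+* D)
    (hsurj : Function.Surjective mk) (q1 g : MvPolynomial κ ℂ)
    (hker : ∀ P, mk P = 0 ↔ q1 ∣ P) (i j : κ) (hij : i ≠ j)
    (hq1 : Prime q1) (hi1 : i ∉ q1.vars) (hj1 : j ∉ q1.vars) (hi2 : i ∉ g.vars)
    (hj2 : j ∉ g.vars) (hg : ¬ q1 ∣ g) :
    (Ideal.ofList [q1, X j * X i + g]).IsPrime ∧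
      RingTheory.Sequence.IsWeaklyRegular (MvPolynomial κ ℂ) [q1, X j * X i + g] := by
  classical
  let Ψ : MvPolynomial κ ℂ →+* Polynomial (Polynomial D) :=
    eval₂Hom (Polynomial.C.comp (Polynomial.C.comp (mk.comp MvPolynomial.C)))
      (fun l => if l = i then Polynomial.X else if l = j then Polynomial.C Polynomial.X
        else Polynomial.C (Polynomial.C (mk (X l))))
  let Θ : Polynomial (Polynomial D) →+* D :=
    (Polynomial.evalRingHom (mk (X j))).comp (Polynomial.evalRingHom (Polynomial.C (mk (X i))))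
  have hΨi : Ψ (X i) = Polynomial.X := by
    simp [Ψ]
  have hΨj : Ψ (X j) = Polynomial.C Polynomial.X := by
    simp [Ψ, hij.symm]
  have hΘΨ : Θ.comp Ψ = mk := by
    apply MvPolynomial.ringHom_ext
    · intro c
      simp [Θ, Ψ]
    · intro l
      simp only [RingHom.comp_apply]
      by_cases hli : l = i
      · subst hli
        rw [hΨi]
        simp [Θ]
      · by_cases hlj : l = j
        · subst hlj
          rw [hΨj]
          simp [Θ]
        · simp [Ψ, Θ, hli, hlj]
  have hΨ : ∀ P : MvPolynomial κ ℂ, i ∉ P.vars → j ∉ P.vars →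
      Ψ P = Polynomial.C (Polynomial.C (mk P)) := by
    intro P hi hj
    refine MvPolynomial.hom_congr_vars (f₁ := Ψ)
      (f₂ := Polynomial.C.comp (Polynomial.C.comp mk)) ?_ ?_ rfl
    · ext c
      simp [Ψ]
    · intro l hl _
      have h1 : l ≠ i := fun h => hi (h ▸ hl)
      have h2 : l ≠ j := fun h => hj (h ▸ hl)
      simp [Ψ, h1, h2]
  have hΨq1 : Ψ q1 = 0 := by
    rw [hΨ q1 hi1 hj1]
    have : mk q1 = 0 := (hker q1).mpr dvd_rfl
    rw [this, map_zero, map_zero]
  set q2 : MvPolynomial κ ℂ := X j * X i + g with hq2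
  have hΨq2 : Ψ q2 = Polynomial.C Polynomial.X * Polynomial.X +
      Polynomial.C (Polynomial.C (mk g)) := by
    rw [hq2, map_add, map_mul, hΨi, hΨj, hΨ g hi2 hj2]
  have hmkg : mk g ≠ 0 := by
    intro h
    exact hg ((hker g).mp h)
  have hprime : Prime (Ψ q2) := by
    rw [hΨq2]
    apply prime_linear _ _ Polynomial.prime_X
    rw [Polynomial.X_dvd_iff, Polynomial.coeff_C_zero]
    exact hmkg
  have hJ : Ideal.ofList [q1, q2] = (Ideal.span {Ψ q2}).comap Ψ := by
    have hofl : Ideal.ofList [q1, q2] = Ideal.span {q1, q2} := by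
      rw [Ideal.ofList_cons, Ideal.ofList_singleton, ← Ideal.span_union]
      rfl
    rw [hofl]
    apply le_antisymm
    · rw [Ideal.span_le]
      rintro P (rfl | rfl)
      · show Ψ P ∈ Ideal.span {Ψ q2}
        rw [hΨq1]
        exact Ideal.zero_mem _
      · exact Ideal.mem_span_singleton_self _
    · intro P hP
      have hP' : Ψ P ∈ Ideal.span {Ψ q2} := hP
      obtain ⟨Q, hQ⟩ := Ideal.mem_span_singleton'.mp hP'
      obtain ⟨Q', hQ'⟩ := hsurj (Θ Q)
      have hΘ : ∀ P, Θ (Ψ P) = mk P := fun P => RingHom.congr_fun hΘΨ P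
      have h1 : mk (P - Q' * q2) = 0 := by
        rw [map_sub, map_mul, hQ', ← hΘ P, ← hQ, map_mul, hΘ q2, sub_self]
      rw [hker] at h1
      obtain ⟨A, hA⟩ := h1
      have : P = A * q1 + Q' * q2 := by
        linear_combination hA
      rw [this]
      exact Ideal.add_mem _ (Ideal.mul_mem_left _ _ (Ideal.subset_span (by simp)))
        (Ideal.mul_mem_left _ _ (Ideal.subset_span (by simp)))
  refine ⟨?_, ?_⟩
  · rw [hJ]
    have := (Ideal.span_singleton_prime hprime.ne_zero).mpr hprime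
    exact Ideal.comap_isPrime Ψ _
  · rw [RingTheory.Sequence.isWeaklyRegular_cons_iff]
    refine ⟨IsSMulRegular.of_ne_zero hq1.ne_zero, ?_⟩
    rw [RingTheory.Sequence.isWeaklyRegular_singleton_iff]
    have hndvd : ¬ q1 ∣ q2 := by
      rintro ⟨r, hr⟩
      apply hprime.ne_zero
      rw [hr, map_mul, hΨq1, zero_mul]
    have hmemtop : ∀ x : MvPolynomial κ ℂ,
        x ∈ (q1 • (⊤ : Submodule (MvPolynomial κ ℂ) (MvPolynomial κ ℂ))) ↔ q1 ∣ x := by
      intro x
      rw [Submodule.mem_smul_pointwise_iff_exists]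
      constructor
      · rintro ⟨y, -, rfl⟩
        exact ⟨y, rfl⟩
      · rintro ⟨y, rfl⟩
        exact ⟨y, trivial, rfl⟩
    rw [isSMulRegular_quotient_iff_mem_of_smul_mem]
    intro x hx
    rw [hmemtop] at hx ⊢
    rw [smul_eq_mul] at hx
    exact (hq1.dvd_or_dvd hx).resolve_left hndvd

theorem two_quad {κ : Type*} (q1 g : MvPolynomial κ ℂ) (i j : κ) (hij : i ≠ j)
    (hq1 : Prime q1) (hi1 : i ∉ q1.vars) (hj1 : j ∉ q1.vars) (hi2 : i ∉ g.vars)
    (hj2 : j ∉ g.vars) (hg : ¬ q1 ∣ g) :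
    (Ideal.ofList [q1, X j * X i + g]).IsPrime ∧
      RingTheory.Sequence.IsWeaklyRegular (MvPolynomial κ ℂ) [q1, X j * X i + g] := by
  have hP : (Ideal.span {q1}).IsPrime := (Ideal.span_singleton_prime hq1.ne_zero).mpr hq1
  have : IsDomain (MvPolynomial κ ℂ ⧸ Ideal.span {q1}) := Ideal.Quotient.isDomain _
  refine two_quad_aux (Ideal.Quotient.mk (Ideal.span {q1})) Ideal.Quotient.mk_surjective
    q1 g ?_ i j hij hq1 hi1 hj1 hi2 hj2 hg
  intro P
  rw [Ideal.Quotient.eq_zero_iff_mem, Ideal.mem_span_singleton]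

/-- Zariski dense subsets of `B × {q1 = 0, y_j y_i + g(y) = 0}`. -/
theorem gorSet_two {τ : Type} (hCI : CIGorensteinPoly) (B : Type) [Finite B] [Finite τ]
    (S' : Set (τ → ℂ)) (i j i' j' : τ) (g g' h : MvPolynomial τ ℂ) (hij : i ≠ j) (hij' : i' ≠ j')
    (h1i : i' ≠ i) (h2i : i' ≠ j) (h3i : j' ≠ i) (h4i : j' ≠ j)
    (hi : i ∉ g.vars) (hi1 : i' ∉ g.vars) (hj1 : j' ∉ g.vars) (hi2 : i' ∉ g'.vars)
    (hj2 : j' ∉ g'.vars)
    (hg : ∃ y : τ → ℂ, y j = 0 ∧ eval y g ≠ 0)
    (hg' : ∃ y : τ → ℂ, y j * y i + eval y g = 0 ∧ eval y g' ≠ 0)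
    (h1 : ∀ y ∈ S', y j * y i + eval y g = 0)
    (h1' : ∀ y ∈ S', y j' * y i' + eval y g' = 0)
    (h2 : ∀ y, y j * y i + eval y g = 0 → y j' * y i' + eval y g' = 0 → eval y h ≠ 0 → y ∈ S')
    (h3 : ∃ y, y j * y i + eval y g = 0 ∧ y j' * y i' + eval y g' = 0 ∧ eval y h ≠ 0) :
    GorSet (cyl B S') := by
  classical
  have hvr : ∀ (k : τ) (P : MvPolynomial τ ℂ), k ∉ P.vars →
      (Sum.inr k : B ⊕ τ) ∉ (rename Sum.inr P).vars := by
    intro k P hk hmem
    obtain ⟨x, hx, hx'⟩ := Finset.mem_image.mp (vars_rename _ _ hmem)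
    rw [Sum.inr_injective hx'] at hx
    exact hk hx
  set q1 : MvPolynomial (B ⊕ τ) ℂ := X (Sum.inr j) * X (Sum.inr i) + rename Sum.inr g with hq1
  have hirr : Irreducible q1 := by
    refine irreducible_quad _ _ _ ?_ (hvr i g hi) ?_
    · exact fun h => hij (Sum.inr_injective h)
    · obtain ⟨y, hy, hgy⟩ := hg
      refine ⟨Sum.elim (fun _ => 0) y, hy, ?_⟩
      rwa [eval_rename]
  have hvq1 : ∀ k : τ, k ≠ i → k ≠ j → k ∉ g.vars → (Sum.inr k : B ⊕ τ) ∉ q1.vars := by
    intro k hki hkj hkg hmem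
    rcases Finset.mem_union.mp (vars_add_subset _ _ hmem) with h | h
    · rcases Finset.mem_union.mp (vars_mul _ _ h) with h | h
      · rw [vars_X, Finset.mem_singleton] at h
        exact hkj (Sum.inr_injective h)
      · rw [vars_X, Finset.mem_singleton] at h
        exact hki (Sum.inr_injective h)
    · exact hvr k g hkg h
  have hev1 : ∀ y : B ⊕ τ → ℂ, eval y q1 =
      y (Sum.inr j) * y (Sum.inr i) + eval (fun x => y (Sum.inr x)) g := by
    intro y
    rw [hq1, map_add, map_mul, eval_X, eval_X, eval_rename]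
    rfl
  have hev2 : ∀ y : B ⊕ τ → ℂ, eval y (X (Sum.inr j') * X (Sum.inr i') + rename Sum.inr g') =
      y (Sum.inr j') * y (Sum.inr i') + eval (fun x => y (Sum.inr x)) g' := by
    intro y
    rw [map_add, map_mul, eval_X, eval_X, eval_rename]
    rfl
  obtain ⟨hprime, hreg⟩ := two_quad q1 (rename Sum.inr g') (Sum.inr i' : B ⊕ τ) (Sum.inr j')
    (fun h => hij' (Sum.inr_injective h)) hirr.prime (hvq1 i' h1i h2i hi1)
    (hvq1 j' h3i h4i hj1) (hvr i' g' hi2) (hvr j' g' hj2) (by
      rintro ⟨r, hr⟩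
      obtain ⟨y, hy, hy'⟩ := hg'
      apply hy'
      have h5 := congrArg (eval (Sum.elim (fun _ => 0) y : B ⊕ τ → ℂ)) hr
      rw [map_mul, hev1, eval_rename] at h5
      have h6 : (fun x => (Sum.elim (fun _ => 0) y : B ⊕ τ → ℂ) (Sum.inr x)) = y := rfl
      rw [h6] at h5
      have h7 : (Sum.elim (fun _ => 0) y : B ⊕ τ → ℂ) ∘ Sum.inr = y := rfl
      rw [h7] at h5
      rw [h5]
      simp only [Sum.elim_inr]
      rw [hy, zero_mul])
  refine gorSet_of_vanishingIdeal hCI (cyl B S') _ hreg ?_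
  have hmem : ∀ y : B ⊕ τ → ℂ, (∀ P ∈ Ideal.ofList
      [q1, X (Sum.inr j') * X (Sum.inr i') + rename Sum.inr g'], eval y P = 0) ↔
      (eval y q1 = 0 ∧ eval y (X (Sum.inr j') * X (Sum.inr i') + rename Sum.inr g') = 0) := by
    intro y
    have hofl : Ideal.ofList [q1, X (Sum.inr j') * X (Sum.inr i') + rename Sum.inr g'] =
        Ideal.span {q1, X (Sum.inr j') * X (Sum.inr i') + rename Sum.inr g'} := by
      rw [Ideal.ofList_cons, Ideal.ofList_singleton, ← Ideal.span_union]
      rfl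
    rw [hofl]
    constructor
    · intro h
      exact ⟨h _ (Ideal.subset_span (by simp)), h _ (Ideal.subset_span (by simp))⟩
    · rintro ⟨ha, hb⟩ P hP
      obtain ⟨A, C', rfl⟩ := Ideal.mem_span_pair.mp hP
      rw [map_add, map_mul, map_mul, ha, hb, mul_zero, mul_zero, add_zero]
  refine vanishingIdeal_eq_of_prime _ hprime (cyl B S') (rename Sum.inr h) ?_ ?_ ?_
  · intro y hy
    rw [hmem, hev1, hev2]
    exact ⟨h1 _ hy, h1' _ hy⟩
  · intro y hy hy'
    rw [hmem, hev1, hev2] at hy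
    rw [eval_rename] at hy'
    exact h2 _ hy.1 hy.2 hy'
  · intro hh
    obtain ⟨y, hy1, hy2, hy3⟩ := h3
    apply hy3
    have h8 := (hmem (Sum.elim (fun _ => 0) y)).mpr (by
      rw [hev1, hev2]
      exact ⟨hy1, hy2⟩) _ hh
    rw [eval_rename] at h8
    exact h8

end TwoQuad

end ClanGor
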