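import Pool.Agent.ClanGor.Norm
import Pool.Agent.ClanGor.TwoQuad
import Pool.Agent.ClanGor.CommAlg

/-!
# MP_fae1d7_ag: the model (P3): nested, `a₂ ≤ a₁ + 2`, `b₂ ≤ b₁ + 2`
-/

namespace ClanGor

namespace P3

open MvPolynomial

variable {n : ℕ}

/-- Elimination of the coordinates which are not free (general version). -/
theorem polyIso_nrm' (B : Type) (s t : Fin n) (hst : s < t) (S : Set (RC n → ℂ))
    (free : RC n → Prop) (hfree : ∀ x, free x → MayFree s t x)
    (F : RC n → MvPolynomial {x : RC n // free x} ℂ)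
    (hF1 : ∀ x (h : free x), F x = X ⟨x, h⟩)
    (hF2 : ∀ x, ¬ MayFree s t x → F x = 0)
    (hS : ∀ v ∈ S, RCNorm s t (rMat v) (cMat v) ∧
      ∀ x, MayFree s t x → ¬ free x → eval (fun z : {x : RC n // free x} => v z.1) (F x) = v x) :
    PolyIso (cyl B S)
      (cyl B {y : {x : RC n // free x} → ℂ | nrm s t (fun x => eval y (F x)) ∈ S}) := by
  have hev : ∀ (y : {x : RC n // free x} → ℂ) (x : RC n),
      eval y (nrm s t F x) = nrm s t (fun x => eval y (F x)) x := by
    intro y x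
    rw [map_nrm]
  have key := polyIso_cyl_elim B S (fun x => nrm s t F x) (fun x : {x : RC n // free x} => x.1)
    ?_ ?_
  · convert key using 3
    ext y
    simp only [hev]
  · rintro ⟨x, hx⟩
    have hm := hfree x hx
    have e := hF1 x hx
    rcases x with ⟨a, j⟩ | ⟨a, k⟩
    · fin_cases a
      · simp only [MayFree, Fin.zero_eta, if_true] at hm
        change nrm s t _ (Sum.inl (0, j)) = _
        rw [nrm_r0, if_neg hm.ne, add_zero]; exact e
      · simp [MayFree] at hm
        change nrm s t _ (Sum.inl (1, j)) = _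
        rw [nrm_r1, if_neg hm.1.ne, add_zero]; exact e
    · fin_cases a
      · simp [MayFree] at hm
        change nrm s t _ (Sum.inr (0, k)) = _
        rw [nrm_c0, if_neg hm.1.ne', if_neg hm.2, add_zero, sub_zero]; exact e
      · simp [MayFree] at hm
        change nrm s t _ (Sum.inr (1, k)) = _
        rw [nrm_c1, if_neg hm.ne', add_zero]; exact e
  · intro v hv i
    obtain ⟨h1, h2⟩ := hS v hv
    show eval _ (nrm s t F i) = v i
    rw [hev]
    refine congrFun (nrm_eq_of_norm v h1 _ ?_ ?_ hst) i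
    · intro x hx
      by_cases h : free x
      · show eval _ (F x) = v x
        rw [hF1 x h, eval_X]
      · exact h2 x hx h
    · intro x hx
      show eval _ (F x) = 0
      rw [hF2 x hx, map_zero]

/-- The free coordinates. -/
def Free (a₁ a₂ b₁ b₂ s t : Fin n) : RC n → Prop
  | Sum.inl (e, j) => if e = 0 then a₁ ≤ j ∧ j < s
      else (a₁ ≤ j ∧ (s < a₂ → a₂ ≤ j)) ∧ j < t ∧ j ≠ s
  | Sum.inr (e, k) => if e = 0 then (s < k ∧ k ≠ t) ∧ k ≤ b₂ ∧ (b₁ < t → k ≤ b₁)
      else t < k ∧ k ≤ b₂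

section
variable {a₁ a₂ b₁ b₂ s t : Fin n}

theorem free_r0 (j : Fin n) : Free a₁ a₂ b₁ b₂ s t (Sum.inl (0, j)) ↔ a₁ ≤ j ∧ j < s := by
  simp [Free]

theorem free_r1 (j : Fin n) : Free a₁ a₂ b₁ b₂ s t (Sum.inl (1, j)) ↔
    (a₁ ≤ j ∧ (s < a₂ → a₂ ≤ j)) ∧ j < t ∧ j ≠ s := by
  simp [Free]

theorem free_c0 (k : Fin n) : Free a₁ a₂ b₁ b₂ s t (Sum.inr (0, k)) ↔
    (s < k ∧ k ≠ t) ∧ k ≤ b₂ ∧ (b₁ < t → k ≤ b₁) := by
  simp [Free]

theorem free_c1 (k : Fin n) : Free a₁ a₂ b₁ b₂ s t (Sum.inr (1, k)) ↔ t < k ∧ k ≤ b₂ := by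
  simp [Free]

theorem mayFree_of_free {x : RC n} (h : Free a₁ a₂ b₁ b₂ s t x) : MayFree s t x := by
  rcases x with ⟨a, j⟩ | ⟨a, k⟩
  · fin_cases a
    · have h' := (free_r0 j).mp h
      simpa [MayFree] using h'.2
    · have h' := (free_r1 j).mp h
      simpa [MayFree] using h'.2
  · fin_cases a
    · have h' := (free_c0 k).mp h
      simpa [MayFree] using h'.1
    · have h' := (free_c1 k).mp h
      simpa [MayFree] using h'.1

end

/-- The coordinates which are determined by the free ones. -/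
def fill {A : Type*} [CommRing A] (b₁ t : Fin n) (E : RC n → A) : RC n → A
  | Sum.inl x => E (Sum.inl x)
  | Sum.inr (e, k) => E (Sum.inr (e, k)) + (if e = 0 ∧ b₁ < t ∧ t < k then
      E (Sum.inr (1, k)) * (-∑ k', E (Sum.inl (1, k')) * E (Sum.inr (0, k'))) else 0)

section
variable {A : Type*} [CommRing A] {b₁ t : Fin n} {E : RC n → A}

theorem fill_c0 (k : Fin n) : fill b₁ t E (Sum.inr (0, k)) = E (Sum.inr (0, k)) +
    (if b₁ < t ∧ t < k then
      E (Sum.inr (1, k)) * (-∑ k', E (Sum.inl (1, k')) * E (Sum.inr (0, k'))) else 0) := by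
  simp [fill]

theorem fill_c1 (k : Fin n) : fill b₁ t E (Sum.inr (1, k)) = E (Sum.inr (1, k)) := by
  simp [fill]

theorem map_fill {A' : Type*} [CommRing A'] (f : A →+* A') (x : RC n) :
    f (fill b₁ t E x) = fill b₁ t (fun x => f (E x)) x := by
  rcases x with ⟨e, j⟩ | ⟨e, k⟩
  · rfl
  · simp only [fill, map_add]
    congr 1
    split_ifs
    · simp [map_sum]
    · rw [map_zero]

end

/-- The coordinates of `nrm s t (fill b₁ t E)`. -/
theorem nf_r0 {A : Type*} [CommRing A] {s b₁ t : Fin n} {E : RC n → A} (j : Fin n) :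
    nrm s t (fill b₁ t E) (Sum.inl (0, j)) = E (Sum.inl (0, j)) + (if j = s then 1 else 0) := by
  rw [nrm_r0]; rfl

theorem nf_r1 {A : Type*} [CommRing A] {s b₁ t : Fin n} {E : RC n → A} (j : Fin n) :
    nrm s t (fill b₁ t E) (Sum.inl (1, j)) = E (Sum.inl (1, j)) + (if j = t then 1 else 0) := by
  rw [nrm_r1]; rfl

theorem nf_c1 {A : Type*} [CommRing A] {s b₁ t : Fin n} {E : RC n → A} (k : Fin n) :
    nrm s t (fill b₁ t E) (Sum.inr (1, k)) = E (Sum.inr (1, k)) + (if k = t then 1 else 0) := by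
  rw [nrm_c1, fill_c1]

theorem nf_c0 {A : Type*} [CommRing A] {s b₁ t : Fin n} {E : RC n → A}
    (hE : ∀ k, t < k → E (Sum.inl (1, k)) = 0) (k : Fin n) :
    nrm s t (fill b₁ t E) (Sum.inr (0, k)) = E (Sum.inr (0, k)) +
      (if b₁ < t ∧ t < k then
        E (Sum.inr (1, k)) * (-∑ k', E (Sum.inl (1, k')) * E (Sum.inr (0, k'))) else 0) +
      (if k = s then 1 else 0) +
      (if k = t then (-∑ k', E (Sum.inl (1, k')) * E (Sum.inr (0, k'))) else 0) := by
  have hsum : ∑ k', fill b₁ t E (Sum.inl (1, k')) * fill b₁ t E (Sum.inr (0, k')) =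
      ∑ k', E (Sum.inl (1, k')) * E (Sum.inr (0, k')) := by
    apply Finset.sum_congr rfl
    intro k' _
    show E (Sum.inl (1, k')) * _ = _
    rw [fill_c0]
    by_cases h : b₁ < t ∧ t < k'
    · rw [hE k' h.2, zero_mul, zero_mul]
    · rw [if_neg h, add_zero]
  rw [nrm_c0, hsum, fill_c0]
  split_ifs <;> ring

section main
variable {a₁ a₂ b₁ b₂ s t : Fin n}

/-- positions of a nonempty chart -/
theorem pos_of_mem (hst : s < t) {v : RC n → ℂ}
    (hv : v ∈ rcSet false a₁ a₂ b₁ b₂ s t) : a₁ ≤ s ∧ a₂ ≤ t ∧ s ≤ b₁ ∧ t ≤ b₂ := by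
  obtain ⟨hN, hP⟩ := hv
  refine ⟨?_, ?_, ?_, ?_⟩
  · by_contra h
    have h1 := hP.rzero s (not_le.mp h) 0
    rw [hN.r0s] at h1
    exact one_ne_zero h1
  · by_contra h
    rw [not_le] at h
    have h1 := hP.rline t h
    have h2 := hP.rline s (hst.trans h)
    rw [hN.r1t, hN.r0 t hst] at h1
    rw [hN.r0s, hN.r1s] at h2
    apply hP.rdet
    have h3 : rMat v 0 a₁ = 0 := by linear_combination -h1
    have h4 : rMat v 1 a₁ = 0 := by linear_combination h2
    rw [h3, h4]; ring
  · by_contra h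
    rw [not_le] at h
    have h1 := hP.cline s h
    have h2 := hP.cline t (h.trans hst)
    rw [hN.c0s, hN.c1 s hst] at h1
    rw [hN.c1t] at h2
    apply hP.cdet
    have h3 : cMat v b₂ 1 = 0 := by linear_combination h1
    have h4 : cMat v b₂ 0 = 0 := by rw [h3] at h2; linear_combination -h2
    rw [h3, h4]; ring
  · by_contra h
    have h1 := hP.czero t (not_le.mp h) 1
    rw [hN.c1t] at h1
    exact one_ne_zero h1

/-- `η_j = 0` for `j < a₂` if `s < a₂`. -/
theorem eta_zero {v : RC n → ℂ} (hv : v ∈ rcSet false a₁ a₂ b₁ b₂ s t) (hs : s < a₂)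
    (j : Fin n) (hj : j < a₂) : rMat v 1 j = 0 := by
  obtain ⟨hN, hP⟩ := hv
  have h1 := hP.rline s hs
  rw [hN.r0s, hN.r1s] at h1
  have h2 : rMat v 1 a₁ = 0 := by linear_combination h1
  have h3 := hP.rline j hj
  rw [h2, mul_zero] at h3
  have h4 : rMat v 0 a₁ ≠ 0 := by
    intro h
    apply hP.rdet
    rw [h, h2]; ring
  exact (mul_eq_zero.mp h3.symm).resolve_left h4

/-- `ζ_k = ζ_t ω_k` for `k > b₁` if `t > b₁`. -/
theorem zeta_eq {v : RC n → ℂ} (hv : v ∈ rcSet false a₁ a₂ b₁ b₂ s t) (ht : b₁ < t)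
    (k : Fin n) (hk : b₁ < k) : cMat v k 0 = cMat v t 0 * cMat v k 1 := by
  obtain ⟨hN, hP⟩ := hv
  have h1 := hP.cline t ht
  rw [hN.c1t, mul_one] at h1
  have h2 : cMat v b₂ 1 ≠ 0 := by
    intro h
    apply hP.cdet
    rw [← h1, h]; ring
  have h3 := hP.cline k hk
  rw [← h1] at h3
  have h4 : cMat v b₂ 1 * (cMat v k 0 - cMat v t 0 * cMat v k 1) = 0 := by
    linear_combination h3
  have h5 := (mul_eq_zero.mp h4).resolve_left h2
  linear_combination h5

/-- The determined coordinates. -/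
theorem det_coord (hst : s < t) {v : RC n → ℂ}
    (hv : v ∈ rcSet false a₁ a₂ b₁ b₂ s t) (E : RC n → ℂ)
    (hE : ∀ x, Free a₁ a₂ b₁ b₂ s t x → E x = v x)
    (hE' : ∀ x, ¬ Free a₁ a₂ b₁ b₂ s t x → E x = 0) (x : RC n) (hx : MayFree s t x)
    (hx' : ¬ Free a₁ a₂ b₁ b₂ s t x) : fill b₁ t E x = v x := by
  have hv' := hv
  obtain ⟨hN, hP⟩ := hv'
  -- the coordinates `η`
  have heta : ∀ j, j ≠ t → E (Sum.inl (1, j)) = v (Sum.inl (1, j)) := by
    intro j hjt
    by_cases hf : Free a₁ a₂ b₁ b₂ s t (Sum.inl (1, j))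
    · exact hE _ hf
    rw [hE' _ hf]
    rw [free_r1] at hf
    rcases lt_or_gt_of_ne hjt with h1 | h1
    · by_cases hjs : j = s
      · subst hjs
        exact hN.r1s.symm
      · by_cases hja : a₁ ≤ j
        · have h2 : s < a₂ ∧ j < a₂ := by
            by_contra h3
            apply hf
            refine ⟨⟨hja, fun h4 => ?_⟩, h1, hjs⟩
            by_contra h5
            exact h3 ⟨h4, not_le.mp h5⟩
          exact (eta_zero hv h2.1 j h2.2).symm
        · exact (hP.rzero j (not_le.mp hja) 1).symm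
    · exact (hN.r1 j h1).symm
  rcases x with ⟨a, j⟩ | ⟨a, k⟩
  · fin_cases a
    · have hm : j < s := by simpa [MayFree] using hx
      show E (Sum.inl (0, j)) = v (Sum.inl (0, j))
      have hx2 : ¬ Free a₁ a₂ b₁ b₂ s t (Sum.inl (0, j)) := hx'
      rw [hE' _ hx2]
      have h1 : ¬ (a₁ ≤ j ∧ j < s) := fun h => hx' ((free_r0 j).mpr h)
      have h2 : j < a₁ := by
        by_contra h
        exact h1 ⟨not_lt.mp h, hm⟩
      exact (hP.rzero j h2 0).symm
    · have hm : j < t ∧ j ≠ s := by simpa [MayFree] using hx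
      exact heta j hm.1.ne
  · fin_cases a
    · have hm : s < k ∧ k ≠ t := by simpa [MayFree] using hx
      show fill b₁ t E (Sum.inr (0, k)) = v (Sum.inr (0, k))
      have hx2 : ¬ Free a₁ a₂ b₁ b₂ s t (Sum.inr (0, k)) := hx'
      rw [fill_c0, hE' _ hx2, zero_add]
      rw [free_c0] at hx2
      by_cases hkb : k ≤ b₂
      · have h1 : b₁ < t ∧ b₁ < k := by
          by_contra h3
          apply hx2
          refine ⟨hm, hkb, fun h4 => ?_⟩
          by_contra h5
          exact h3 ⟨h4, not_le.mp h5⟩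
        have hz := zeta_eq hv h1.1 k h1.2
        rcases lt_or_gt_of_ne hm.2 with h2 | h2
        · rw [if_neg (fun h => absurd h.2 (not_lt.mpr h2.le))]
          rw [hN.c1 k h2, mul_zero] at hz
          exact hz.symm
        · rw [if_pos ⟨h1.1, h2⟩]
          have hw : E (Sum.inr (1, k)) = v (Sum.inr (1, k)) := hE _ ((free_c1 k).mpr ⟨h2, hkb⟩)
          rw [hw]
          have hT : (-∑ k', E (Sum.inl (1, k')) * E (Sum.inr (0, k'))) = cMat v t 0 := by
            have hrel := hN.rel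
            have hterm : ∀ k', rMat v 1 k' * cMat v k' 0 =
                E (Sum.inl (1, k')) * E (Sum.inr (0, k')) +
                  (if k' = t then cMat v t 0 else 0) := by
              intro k'
              by_cases hk't : k' = t
              · subst hk't
                rw [if_pos rfl, hN.r1t, hE' (Sum.inl (1, k')) (by
                  rw [free_r1]
                  exact fun h => absurd h.2.1 (lt_irrefl _))]
                ring
              · rw [if_neg hk't, add_zero, heta k' hk't]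
                show rMat v 1 k' * cMat v k' 0 = rMat v 1 k' * E (Sum.inr (0, k'))
                by_cases hf : Free a₁ a₂ b₁ b₂ s t (Sum.inr (0, k'))
                · rw [hE _ hf]; rfl
                rw [hE' _ hf, mul_zero]
                rw [free_c0] at hf
                rcases lt_trichotomy k' s with h3 | h3 | h3
                · rw [hN.c0 k' h3, mul_zero]
                · rw [h3, hN.r1s, zero_mul]
                · rcases lt_or_gt_of_ne hk't with h4 | h4
                  · by_cases h5 : k' ≤ b₂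
                    · have h6 : b₁ < k' := by
                        by_contra h7
                        exact hf ⟨⟨h3, hk't⟩, h5, fun _ => not_lt.mp h7⟩
                      have h8 := zeta_eq hv h1.1 k' h6
                      rw [hN.c1 k' h4, mul_zero] at h8
                      rw [h8, mul_zero]
                    · rw [hP.czero k' (not_le.mp h5) 0, mul_zero]
                  · rw [hN.r1 k' h4, zero_mul]
            rw [Finset.sum_congr rfl fun k' _ => hterm k', Finset.sum_add_distrib] at hrel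
            simp only [Finset.sum_ite_eq', Finset.mem_univ, if_true] at hrel
            linear_combination -hrel
          rw [hT]
          have hz' : v (Sum.inr (0, k)) = cMat v t 0 * v (Sum.inr (1, k)) := hz
          rw [hz', mul_comm]
      · have h0 : E (Sum.inr (1, k)) = 0 := hE' _ (by
          rw [free_c1]
          exact fun h => hkb h.2)
        rw [h0, zero_mul, ite_self]
        exact (hP.czero k (not_le.mp hkb) 0).symm
    · have hm : t < k := by simpa [MayFree] using hx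
      show fill b₁ t E (Sum.inr (1, k)) = v (Sum.inr (1, k))
      have hx2 : ¬ Free a₁ a₂ b₁ b₂ s t (Sum.inr (1, k)) := hx'
      rw [fill_c1, hE' _ hx2]
      have h1 : ¬ (t < k ∧ k ≤ b₂) := fun h => hx' ((free_c1 k).mpr h)
      have h2 : b₂ < k := by
        by_contra h
        exact h1 ⟨hm, not_lt.mp h⟩
      exact (hP.czero k h2 1).symm

/-- The product of the three open conditions. -/
def hh {A : Type*} [CommRing A] (a₁ a₂ b₁ b₂ : Fin n) (v : RC n → A) : A :=
  (v (Sum.inl (0, a₁)) * v (Sum.inl (1, a₂)) - v (Sum.inl (0, a₂)) * v (Sum.inl (1, a₁))) *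
  (v (Sum.inr (0, b₁)) * v (Sum.inr (1, b₂)) - v (Sum.inr (0, b₂)) * v (Sum.inr (1, b₁))) *
  (v (Sum.inr (0, b₂)) * v (Sum.inl (0, a₁)) + v (Sum.inr (1, b₂)) * v (Sum.inl (1, a₁)))

theorem map_hh {A A' : Type*} [CommRing A] [CommRing A'] (f : A →+* A') (v : RC n → A) :
    f (hh a₁ a₂ b₁ b₂ v) = hh a₁ a₂ b₁ b₂ (fun x => f (v x)) := by
  simp [hh]

/-- Description of the set in free coordinates. -/
theorem mem_iff (hst : s < t)
    (h1 : a₁ ≤ s) (h2 : a₂ ≤ t) (h3 : s ≤ b₁) (h4 : t ≤ b₂) (E : RC n → ℂ)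
    (hE : ∀ x, ¬ Free a₁ a₂ b₁ b₂ s t x → E x = 0) :
    nrm s t (fill b₁ t E) ∈ rcSet false a₁ a₂ b₁ b₂ s t ↔
      (a₂ ≤ s → ∀ j, a₁ < j → j < a₂ → E (Sum.inl (0, j)) * E (Sum.inl (1, a₁)) =
        E (Sum.inl (0, a₁)) * E (Sum.inl (1, j))) ∧
      (t ≤ b₁ → ∀ k, b₁ < k → k < b₂ → E (Sum.inr (0, k)) * E (Sum.inr (1, b₂)) =
        E (Sum.inr (0, b₂)) * E (Sum.inr (1, k))) ∧
      hh a₁ a₂ b₁ b₂ (nrm s t (fill b₁ t E)) ≠ 0 := by
  set v := nrm s t (fill b₁ t E) with hv
  set T : ℂ := -∑ k', E (Sum.inl (1, k')) * E (Sum.inr (0, k')) with hT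
  have e0 : ∀ j, v (Sum.inl (0, j)) = E (Sum.inl (0, j)) + (if j = s then 1 else 0) :=
    fun j => nf_r0 j
  have e1 : ∀ j, v (Sum.inl (1, j)) = E (Sum.inl (1, j)) + (if j = t then 1 else 0) :=
    fun j => nf_r1 j
  have e3 : ∀ k, v (Sum.inr (1, k)) = E (Sum.inr (1, k)) + (if k = t then 1 else 0) :=
    fun k => nf_c1 k
  have e2 : ∀ k, v (Sum.inr (0, k)) = E (Sum.inr (0, k)) +
      (if b₁ < t ∧ t < k then E (Sum.inr (1, k)) * T else 0) + (if k = s then 1 else 0) +
      (if k = t then T else 0) := by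
    intro k
    exact nf_c0 (fun k hk => hE _ (by
      rw [free_r1]
      exact fun h => absurd h.2.1 (not_lt.mpr hk.le))) k
  -- rows for `j < a₂ ≤ s`
  have r0 : a₂ ≤ s → ∀ j, j < a₂ → v (Sum.inl (0, j)) = E (Sum.inl (0, j)) := by
    intro h j hj
    rw [e0, if_neg (hj.trans_le h).ne, add_zero]
  have r1 : ∀ j, j < a₂ → v (Sum.inl (1, j)) = E (Sum.inl (1, j)) := by
    intro j hj
    rw [e1, if_neg (hj.trans_le h2).ne, add_zero]
  have c0 : t ≤ b₁ → ∀ k, b₁ < k → v (Sum.inr (0, k)) = E (Sum.inr (0, k)) := by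
    intro h k hk
    rw [e2, if_neg (fun h' => absurd h'.1 (not_lt.mpr h)), if_neg (h3.trans_lt hk).ne',
      if_neg (h.trans_lt hk).ne', add_zero, add_zero, add_zero]
  have c1 : t ≤ b₁ → ∀ k, b₁ < k → v (Sum.inr (1, k)) = E (Sum.inr (1, k)) := by
    intro h k hk
    rw [e3, if_neg (h.trans_lt hk).ne', add_zero]
  have c0' : b₁ < t → ∀ k, b₁ < k → v (Sum.inr (0, k)) = v (Sum.inr (1, k)) * T := by
    intro h k hk
    have hz : E (Sum.inr (0, k)) = 0 := hE _ (by
      rw [free_c0]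
      exact fun h' => absurd (h'.2.2 h) (not_le.mpr hk))
    rw [e2, e3, hz, if_neg (h3.trans_lt hk).ne', zero_add, add_zero]
    rcases lt_trichotomy k t with h5 | h5 | h5
    · rw [if_neg (fun h' => absurd h'.2 (not_lt.mpr h5.le)), if_neg h5.ne, if_neg h5.ne,
        hE (Sum.inr (1, k)) (by
          rw [free_c1]
          exact fun h' => absurd h'.1 (not_lt.mpr h5.le))]
      ring
    · subst h5
      rw [if_neg (fun h' => absurd h'.2 (lt_irrefl _)), if_pos rfl, if_pos rfl,
        hE (Sum.inr (1, k)) (by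
          rw [free_c1]
          exact fun h' => absurd h'.1 (lt_irrefl _))]
      ring
    · rw [if_pos ⟨h, h5⟩, if_neg h5.ne', if_neg h5.ne']
      ring
  constructor
  · rintro ⟨hN, hP⟩
    refine ⟨?_, ?_, ?_⟩
    · intro hs j hj1 hj2
      have := hP.rline j hj2
      simp only [rMat] at this
      rwa [r0 hs j hj2, r0 hs a₁ (hj1.trans hj2), r1 j hj2, r1 a₁ (hj1.trans hj2)] at this
    · intro ht k hk1 hk2
      have := hP.cline k hk1
      simp only [cMat] at this
      rwa [c0 ht k hk1, c0 ht b₂ (hk1.trans hk2), c1 ht k hk1, c1 ht b₂ (hk1.trans hk2)] at this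
    · have := hP.nest rfl
      exact mul_ne_zero (mul_ne_zero hP.rdet hP.cdet) this
  · rintro ⟨hL1, hL2, hne⟩
    have hne1 := left_ne_zero_of_mul hne
    refine ⟨?_, ?_⟩
    · apply rcNorm_nrm hst
      intro x hx
      rcases x with ⟨e, j⟩ | ⟨e, k⟩
      · exact hE _ (fun h => hx (mayFree_of_free h))
      · have h0 : E (Sum.inr (e, k)) = 0 := hE _ (fun h => hx (mayFree_of_free h))
        show E (Sum.inr (e, k)) + (if e = 0 ∧ b₁ < t ∧ t < k then
          E (Sum.inr (1, k)) * (-∑ k', E (Sum.inl (1, k')) * E (Sum.inr (0, k'))) else 0) = 0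
        rw [h0, zero_add, if_neg]
        rintro ⟨h5, h6, h7⟩
        apply hx
        subst h5
        simp only [MayFree, if_true]
        exact ⟨hst.trans h7, h7.ne'⟩
    · constructor
      · intro j hj a
        have h5 : v (Sum.inl (0, j)) = 0 := by
          rw [e0, if_neg (hj.trans_le h1).ne, add_zero]
          exact hE _ (by
            rw [free_r0]
            exact fun h => absurd h.1 (not_le.mpr hj))
        have h6 : v (Sum.inl (1, j)) = 0 := by
          rw [e1, if_neg (hj.trans_le (h1.trans hst.le)).ne, add_zero]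
          exact hE _ (by
            rw [free_r1]
            exact fun h => absurd h.1.1 (not_le.mpr hj))
        fin_cases a
        · exact h5
        · exact h6
      · intro j hj
        simp only [rMat]
        by_cases hs : s < a₂
        · have hz : ∀ j, j < a₂ → v (Sum.inl (1, j)) = 0 := by
            intro j hj
            rw [r1 j hj]
            exact hE _ (by
              rw [free_r1]
              exact fun h => absurd (h.1.2 hs) (not_le.mpr hj))
          rw [hz j hj]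
          by_cases hja : a₁ < a₂
          · rw [hz a₁ hja, mul_zero, mul_zero]
          · -- impossible
            exfalso
            rw [not_lt] at hja
            exact absurd (h1.trans_lt hs) (not_lt.mpr hja)
        · rw [not_lt] at hs
          by_cases hja : a₁ < a₂
          · rw [r0 hs j hj, r0 hs a₁ hja, r1 j hj, r1 a₁ hja]
            rcases lt_trichotomy j a₁ with h5 | h5 | h5
            · rw [hE (Sum.inl (0, j)) (by
                rw [free_r0]
                exact fun h => absurd h.1 (not_le.mpr h5)), hE (Sum.inl (1, j)) (by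
                rw [free_r1]
                exact fun h => absurd h.1.1 (not_le.mpr h5))]
              ring
            · rw [h5]
            · exact hL1 hs j h5 hj
          · -- `j < a₂ ≤ a₁`
            have hj' : j < a₁ := hj.trans_le (not_lt.mp hja)
            rw [r0 hs j hj, r1 j hj, hE (Sum.inl (0, j)) (by
                rw [free_r0]
                exact fun h => absurd h.1 (not_le.mpr hj')), hE (Sum.inl (1, j)) (by
                rw [free_r1]
                exact fun h => absurd h.1.1 (not_le.mpr hj'))]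
            ring
      · exact left_ne_zero_of_mul hne1
      · intro k hk a
        have hw : E (Sum.inr (1, k)) = 0 := hE _ (by
          rw [free_c1]
          exact fun h => absurd h.2 (not_le.mpr hk))
        have hkt : k ≠ t := (h4.trans_lt hk).ne'
        have h5 : v (Sum.inr (0, k)) = 0 := by
          rw [e2, hw, zero_mul, ite_self, if_neg hkt,
            if_neg (hst.trans (h4.trans_lt hk)).ne', add_zero, add_zero, add_zero]
          exact hE _ (by
            rw [free_c0]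
            exact fun h => absurd h.2.1 (not_le.mpr hk))
        have h6 : v (Sum.inr (1, k)) = 0 := by
          rw [e3, hw, if_neg hkt, add_zero]
        fin_cases a
        · exact h5
        · exact h6
      · intro k hk
        simp only [cMat]
        by_cases hbb : b₁ < b₂
        · by_cases ht : b₁ < t
          · rw [c0' ht k hk, c0' ht b₂ hbb]
            ring
          · rw [not_lt] at ht
            rw [c0 ht k hk, c0 ht b₂ hbb, c1 ht k hk, c1 ht b₂ hbb]
            rcases lt_trichotomy k b₂ with h5 | h5 | h5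
            · exact hL2 ht k hk h5
            · rw [h5]
            · rw [hE (Sum.inr (0, k)) (by
                rw [free_c0]
                exact fun h => absurd h.2.1 (not_le.mpr h5)), hE (Sum.inr (1, k)) (by
                rw [free_c1]
                exact fun h => absurd h.2 (not_le.mpr h5))]
              ring
        · exfalso
          have h5 : v (Sum.inr (0, b₁)) * v (Sum.inr (1, b₂)) -
              v (Sum.inr (0, b₂)) * v (Sum.inr (1, b₁)) ≠ 0 := right_ne_zero_of_mul hne1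
          rw [not_lt] at hbb
          have hb1t : t ≤ b₁ := h4.trans hbb
          rcases hbb.lt_or_eq with h6 | h6
          · have h7 : b₂ < b₁ := h6
            apply h5
            have hw : E (Sum.inr (1, b₁)) = 0 := hE _ (by
              rw [free_c1]
              exact fun h => absurd h.2 (not_le.mpr h7))
            have hkt : b₁ ≠ t := (h4.trans_lt h7).ne'
            rw [e2 b₁, e3 b₁, hw, zero_mul, ite_self, if_neg hkt,
              if_neg (hst.trans (h4.trans_lt h7)).ne', if_neg hkt,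
              hE (Sum.inr (0, b₁)) (by
                rw [free_c0]
                exact fun h => absurd h.2.1 (not_le.mpr h7))]
            ring
          · apply h5
            rw [h6]
            ring
      · exact right_ne_zero_of_mul hne1
      · intro h
        exact absurd h (by decide)
      · intro _
        exact right_ne_zero_of_mul hne

end main

/-! ### Determinantal quadrics -/

section quadrics
variable {τ : Type}

theorem not_mem_vars_mul {k a b : τ} (h1 : k ≠ a) (h2 : k ≠ b) :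
    k ∉ (-(X a * X b) : MvPolynomial τ ℂ).vars := by
  classical
  intro h
  rw [vars_neg] at h
  rcases Finset.mem_union.mp (vars_mul _ _ h) with h | h
  · rw [vars_X, Finset.mem_singleton] at h
    exact h1 h
  · rw [vars_X, Finset.mem_singleton] at h
    exact h2 h

theorem eval_mul (a b : τ) (y : τ → ℂ) :
    eval y (-(X a * X b) : MvPolynomial τ ℂ) = -(y a * y b) := by
  simp

/-- One determinant. -/
theorem gorSet_det (hCI : CIGorensteinPoly) (B : Type) [Finite B] [Finite τ] (S' : Set (τ → ℂ))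
    (i j a b : τ) (h : MvPolynomial τ ℂ) (hij : i ≠ j) (hia : i ≠ a) (hib : i ≠ b)
    (hja : j ≠ a) (hjb : j ≠ b)
    (hmem : ∀ y, y ∈ S' ↔ y i * y j = y a * y b ∧ eval y h ≠ 0) (hne : ∃ y, y ∈ S') :
    GorSet (cyl B S') := by
  classical
  refine gorSet_quad hCI B S' i j (-(X a * X b)) h hij (not_mem_vars_mul hia hib) ?_ ?_ ?_ ?_
  · refine ⟨fun x => if x = j then 0 else 1, if_pos rfl, ?_⟩
    rw [eval_mul, if_neg hja.symm, if_neg hjb.symm]
    norm_num
  · intro y hy
    rw [eval_mul]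
    linear_combination ((hmem y).mp hy).1
  · intro y hy hy'
    rw [eval_mul] at hy
    exact (hmem y).mpr ⟨by linear_combination hy, hy'⟩
  · obtain ⟨y, hy⟩ := hne
    refine ⟨y, ?_, ((hmem y).mp hy).2⟩
    rw [eval_mul]
    linear_combination ((hmem y).mp hy).1

/-- Two determinants in disjoint sets of variables. -/
theorem gorSet_det2 (hCI : CIGorensteinPoly) (B : Type) [Finite B] [Finite τ] (S' : Set (τ → ℂ))
    (i j a b i' j' a' b' : τ) (h : MvPolynomial τ ℂ) (hij : i ≠ j) (hia : i ≠ a) (hib : i ≠ b)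
    (hja : j ≠ a) (hjb : j ≠ b)
    (hij' : i' ≠ j') (hia' : i' ≠ a') (hib' : i' ≠ b') (hja' : j' ≠ a') (hjb' : j' ≠ b')
    (hi1 : i' ≠ i) (hi2 : i' ≠ j) (hi3 : i' ≠ a) (hi4 : i' ≠ b)
    (hj1 : j' ≠ i) (hj2 : j' ≠ j) (hj3 : j' ≠ a) (hj4 : j' ≠ b)
    (hmem : ∀ y, y ∈ S' ↔ y i * y j = y a * y b ∧ y i' * y j' = y a' * y b' ∧ eval y h ≠ 0)
    (hne : ∃ y, y ∈ S') :
    GorSet (cyl B S') := by
  classical
  refine TwoQuad.gorSet_two hCI B S' i j i' j' (-(X a * X b)) (-(X a' * X b')) h hij hij'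
    hi1 hi2 hj1 hj2 (not_mem_vars_mul hia hib) (not_mem_vars_mul hi3 hi4)
    (not_mem_vars_mul hj3 hj4) (not_mem_vars_mul hia' hib') (not_mem_vars_mul hja' hjb')
    ?_ ?_ ?_ ?_ ?_ ?_
  · refine ⟨fun x => if x = j then 0 else 1, if_pos rfl, ?_⟩
    rw [eval_mul, if_neg hja.symm, if_neg hjb.symm]
    norm_num
  · refine ⟨fun _ => 1, ?_, ?_⟩
    · rw [eval_mul]; norm_num
    · rw [eval_mul]; norm_num
  · intro y hy
    rw [eval_mul]
    linear_combination ((hmem y).mp hy).1
  · intro y hy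
    rw [eval_mul]
    linear_combination ((hmem y).mp hy).2.1
  · intro y hy hy' hy''
    rw [eval_mul] at hy hy'
    exact (hmem y).mpr ⟨by linear_combination hy, by linear_combination hy', hy''⟩
  · obtain ⟨y, hy⟩ := hne
    refine ⟨y, ?_, ?_, ((hmem y).mp hy).2.2⟩
    · rw [eval_mul]
      linear_combination ((hmem y).mp hy).1
    · rw [eval_mul]
      linear_combination ((hmem y).mp hy).2.1

end quadrics

theorem modelP3' (hCI : CIGorensteinPoly) : ModelP3 := by
  intro n a₁ a₂ b₁ b₂ s t B _ ha hab hb ha2 hb2 hst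
  classical
  by_cases hne : ∃ v, v ∈ rcSet false a₁ a₂ b₁ b₂ s t
  swap
  · apply gorSet_cyl_of_empty
    rw [Set.eq_empty_iff_forall_notMem]
    exact fun v hv => hne ⟨v, hv⟩
  obtain ⟨v0, hv0⟩ := hne
  obtain ⟨p1, p2, p3, p4⟩ := pos_of_mem hst hv0
  let F : RC n → MvPolynomial {x : RC n // Free a₁ a₂ b₁ b₂ s t x} ℂ :=
    fill b₁ t (ext0 (Free a₁ a₂ b₁ b₂ s t) X)
  have hF : ∀ (y : {x : RC n // Free a₁ a₂ b₁ b₂ s t x} → ℂ) (x : RC n),
      eval y (F x) = fill b₁ t (ext0 (Free a₁ a₂ b₁ b₂ s t) y) x := by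
    intro y x
    show eval y (fill b₁ t (ext0 (Free a₁ a₂ b₁ b₂ s t) X) x) = _
    rw [map_fill]
    congr 1
    funext x
    unfold ext0
    split_ifs with h
    · rw [eval_X]
    · rw [map_zero]
  have hS : ∀ v ∈ rcSet false a₁ a₂ b₁ b₂ s t, RCNorm s t (rMat v) (cMat v) ∧
      ∀ x, MayFree s t x → ¬ Free a₁ a₂ b₁ b₂ s t x →
        eval (fun z : {x : RC n // Free a₁ a₂ b₁ b₂ s t x} => v z.1) (F x) = v x := by
    intro v hv
    refine ⟨hv.1, fun x hx hx' => ?_⟩
    rw [hF]
    refine det_coord hst hv _ ?_ ?_ x hx hx'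
    · intro x hx
      rw [ext0_of hx]
    · intro x hx
      rw [ext0_of_not hx]
  have hfillfree : ∀ {A : Type} [CommRing A] (E : RC n → A) (x : RC n),
      (∀ x, ¬ Free a₁ a₂ b₁ b₂ s t x → E x = 0) →
      (Free a₁ a₂ b₁ b₂ s t x ∨ ¬ MayFree s t x) → fill b₁ t E x = E x := by
    intro A _ E x hE hx
    rcases x with ⟨e, j⟩ | ⟨e, k⟩
    · rfl
    · show E (Sum.inr (e, k)) + (if e = 0 ∧ b₁ < t ∧ t < k then
          E (Sum.inr (1, k)) * (-∑ k', E (Sum.inl (1, k')) * E (Sum.inr (0, k'))) else 0) =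
        E (Sum.inr (e, k))
      rw [if_neg, add_zero]
      rintro ⟨h5, h6, h7⟩
      subst h5
      rcases hx with hx | hx
      · rw [free_c0] at hx
        exact absurd (hx.2.2 h6) (not_le.mpr (h6.trans h7))
      · apply hx
        simp only [MayFree, if_true]
        exact ⟨hst.trans h7, h7.ne'⟩
  have hiso := polyIso_nrm' B s t hst (rcSet false a₁ a₂ b₁ b₂ s t) (Free a₁ a₂ b₁ b₂ s t)
    (fun x h => mayFree_of_free h) F (by
      intro x h
      show fill b₁ t (ext0 (Free a₁ a₂ b₁ b₂ s t) X) x = X ⟨x, h⟩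
      rw [hfillfree _ x (fun x hx => ext0_of_not hx) (Or.inl h), ext0_of h]) (by
      intro x h
      show fill b₁ t (ext0 (Free a₁ a₂ b₁ b₂ s t) X) x = 0
      rw [hfillfree _ x (fun x hx => ext0_of_not hx) (Or.inr h),
        ext0_of_not (fun h' => h (mayFree_of_free h'))]) hS
  refine hiso.symm.gorSet ?_
  let hp : MvPolynomial {x : RC n // Free a₁ a₂ b₁ b₂ s t x} ℂ := hh a₁ a₂ b₁ b₂ (nrm s t F)
  have hev : ∀ y : {x : RC n // Free a₁ a₂ b₁ b₂ s t x} → ℂ, eval y hp =
      hh a₁ a₂ b₁ b₂ (nrm s t (fill b₁ t (ext0 (Free a₁ a₂ b₁ b₂ s t) y))) := by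
    intro y
    show eval y (hh a₁ a₂ b₁ b₂ (nrm s t F)) = _
    rw [map_hh]
    congr 1
    funext x
    rw [map_nrm]
    congr 1
    funext x
    exact hF y x
  have hmem0 : ∀ y : {x : RC n // Free a₁ a₂ b₁ b₂ s t x} → ℂ,
      y ∈ {y : {x : RC n // Free a₁ a₂ b₁ b₂ s t x} → ℂ |
        nrm s t (fun x => eval y (F x)) ∈ rcSet false a₁ a₂ b₁ b₂ s t} ↔
      (a₂ ≤ s → ∀ j, a₁ < j → j < a₂ →
        ext0 (Free a₁ a₂ b₁ b₂ s t) y (Sum.inl (0, j)) *
          ext0 (Free a₁ a₂ b₁ b₂ s t) y (Sum.inl (1, a₁)) =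
        ext0 (Free a₁ a₂ b₁ b₂ s t) y (Sum.inl (0, a₁)) *
          ext0 (Free a₁ a₂ b₁ b₂ s t) y (Sum.inl (1, j))) ∧
      (t ≤ b₁ → ∀ k, b₁ < k → k < b₂ →
        ext0 (Free a₁ a₂ b₁ b₂ s t) y (Sum.inr (0, k)) *
          ext0 (Free a₁ a₂ b₁ b₂ s t) y (Sum.inr (1, b₂)) =
        ext0 (Free a₁ a₂ b₁ b₂ s t) y (Sum.inr (0, b₂)) *
          ext0 (Free a₁ a₂ b₁ b₂ s t) y (Sum.inr (1, k))) ∧
      eval y hp ≠ 0 := by
    intro y
    have h5 : (fun x => eval y (F x)) = fill b₁ t (ext0 (Free a₁ a₂ b₁ b₂ s t) y) :=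
      funext (hF y)
    show nrm s t (fun x => eval y (F x)) ∈ rcSet false a₁ a₂ b₁ b₂ s t ↔ _
    rw [h5, hev]
    exact mem_iff hst p1 p2 p3 p4 _ (fun x hx => ext0_of_not hx)
  set S' : Set ({x : RC n // Free a₁ a₂ b₁ b₂ s t x} → ℂ) :=
    {y : {x : RC n // Free a₁ a₂ b₁ b₂ s t x} → ℂ |
        nrm s t (fun x => eval y (F x)) ∈ rcSet false a₁ a₂ b₁ b₂ s t} with hS'
  have hneS : ∃ y, y ∈ S' := by
    refine ⟨fun z => v0 z.1, ?_⟩
    show nrm s t (fun x => eval (fun z : {x : RC n // Free a₁ a₂ b₁ b₂ s t x} => v0 z.1) (F x)) ∈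
      rcSet false a₁ a₂ b₁ b₂ s t
    have h6 : nrm s t (fun x =>
        eval (fun z : {x : RC n // Free a₁ a₂ b₁ b₂ s t x} => v0 z.1) (F x)) = v0 := by
      apply nrm_eq_of_norm v0 hv0.1 _ _ _ hst
      · intro x hx
        by_cases h : Free a₁ a₂ b₁ b₂ s t x
        · rw [hF, hfillfree _ x (fun x hx => ext0_of_not hx) (Or.inl h), ext0_of h]
        · exact (hS v0 hv0).2 x hx h
      · intro x hx
        rw [hF, hfillfree _ x (fun x hx => ext0_of_not hx) (Or.inr hx),
          ext0_of_not (fun h' => hx (mayFree_of_free h'))]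
    rw [h6]
    exact hv0
  clear_value S'
  by_cases C1 : a₂ ≤ s ∧ a₂.val = a₁.val + 2
  · -- the first determinant
    obtain ⟨C1, C1'⟩ := C1
    let a' : Fin n := ⟨a₁.val + 1, by omega⟩
    have hF1 : ∀ j, a₁ ≤ j → j < a₂ → Free a₁ a₂ b₁ b₂ s t (Sum.inl (0, j)) :=
      fun j hj hj' => (free_r0 j).mpr ⟨hj, hj'.trans_le C1⟩
    have hF2 : ∀ j, a₁ ≤ j → j < a₂ → Free a₁ a₂ b₁ b₂ s t (Sum.inl (1, j)) :=
      fun j hj hj' => (free_r1 j).mpr ⟨⟨hj, fun h => absurd C1 (not_le.mpr h)⟩,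
        hj'.trans_le (C1.trans hst.le), (hj'.trans_le C1).ne⟩
    have ha'1 : a₁ ≤ a' := by show a₁.val ≤ a₁.val + 1; omega
    have ha'2 : a' < a₂ := by show a₁.val + 1 < a₂.val; omega
    have ha'3 : a' ≠ a₁ := by
      intro h
      have : a₁.val + 1 = a₁.val := congrArg Fin.val h
      omega
    have hiff1 : ∀ y : {x : RC n // Free a₁ a₂ b₁ b₂ s t x} → ℂ,
        (a₂ ≤ s → ∀ j, a₁ < j → j < a₂ →
        ext0 (Free a₁ a₂ b₁ b₂ s t) y (Sum.inl (0, j)) *
          ext0 (Free a₁ a₂ b₁ b₂ s t) y (Sum.inl (1, a₁)) =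
        ext0 (Free a₁ a₂ b₁ b₂ s t) y (Sum.inl (0, a₁)) *
          ext0 (Free a₁ a₂ b₁ b₂ s t) y (Sum.inl (1, j))) ↔
        y ⟨_, hF1 a' ha'1 ha'2⟩ * y ⟨_, hF2 a₁ le_rfl ha⟩ =
          y ⟨_, hF1 a₁ le_rfl ha⟩ * y ⟨_, hF2 a' ha'1 ha'2⟩ := by
      intro y
      constructor
      · intro h
        have h7 := h C1 a' (by show a₁.val < a₁.val + 1; omega) ha'2
        rwa [ext0_of (hF1 a' ha'1 ha'2), ext0_of (hF2 a₁ le_rfl ha),
          ext0_of (hF1 a₁ le_rfl ha), ext0_of (hF2 a' ha'1 ha'2)] at h7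
      · intro h _ j hj hj'
        have hja : j = a' := by
          apply Fin.ext
          show j.val = a₁.val + 1
          have h8 : a₁.val < j.val := hj
          have h9 : j.val < a₂.val := hj'
          omega
        subst hja
        rw [ext0_of (hF1 a' ha'1 ha'2), ext0_of (hF2 a₁ le_rfl ha),
          ext0_of (hF1 a₁ le_rfl ha), ext0_of (hF2 a' ha'1 ha'2)]
        exact h
    by_cases C2 : t ≤ b₁ ∧ b₂.val = b₁.val + 2
    · obtain ⟨C2, C2'⟩ := C2
      let b' : Fin n := ⟨b₁.val + 1, by omega⟩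
      have hG1 : ∀ k, b₁ < k → k ≤ b₂ → Free a₁ a₂ b₁ b₂ s t (Sum.inr (0, k)) :=
        fun k hk hk' => (free_c0 k).mpr ⟨⟨p3.trans_lt hk, (C2.trans_lt hk).ne'⟩, hk',
          fun h => absurd C2 (not_le.mpr h)⟩
      have hG2 : ∀ k, b₁ < k → k ≤ b₂ → Free a₁ a₂ b₁ b₂ s t (Sum.inr (1, k)) :=
        fun k hk hk' => (free_c1 k).mpr ⟨C2.trans_lt hk, hk'⟩
      have hb'1 : b₁ < b' := by show b₁.val < b₁.val + 1; omega
      have hb'2 : b' < b₂ := by show b₁.val + 1 < b₂.val; omega
      have hiff2 : ∀ y : {x : RC n // Free a₁ a₂ b₁ b₂ s t x} → ℂ,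
          (t ≤ b₁ → ∀ k, b₁ < k → k < b₂ →
          ext0 (Free a₁ a₂ b₁ b₂ s t) y (Sum.inr (0, k)) *
            ext0 (Free a₁ a₂ b₁ b₂ s t) y (Sum.inr (1, b₂)) =
          ext0 (Free a₁ a₂ b₁ b₂ s t) y (Sum.inr (0, b₂)) *
            ext0 (Free a₁ a₂ b₁ b₂ s t) y (Sum.inr (1, k))) ↔
          y ⟨_, hG1 b' hb'1 hb'2.le⟩ * y ⟨_, hG2 b₂ hb le_rfl⟩ =
            y ⟨_, hG1 b₂ hb le_rfl⟩ * y ⟨_, hG2 b' hb'1 hb'2.le⟩ := by
        intro y
        constructor
        · intro h
          have h7 := h C2 b' hb'1 hb'2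
          rwa [ext0_of (hG1 b' hb'1 hb'2.le), ext0_of (hG2 b₂ hb le_rfl),
            ext0_of (hG1 b₂ hb le_rfl), ext0_of (hG2 b' hb'1 hb'2.le)] at h7
        · intro h _ k hk hk'
          have hkb : k = b' := by
            apply Fin.ext
            show k.val = b₁.val + 1
            have h8 : b₁.val < k.val := hk
            have h9 : k.val < b₂.val := hk'
            omega
          subst hkb
          rw [ext0_of (hG1 b' hb'1 hb'2.le), ext0_of (hG2 b₂ hb le_rfl),
            ext0_of (hG1 b₂ hb le_rfl), ext0_of (hG2 b' hb'1 hb'2.le)]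
          exact h
      refine gorSet_det2 hCI B S' ⟨_, hF1 a' ha'1 ha'2⟩ ⟨_, hF2 a₁ le_rfl ha⟩
        ⟨_, hF1 a₁ le_rfl ha⟩ ⟨_, hF2 a' ha'1 ha'2⟩ ⟨_, hG1 b' hb'1 hb'2.le⟩
        ⟨_, hG2 b₂ hb le_rfl⟩ ⟨_, hG1 b₂ hb le_rfl⟩ ⟨_, hG2 b' hb'1 hb'2.le⟩ hp
        (by simp) (by simp [ha'3]) (by simp) (by simp) (by simp [ha'3.symm])
        (by simp) (by simp [hb'2.ne]) (by simp) (by simp) (by simp [hb'2.ne'])
        (by simp) (by simp) (by simp) (by simp) (by simp) (by simp) (by simp) (by simp) ?_ hneS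
      intro y
      rw [hmem0, hiff1, hiff2]
    · refine gorSet_det hCI B S' ⟨_, hF1 a' ha'1 ha'2⟩ ⟨_, hF2 a₁ le_rfl ha⟩
        ⟨_, hF1 a₁ le_rfl ha⟩ ⟨_, hF2 a' ha'1 ha'2⟩ hp
        (by simp) (by simp [ha'3]) (by simp) (by simp) (by simp [ha'3.symm]) ?_ hneS
      intro y
      rw [hmem0, hiff1]
      constructor
      · rintro ⟨h5, -, h6⟩
        exact ⟨h5, h6⟩
      · rintro ⟨h5, h6⟩
        refine ⟨h5, fun h7 k hk hk' => ?_, h6⟩
        exfalso
        apply C2
        refine ⟨h7, ?_⟩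
        have h8 : b₁.val < k.val := hk
        have h9 : k.val < b₂.val := hk'
        omega
  · have hvac1 : (a₂ ≤ s → ∀ j, a₁ < j → j < a₂ → False) := by
      intro h7 j hj hj'
      apply C1
      refine ⟨h7, ?_⟩
      have h8 : a₁.val < j.val := hj
      have h9 : j.val < a₂.val := hj'
      omega
    by_cases C2 : t ≤ b₁ ∧ b₂.val = b₁.val + 2
    · obtain ⟨C2, C2'⟩ := C2
      let b' : Fin n := ⟨b₁.val + 1, by omega⟩
      have hG1 : ∀ k, b₁ < k → k ≤ b₂ → Free a₁ a₂ b₁ b₂ s t (Sum.inr (0, k)) :=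
        fun k hk hk' => (free_c0 k).mpr ⟨⟨p3.trans_lt hk, (C2.trans_lt hk).ne'⟩, hk',
          fun h => absurd C2 (not_le.mpr h)⟩
      have hG2 : ∀ k, b₁ < k → k ≤ b₂ → Free a₁ a₂ b₁ b₂ s t (Sum.inr (1, k)) :=
        fun k hk hk' => (free_c1 k).mpr ⟨C2.trans_lt hk, hk'⟩
      have hb'1 : b₁ < b' := by show b₁.val < b₁.val + 1; omega
      have hb'2 : b' < b₂ := by show b₁.val + 1 < b₂.val; omega
      have hiff2 : ∀ y : {x : RC n // Free a₁ a₂ b₁ b₂ s t x} → ℂ,
          (t ≤ b₁ → ∀ k, b₁ < k → k < b₂ →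
          ext0 (Free a₁ a₂ b₁ b₂ s t) y (Sum.inr (0, k)) *
            ext0 (Free a₁ a₂ b₁ b₂ s t) y (Sum.inr (1, b₂)) =
          ext0 (Free a₁ a₂ b₁ b₂ s t) y (Sum.inr (0, b₂)) *
            ext0 (Free a₁ a₂ b₁ b₂ s t) y (Sum.inr (1, k))) ↔
          y ⟨_, hG1 b' hb'1 hb'2.le⟩ * y ⟨_, hG2 b₂ hb le_rfl⟩ =
            y ⟨_, hG1 b₂ hb le_rfl⟩ * y ⟨_, hG2 b' hb'1 hb'2.le⟩ := by
        intro y
        constructor
        · intro h
          have h7 := h C2 b' hb'1 hb'2
          rwa [ext0_of (hG1 b' hb'1 hb'2.le), ext0_of (hG2 b₂ hb le_rfl),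
            ext0_of (hG1 b₂ hb le_rfl), ext0_of (hG2 b' hb'1 hb'2.le)] at h7
        · intro h _ k hk hk'
          have hkb : k = b' := by
            apply Fin.ext
            show k.val = b₁.val + 1
            have h8 : b₁.val < k.val := hk
            have h9 : k.val < b₂.val := hk'
            omega
          subst hkb
          rw [ext0_of (hG1 b' hb'1 hb'2.le), ext0_of (hG2 b₂ hb le_rfl),
            ext0_of (hG1 b₂ hb le_rfl), ext0_of (hG2 b' hb'1 hb'2.le)]
          exact h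
      refine gorSet_det hCI B S' ⟨_, hG1 b' hb'1 hb'2.le⟩
        ⟨_, hG2 b₂ hb le_rfl⟩ ⟨_, hG1 b₂ hb le_rfl⟩ ⟨_, hG2 b' hb'1 hb'2.le⟩ hp
        (by simp) (by simp [hb'2.ne]) (by simp) (by simp) (by simp [hb'2.ne']) ?_ hneS
      intro y
      rw [hmem0, hiff2]
      constructor
      · rintro ⟨-, h5, h6⟩
        exact ⟨h5, h6⟩
      · rintro ⟨h5, h6⟩
        exact ⟨fun h7 j hj hj' => (hvac1 h7 j hj hj').elim, h5, h6⟩
    · refine gorSet_cyl_affine hCI B S' hp ?_ ?_
      · intro y hy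
        rw [hmem0]
        refine ⟨fun h7 j hj hj' => (hvac1 h7 j hj hj').elim, fun h7 k hk hk' => ?_, hy⟩
        exfalso
        apply C2
        refine ⟨h7, ?_⟩
        have h8 : b₁.val < k.val := hk
        have h9 : k.val < b₂.val := hk'
        omega
      · obtain ⟨y, hy⟩ := hneS
        exact ⟨y, ((hmem0 y).mp hy).2.2⟩

end P3

/-- (P3) -/
theorem modelP3 : ModelP3 := P3.modelP3' CommAlg.ciGorensteinPoly

end ClanGor
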