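import Pool.Agent.ClanGor.Stmts

/-!
# Module D: the orbit conditions in terms of ranks
-/

namespace ClanGor.OrbitRank

open ClanGor

/-- the indices of the last two coordinates -/
abbrev idx (p : ℕ) : Fin 2 → Fin (p + 2) := ![Fin.natAdd p 0, Fin.natAdd p 1]

variable {p : ℕ}

theorem idx_cases (k : Fin (p + 2)) (hk : p ≤ k.val) : ∃ m : Fin 2, k = idx p m := by
  have := k.2
  rcases Nat.lt_or_ge k.val (p + 1) with h | h
  · exact ⟨0, Fin.ext (by simp [idx]; omega)⟩
  · exact ⟨1, Fin.ext (by simp [idx]; omega)⟩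

theorem idx_ge (m : Fin 2) : p ≤ (idx p m).val := by
  fin_cases m
  · simp [idx]
  · simp [idx]

theorem idx_inj : Function.Injective (idx p) := by
  intro m m' h
  have h' := congrArg Fin.val h
  fin_cases m <;> fin_cases m' <;> simp [idx] at h' ⊢

variable {g : Matrix (Fin (p + 2)) (Fin (p + 2)) ℂ}

/-- the first `i` columns -/
noncomputable abbrev G (g : Matrix (Fin (p + 2)) (Fin (p + 2)) ℂ) (i : ℕ) :
    Matrix (Fin (p + 2)) {a : Fin (p + 2) // a.val < i} ℂ :=
  g.submatrix id (fun a : {a : Fin (p + 2) // a.val < i} => a.1)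

/-- the rows of the inverse from `j` on -/
noncomputable abbrev H (g : Matrix (Fin (p + 2)) (Fin (p + 2)) ℂ) (j : ℕ) :
    Matrix {a : Fin (p + 2) // j ≤ a.val} (Fin (p + 2)) ℂ :=
  g⁻¹.submatrix (fun a : {a : Fin (p + 2) // j ≤ a.val} => a.1) id

theorem flag_eq_range (g : Matrix (Fin (p + 2)) (Fin (p + 2)) ℂ) (i : ℕ) :
    flagOf g i = LinearMap.range (G g i).mulVecLin := by
  rw [Matrix.range_mulVecLin]
  rfl

theorem HG_zero (hg : IsUnit g.det) {i j : ℕ} (hij : i ≤ j) : H g j * G g i = 0 := by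
  ext a b
  have h1 : (H g j * G g i) a b = (g⁻¹ * g) a.1 b.1 := rfl
  have hne : a.1 ≠ b.1 := by
    intro h
    have h1 := a.2
    have h2 := b.2
    rw [h] at h1
    omega
  rw [h1, Matrix.nonsing_inv_mul _ hg, Matrix.one_apply_ne hne, Matrix.zero_apply]

theorem G_inj (hg : IsUnit g.det) (i : ℕ) : Function.Injective (G g i).mulVecLin := by
  have h1 : (g⁻¹.submatrix (fun a : {a : Fin (p + 2) // a.val < i} => a.1) id) * G g i = 1 := by
    ext a b
    have h1 : ((g⁻¹.submatrix (fun a : {a : Fin (p + 2) // a.val < i} => a.1) id) * G g i) a b =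
        (g⁻¹ * g) a.1 b.1 := rfl
    rw [h1, Matrix.nonsing_inv_mul _ hg, Matrix.one_apply, Matrix.one_apply]
    simp [Subtype.ext_iff]
  intro x y hxy
  have h2 := congrArg (fun v => (g⁻¹.submatrix
    (fun a : {a : Fin (p + 2) // a.val < i} => a.1) id).mulVec v) hxy
  simp only [Matrix.mulVecLin_apply, Matrix.mulVec_mulVec] at h2
  rw [h1, Matrix.one_mulVec, Matrix.one_mulVec] at h2
  exact h2

theorem mem_flag (hg : IsUnit g.det) (i : ℕ) (v : Fin (p + 2) → ℂ) :
    v ∈ flagOf g i ↔ (H g i).mulVec v = 0 := by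
  rw [flag_eq_range]
  constructor
  · rintro ⟨x, rfl⟩
    rw [Matrix.mulVecLin_apply, Matrix.mulVec_mulVec, HG_zero hg le_rfl, Matrix.zero_mulVec]
  · intro h
    have hw : ∀ k : Fin (p + 2), i ≤ k.val → (g⁻¹.mulVec v) k = 0 := by
      intro k hk
      exact congrFun h ⟨k, hk⟩
    have hv : g.mulVec (g⁻¹.mulVec v) = v := by
      rw [Matrix.mulVec_mulVec, Matrix.mul_nonsing_inv _ hg, Matrix.one_mulVec]
    refine ⟨fun a => (g⁻¹.mulVec v) a.1, ?_⟩
    rw [Matrix.mulVecLin_apply]
    conv_rhs => rw [← hv]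
    ext k
    have h2 : (g.mulVec (g⁻¹.mulVec v)) k = ∑ a, g k a * (g⁻¹.mulVec v) a := rfl
    rw [h2, ← Fintype.sum_subtype_add_sum_subtype (fun a : Fin (p + 2) => a.val < i)
      (fun a => g k a * (g⁻¹.mulVec v) a)]
    have h3 : ∑ a : {a : Fin (p + 2) // ¬ a.val < i}, g k a.1 * (g⁻¹.mulVec v) a.1 = 0 := by
      refine Finset.sum_eq_zero (fun a _ => ?_)
      rw [hw a.1 (not_lt.1 a.2), mul_zero]
    rw [h3, add_zero]
    rfl

theorem card_lt {i : ℕ} (hi : i ≤ p + 2) : Fintype.card {a : Fin (p + 2) // a.val < i} = i := by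
  rw [Fintype.card_subtype]
  have h1 : (Finset.univ : Finset (Fin (p + 2))).filter (fun a => a.val < i) =
      (Finset.univ : Finset (Fin i)).map (Fin.castLEEmb hi) := by
    ext a
    simp only [Finset.mem_filter, Finset.mem_univ, true_and, Finset.mem_map]
    constructor
    · intro ha
      exact ⟨⟨a.val, ha⟩, by ext; simp⟩
    · rintro ⟨b, rfl⟩
      simp
  rw [h1, Finset.card_map, Finset.card_univ, Fintype.card_fin]

theorem finrank_flag (hg : IsUnit g.det) {i : ℕ} (hi : i ≤ p + 2) :
    Module.finrank ℂ (flagOf g i) = i := by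
  rw [flag_eq_range, LinearMap.finrank_range_of_inj (G_inj hg i), Module.finrank_fintype_fun_eq_card,
    card_lt hi]

/-! ### first identity -/

theorem first (hg : IsUnit g.det) {i : ℕ} (hi : i ≤ p + 2) :
    Module.finrank ℂ (flagOf g i ⊓ subE (p + 2) p : Submodule ℂ (Fin (p + 2) → ℂ)) +
      ((g.submatrix (idx p) id).submatrix id
        (fun a : {a : Fin (p + 2) // a.val < i} => a.1)).rank = i := by
  set R : Matrix (Fin 2) {a : Fin (p + 2) // a.val < i} ℂ :=
    (g.submatrix (idx p) id).submatrix id (fun a : {a : Fin (p + 2) // a.val < i} => a.1) with hR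
  have h1 : (subE (p + 2) p).comap (G g i).mulVecLin = LinearMap.ker R.mulVecLin := by
    ext x
    rw [Submodule.mem_comap, LinearMap.mem_ker]
    constructor
    · intro h
      ext m
      exact h (idx p m) (idx_ge m)
    · intro h k hk
      obtain ⟨m, rfl⟩ := idx_cases k hk
      exact congrFun h m
  have h2 : (flagOf g i ⊓ subE (p + 2) p : Submodule ℂ (Fin (p + 2) → ℂ)) =
      (LinearMap.ker R.mulVecLin).map (G g i).mulVecLin := by
    rw [← h1, Submodule.map_comap_eq, flag_eq_range]
  rw [h2, ← (Submodule.equivMapOfInjective _ (G_inj hg i) _).finrank_eq, add_comm]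
  have h3 := LinearMap.finrank_range_add_finrank_ker R.mulVecLin
  rw [Module.finrank_fintype_fun_eq_card, card_lt hi] at h3
  exact h3

/-! ### second identity -/

/-- the embedding of the last two coordinates -/
noncomputable abbrev emb (p : ℕ) : Matrix (Fin (p + 2)) (Fin 2) ℂ :=
  (1 : Matrix (Fin (p + 2)) (Fin (p + 2)) ℂ).submatrix id (idx p)

theorem emb_idx (y : Fin 2 → ℂ) (m : Fin 2) : (emb p).mulVec y (idx p m) = y m := by
  have h0 : (emb p).mulVec y (idx p m) =
    ∑ b, (1 : Matrix (Fin (p + 2)) (Fin (p + 2)) ℂ) (idx p m) (idx p b) * y b := rfl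
  rw [h0, Finset.sum_eq_single m]
  · rw [Matrix.one_apply_eq, one_mul]
  · intro b _ hb
    rw [Matrix.one_apply_ne (fun h => hb (idx_inj h).symm), zero_mul]
  · intro h
    exact absurd (Finset.mem_univ _) h

theorem emb_lt (y : Fin 2 → ℂ) (k : Fin (p + 2)) (hk : k.val < p) :
    (emb p).mulVec y k = 0 := by
  have h0 : (emb p).mulVec y k =
    ∑ b, (1 : Matrix (Fin (p + 2)) (Fin (p + 2)) ℂ) k (idx p b) * y b := rfl
  rw [h0]
  refine Finset.sum_eq_zero (fun m _ => ?_)
  have hne : k ≠ idx p m := by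
    intro h
    have := idx_ge (p := p) m
    rw [← h] at this
    omega
  rw [Matrix.one_apply_ne hne, zero_mul]

theorem subE'_eq : subE' (p + 2) p = LinearMap.range (emb p).mulVecLin := by
  ext v
  constructor
  · intro h
    refine ⟨fun m => v (idx p m), ?_⟩
    ext k
    rw [Matrix.mulVecLin_apply]
    by_cases hk : k.val < p
    · rw [emb_lt _ _ hk]
      exact (h k hk).symm
    · obtain ⟨m, rfl⟩ := idx_cases k (not_lt.1 hk)
      rw [emb_idx]
  · rintro ⟨y, rfl⟩ k hk
    exact emb_lt y k hk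

theorem emb_inj : Function.Injective (emb p).mulVecLin := by
  intro x y h
  ext m
  have := congrFun h (idx p m)
  rw [Matrix.mulVecLin_apply, Matrix.mulVecLin_apply, emb_idx, emb_idx] at this
  exact this

theorem H_emb (g : Matrix (Fin (p + 2)) (Fin (p + 2)) ℂ) (j : ℕ) :
    H g j * emb p = (g⁻¹.submatrix id (idx p)).submatrix
      (fun a : {a : Fin (p + 2) // j ≤ a.val} => a.1) id := by
  ext a m
  have h0 : (H g j * emb p) a m =
    ∑ b, g⁻¹ a.1 b * (1 : Matrix (Fin (p + 2)) (Fin (p + 2)) ℂ) b (idx p m) := rfl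
  have h1 : (g⁻¹.submatrix id (idx p)).submatrix
      (fun a : {a : Fin (p + 2) // j ≤ a.val} => a.1) id a m = g⁻¹ a.1 (idx p m) := rfl
  rw [h0, h1, Finset.sum_eq_single (idx p m)]
  · rw [Matrix.one_apply_eq, mul_one]
  · intro b _ hb
    rw [Matrix.one_apply_ne hb, mul_zero]
  · intro h
    exact absurd (Finset.mem_univ _) h

theorem second (hg : IsUnit g.det) (i : ℕ) :
    Module.finrank ℂ (flagOf g i ⊓ subE' (p + 2) p : Submodule ℂ (Fin (p + 2) → ℂ)) +
      ((g⁻¹.submatrix id (idx p)).submatrix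
        (fun a : {a : Fin (p + 2) // i ≤ a.val} => a.1) id).rank = 2 := by
  rw [← H_emb g i]
  have h1 : (flagOf g i).comap (emb p).mulVecLin = LinearMap.ker (H g i * emb p).mulVecLin := by
    ext x
    rw [Submodule.mem_comap, LinearMap.mem_ker, mem_flag hg, Matrix.mulVecLin_apply,
      Matrix.mulVecLin_apply, Matrix.mulVec_mulVec]
  have h2 : (flagOf g i ⊓ subE' (p + 2) p : Submodule ℂ (Fin (p + 2) → ℂ)) =
      (LinearMap.ker (H g i * emb p).mulVecLin).map (emb p).mulVecLin := by
    rw [← h1, Submodule.map_comap_eq, subE'_eq, inf_comm]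
  rw [h2, ← (Submodule.equivMapOfInjective _ emb_inj _).finrank_eq, add_comm]
  have h3 := LinearMap.finrank_range_add_finrank_ker (H g i * emb p).mulVecLin
  rw [Module.finrank_fintype_fun_eq_card, Fintype.card_fin] at h3
  exact h3

/-! ### third identity -/

theorem projE_eq (v : Fin (p + 2) → ℂ) :
    projE (p + 2) p v = v - (emb p).mulVec (fun m => v (idx p m)) := by
  ext k
  rw [Pi.sub_apply]
  by_cases hk : k.val < p
  · rw [emb_lt _ _ hk, sub_zero]
    exact if_pos hk
  · obtain ⟨m, rfl⟩ := idx_cases k (not_lt.1 hk)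
    rw [emb_idx, sub_self]
    exact if_neg hk

theorem third (hg : IsUnit g.det) {i j : ℕ} (hij : i ≤ j) (hj : j ≤ p + 2) :
    Module.finrank ℂ ((flagOf g i).map (projE (p + 2) p) ⊔ flagOf g j :
      Submodule ℂ (Fin (p + 2) → ℂ)) = j +
      ((g⁻¹.submatrix id (idx p)).submatrix
          (fun a : {a : Fin (p + 2) // j ≤ a.val} => a.1) id *
        (g.submatrix (idx p) id).submatrix id
          (fun a : {a : Fin (p + 2) // a.val < i} => a.1)).rank := by
  rw [← H_emb g j]
  set R : Matrix (Fin 2) {a : Fin (p + 2) // a.val < i} ℂ :=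
    (g.submatrix (idx p) id).submatrix id (fun a : {a : Fin (p + 2) // a.val < i} => a.1) with hR
  set W : Submodule ℂ (Fin (p + 2) → ℂ) :=
    (flagOf g i).map (projE (p + 2) p) ⊔ flagOf g j with hW
  set q := (H g j).mulVecLin with hq
  have hker : LinearMap.ker q = flagOf g j := by
    ext v
    rw [LinearMap.mem_ker, mem_flag hg, hq, Matrix.mulVecLin_apply]
  have hmap : W.map q = LinearMap.range (H g j * emb p * R).mulVecLin := by
    rw [hW, Submodule.map_sup, ← hker]
    have h1 : (LinearMap.ker q).map q = ⊥ := by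
      rw [eq_bot_iff, Submodule.map_le_iff_le_comap]
      exact le_rfl
    rw [h1, sup_bot_eq, flag_eq_range, ← LinearMap.range_comp, ← LinearMap.range_comp]
    have h2 : q ∘ₗ projE (p + 2) p ∘ₗ (G g i).mulVecLin = -(H g j * emb p * R).mulVecLin := by
      refine LinearMap.ext (fun x => ?_)
      rw [LinearMap.comp_apply, LinearMap.comp_apply, projE_eq, map_sub, LinearMap.neg_apply, hq]
      simp only [Matrix.mulVecLin_apply]
      have h3 : (H g j).mulVec ((G g i).mulVec x) = 0 := by
        rw [Matrix.mulVec_mulVec, HG_zero hg hij, Matrix.zero_mulVec]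
      rw [h3, zero_sub, ← Matrix.mulVec_mulVec, ← Matrix.mulVec_mulVec]
      rfl
    rw [h2, LinearMap.range_neg]
  have h1 := LinearMap.finrank_range_add_finrank_ker (q.domRestrict W)
  have h2 : Module.finrank ℂ (LinearMap.ker (q.domRestrict W)) = j := by
    rw [LinearMap.ker_domRestrict, hker]
    have hle : flagOf g j ≤ W := le_sup_right
    rw [(Submodule.comapSubtypeEquivOfLe hle).finrank_eq, finrank_flag hg hj]
  rw [h2, LinearMap.range_domRestrict, hmap] at h1
  rw [← h1, add_comm]
  rfl

theorem orbitRank : OrbitRank := by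
  intro p cl g hg
  constructor
  · rintro ⟨h1, h2, h3⟩
    refine ⟨?_, ?_, ?_⟩
    · intro i hi
      have e1 := h1 i hi
      have e2 := first hg hi
      rw [e1] at e2
      rw [add_comm]
      exact e2
    · intro i hi
      have e1 := h2 i hi
      have e2 := second hg i
      rw [e1] at e2
      rw [add_comm]
      exact e2
    · intro i j hij hj
      have e1 := h3 i j hij hj
      have e2 := third hg hij.le hj
      rw [e1] at e2
      exact (Nat.add_left_cancel e2).symm
  · intro h
    refine ⟨?_, ?_, ?_⟩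
    · intro i hi
      have e1 := h.r_rank i hi
      have e2 := first hg hi
      change ((g.submatrix (idx p) id).submatrix id
        (fun a : {a : Fin (p + 2) // a.val < i} => a.1)).rank + _ = _ at e1
      omega
    · intro i hi
      have e1 := h.c_rank i hi
      have e2 := second hg i
      change ((g⁻¹.submatrix id (idx p)).submatrix
        (fun a : {a : Fin (p + 2) // i ≤ a.val} => a.1) id).rank + _ = _ at e1
      omega
    · intro i j hij hj
      have e1 := h.rc_rank i j hij hj
      have e2 := third hg hij.le hj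
      change ((g⁻¹.submatrix id (idx p)).submatrix
          (fun a : {a : Fin (p + 2) // j ≤ a.val} => a.1) id *
        (g.submatrix (idx p) id).submatrix id
          (fun a : {a : Fin (p + 2) // a.val < i} => a.1)).rank = _ at e1
      rw [e2, e1]

end ClanGor.OrbitRank
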