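import Pool.Agent.ClanGor.Stmts

/-!
# Module E2: rank conditions in terms of positions
-/

namespace ClanGor.RankPos

open ClanGor Finset

/-! ### ranks of matrices with two rows -/

section ranks

variable {ι κ : Type} [Fintype ι] [Fintype κ]

theorem eq_zero_of_rank {m : Type} (M : Matrix m ι ℂ) (h : M.rank = 0) : M = 0 := by
  classical
  have h1 : LinearMap.range M.mulVecLin = ⊥ := Submodule.finrank_eq_zero.1 h
  rw [LinearMap.range_eq_bot] at h1
  ext i j
  have h2 := LinearMap.congr_fun h1 (Pi.single j 1)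
  have h3 := congrFun h2 i
  simpa using h3

theorem rank_pos_of_ne {m : Type} (M : Matrix m ι ℂ) (i : m) (j : ι) (h : M i j ≠ 0) :
    1 ≤ M.rank := by
  by_contra hcon
  push Not at hcon
  have h1 := eq_zero_of_rank M (by omega)
  rw [h1] at h
  exact h rfl

theorem par {u0 u1 v0 v1 : ℂ} (hv : v0 ≠ 0 ∨ v1 ≠ 0) (h : u0 * v1 = v0 * u1) :
    ∃ g : ℂ, u0 = g * v0 ∧ u1 = g * v1 := by
  rcases hv with hv | hv
  · refine ⟨u0 / v0, ?_, ?_⟩
    · field_simp
    · field_simp
      linear_combination -h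
  · refine ⟨u1 / v1, ?_, ?_⟩
    · field_simp
      linear_combination h
    · field_simp

theorem rank_le_one (M : Matrix (Fin 2) ι ℂ)
    (h : ∀ j j', M 0 j * M 1 j' = M 0 j' * M 1 j) : M.rank ≤ 1 := by
  classical
  by_cases hM : ∃ j, M 0 j ≠ 0 ∨ M 1 j ≠ 0
  · obtain ⟨j0, hj0⟩ := hM
    have h1 : ∀ j, ∃ g : ℂ, M 0 j = g * M 0 j0 ∧ M 1 j = g * M 1 j0 :=
      fun j => par hj0 (h j j0)
    choose g hg0 hg1 using h1
    have h2 : M = Matrix.vecMulVec (fun a => M a j0) g := by
      ext a j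
      rw [Matrix.vecMulVec_apply]
      fin_cases a
      · simpa [mul_comm] using hg0 j
      · simpa [mul_comm] using hg1 j
    rw [h2]
    exact Matrix.rank_vecMulVec_le _ _
  · push Not at hM
    have h2 : M = 0 := by
      ext a j
      fin_cases a
      · exact (hM j).1
      · exact (hM j).2
    rw [h2, Matrix.rank_zero]
    exact Nat.zero_le _

theorem rank_eq_two (M : Matrix (Fin 2) ι ℂ) (j j' : ι)
    (h : M 0 j * M 1 j' - M 0 j' * M 1 j ≠ 0) : M.rank = 2 := by
  refine le_antisymm ((Matrix.rank_le_card_height M).trans (by simp)) ?_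
  have h1 : (M.submatrix id ![j, j']).rank = Fintype.card (Fin 2) := by
    refine Matrix.rank_of_det_ne_zero ?_
    rw [Matrix.det_fin_two]
    exact h
  have h2 := Matrix.rank_submatrix_le M id ![j, j']
  rw [h1, Fintype.card_fin] at h2
  exact h2

/-- a left inverse of a matrix with two columns -/
theorem exists_left_inv (C : Matrix κ (Fin 2) ℂ) (k k' : κ)
    (h : C k 0 * C k' 1 - C k 1 * C k' 0 ≠ 0) : ∃ D : Matrix (Fin 2) κ ℂ, D * C = 1 := by
  classical
  set S : Matrix (Fin 2) κ ℂ := (1 : Matrix κ κ ℂ).submatrix ![k, k'] id with hS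
  have h1 : S * C = C.submatrix ![k, k'] id := by
    ext a b
    rw [Matrix.mul_apply]
    fin_cases a
    · simp [hS, Matrix.one_apply]
    · simp [hS, Matrix.one_apply]
  have hu : IsUnit (C.submatrix ![k, k'] id).det := by
    rw [isUnit_iff_ne_zero, Matrix.det_fin_two]
    exact h
  refine ⟨(C.submatrix ![k, k'] id)⁻¹ * S, ?_⟩
  rw [Matrix.mul_assoc, h1, Matrix.nonsing_inv_mul _ hu]

theorem rank_mul_left (C : Matrix κ (Fin 2) ℂ) (R : Matrix (Fin 2) ι ℂ) (k k' : κ)
    (h : C k 0 * C k' 1 - C k 1 * C k' 0 ≠ 0) : (C * R).rank = R.rank := by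
  obtain ⟨D, hD⟩ := exists_left_inv C k k' h
  refine le_antisymm (Matrix.rank_mul_le_right C R) ?_
  have h1 := Matrix.rank_mul_le_right D (C * R)
  rwa [← Matrix.mul_assoc, hD, Matrix.one_mul] at h1

theorem rank_mul_right (C : Matrix κ (Fin 2) ℂ) (R : Matrix (Fin 2) ι ℂ) (j j' : ι)
    (h : R 0 j * R 1 j' - R 0 j' * R 1 j ≠ 0) : (C * R).rank = C.rank := by
  have h1 : ((C * R).transpose).rank = (C.transpose).rank := by
    rw [Matrix.transpose_mul]
    refine rank_mul_left (R.transpose) (C.transpose) j j' ?_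
    simp only [Matrix.transpose_apply]
    intro h2
    apply h
    linear_combination h2
  rwa [Matrix.rank_transpose, Matrix.rank_transpose] at h1

end ranks

/-! ### counting -/

/-- indicator -/
abbrev ind (P : Prop) [Decidable P] : ℕ := if P then 1 else 0

variable {n : ℕ} {cl : Fin n → Letter}

/-- the two arcs of a clan -/
structure Arcs (cl : Fin n → Letter) (x₁ y₁ x₂ y₂ : Fin n) : Prop where
  h1 : (x₁ = y₁ ∧ cl x₁ = Letter.minus) ∨ IsPair cl x₁ y₁
  h2 : (x₂ = y₂ ∧ cl x₂ = Letter.minus) ∨ IsPair cl x₂ y₂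
  ne1 : x₁ ≠ x₂
  ne2 : x₁ ≠ y₂
  ne3 : y₁ ≠ x₂
  ne4 : y₁ ≠ y₂
  plus : ∀ x, x ≠ x₁ → x ≠ x₂ → x ≠ y₁ → x ≠ y₂ → cl x = Letter.plus
  diff : ∀ x y, IsPair cl x y → (x = x₁ ∧ y = y₁) ∨ (x = x₂ ∧ y = y₂)

variable {x₁ y₁ x₂ y₂ : Fin n}

theorem IsPair.num_left {a b : Fin n} (h : IsPair cl a b) : ∃ k, cl a = Letter.num k :=
  let ⟨_, k, h1, _⟩ := h; ⟨k, h1⟩

theorem IsPair.num_right {a b : Fin n} (h : IsPair cl a b) : ∃ k, cl b = Letter.num k :=
  let ⟨_, k, _, h1⟩ := h; ⟨k, h1⟩

theorem card_minus (h : Arcs cl x₁ y₁ x₂ y₂) (Q : Fin n → Prop) [DecidablePred Q] :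
    Nat.card {a // Q a ∧ cl a = Letter.minus} =
      ind (x₁ = y₁) * ind (Q y₁) + ind (x₂ = y₂) * ind (Q y₂) := by
  classical
  have key : ∀ a, ind (Q a ∧ cl a = Letter.minus) =
      ind (x₁ = y₁) * (ind (a = y₁) * ind (Q a)) + ind (x₂ = y₂) * (ind (a = y₂) * ind (Q a)) := by
    intro a
    by_cases hQ : Q a
    · by_cases h1 : a = y₁
      · subst h1
        have e2 : ind (a = y₂) = 0 := if_neg h.ne4
        rcases h.h1 with ⟨e3, e4⟩ | e3
        · subst e3
          simp [ind, hQ, e4, h.ne2]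
        · obtain ⟨k, hk⟩ := IsPair.num_right e3
          have : x₁ ≠ a := e3.1.ne
          simp [ind, hQ, hk, this, h.ne4]
      · by_cases h2 : a = y₂
        · subst h2
          rcases h.h2 with ⟨e3, e4⟩ | e3
          · subst e3
            simp [ind, hQ, e4, h1]
          · obtain ⟨k, hk⟩ := IsPair.num_right e3
            have : x₂ ≠ a := e3.1.ne
            simp [ind, hQ, hk, this, h1]
        · have hne : cl a ≠ Letter.minus := by
            intro hm
            by_cases h3 : a = x₁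
            · rcases h.h1 with ⟨e3, e4⟩ | e3
              · exact h1 (h3.trans e3)
              · obtain ⟨k, hk⟩ := IsPair.num_left e3
                rw [← h3, hm] at hk
                exact Letter.noConfusion hk
            · by_cases h4 : a = x₂
              · rcases h.h2 with ⟨e3, e4⟩ | e3
                · exact h2 (h4.trans e3)
                · obtain ⟨k, hk⟩ := IsPair.num_left e3
                  rw [← h4, hm] at hk
                  exact Letter.noConfusion hk
              · have := h.plus a h3 h4 h1 h2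
                rw [hm] at this
                exact Letter.noConfusion this
          simp [ind, hne, h1, h2]
    · simp [ind, hQ]
  rw [Nat.card_eq_fintype_card, Fintype.card_subtype, card_filter]
  rw [sum_congr rfl (fun a _ => key a), sum_add_distrib, ← mul_sum, ← mul_sum]
  congr 2
  · rw [sum_eq_single y₁]
    · simp [ind]
    · intro b _ hb; simp [ind, hb]
    · intro hb; exact absurd (mem_univ _) hb
  · rw [sum_eq_single y₂]
    · simp [ind]
    · intro b _ hb; simp [ind, hb]
    · intro hb; exact absurd (mem_univ _) hb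

theorem card_pair (h : Arcs cl x₁ y₁ x₂ y₂) (Q : Fin n × Fin n → Prop) [DecidablePred Q] :
    Nat.card {x : Fin n × Fin n // IsPair cl x.1 x.2 ∧ Q x} =
      ind (x₁ ≠ y₁) * ind (Q (x₁, y₁)) + ind (x₂ ≠ y₂) * ind (Q (x₂, y₂)) := by
  classical
  have e1 : IsPair cl x₁ y₁ ↔ x₁ ≠ y₁ := by
    constructor
    · intro h; exact h.1.ne
    · intro hne
      rcases h.h1 with h' | h'
      · exact absurd h'.1 hne
      · exact h'
  have e2 : IsPair cl x₂ y₂ ↔ x₂ ≠ y₂ := by
    constructor
    · intro h; exact h.1.ne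
    · intro hne
      rcases h.h2 with h' | h'
      · exact absurd h'.1 hne
      · exact h'
  have key : ∀ x : Fin n × Fin n, ind (IsPair cl x.1 x.2 ∧ Q x) =
      ind (x₁ ≠ y₁) * (ind (x = (x₁, y₁)) * ind (Q x)) +
        ind (x₂ ≠ y₂) * (ind (x = (x₂, y₂)) * ind (Q x)) := by
    intro x
    by_cases h1 : x = (x₁, y₁)
    · have h2 : x ≠ (x₂, y₂) := by
        rw [h1]; intro h'; exact h.ne1 (Prod.mk.inj h').1
      have e3 : IsPair cl x.1 x.2 ↔ x₁ ≠ y₁ := by rw [h1]; exact e1
      have f1 : ind (x = (x₁, y₁)) = 1 := if_pos h1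
      have f2 : ind (x = (x₂, y₂)) = 0 := if_neg h2
      rw [f1, f2]
      by_cases hQ : Q x <;> by_cases hx : x₁ = y₁ <;> simp [ind, e3, hQ, hx]
    · by_cases h2 : x = (x₂, y₂)
      · have e3 : IsPair cl x.1 x.2 ↔ x₂ ≠ y₂ := by rw [h2]; exact e2
        have f1 : ind (x = (x₁, y₁)) = 0 := if_neg h1
        have f2 : ind (x = (x₂, y₂)) = 1 := if_pos h2
        rw [f1, f2]
        by_cases hQ : Q x <;> by_cases hx : x₂ = y₂ <;> simp [ind, e3, hQ, hx]
      · have h3 : ¬ IsPair cl x.1 x.2 := by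
          intro h'
          rcases h.diff _ _ h' with ⟨q1, q2⟩ | ⟨q1, q2⟩
          · exact h1 (Prod.ext q1 q2)
          · exact h2 (Prod.ext q1 q2)
        simp [ind, h1, h2, h3]
  rw [Nat.card_eq_fintype_card, Fintype.card_subtype, card_filter]
  rw [sum_congr rfl (fun a _ => key a), sum_add_distrib, ← mul_sum, ← mul_sum]
  congr 2
  · rw [sum_eq_single (x₁, y₁)]
    · simp [ind]
    · intro b _ hb; simp [ind, hb]
    · intro hb; exact absurd (mem_univ _) hb
  · rw [sum_eq_single (x₂, y₂)]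
    · simp [ind]
    · intro b _ hb; simp [ind, hb]
    · intro hb; exact absurd (mem_univ _) hb

theorem ind_split {P Q : Prop} [Decidable P] [Decidable Q] (m : ℕ)
    (h : P ↔ ¬ Q) : ind P * m + ind Q * m = m := by
  by_cases hQ : Q
  · have : ¬ P := by rw [h]; exact not_not.2 hQ
    simp [ind, hQ, this]
  · have : P := h.2 hQ
    simp [ind, hQ, this]

theorem gMinus_eq (h : Arcs cl x₁ y₁ x₂ y₂) (i : ℕ) :
    gMinus cl i = ind (y₁.val < i) + ind (y₂.val < i) := by
  classical
  unfold gMinus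
  rw [card_minus h (fun a => a.val < i), card_pair h (fun x => x.2.val < i)]
  simp only [ind]
  by_cases e1 : x₁ = y₁ <;> by_cases e2 : x₂ = y₂ <;> by_cases e3 : y₁.val < i <;>
    by_cases e4 : y₂.val < i <;> simp [e1, e2, e3, e4]

theorem gPair_eq (h : Arcs cl x₁ y₁ x₂ y₂) {i j : ℕ} (hij : i ≤ j) :
    gPair cl i j = ind (x₁.val < i ∧ j ≤ y₁.val) + ind (x₂.val < i ∧ j ≤ y₂.val) := by
  classical
  unfold gPair
  rw [card_pair h (fun x => x.1.val < i ∧ j ≤ x.2.val)]
  simp only [ind]
  congr 1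
  · by_cases e1 : x₁ = y₁
    · have : ¬ (x₁.val < i ∧ j ≤ y₁.val) := by
        rw [e1]; omega
      simp [this]
    · simp [e1]
  · by_cases e1 : x₂ = y₂
    · have : ¬ (x₂.val < i ∧ j ≤ y₂.val) := by
        rw [e1]; omega
      simp [this]
    · simp [e1]

theorem sum_ind_lt (y : Fin n) (i : ℕ) :
    ∑ a : Fin n, ind (a = y) * ind (a.val < i) = ind (y.val < i) := by
  rw [sum_eq_single y]
  · simp [ind]
  · intro b _ hb; simp [ind, hb]
  · intro hb; exact absurd (mem_univ _) hb

theorem gPlus_eq (h : Arcs cl x₁ y₁ x₂ y₂) {i : ℕ} (hi : i ≤ n) :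
    gPlus cl i + (ind (x₁.val < i) + ind (x₂.val < i)) = i := by
  classical
  unfold gPlus
  rw [card_pair h (fun x => x.2.val < i)]
  have key : ∀ a : Fin n, ind (a.val < i ∧ cl a = Letter.plus) +
      (ind (a = x₁) * ind (a.val < i) + ind (a = x₂) * ind (a.val < i) +
      ind (x₁ ≠ y₁) * (ind (a = y₁) * ind (a.val < i)) +
      ind (x₂ ≠ y₂) * (ind (a = y₂) * ind (a.val < i))) = ind (a.val < i) := by
    intro a
    by_cases ha : a.val < i
    · by_cases e1 : a = x₁
      · subst e1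
        rcases h.h1 with ⟨q1, q2⟩ | q1
        · subst q1
          simp [ind, ha, q2, h.ne1, h.ne2]
        · obtain ⟨k, hk⟩ := IsPair.num_left q1
          have q2 : a ≠ y₁ := q1.1.ne
          simp [ind, ha, hk, h.ne1, h.ne2, q2]
      · by_cases e2 : a = x₂
        · subst e2
          rcases h.h2 with ⟨q1, q2⟩ | q1
          · subst q1
            simp [ind, ha, q2, e1, h.ne3.symm]
          · obtain ⟨k, hk⟩ := IsPair.num_left q1
            have q2 : a ≠ y₂ := q1.1.ne
            simp [ind, ha, hk, e1, h.ne3.symm, q2]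
        · by_cases e3 : a = y₁
          · subst e3
            rcases h.h1 with ⟨q1, q2⟩ | q1
            · exact absurd q1.symm e1
            · obtain ⟨k, hk⟩ := IsPair.num_right q1
              simp [ind, ha, hk, e1, e2, h.ne4, q1.1.ne]
          · by_cases e4 : a = y₂
            · subst e4
              rcases h.h2 with ⟨q1, q2⟩ | q1
              · exact absurd q1.symm e2
              · obtain ⟨k, hk⟩ := IsPair.num_right q1
                simp [ind, ha, hk, e1, e2, e3, q1.1.ne]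
            · have := h.plus a e1 e2 e3 e4
              simp [ind, ha, this, e1, e2, e3, e4]
    · simp [ind, ha]
  have hsum := sum_congr (rfl : (univ : Finset (Fin n)) = univ) (fun a _ => key a)
  rw [sum_add_distrib, sum_add_distrib, sum_add_distrib, sum_add_distrib, ← mul_sum, ← mul_sum,
    sum_ind_lt, sum_ind_lt, sum_ind_lt, sum_ind_lt] at hsum
  have hcard : ∑ a : Fin n, ind (a.val < i) = i := by
    rw [← card_filter]
    have h1 : (univ : Finset (Fin n)).filter (fun a => a.val < i) =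
        (univ : Finset (Fin i)).map (Fin.castLEEmb hi) := by
      ext a
      simp only [mem_filter, mem_univ, true_and, mem_map]
      constructor
      · intro ha
        exact ⟨⟨a.val, ha⟩, by ext; simp⟩
      · rintro ⟨b, rfl⟩
        simp
    rw [h1, card_map, card_univ, Fintype.card_fin]
  rw [hcard] at hsum
  rw [Nat.card_eq_fintype_card, Fintype.card_subtype, card_filter]
  change (∑ a : Fin n, ind (a.val < i ∧ cl a = Letter.plus)) +
    (ind (x₁ ≠ y₁) * ind (y₁.val < i) + ind (x₂ ≠ y₂) * ind (y₂.val < i)) +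
    (ind (x₁.val < i) + ind (x₂.val < i)) = i
  omega

/-! ### the thresholds -/

section thresholds

variable (r : Matrix (Fin 2) (Fin n) ℂ) (c : Matrix (Fin n) (Fin 2) ℂ)

/-- columns of `r` before `i` -/
abbrev rlt (i : ℕ) : Matrix (Fin 2) {a : Fin n // a.val < i} ℂ :=
  r.submatrix id (fun a : {a : Fin n // a.val < i} => a.1)

/-- rows of `c` from `i` on -/
abbrev cge (i : ℕ) : Matrix {a : Fin n // i ≤ a.val} (Fin 2) ℂ :=
  c.submatrix (fun a : {a : Fin n // i ≤ a.val} => a.1) id

variable {r c}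

theorem rpos_of_rank {a₁ a₂ : Fin n} (ha : a₁ < a₂)
    (h : ∀ i ≤ n, (rlt r i).rank = ind (a₁.val < i) + ind (a₂.val < i)) :
    (∀ j, j < a₁ → ∀ a, r a j = 0) ∧ (∀ j, j < a₂ → r 0 j * r 1 a₁ = r 0 a₁ * r 1 j) ∧
      r 0 a₁ * r 1 a₂ - r 0 a₂ * r 1 a₁ ≠ 0 := by
  have ha' : a₁.val < a₂.val := ha
  have par2 : ∀ i ≤ n, (rlt r i).rank ≤ 1 → ∀ j j' : Fin n, j.val < i → j'.val < i →
      r 0 j * r 1 j' = r 0 j' * r 1 j := by
    intro i _ hr j j' hj hj'
    by_contra hcon
    have h1 := rank_eq_two (rlt r i) ⟨j, hj⟩ ⟨j', hj'⟩ (fun h' => hcon (sub_eq_zero.1 h'))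
    omega
  have h0 : ∀ j, j < a₁ → ∀ a, r a j = 0 := by
    intro j hj a
    have h1 : (rlt r a₁.val).rank = 0 := by
      rw [h a₁.val a₁.2.le]
      simp [ind]
      omega
    have h2 := eq_zero_of_rank _ h1
    exact congrFun (congrFun h2 a) ⟨j, hj⟩
  have h1 : ∀ j, j < a₂ → r 0 j * r 1 a₁ = r 0 a₁ * r 1 j := by
    intro j hj
    refine par2 a₂.val a₂.2.le ?_ j a₁ hj ha
    rw [h a₂.val a₂.2.le]
    simp [ind, ha]
  refine ⟨h0, h1, ?_⟩
  intro hdet
  -- the vector `r a₁` is nonzero
  have hnz : r 0 a₁ ≠ 0 ∨ r 1 a₁ ≠ 0 := by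
    by_contra hcon
    push Not at hcon
    have hr : (rlt r (a₁.val + 1)).rank = 1 := by
      rw [h _ (by omega)]
      have : ¬ a₂.val < a₁.val + 1 := by omega
      simp [ind, this]
    have hz : rlt r (a₁.val + 1) = 0 := by
      ext a x
      have hx := x.2
      rcases lt_or_eq_of_le (Nat.lt_succ_iff.1 hx) with h' | h'
      · exact h0 x.1 h' a
      · have : x.1 = a₁ := Fin.ext h'
        change r a x.1 = 0
        rw [this]
        fin_cases a
        · exact hcon.1
        · exact hcon.2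
    rw [hz, Matrix.rank_zero] at hr
    omega
  have hall : ∀ j : Fin n, j.val < a₂.val + 1 → ∃ g : ℂ, r 0 j = g * r 0 a₁ ∧ r 1 j = g * r 1 a₁ := by
    intro j hj
    rcases lt_or_eq_of_le (Nat.lt_succ_iff.1 hj) with h' | h'
    · exact par hnz (h1 j h')
    · have : j = a₂ := Fin.ext h'
      rw [this]
      exact par hnz (by linear_combination -hdet)
  have hr : (rlt r (a₂.val + 1)).rank = 2 := by
    rw [h _ (by omega)]
    have : a₁.val < a₂.val + 1 := by omega
    simp [ind, this]
  have hle : (rlt r (a₂.val + 1)).rank ≤ 1 := by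
    refine rank_le_one _ ?_
    intro x y
    obtain ⟨g, hg0, hg1⟩ := hall x.1 x.2
    obtain ⟨g', hg0', hg1'⟩ := hall y.1 y.2
    change r 0 x.1 * r 1 y.1 = r 0 y.1 * r 1 x.1
    rw [hg0, hg1, hg0', hg1']
    ring
  omega

theorem rank_of_rpos {a₁ a₂ : Fin n} (ha : a₁ < a₂)
    (h0 : ∀ j, j < a₁ → ∀ a, r a j = 0) (h1 : ∀ j, j < a₂ → r 0 j * r 1 a₁ = r 0 a₁ * r 1 j)
    (h2 : r 0 a₁ * r 1 a₂ - r 0 a₂ * r 1 a₁ ≠ 0) (i : ℕ) :
    (rlt r i).rank = ind (a₁.val < i) + ind (a₂.val < i) := by
  have ha' : a₁.val < a₂.val := ha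
  have hnz : r 0 a₁ ≠ 0 ∨ r 1 a₁ ≠ 0 := by
    by_contra hcon
    push Not at hcon
    apply h2
    rw [hcon.1, hcon.2]
    ring
  by_cases hi1 : a₁.val < i
  · by_cases hi2 : a₂.val < i
    · have := rank_eq_two (rlt r i) ⟨a₁, hi1⟩ ⟨a₂, hi2⟩ h2
      rw [this]
      simp [ind, hi1, hi2]
    · have hle : (rlt r i).rank ≤ 1 := by
        refine rank_le_one _ ?_
        intro x y
        obtain ⟨g, hg0, hg1⟩ := par hnz (h1 x.1 (by rw [Fin.lt_def]; have := x.2; omega))
        obtain ⟨g', hg0', hg1'⟩ := par hnz (h1 y.1 (by rw [Fin.lt_def]; have := y.2; omega))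
        change r 0 x.1 * r 1 y.1 = r 0 y.1 * r 1 x.1
        rw [hg0, hg1, hg0', hg1']
        ring
      have hge : 1 ≤ (rlt r i).rank := by
        rcases hnz with h | h
        · exact rank_pos_of_ne (rlt r i) 0 ⟨a₁, hi1⟩ h
        · exact rank_pos_of_ne (rlt r i) 1 ⟨a₁, hi1⟩ h
      simp [ind, hi1, hi2]
      omega
  · have hi2 : ¬ a₂.val < i := by omega
    have hz : rlt r i = 0 := by
      ext a x
      exact h0 x.1 (by rw [Fin.lt_def]; have := x.2; omega) a
    rw [hz, Matrix.rank_zero]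
    simp [ind, hi1, hi2]

/-- reversal -/
theorem cge_rank_rev (i : ℕ) (hi : i ≤ n) :
    (cge c i).rank = (rlt (c.submatrix Fin.rev id).transpose (n - i)).rank := by
  have h1 : (cge c i).rank = (cge c i).transpose.rank := (Matrix.rank_transpose _).symm
  rw [h1]
  set e : {a : Fin n // i ≤ a.val} ≃ {a : Fin n // a.val < n - i} :=
    { toFun := fun a => ⟨Fin.rev a.1, by rw [Fin.val_rev]; have := a.2; have := a.1.2; omega⟩
      invFun := fun a => ⟨Fin.rev a.1, by rw [Fin.val_rev]; have := a.2; have := a.1.2; omega⟩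
      left_inv := fun a => by ext; simp
      right_inv := fun a => by ext; simp } with he
  have h2 : (cge c i).transpose =
      (rlt (c.submatrix Fin.rev id).transpose (n - i)).submatrix (Equiv.refl (Fin 2)) e := by
    ext a x
    simp [he]
  rw [h2, Matrix.rank_submatrix]

theorem cpos_of_rank {b₁ b₂ : Fin n} (hb : b₁ < b₂)
    (h : ∀ i ≤ n, (cge c i).rank = ind (i ≤ b₁.val) + ind (i ≤ b₂.val)) :
    (∀ k, b₂ < k → ∀ a, c k a = 0) ∧ (∀ k, b₁ < k → c k 0 * c b₂ 1 = c b₂ 0 * c k 1) ∧
      c b₁ 0 * c b₂ 1 - c b₂ 0 * c b₁ 1 ≠ 0 := by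
  have key := rpos_of_rank (r := (c.submatrix Fin.rev id).transpose) (a₁ := Fin.rev b₂)
    (a₂ := Fin.rev b₁) (by rw [Fin.rev_lt_rev]; exact hb) ?_
  · obtain ⟨k0, k1, k2⟩ := key
    refine ⟨?_, ?_, ?_⟩
    · intro k hk a
      have := k0 (Fin.rev k) (by rw [Fin.rev_lt_rev]; exact hk) a
      simpa using this
    · intro k hk
      have := k1 (Fin.rev k) (by rw [Fin.rev_lt_rev]; exact hk)
      simpa using this
    · intro h'
      apply k2
      simp only [Matrix.transpose_apply, Matrix.submatrix_apply, Fin.rev_rev, id]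
      linear_combination -h'
  · intro i hi
    have h1 := cge_rank_rev (c := c) (n - i) (by omega)
    have h2 : n - (n - i) = i := by omega
    rw [h2] at h1
    rw [← h1, h _ (by omega), Fin.val_rev, Fin.val_rev]
    have e1 : (n - i ≤ b₁.val) ↔ (n - (b₁.val + 1) < i) := by have := b₁.2; omega
    have e2 : (n - i ≤ b₂.val) ↔ (n - (b₂.val + 1) < i) := by have := b₂.2; omega
    simp only [ind, e1, e2]
    exact add_comm _ _

theorem rank_of_cpos {b₁ b₂ : Fin n} (hb : b₁ < b₂)
    (h0 : ∀ k, b₂ < k → ∀ a, c k a = 0) (h1 : ∀ k, b₁ < k → c k 0 * c b₂ 1 = c b₂ 0 * c k 1)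
    (h2 : c b₁ 0 * c b₂ 1 - c b₂ 0 * c b₁ 1 ≠ 0) {i : ℕ} (hi : i ≤ n) :
    (cge c i).rank = ind (i ≤ b₁.val) + ind (i ≤ b₂.val) := by
  have key := rank_of_rpos (r := (c.submatrix Fin.rev id).transpose) (a₁ := Fin.rev b₂)
    (a₂ := Fin.rev b₁) (by rw [Fin.rev_lt_rev]; exact hb) ?_ ?_ ?_ (n - i)
  · rw [cge_rank_rev i hi, key, Fin.val_rev, Fin.val_rev]
    have e1 : (i ≤ b₁.val) ↔ (n - (b₁.val + 1) < n - i) := by have := b₁.2; omega
    have e2 : (i ≤ b₂.val) ↔ (n - (b₂.val + 1) < n - i) := by have := b₂.2; omega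
    simp only [ind, e1, e2]
    exact add_comm _ _
  · intro j hj a
    have : b₂ < Fin.rev j := by
      rw [← Fin.rev_lt_rev, Fin.rev_rev]; exact hj
    exact h0 _ this a
  · intro j hj
    have : b₁ < Fin.rev j := by
      rw [← Fin.rev_lt_rev, Fin.rev_rev]; exact hj
    have := h1 _ this
    simpa using this
  · intro h'
    apply h2
    simp only [Matrix.transpose_apply, Matrix.submatrix_apply, Fin.rev_rev, id] at h'
    linear_combination -h'

/-- the conditions on the products -/
theorem prod_zero {u v : ℕ} (h : ∀ k j : Fin n, u ≤ k.val → j.val < v →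
    c k 0 * r 0 j + c k 1 * r 1 j = 0) : cge c u * rlt r v = 0 := by
  ext x y
  rw [Matrix.mul_apply, Fin.sum_univ_two]
  exact h x.1 y.1 x.2 y.2

theorem prod_entry {u v : ℕ} (h : cge c u * rlt r v = 0) (k j : Fin n) (hk : u ≤ k.val)
    (hj : j.val < v) : c k 0 * r 0 j + c k 1 * r 1 j = 0 := by
  have h1 := congrFun (congrFun h ⟨k, hk⟩) ⟨j, hj⟩
  rw [Matrix.mul_apply, Fin.sum_univ_two] at h1
  exact h1

theorem prod_rank (linked : Bool) {a₁ a₂ b₁ b₂ : Fin n}
    (h : PosCond linked a₁ a₂ b₁ b₂ r c) (ha : a₁ < a₂) (hb : b₁ < b₂) {i j : ℕ}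
    (hj : j ≤ n) : (cge c j * rlt r i).rank =
      if linked = true then ind (a₁.val < i ∧ j ≤ b₁.val) + ind (a₂.val < i ∧ j ≤ b₂.val)
      else ind (a₁.val < i ∧ j ≤ b₂.val) + ind (a₂.val < i ∧ j ≤ b₁.val) := by
  have ha' : a₁.val < a₂.val := ha
  have hb' : b₁.val < b₂.val := hb
  have hr := rank_of_rpos ha h.rzero h.rline h.rdet i
  have hc := rank_of_cpos hb h.czero h.cline h.cdet hj
  have hrn : r 0 a₁ ≠ 0 ∨ r 1 a₁ ≠ 0 := by
    by_contra hcon
    push Not at hcon
    apply h.rdet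
    rw [hcon.1, hcon.2]
    ring
  have hcn : c b₂ 0 ≠ 0 ∨ c b₂ 1 ≠ 0 := by
    by_contra hcon
    push Not at hcon
    apply h.cdet
    rw [hcon.1, hcon.2]
    ring
  by_cases o1 : a₁.val < i
  swap
  · have o2 : ¬ a₂.val < i := by omega
    have hz : cge c j * rlt r i = 0 := by
      refine prod_zero (fun k l _ hl => ?_)
      have : l < a₁ := by rw [Fin.lt_def]; omega
      rw [h.rzero l this 0, h.rzero l this 1]
      ring
    rw [hz, Matrix.rank_zero]
    cases linked <;> simp [ind, o1, o2]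
  by_cases t2 : j ≤ b₂.val
  swap
  · have t1 : ¬ j ≤ b₁.val := by omega
    have hz : cge c j * rlt r i = 0 := by
      refine prod_zero (fun k l hk _ => ?_)
      have : b₂ < k := by rw [Fin.lt_def]; omega
      rw [h.czero k this 0, h.czero k this 1]
      ring
    rw [hz, Matrix.rank_zero]
    cases linked <;> simp [ind, t1, t2]
  by_cases o2 : a₂.val < i
  · rw [rank_mul_right (cge c j) (rlt r i) ⟨a₁, o1⟩ ⟨a₂, o2⟩ h.rdet, hc]
    cases linked
    · simp [ind, o1, o2]
      exact add_comm _ _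
    · simp [ind, o1, o2]
  by_cases t1 : j ≤ b₁.val
  · have hdet : cge c j ⟨b₁, t1⟩ 0 * cge c j ⟨b₂, t2⟩ 1 -
        cge c j ⟨b₁, t1⟩ 1 * cge c j ⟨b₂, t2⟩ 0 ≠ 0 := by
      intro h'
      apply h.cdet
      change c b₁ 0 * c b₂ 1 - c b₁ 1 * c b₂ 0 = 0 at h'
      linear_combination h'
    rw [rank_mul_left (cge c j) (rlt r i) ⟨b₁, t1⟩ ⟨b₂, t2⟩ hdet, hr]
    cases linked <;> simp [ind, o1, t1, t2]
  cases linked with
  | true =>
    have hl := h.link rfl
    have hz : cge c j * rlt r i = 0 := by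
      refine prod_zero (fun k l hk hl' => ?_)
      obtain ⟨g, hg0, hg1⟩ := par hcn (h.cline k (by rw [Fin.lt_def]; omega))
      obtain ⟨g', hg0', hg1'⟩ := par hrn (h.rline l (by rw [Fin.lt_def]; omega))
      rw [hg0, hg1, hg0', hg1']
      linear_combination (g * g') * hl
    rw [hz, Matrix.rank_zero]
    simp [ind, t1, o2]
  | false =>
    have hl := h.nest rfl
    have hle : (cge c j * rlt r i).rank ≤ 1 := by
      refine (Matrix.rank_mul_le_right _ _).trans ?_
      rw [hr]
      simp [ind, o1, o2]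
    have hge : 1 ≤ (cge c j * rlt r i).rank := by
      refine rank_pos_of_ne _ ⟨b₂, t2⟩ ⟨a₁, o1⟩ ?_
      rw [Matrix.mul_apply, Fin.sum_univ_two]
      exact hl
    have : (cge c j * rlt r i).rank = 1 := le_antisymm hle hge
    rw [this]
    simp [ind, o1, o2, t2]

/-- the case of two adjacent minus signs -/
theorem link_adj (hrc : r * c = 1) {a₁ b₂ : Fin n} (hab : b₂.val = a₁.val + 1)
    (h0 : ∀ j, j < a₁ → ∀ a, r a j = 0) (h1 : ∀ k, b₂ < k → ∀ a, c k a = 0) :
    c b₂ 0 * r 0 a₁ + c b₂ 1 * r 1 a₁ = 0 := by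
  classical
  have hne : a₁ ≠ b₂ := by
    intro h
    rw [← h] at hab
    omega
  have key : ∀ a b : Fin 2, r a a₁ * c a₁ b + r a b₂ * c b₂ b = (1 : Matrix (Fin 2) (Fin 2) ℂ) a b := by
    intro a b
    rw [← hrc, Matrix.mul_apply, ← sum_pair hne (f := fun j => r a j * c j b)]
    refine sum_subset (subset_univ _) ?_
    intro j _ hj
    have h2 : j ≠ a₁ ∧ j ≠ b₂ := by simpa using hj
    have h3 : j < a₁ ∨ b₂ < j := by
      have e1 : j.val ≠ a₁.val := fun h => h2.1 (Fin.ext h)
      have e2 : j.val ≠ b₂.val := fun h => h2.2 (Fin.ext h)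
      rw [Fin.lt_def, Fin.lt_def]
      omega
    rcases h3 with h3 | h3
    · rw [h0 j h3 a, zero_mul]
    · rw [h1 j h3 b, mul_zero]
  set X : Matrix (Fin 2) (Fin 2) ℂ := r.submatrix id ![a₁, b₂] with hX
  set Y : Matrix (Fin 2) (Fin 2) ℂ := c.submatrix ![a₁, b₂] id with hY
  have hXY : X * Y = 1 := by
    ext a b
    rw [Matrix.mul_apply, Fin.sum_univ_two]
    exact key a b
  have hYX : Y * X = 1 := mul_eq_one_comm.1 hXY
  have := congrFun (congrFun hYX 1) 0
  rw [Matrix.mul_apply, Fin.sum_univ_two] at this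
  simpa [hX, hY] using this

end thresholds

theorem rankPos : RankPos := by
  classical
  intro n cl linked a₁ a₂ b₁ b₂ hd r c hrc
  have ha := hd.a_lt
  have hb := hd.b_lt
  have ha' : a₁.val < a₂.val := ha
  have hb' : b₁.val < b₂.val := hb
  -- the three counting functions
  have hcount : (∀ i ≤ n, gPlus cl i + (ind (a₁.val < i) + ind (a₂.val < i)) = i) ∧
      (∀ i, gMinus cl i = ind (b₁.val < i) + ind (b₂.val < i)) ∧
      (∀ i j, i ≤ j → gPair cl i j =
        if linked = true then ind (a₁.val < i ∧ j ≤ b₁.val) + ind (a₂.val < i ∧ j ≤ b₂.val)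
        else ind (a₁.val < i ∧ j ≤ b₂.val) + ind (a₂.val < i ∧ j ≤ b₁.val)) := by
    cases linked with
    | true =>
      obtain ⟨l1, l2, l3⟩ := hd.link rfl
      have l2' : a₂ ≤ b₂ := by
        rcases l2 with h | h
        · exact h.1.le
        · exact h.1.le
      have harc : Arcs cl a₁ b₁ a₂ b₂ := by
        refine ⟨l1, l2, ha.ne, (ha.trans_le l2').ne, l3.symm, hb.ne, hd.plus, ?_⟩
        intro x y h
        have := hd.diff x y h
        rwa [if_pos rfl] at this
      refine ⟨fun i hi => gPlus_eq harc hi, fun i => gMinus_eq harc i, fun i j hij => ?_⟩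
      rw [if_pos rfl]
      exact gPair_eq harc hij
    | false =>
      obtain ⟨l1, l2⟩ := hd.nest rfl
      have l2' : a₂ ≤ b₁ := by
        rcases l2 with h | h
        · exact h.1.le
        · exact h.1.le
      have harc : Arcs cl a₁ b₂ a₂ b₁ := by
        refine ⟨Or.inr l1, l2, ha.ne, (ha.trans_le l2').ne, (l2'.trans_lt hb).ne', hb.ne',
          fun x h1 h2 h3 h4 => hd.plus x h1 h2 h4 h3, ?_⟩
        intro x y h
        have := hd.diff x y h
        rwa [if_neg (by simp)] at this
      refine ⟨fun i hi => gPlus_eq harc hi, fun i => ?_, fun i j hij => ?_⟩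
      · rw [gMinus_eq harc i]; exact add_comm _ _
      · rw [if_neg (by simp)]
        exact gPair_eq harc hij
  obtain ⟨hP, hM, hG⟩ := hcount
  have hind : ∀ (b i : ℕ), ind (i ≤ b) + ind (b < i) = 1 := by
    intro b i
    by_cases h : i ≤ b
    · have : ¬ b < i := by omega
      simp [ind, h, this]
    · have : b < i := by omega
      simp [ind, h, this]
  constructor
  · intro h
    have hr : ∀ i ≤ n, (rlt r i).rank = ind (a₁.val < i) + ind (a₂.val < i) := by
      intro i hi
      have h1 := h.r_rank i hi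
      have h2 := hP i hi
      change (rlt r i).rank + gPlus cl i = i at h1
      omega
    have hc : ∀ i ≤ n, (cge c i).rank = ind (i ≤ b₁.val) + ind (i ≤ b₂.val) := by
      intro i hi
      have h1 := h.c_rank i hi
      have h2 := hM i
      have h3 := hind b₁.val i
      have h4 := hind b₂.val i
      change (cge c i).rank + gMinus cl i = 2 at h1
      omega
    obtain ⟨r0, r1, r2⟩ := rpos_of_rank ha hr
    obtain ⟨c0, c1, c2⟩ := cpos_of_rank hb hc
    refine ⟨r0, r1, r2, c0, c1, c2, ?_, ?_⟩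
    · intro hl
      subst hl
      by_cases hlt : a₁.val + 1 < b₂.val
      · have h1 := h.rc_rank (a₁.val + 1) b₂.val hlt b₂.2.le
        rw [hG _ _ hlt.le, if_pos rfl] at h1
        change (cge c b₂.val * rlt r (a₁.val + 1)).rank = _ at h1
        have e1 : ¬ (a₁.val < a₁.val + 1 ∧ b₂.val ≤ b₁.val) := by omega
        have e2 : ¬ (a₂.val < a₁.val + 1 ∧ b₂.val ≤ b₂.val) := by omega
        have h2 : (cge c b₂.val * rlt r (a₁.val + 1)).rank = 0 := by
          rw [h1]; simp only [ind, e1, e2, if_false]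
        exact prod_entry (eq_zero_of_rank _ h2) b₂ a₁ le_rfl (by omega)
      · obtain ⟨l1, l2, l3⟩ := hd.link rfl
        have l1' : a₁ ≤ b₁ := by
          rcases l1 with h | h
          · exact h.1.le
          · exact h.1.le
        have l1'' : a₁.val ≤ b₁.val := l1'
        exact link_adj hrc (by omega) r0 c0
    · intro hl
      subst hl
      obtain ⟨l1, l2⟩ := hd.nest rfl
      have l2' : a₂.val ≤ b₁.val := by
        rcases l2 with h | h
        · exact h.1.le
        · exact h.1.le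
      intro hdot
      have hlt : a₁.val + 1 < b₂.val := by omega
      have h1 := h.rc_rank (a₁.val + 1) b₂.val hlt b₂.2.le
      rw [hG _ _ hlt.le, if_neg (by simp)] at h1
      change (cge c b₂.val * rlt r (a₁.val + 1)).rank = _ at h1
      have hz : cge c b₂.val * rlt r (a₁.val + 1) = 0 := by
        refine prod_zero (fun k l hk hl' => ?_)
        by_cases hk' : b₂ < k
        · rw [c0 k hk' 0, c0 k hk' 1]; ring
        · by_cases hl'' : l < a₁
          · rw [r0 l hl'' 0, r0 l hl'' 1]; ring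
          · have e1 : k = b₂ := by
              apply Fin.ext
              rw [Fin.lt_def] at hk'
              omega
            have e2 : l = a₁ := by
              apply Fin.ext
              rw [Fin.lt_def] at hl''
              omega
            rw [e1, e2]
            exact hdot
      rw [hz, Matrix.rank_zero] at h1
      have e1 : a₁.val < a₁.val + 1 ∧ b₂.val ≤ b₂.val := by omega
      rw [ind, if_pos e1] at h1
      omega
  · intro h
    refine ⟨?_, ?_, ?_⟩
    · intro i hi
      change (rlt r i).rank + gPlus cl i = i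
      have h1 := rank_of_rpos ha h.rzero h.rline h.rdet i
      have h2 := hP i hi
      omega
    · intro i hi
      change (cge c i).rank + gMinus cl i = 2
      have h1 := rank_of_cpos hb h.czero h.cline h.cdet hi
      have h2 := hM i
      have h3 := hind b₁.val i
      have h4 := hind b₂.val i
      omega
    · intro i j hij hj
      change (cge c j * rlt r i).rank = gPair cl i j
      rw [hG i j hij.le]
      exact prod_rank linked h ha hb hj

end ClanGor.RankPos
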