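import Pool.Agent.ClanGor.CommAlg

/-!
# MP_fae1d7_ag, module B (helper99): the cone over `ℙ¹ × ℙ^{m-1}` is not Gorenstein for `m ≥ 3`
-/

namespace ClanGor.Segre

open MvPolynomial RingTheory.Sequence IsLocalRing ClanGor.CommAlg Pointwise

section WR

variable {B : Type*} [CommRing B]

/-- `rs` is weakly regular on `B/I`, in terms of ideals. -/
def WR : List B → Ideal B → Prop
  | [], _ => True
  | r :: rs, I => (∀ f, r * f ∈ I → f ∈ I) ∧ WR rs (I ⊔ Ideal.span {r})

lemma mem_sup_span {I : Ideal B} {y f : B} :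
    f ∈ I ⊔ Ideal.span {y} ↔ ∃ h, f - y * h ∈ I := by
  constructor
  · intro hf
    obtain ⟨a, ha, b, hb, rfl⟩ := Submodule.mem_sup.1 hf
    obtain ⟨h, rfl⟩ := Ideal.mem_span_singleton'.1 hb
    exact ⟨h, by rw [mul_comm y h, add_sub_cancel_right]; exact ha⟩
  · rintro ⟨h, hh⟩
    have : f = (f - y * h) + y * h := by ring
    rw [this]
    exact Ideal.add_mem _ (Ideal.mem_sup_left hh)
      (Ideal.mem_sup_right (Ideal.mul_mem_right _ _ (Ideal.subset_span rfl)))

lemma mem_sup_span_self (I : Ideal B) (y : B) : y ∈ I ⊔ Ideal.span {y} :=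
  Ideal.mem_sup_right (Ideal.subset_span rfl)

/-- `(B/I)/r = B/(I+r)`. -/
noncomputable def quotEquiv (I : Ideal B) (r : B) :
    QuotSMulTop r (B ⧸ I) ≃ₗ[B] (B ⧸ (I ⊔ Ideal.span {r})) :=
  (Submodule.quotEquivOfEq _ _ (by
    change r • (⊤ : Submodule B (B ⧸ I)) = Submodule.map (Submodule.mkQ I) (Ideal.span {r})
    have h1 : Ideal.span {r} = r • (⊤ : Ideal B) := by
      rw [← Submodule.ideal_span_singleton_smul]; simp
    rw [h1, Submodule.map_pointwise_smul, Submodule.map_top, Submodule.range_mkQ])).trans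
  (Submodule.quotientQuotientEquivQuotientSup I (Ideal.span {r}))

lemma WR.isWeaklyRegular : ∀ (rs : List B) (I : Ideal B), WR rs I → IsWeaklyRegular (B ⧸ I) rs := by
  intro rs
  induction rs with
  | nil => intro I _; exact IsWeaklyRegular.nil _ _
  | cons r rs ih =>
    intro I h
    rw [isWeaklyRegular_cons_iff]
    refine ⟨?_, ((quotEquiv I r).isWeaklyRegular_congr rs).2 (ih _ h.2)⟩
    intro a b hab
    obtain ⟨a, rfl⟩ := Ideal.Quotient.mk_surjective a
    obtain ⟨b, rfl⟩ := Ideal.Quotient.mk_surjective b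
    have h1 : (Ideal.Quotient.mk I) (r * a) = (Ideal.Quotient.mk I) (r * b) := hab
    rw [Ideal.Quotient.eq, ← mul_sub] at h1
    rw [Ideal.Quotient.eq]
    exact h.1 _ h1

/-- Weak regularity on `B/I` from weak regularity on `B/(I:y)` and `B/(I+y)`. -/
lemma WR.of_colon (y : B) : ∀ (rs : List B) (I A C : Ideal B), (∀ f, y * f ∈ I ↔ f ∈ A) →
    C = I ⊔ Ideal.span {y} → WR rs A → WR rs C → WR rs I := by
  intro rs
  induction rs with
  | nil => intro I A C _ _ _ _; trivial
  | cons r rs ih =>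
    rintro I A C hA rfl ⟨hA1, hA2⟩ ⟨hC1, hC2⟩
    refine ⟨?_, ?_⟩
    · intro f hf
      obtain ⟨h, hh⟩ := mem_sup_span.1 (hC1 f (Ideal.mem_sup_left hf))
      have h1 : h ∈ A := by
        apply hA1
        rw [← hA]
        have : y * (r * h) = r * f - r * (f - y * h) := by ring
        rw [this]
        exact Ideal.sub_mem _ hf (Ideal.mul_mem_left _ _ hh)
      rw [← hA] at h1
      have : f = (f - y * h) + y * h := by ring
      rw [this]
      exact Ideal.add_mem _ hh h1
    · refine ih (I ⊔ Ideal.span {r}) (A ⊔ Ideal.span {r}) _ ?_ ?_ hA2 hC2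
      · intro f
        constructor
        · intro hf
          obtain ⟨h, hh⟩ := mem_sup_span.1 hf
          have h1 : h ∈ I ⊔ Ideal.span {y} := by
            apply hC1
            rw [mem_sup_span]
            refine ⟨f, ?_⟩
            have : r * h - y * f = -(y * f - r * h) := by ring
            rw [this]
            exact neg_mem hh
          obtain ⟨h', hh'⟩ := mem_sup_span.1 h1
          rw [mem_sup_span]
          refine ⟨h', ?_⟩
          rw [← hA]
          have : y * (f - r * h') = (y * f - r * h) + r * (h - y * h') := by ring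
          rw [this]
          exact Ideal.add_mem _ hh (Ideal.mul_mem_left _ _ hh')
        · intro hf
          obtain ⟨h, hh⟩ := mem_sup_span.1 hf
          rw [← hA] at hh
          rw [mem_sup_span]
          refine ⟨y * h, ?_⟩
          have : y * f - r * (y * h) = y * (f - r * h) := by ring
          rw [this]; exact hh
      · rw [sup_assoc, sup_assoc, sup_comm (Ideal.span {y})]

end WR

section Tools

variable {σ : Type} 

lemma mem_van {S : Set (σ → ℂ)} {f : MvPolynomial σ ℂ} :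
    f ∈ (vanishingIdeal ℂ S : Ideal (MvPolynomial σ ℂ)) ↔ ∀ z ∈ S, eval z f = 0 := by
  rw [mem_vanishingIdeal_iff]
  simp only [aeval_eq_eval]

open Classical in
/-- set the variables in `V` to zero -/
noncomputable def kill (V : Set σ) : MvPolynomial σ ℂ →ₐ[ℂ] MvPolynomial σ ℂ :=
  aeval (fun u => if u ∈ V then 0 else X u)

lemma sub_kill_mem (V : Set σ) (f : MvPolynomial σ ℂ) :
    f - kill V f ∈ Ideal.span ((fun u => (X u : MvPolynomial σ ℂ)) '' V) := by
  rw [← Ideal.Quotient.eq]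
  have h : (Ideal.Quotient.mkₐ ℂ (Ideal.span ((fun u => (X u : MvPolynomial σ ℂ)) '' V))) =
      (Ideal.Quotient.mkₐ ℂ (Ideal.span ((fun u => (X u : MvPolynomial σ ℂ)) '' V))).comp
        (kill V) := by
    apply MvPolynomial.algHom_ext
    intro u
    simp only [AlgHom.comp_apply, kill, aeval_X]
    by_cases hu : u ∈ V
    · rw [if_pos hu, map_zero]
      exact Ideal.Quotient.eq_zero_iff_mem.2 (Ideal.subset_span ⟨u, hu, rfl⟩)
    · rw [if_neg hu]
  exact DFunLike.congr_fun h f

open Classical in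
lemma eval_kill (V : Set σ) (f : MvPolynomial σ ℂ) (z : σ → ℂ) :
    eval z (kill V f) = eval (fun u => if u ∈ V then 0 else z u) f := by
  have h : (aeval z : MvPolynomial σ ℂ →ₐ[ℂ] ℂ).comp (kill V) =
      aeval (fun u => if u ∈ V then 0 else z u) := by
    apply MvPolynomial.algHom_ext
    intro u
    simp only [AlgHom.comp_apply, kill, aeval_X]
    by_cases hu : u ∈ V
    · rw [if_pos hu, if_pos hu, map_zero]
    · rw [if_neg hu, if_neg hu, aeval_X]
  have h2 := DFunLike.congr_fun h f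
  simpa [aeval_eq_eval] using h2

/-- evaluation along a polynomial curve -/
lemma eval_curve (c : σ → Polynomial ℂ) (f : MvPolynomial σ ℂ) (e : ℂ) :
    (aeval c f).eval e = eval (fun u => (c u).eval e) f := by
  have h : ((Polynomial.aeval e : Polynomial ℂ →ₐ[ℂ] ℂ).comp
      (aeval c : MvPolynomial σ ℂ →ₐ[ℂ] Polynomial ℂ)) =
      aeval (fun u => (c u).eval e) := by
    apply MvPolynomial.algHom_ext
    intro u
    simp
  have h2 := DFunLike.congr_fun h f
  simpa [aeval_eq_eval] using h2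

/-- If `g * f` vanishes on a set containing a polynomial curve through `z` on which `g` is not
identically zero, then `f z = 0`. -/
lemma eval_eq_zero_of_curve {S : Set (σ → ℂ)} {g f : MvPolynomial σ ℂ}
    (h : ∀ z ∈ S, eval z (g * f) = 0) (c : σ → Polynomial ℂ)
    (hc : ∀ e, (fun u => (c u).eval e) ∈ S) (hg : aeval c g ≠ 0) :
    eval (fun u => (c u).eval 0) f = 0 := by
  have h1 : aeval c g * aeval c f = 0 := by
    rw [← map_mul]
    apply Polynomial.funext
    intro e
    rw [eval_curve, h _ (hc e), Polynomial.eval_zero]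
  have h2 : aeval c f = 0 := (mul_eq_zero.1 h1).resolve_left hg
  rw [← eval_curve, h2, Polynomial.eval_zero]

end Tools

section Segre

variable (τ : Type) (m : ℕ)

/-- the variable `x_j` (zero for `j ≥ m`) -/
noncomputable def vx (j : ℕ) : MvPolynomial (τ ⊕ Fin 2 × Fin m) ℂ :=
  if h : j < m then X (Sum.inr (0, ⟨j, h⟩)) else 0

/-- the variable `y_j` (zero for `j ≥ m`) -/
noncomputable def vy (j : ℕ) : MvPolynomial (τ ⊕ Fin 2 × Fin m) ℂ :=
  if h : j < m then X (Sum.inr (1, ⟨j, h⟩)) else 0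

/-- rank at most one, first `i` columns zero -/
def setT (i : ℕ) : Set (τ ⊕ Fin 2 × Fin m → ℂ) :=
  {z | ∃ (l : Fin 2 → ℂ) (s : Fin m → ℂ), ∀ a j, z (Sum.inr (a, j)) =
    if j.val < i then 0 else l a * s j}

/-- first row zero, first `i` columns zero -/
def setZ (i : ℕ) : Set (τ ⊕ Fin 2 × Fin m → ℂ) :=
  {z | (∀ j, z (Sum.inr (0, j)) = 0) ∧ ∀ j : Fin m, j.val < i → z (Sum.inr (1, j)) = 0}

/-- the ideal of `setT` -/
noncomputable def idK (i : ℕ) : Ideal (MvPolynomial (τ ⊕ Fin 2 × Fin m) ℂ) :=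
  vanishingIdeal ℂ (setT τ m i)

/-- the ideal of `setZ` -/
noncomputable def idL (i : ℕ) : Ideal (MvPolynomial (τ ⊕ Fin 2 × Fin m) ℂ) :=
  vanishingIdeal ℂ (setZ τ m i)

/-- the sequence `x_{i+1} - y_i, …, x_{i+n} - y_{i+n-1}` -/
noncomputable def tl : ℕ → ℕ → List (MvPolynomial (τ ⊕ Fin 2 × Fin m) ℂ)
  | _, 0 => []
  | i, n + 1 => (vx τ m (i + 1) - vy τ m i) :: tl (i + 1) n

variable {τ m}

lemma mem_idK {i : ℕ} {f : MvPolynomial (τ ⊕ Fin 2 × Fin m) ℂ} :
    f ∈ idK τ m i ↔ ∀ z ∈ setT τ m i, eval z f = 0 := mem_van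

lemma mem_idL {i : ℕ} {f : MvPolynomial (τ ⊕ Fin 2 × Fin m) ℂ} :
    f ∈ idL τ m i ↔ ∀ z ∈ setZ τ m i, eval z f = 0 := mem_van

lemma eval_vx {j : ℕ} (z : τ ⊕ Fin 2 × Fin m → ℂ) :
    eval z (vx τ m j) = if h : j < m then z (Sum.inr (0, ⟨j, h⟩)) else 0 := by
  unfold vx
  split_ifs <;> simp

lemma eval_vy {j : ℕ} (z : τ ⊕ Fin 2 × Fin m → ℂ) :
    eval z (vy τ m j) = if h : j < m then z (Sum.inr (1, ⟨j, h⟩)) else 0 := by
  unfold vy
  split_ifs <;> simp

lemma vx_mem_idL (i j : ℕ) : vx τ m j ∈ idL τ m i := by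
  rw [mem_idL]
  intro z hz
  rw [eval_vx]
  split_ifs with h
  · exact hz.1 _
  · rfl

lemma vy_mem_idL {i j : ℕ} (hij : j < i) : vy τ m j ∈ idL τ m i := by
  rw [mem_idL]
  intro z hz
  rw [eval_vy]
  split_ifs with h
  · exact hz.2 _ hij
  · rfl

lemma vx_mem_idK {i j : ℕ} (hij : j < i) : vx τ m j ∈ idK τ m i := by
  rw [mem_idK]
  rintro z ⟨l, s, hz⟩
  rw [eval_vx]
  split_ifs with h
  · rw [hz, if_pos hij]
  · rfl

lemma vy_mem_idK {i j : ℕ} (hij : j < i) : vy τ m j ∈ idK τ m i := by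
  rw [mem_idK]
  rintro z ⟨l, s, hz⟩
  rw [eval_vy]
  split_ifs with h
  · rw [hz, if_pos hij]
  · rfl

lemma setT_anti {i i' : ℕ} (h : i ≤ i') : setT τ m i' ⊆ setT τ m i := by
  rintro z ⟨l, s, hz⟩
  refine ⟨l, fun j => if j.val < i' then 0 else s j, fun a j => ?_⟩
  rw [hz]
  by_cases h1 : j.val < i
  · rw [if_pos (by omega), if_pos h1]
  · rw [if_neg h1]
    by_cases h2 : j.val < i'
    · rw [if_pos h2]; simp only [if_pos h2, mul_zero]
    · rw [if_neg h2]; simp only [if_neg h2]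

lemma setZ_anti {i i' : ℕ} (h : i ≤ i') : setZ τ m i' ⊆ setZ τ m i := by
  rintro z ⟨h1, h2⟩
  exact ⟨h1, fun j hj => h2 j (by omega)⟩

lemma setZ_sub_setT (i : ℕ) : setZ τ m i ⊆ setT τ m i := by
  rintro z ⟨h1, h2⟩
  refine ⟨![0, 1], fun j => z (Sum.inr (1, j)), fun a j => ?_⟩
  by_cases hj : j.val < i
  · rw [if_pos hj]
    fin_cases a
    · exact h1 j
    · exact h2 j hj
  · rw [if_neg hj]
    fin_cases a
    · simpa using h1 j
    · simp

/-- `y_i` is regular on `B/L_i` -/
lemma idL_regular {i : ℕ} (hi : i < m) (f : MvPolynomial (τ ⊕ Fin 2 × Fin m) ℂ)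
    (h : vy τ m i * f ∈ idL τ m i) : f ∈ idL τ m i := by
  rw [mem_idL] at h ⊢
  intro z hz
  classical
  have key := eval_eq_zero_of_curve (S := setZ τ m i) (g := vy τ m i) (f := f) h
    (fun u => Polynomial.C (z u) + if u = Sum.inr (1, ⟨i, hi⟩) then Polynomial.X else 0) ?_ ?_
  · have h0 : (fun u => (Polynomial.C (z u) +
        if u = Sum.inr (1, ⟨i, hi⟩) then (Polynomial.X : Polynomial ℂ) else 0).eval 0) = z := by
      ext u
      by_cases hu : u = Sum.inr (1, ⟨i, hi⟩)
      · simp [hu]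
      · simp [hu]
    rw [h0] at key
    exact key
  · intro e
    refine ⟨fun j => ?_, fun j hj => ?_⟩
    · have : (Sum.inr (0, j) : τ ⊕ Fin 2 × Fin m) ≠ Sum.inr (1, ⟨i, hi⟩) := by simp
      simp only [if_neg this, add_zero, Polynomial.eval_C]
      exact hz.1 j
    · have : (Sum.inr (1, j) : τ ⊕ Fin 2 × Fin m) ≠ Sum.inr (1, ⟨i, hi⟩) := by
        intro h
        simp only [Sum.inr.injEq, Prod.mk.injEq, true_and] at h
        rw [h] at hj
        exact lt_irrefl _ hj
      simp only [if_neg this, add_zero, Polynomial.eval_C]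
      exact hz.2 j hj
  · unfold vy
    rw [dif_pos hi, aeval_X, if_pos rfl]
    intro h0
    have := congrArg (Polynomial.coeff · 1) h0
    simp at this

/-- `x_i` is regular on `B/K_i` -/
lemma idK_regular {i : ℕ} (hi : i < m) (f : MvPolynomial (τ ⊕ Fin 2 × Fin m) ℂ)
    (h : vx τ m i * f ∈ idK τ m i) : f ∈ idK τ m i := by
  rw [mem_idK] at h ⊢
  rintro z ⟨l, s, hz⟩
  classical
  set l' : Fin 2 → Polynomial ℂ := fun a => Polynomial.C (l a) + Polynomial.X with hl'
  set s' : Fin m → Polynomial ℂ := fun j => Polynomial.C (s j) + Polynomial.X with hs'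
  have key := eval_eq_zero_of_curve (S := setT τ m i) (g := vx τ m i) (f := f) h
    (Sum.elim (fun t => Polynomial.C (z (Sum.inl t)))
      (fun aj => if aj.2.val < i then 0 else l' aj.1 * s' aj.2)) ?_ ?_
  · have h0 : (fun u => Polynomial.eval 0 ((Sum.elim (fun t => Polynomial.C (z (Sum.inl t)))
      (fun aj : Fin 2 × Fin m => if aj.2.val < i then 0 else l' aj.1 * s' aj.2)) u)) = z := by
      ext u
      rcases u with t | ⟨a, j⟩
      · simp
      · rw [hz]
        by_cases hj : j.val < i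
        · simp [hj]
        · simp [hj, hl', hs']
    rw [h0] at key
    exact key
  · intro e
    refine ⟨fun a => (l' a).eval e, fun j => (s' j).eval e, fun a j => ?_⟩
    by_cases hj : j.val < i
    · simp [hj]
    · simp [hj]
  · unfold vx
    rw [dif_pos hi, aeval_X]
    simp only [Sum.elim_inr, lt_irrefl, if_false]
    have h1 : l' 0 ≠ 0 := by
      intro h0
      have := congrArg (Polynomial.coeff · 1) h0
      simp [hl'] at this
    have h2 : s' ⟨i, hi⟩ ≠ 0 := by
      intro h0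
      have := congrArg (Polynomial.coeff · 1) h0
      simp [hs'] at this
    exact mul_ne_zero h1 h2

lemma vy_eq {i : ℕ} (hi : i < m) : vy τ m i = X (Sum.inr (1, ⟨i, hi⟩)) := dif_pos hi

lemma vx_eq {i : ℕ} (hi : i < m) : vx τ m i = X (Sum.inr (0, ⟨i, hi⟩)) := dif_pos hi

lemma vx_eq_zero {i : ℕ} (hi : m ≤ i) : vx τ m i = 0 := dif_neg (by omega)

lemma idL_succ {i : ℕ} (hi : i < m) :
    idL τ m i ⊔ Ideal.span {vx τ m (i + 1) - vy τ m i} = idL τ m (i + 1) := by
  classical
  apply le_antisymm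
  · refine sup_le (vanishingIdeal_anti_mono (setZ_anti (by omega))) ?_
    rw [Ideal.span_le, Set.singleton_subset_iff]
    exact Ideal.sub_mem _ (vx_mem_idL _ _) (vy_mem_idL (by omega))
  · intro f hf
    have h1 := sub_kill_mem {(Sum.inr (1, ⟨i, hi⟩) : τ ⊕ Fin 2 × Fin m)} f
    rw [Set.image_singleton] at h1
    have h2 : kill {(Sum.inr (1, ⟨i, hi⟩) : τ ⊕ Fin 2 × Fin m)} f ∈ idL τ m i := by
      rw [mem_idL]
      intro z hz
      rw [eval_kill]
      rw [mem_idL] at hf
      apply hf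
      refine ⟨fun j => ?_, fun j hj => ?_⟩
      · have : (Sum.inr (0, j) : τ ⊕ Fin 2 × Fin m) ≠ Sum.inr (1, ⟨i, hi⟩) := by simp
        beta_reduce
        rw [Set.mem_singleton_iff, if_neg this]
        exact hz.1 j
      · beta_reduce
        by_cases hji : j.val = i
        · rw [if_pos]
          rw [Set.mem_singleton_iff]
          congr 2
          exact Fin.ext hji
        · rw [if_neg, hz.2 j (by omega)]
          rw [Set.mem_singleton_iff]
          simp only [Sum.inr.injEq, Prod.mk.injEq, true_and]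
          intro h; exact hji (congrArg Fin.val h)
    have h3 : vy τ m i ∈ idL τ m i ⊔ Ideal.span {vx τ m (i + 1) - vy τ m i} := by
      have h0 : vx τ m (i + 1) - (vx τ m (i + 1) - vy τ m i) ∈
          idL τ m i ⊔ Ideal.span {vx τ m (i + 1) - vy τ m i} :=
        Ideal.sub_mem _ (Ideal.mem_sup_left (vx_mem_idL _ _)) (mem_sup_span_self _ _)
      rwa [sub_sub_cancel] at h0
    have h4 : f = (f - kill {(Sum.inr (1, ⟨i, hi⟩) : τ ⊕ Fin 2 × Fin m)} f) +
        kill {(Sum.inr (1, ⟨i, hi⟩) : τ ⊕ Fin 2 × Fin m)} f := by ring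
    rw [h4]
    refine Ideal.add_mem _ ?_ (Ideal.mem_sup_left h2)
    rw [vy_eq hi] at h3
    rw [vy_eq hi]
    exact (Ideal.span_le.2 (Set.singleton_subset_iff.2 h3)) h1

lemma idK_sup_le (i : ℕ) : idK τ m i ⊔ Ideal.span {vx τ m i} ≤ idL τ m i := by
  refine sup_le (vanishingIdeal_anti_mono (setZ_sub_setT i)) ?_
  rw [Ideal.span_le, Set.singleton_subset_iff]
  exact vx_mem_idL _ _

lemma idK_last {i : ℕ} (hi : i + 1 = m) : idK τ m i ⊔ Ideal.span {vx τ m i} = idL τ m i := by
  classical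
  apply le_antisymm (idK_sup_le i)
  intro f hf
  have him : i < m := by omega
  have h1 := sub_kill_mem {(Sum.inr (0, ⟨i, him⟩) : τ ⊕ Fin 2 × Fin m)} f
  rw [Set.image_singleton] at h1
  have h2 : kill {(Sum.inr (0, ⟨i, him⟩) : τ ⊕ Fin 2 × Fin m)} f ∈ idK τ m i := by
    rw [mem_idK]
    rintro z ⟨l, s, hz⟩
    rw [eval_kill]
    rw [mem_idL] at hf
    apply hf
    refine ⟨fun j => ?_, fun j hj => ?_⟩
    · beta_reduce
      by_cases hji : j.val = i
      · rw [if_pos]
        rw [Set.mem_singleton_iff]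
        congr 2
        exact Fin.ext hji
      · rw [if_neg, hz, if_pos]
        · have := j.2; omega
        · rw [Set.mem_singleton_iff]
          simp only [Sum.inr.injEq, Prod.mk.injEq, true_and]
          intro h; exact hji (congrArg Fin.val h)
    · have : (Sum.inr (1, j) : τ ⊕ Fin 2 × Fin m) ≠ Sum.inr (0, ⟨i, him⟩) := by simp
      beta_reduce
      rw [Set.mem_singleton_iff, if_neg this, hz, if_pos hj]
  have h4 : f = (f - kill {(Sum.inr (0, ⟨i, him⟩) : τ ⊕ Fin 2 × Fin m)} f) +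
      kill {(Sum.inr (0, ⟨i, him⟩) : τ ⊕ Fin 2 × Fin m)} f := by ring
  rw [h4]
  refine Ideal.add_mem _ (Ideal.mem_sup_right ?_) (Ideal.mem_sup_left h2)
  rw [vx_eq him]
  exact h1

/-- the minors -/
lemma minor_mem (i j k : ℕ) (hj : j < m) (hk : k < m) :
    vx τ m j * vy τ m k - vx τ m k * vy τ m j ∈ idK τ m i := by
  rw [mem_idK]
  rintro z ⟨l, s, hz⟩
  simp only [map_sub, map_mul, eval_vx, eval_vy, dif_pos hj, dif_pos hk, hz]
  split_ifs <;> ring

lemma idK_succ {i : ℕ} (hi : i < m) :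
    idK τ m (i + 1) = idK τ m i ⊔ Ideal.span {vx τ m i} ⊔ Ideal.span {vy τ m i} := by
  classical
  apply le_antisymm
  · intro f hf
    set V : Set (τ ⊕ Fin 2 × Fin m) := {Sum.inr (0, ⟨i, hi⟩), Sum.inr (1, ⟨i, hi⟩)} with hV
    have h1 := sub_kill_mem V f
    have h2 : kill V f ∈ idK τ m i := by
      rw [mem_idK]
      rintro z ⟨l, s, hz⟩
      rw [eval_kill]
      rw [mem_idK] at hf
      apply hf
      refine ⟨l, s, fun a j => ?_⟩
      beta_reduce
      by_cases hji : j.val = i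
      · rw [if_pos, if_pos (by omega)]
        have hj' : j = ⟨i, hi⟩ := Fin.ext hji
        rw [hj', hV]
        fin_cases a
        · exact Or.inl rfl
        · exact Or.inr rfl
      · rw [if_neg, hz]
        · by_cases h : j.val < i
          · rw [if_pos h, if_pos (by omega)]
          · rw [if_neg h, if_neg (by omega)]
        · rw [hV]
          simp only [Set.mem_insert_iff, Set.mem_singleton_iff, Sum.inr.injEq, Prod.mk.injEq,
            not_or, not_and]
          exact ⟨fun _ h => hji (congrArg Fin.val h), fun _ h => hji (congrArg Fin.val h)⟩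
    have h4 : f = (f - kill V f) + kill V f := by ring
    rw [h4]
    refine Ideal.add_mem _ ?_ (Ideal.mem_sup_left (Ideal.mem_sup_left h2))
    have h5 : Ideal.span ((fun u => (X u : MvPolynomial (τ ⊕ Fin 2 × Fin m) ℂ)) '' V) ≤
        idK τ m i ⊔ Ideal.span {vx τ m i} ⊔ Ideal.span {vy τ m i} := by
      rw [Ideal.span_le]
      rintro _ ⟨u, hu, rfl⟩
      rw [hV] at hu
      rcases hu with rfl | rfl
      · have h6 : vx τ m i ∈ idK τ m i ⊔ Ideal.span {vx τ m i} ⊔ Ideal.span {vy τ m i} :=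
          Ideal.mem_sup_left (mem_sup_span_self _ _)
        rw [vx_eq hi] at h6 ⊢
        exact h6
      · have h6 : vy τ m i ∈ idK τ m i ⊔ Ideal.span {vx τ m i} ⊔ Ideal.span {vy τ m i} :=
          mem_sup_span_self _ _
        rw [vy_eq hi] at h6 ⊢
        exact h6
    exact h5 h1
  · refine sup_le (sup_le (vanishingIdeal_anti_mono (setT_anti (by omega))) ?_) ?_
    · rw [Ideal.span_le, Set.singleton_subset_iff]
      exact vx_mem_idK (by omega)
    · rw [Ideal.span_le, Set.singleton_subset_iff]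
      exact vy_mem_idK (by omega)

lemma colon_iff {i : ℕ} (hi : i < m) (f : MvPolynomial (τ ⊕ Fin 2 × Fin m) ℂ) :
    vy τ m i * f ∈ idK τ m i ⊔ Ideal.span {vx τ m i} ↔ f ∈ idL τ m i := by
  classical
  constructor
  · intro h
    exact idL_regular hi f (idK_sup_le i h)
  · intro hf
    set V : Set (τ ⊕ Fin 2 × Fin m) :=
      {u | ∃ a j, u = Sum.inr (a, j) ∧ (a = 0 ∨ j.val < i)} with hV
    have h1 := sub_kill_mem V f
    have h2 : kill V f = 0 := by
      apply MvPolynomial.funext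
      intro z
      rw [eval_kill, map_zero]
      rw [mem_idL] at hf
      apply hf
      refine ⟨fun j => ?_, fun j hj => ?_⟩
      · beta_reduce
        rw [if_pos]
        exact ⟨0, j, rfl, Or.inl rfl⟩
      · beta_reduce
        rw [if_pos]
        exact ⟨1, j, rfl, Or.inr hj⟩
    rw [h2, sub_zero] at h1
    refine Submodule.span_induction ?_ ?_ ?_ ?_ h1
    · rintro _ ⟨u, ⟨a, j, rfl, haj⟩, rfl⟩
      change vy τ m i * X (Sum.inr (a, j)) ∈ _
      rcases haj with rfl | hj
      · have h3 : (X (Sum.inr (0, j)) : MvPolynomial (τ ⊕ Fin 2 × Fin m) ℂ) = vx τ m j := by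
          rw [vx_eq j.2]
        rw [h3, mem_sup_span]
        refine ⟨vy τ m j, ?_⟩
        have := minor_mem (τ := τ) i j i j.2 hi
        rw [mul_comm (vy τ m i)]
        exact this
      · refine Ideal.mem_sup_left (Ideal.mul_mem_left _ _ ?_)
        fin_cases a
        · have h3 : (X (Sum.inr (0, j)) : MvPolynomial (τ ⊕ Fin 2 × Fin m) ℂ) = vx τ m j := by
            rw [vx_eq j.2]
          exact h3 ▸ vx_mem_idK hj
        · have h3 : (X (Sum.inr (1, j)) : MvPolynomial (τ ⊕ Fin 2 × Fin m) ℂ) = vy τ m j := by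
            rw [vy_eq j.2]
          exact h3 ▸ vy_mem_idK hj
    · rw [mul_zero]; exact Ideal.zero_mem _
    · intro a b _ _ ha hb
      rw [mul_add]; exact Ideal.add_mem _ ha hb
    · intro c a _ ha
      rw [smul_eq_mul, mul_left_comm]
      exact Ideal.mul_mem_left _ _ ha

lemma wr_idL : ∀ n i, i + n = m → WR (tl τ m i n) (idL τ m i) := by
  intro n
  induction n with
  | zero => intro i _; trivial
  | succ n ih =>
    intro i hi
    refine ⟨?_, ?_⟩
    · intro f hf
      apply idL_regular (by omega)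
      have h1 : vy τ m i * f = vx τ m (i + 1) * f - (vx τ m (i + 1) - vy τ m i) * f := by ring
      rw [h1]
      exact Ideal.sub_mem _ (Ideal.mul_mem_right _ _ (vx_mem_idL _ _)) hf
    · rw [idL_succ (by omega)]
      exact ih (i + 1) (by omega)

lemma wr_idK : ∀ n i, i + n + 1 = m → WR (vx τ m i :: tl τ m i (n + 1)) (idK τ m i) := by
  intro n
  induction n with
  | zero =>
    intro i hi
    refine ⟨fun f hf => idK_regular (by omega) f hf, ?_⟩
    rw [idK_last (by omega)]
    exact wr_idL 1 i (by omega)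
  | succ n ih =>
    intro i hi
    refine ⟨fun f hf => idK_regular (by omega) f hf, ?_⟩
    refine WR.of_colon (vy τ m i) _ _ (idL τ m i) (idK τ m (i + 1)) (colon_iff (by omega))
      (idK_succ (by omega)) (wr_idL _ _ (by omega)) ?_
    have h1 := ih (i + 1) (by omega)
    obtain ⟨h2, h3⟩ := h1
    have hy : vy τ m i ∈ idK τ m (i + 1) := vy_mem_idK (by omega)
    refine ⟨?_, ?_⟩
    · intro f hf
      apply h2
      have h4 : vx τ m (i + 1) * f = (vx τ m (i + 1) - vy τ m i) * f + vy τ m i * f := by ring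
      rw [h4]
      exact Ideal.add_mem _ hf (Ideal.mul_mem_right _ _ hy)
    · have h5 : idK τ m (i + 1) ⊔ Ideal.span {vx τ m (i + 1) - vy τ m i} =
          idK τ m (i + 1) ⊔ Ideal.span {vx τ m (i + 1)} := by
        apply le_antisymm
        · refine sup_le le_sup_left ?_
          rw [Ideal.span_le, Set.singleton_subset_iff]
          exact Ideal.sub_mem _ (mem_sup_span_self _ _) (Ideal.mem_sup_left hy)
        · refine sup_le le_sup_left ?_
          rw [Ideal.span_le, Set.singleton_subset_iff]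
          have h6 : vx τ m (i + 1) = (vx τ m (i + 1) - vy τ m i) + vy τ m i := by ring
          have h7 : (vx τ m (i + 1) - vy τ m i) + vy τ m i ∈
              idK τ m (i + 1) ⊔ Ideal.span {vx τ m (i + 1) - vy τ m i} :=
            Ideal.add_mem _ (mem_sup_span_self _ _) (Ideal.mem_sup_left hy)
          rw [← h6] at h7
          exact h7
      change WR (tl τ m (i + 1) (n + 1)) _
      rw [h5]
      exact h3

/-- the full regular sequence `θ` -/
noncomputable def theta (τ : Type) (m : ℕ) : List (MvPolynomial (τ ⊕ Fin 2 × Fin m) ℂ) :=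
  vx τ m 0 :: tl τ m 0 m

lemma wr_theta (hm : 1 ≤ m) : WR (theta τ m) (idK τ m 0) := by
  obtain ⟨n, rfl⟩ : ∃ n, m = n + 1 := ⟨m - 1, by omega⟩
  exact wr_idK n 0 (by omega)

lemma mem_tl : ∀ n i k, k < n → vx τ m (i + k + 1) - vy τ m (i + k) ∈ tl τ m i n := by
  intro n
  induction n with
  | zero => intro i k hk; omega
  | succ n ih =>
    intro i k hk
    cases k with
    | zero => exact List.mem_cons_self
    | succ k =>
      refine List.mem_cons_of_mem _ ?_
      have := ih (i + 1) k (by omega)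
      have e1 : i + (k + 1) + 1 = i + 1 + k + 1 := by omega
      have e2 : i + (k + 1) = i + 1 + k := by omega
      rw [e1, e2]
      exact this

lemma of_mem_tl : ∀ n i f, f ∈ tl τ m i n → ∃ k, k < n ∧ f = vx τ m (i + k + 1) - vy τ m (i + k) := by
  intro n
  induction n with
  | zero => intro i f hf; simp [tl] at hf
  | succ n ih =>
    intro i f hf
    rcases List.mem_cons.1 hf with h | h
    · exact ⟨0, by omega, h⟩
    · obtain ⟨k, hk, hk'⟩ := ih (i + 1) f h
      refine ⟨k + 1, by omega, ?_⟩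
      have e1 : i + (k + 1) + 1 = i + 1 + k + 1 := by omega
      have e2 : i + (k + 1) = i + 1 + k := by omega
      rw [e1, e2]
      exact hk'

/-- the ideal `K + (θ)` -/
noncomputable def idJ (τ : Type) (m : ℕ) : Ideal (MvPolynomial (τ ⊕ Fin 2 × Fin m) ℂ) :=
  idK τ m 0 ⊔ Ideal.ofList (theta τ m)

lemma vx_zero_mem_idJ : vx τ m 0 ∈ idJ τ m :=
  Ideal.mem_sup_right (Ideal.subset_span List.mem_cons_self)

lemma diff_mem_idJ {j : ℕ} (hj : j < m) : vx τ m (j + 1) - vy τ m j ∈ idJ τ m := by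
  refine Ideal.mem_sup_right (Ideal.subset_span (List.mem_cons_of_mem _ ?_))
  have := mem_tl (τ := τ) (m := m) m 0 j hj
  rwa [zero_add] at this

lemma yy_mem_idJ : ∀ b, b < m → ∀ a, a < m → vy τ m b * vy τ m a ∈ idJ τ m := by
  intro b
  induction b with
  | zero =>
    intro hb a ha
    have h1 := Ideal.mul_mem_left (idJ τ m) (vy τ m 0) (diff_mem_idJ (τ := τ) ha)
    by_cases ha' : a + 1 < m
    · have h2 : vx τ m 0 * vy τ m (a + 1) - vx τ m (a + 1) * vy τ m 0 ∈ idJ τ m :=
        Ideal.mem_sup_left (minor_mem 0 0 (a + 1) hb ha')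
      have h3 := Ideal.mul_mem_right (vy τ m (a + 1)) (idJ τ m) vx_zero_mem_idJ
      have : vy τ m 0 * vy τ m a = vx τ m 0 * vy τ m (a + 1) -
          (vx τ m 0 * vy τ m (a + 1) - vx τ m (a + 1) * vy τ m 0) -
          vy τ m 0 * (vx τ m (a + 1) - vy τ m a) := by ring
      rw [this]
      exact Ideal.sub_mem _ (Ideal.sub_mem _ h3 h2) h1
    · rw [vx_eq_zero (by omega)] at h1
      have : vy τ m 0 * vy τ m a = -(vy τ m 0 * (0 - vy τ m a)) := by ring
      rw [this]
      exact neg_mem h1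
  | succ b ih =>
    intro hb a ha
    have h1 := Ideal.mul_mem_left (idJ τ m) (vy τ m (b + 1)) (diff_mem_idJ (τ := τ) ha)
    by_cases ha' : a + 1 < m
    · have h2 : vx τ m (b + 1) * vy τ m (a + 1) - vx τ m (a + 1) * vy τ m (b + 1) ∈ idJ τ m :=
        Ideal.mem_sup_left (minor_mem 0 (b + 1) (a + 1) hb ha')
      have h3 := Ideal.mul_mem_right (vy τ m (a + 1)) (idJ τ m)
        (diff_mem_idJ (τ := τ) (j := b) (by omega))
      have h4 := ih (by omega) (a + 1) ha'
      have : vy τ m (b + 1) * vy τ m a =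
          (vx τ m (b + 1) - vy τ m b) * vy τ m (a + 1) + vy τ m b * vy τ m (a + 1) -
          (vx τ m (b + 1) * vy τ m (a + 1) - vx τ m (a + 1) * vy τ m (b + 1)) -
          vy τ m (b + 1) * (vx τ m (a + 1) - vy τ m a) := by ring
      rw [this]
      exact Ideal.sub_mem _ (Ideal.sub_mem _ (Ideal.add_mem _ h3 h4) h2) h1
    · rw [vx_eq_zero (by omega)] at h1
      have : vy τ m (b + 1) * vy τ m a = -(vy τ m (b + 1) * (0 - vy τ m a)) := by ring
      rw [this]
      exact neg_mem h1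

lemma xy_mem_idJ {b a : ℕ} (hb : b < m) (ha : a < m) : vx τ m b * vy τ m a ∈ idJ τ m := by
  cases b with
  | zero => exact Ideal.mul_mem_right _ _ vx_zero_mem_idJ
  | succ b =>
    have h1 := Ideal.mul_mem_right (vy τ m a) (idJ τ m) (diff_mem_idJ (τ := τ) (j := b) (by omega))
    have h2 := yy_mem_idJ (τ := τ) b (by omega) a ha
    have : vx τ m (b + 1) * vy τ m a =
      (vx τ m (b + 1) - vy τ m b) * vy τ m a + vy τ m b * vy τ m a := by ring
    rw [this]
    exact Ideal.add_mem _ h1 h2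

/-- restriction to `x = y = 0` -/
noncomputable def rho (τ : Type) (m : ℕ) : MvPolynomial (τ ⊕ Fin 2 × Fin m) ℂ →ₐ[ℂ]
    MvPolynomial τ ℂ := aeval (Sum.elim (fun t => X t) (fun _ => 0))

lemma eval_rho (f : MvPolynomial (τ ⊕ Fin 2 × Fin m) ℂ) (z : τ → ℂ) :
    eval z (rho τ m f) = eval (Sum.elim z (fun _ => 0)) f := by
  have h : (aeval z : MvPolynomial τ ℂ →ₐ[ℂ] ℂ).comp (rho τ m) =
      aeval (Sum.elim z (fun _ => 0)) := by
    apply MvPolynomial.algHom_ext
    rintro (t | u)
    · simp [rho]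
    · simp [rho]
  have h2 := DFunLike.congr_fun h f
  simpa [aeval_eq_eval] using h2

lemma idK_le_ker : idK τ m 0 ≤ RingHom.ker (rho τ m) := by
  intro f hf
  rw [RingHom.mem_ker]
  apply MvPolynomial.funext
  intro z
  rw [map_zero, eval_rho]
  rw [mem_idK] at hf
  apply hf
  exact ⟨0, 0, fun a j => by simp⟩

/-- the ideal `(x, y)` -/
lemma mem_ker_rho {f : MvPolynomial (τ ⊕ Fin 2 × Fin m) ℂ} (hf : rho τ m f = 0) :
    f ∈ Ideal.span ((fun u => (X u : MvPolynomial (τ ⊕ Fin 2 × Fin m) ℂ)) '' Set.range Sum.inr) := by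
  classical
  have h1 := sub_kill_mem (Set.range (Sum.inr : Fin 2 × Fin m → τ ⊕ Fin 2 × Fin m)) f
  have h2 : kill (Set.range (Sum.inr : Fin 2 × Fin m → τ ⊕ Fin 2 × Fin m)) f = 0 := by
    apply MvPolynomial.funext
    intro z
    rw [eval_kill, map_zero]
    have h5 : eval (Sum.elim (fun t => z (Sum.inl t)) (fun _ => 0)) f = 0 := by
      rw [← eval_rho, hf, map_zero]
    refine Eq.trans (congrArg (fun w => eval w f) ?_) h5
    funext u
    rcases u with t | u
    · simp
    · simp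
  rwa [h2, sub_zero] at h1

lemma mul_vy_mem_idJ {f : MvPolynomial (τ ⊕ Fin 2 × Fin m) ℂ} (hf : rho τ m f = 0) {a : ℕ}
    (ha : a < m) : f * vy τ m a ∈ idJ τ m := by
  refine Submodule.span_induction ?_ ?_ ?_ ?_ (mem_ker_rho hf)
  · rintro _ ⟨_, ⟨⟨b, j⟩, rfl⟩, rfl⟩
    fin_cases b
    · have h := xy_mem_idJ (τ := τ) j.2 ha
      rw [vx_eq j.2] at h
      exact h
    · have h := yy_mem_idJ (τ := τ) j.val j.2 a ha
      rw [vy_eq j.2] at h
      exact h
  · rw [zero_mul]; exact Ideal.zero_mem _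
  · intro x y _ _ hx hy
    rw [add_mul]; exact Ideal.add_mem _ hx hy
  · intro c x _ hx
    rw [smul_eq_mul, mul_assoc]
    exact Ideal.mul_mem_left _ _ hx

lemma coeff_line {σ : Type} [DecidableEq σ] (z : σ → ℂ) (u : σ) (f : MvPolynomial σ ℂ) :
    (aeval (fun w => Polynomial.C (z w) + if w = u then Polynomial.X else 0) f :
      Polynomial ℂ).coeff 0 = eval z f ∧
    (aeval (fun w => Polynomial.C (z w) + if w = u then Polynomial.X else 0) f :
      Polynomial ℂ).coeff 1 = eval z (pderiv u f) := by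
  induction f using MvPolynomial.induction_on with
  | C a => simp [Polynomial.coeff_C]
  | add p q hp hq =>
    simp only [map_add, Polynomial.coeff_add, hp.1, hp.2, hq.1, hq.2]
    simp
  | mul_X p w hp =>
    have e0 : (Polynomial.C (z w) + if w = u then (Polynomial.X : Polynomial ℂ) else 0).coeff 0
        = z w := by
      split_ifs <;> simp
    have e1 : (Polynomial.C (z w) + if w = u then (Polynomial.X : Polynomial ℂ) else 0).coeff 1
        = if w = u then 1 else 0 := by
      split_ifs <;> simp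
    constructor
    · simp only [map_mul, aeval_X, Polynomial.mul_coeff_zero, hp.1, e0, eval_X]
    · simp only [map_mul, aeval_X, Polynomial.mul_coeff_one, hp.1, hp.2, e0, e1, eval_X,
        pderiv_mul, map_add]
      by_cases h : w = u
      · subst h
        simp
        ring
      · rw [pderiv_X_of_ne h]
        simp [h]

/-- the derivative of an element of `K` at a point with `x = y = 0` vanishes -/
lemma pderiv_idK {f : MvPolynomial (τ ⊕ Fin 2 × Fin m) ℂ} (hf : f ∈ idK τ m 0) (z : τ → ℂ)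
    (u : Fin 2 × Fin m) : eval (Sum.elim z (fun _ => 0)) (pderiv (Sum.inr u) f) = 0 := by
  classical
  rw [← (coeff_line (Sum.elim z (fun _ => 0)) (Sum.inr u) f).2]
  have h : (aeval (fun w => Polynomial.C ((Sum.elim z (fun _ => 0) : τ ⊕ Fin 2 × Fin m → ℂ) w) +
      if w = Sum.inr u then (Polynomial.X : Polynomial ℂ) else 0) f : Polynomial ℂ) = 0 := by
    apply Polynomial.funext
    intro e
    rw [eval_curve, Polynomial.eval_zero]
    rw [mem_idK] at hf
    apply hf
    refine ⟨fun a => if a = u.1 then e else 0, fun j => if j = u.2 then 1 else 0, fun a j => ?_⟩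
    obtain ⟨b, k⟩ := u
    by_cases h1 : a = b <;> by_cases h2 : j = k <;> simp [h1, h2]
  rw [h, Polynomial.coeff_zero]

/-- the derivation `∂/∂x_{c+1} + ∂/∂y_c` at a point with `x = y = 0` -/
noncomputable def derD (z : τ → ℂ) (c : ℕ) (h : c + 1 < m)
    (f : MvPolynomial (τ ⊕ Fin 2 × Fin m) ℂ) : ℂ :=
  eval (Sum.elim z (fun _ => 0)) (pderiv (Sum.inr (0, ⟨c + 1, h⟩)) f) +
  eval (Sum.elim z (fun _ => 0)) (pderiv (Sum.inr (1, ⟨c, by omega⟩)) f)

lemma derD_mul (z : τ → ℂ) (c : ℕ) (h : c + 1 < m) (f g : MvPolynomial (τ ⊕ Fin 2 × Fin m) ℂ) :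
    derD z c h (f * g) = derD z c h f * eval (Sum.elim z (fun _ => 0)) g +
      eval (Sum.elim z (fun _ => 0)) f * derD z c h g := by
  simp only [derD, pderiv_mul, map_add, map_mul]
  ring

lemma derD_add (z : τ → ℂ) (c : ℕ) (h : c + 1 < m) (f g : MvPolynomial (τ ⊕ Fin 2 × Fin m) ℂ) :
    derD z c h (f + g) = derD z c h f + derD z c h g := by
  simp only [derD, map_add]
  ring

lemma derD_sub (z : τ → ℂ) (c : ℕ) (h : c + 1 < m) (f g : MvPolynomial (τ ⊕ Fin 2 × Fin m) ℂ) :
    derD z c h (f - g) = derD z c h f - derD z c h g := by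
  simp only [derD, map_sub]
  ring

lemma derD_vx (z : τ → ℂ) (c : ℕ) (h : c + 1 < m) (j : ℕ) :
    derD z c h (vx τ m j) = if j = c + 1 then 1 else 0 := by
  classical
  unfold derD
  by_cases hj : j < m
  · rw [vx_eq hj, pderiv_X, pderiv_X]
    by_cases h1 : j = c + 1
    · subst h1
      simp
    · have h2 : (Sum.inr (0, ⟨j, hj⟩) : τ ⊕ Fin 2 × Fin m) ≠ Sum.inr (0, ⟨c + 1, h⟩) := by
        simpa using h1
      simp [h2, h1]
  · rw [vx_eq_zero (by omega), if_neg (by omega)]
    simp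

lemma derD_vy (z : τ → ℂ) (c : ℕ) (h : c + 1 < m) (j : ℕ) :
    derD z c h (vy τ m j) = if j = c then 1 else 0 := by
  classical
  unfold derD
  by_cases hj : j < m
  · rw [vy_eq hj, pderiv_X, pderiv_X]
    by_cases h1 : j = c
    · subst h1
      simp
    · have h2 : (Sum.inr (1, ⟨j, hj⟩) : τ ⊕ Fin 2 × Fin m) ≠ Sum.inr (1, ⟨c, by omega⟩) := by
        simpa using h1
      simp [h1]
  · have h0 : vy τ m j = 0 := dif_neg hj
    rw [h0, if_neg (by omega)]
    simp

lemma eval_vx_zero (z : τ → ℂ) (j : ℕ) :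
    eval (Sum.elim z (fun _ => 0)) (vx τ m j) = 0 := by
  rw [eval_vx]; split_ifs <;> simp

lemma eval_vy_zero (z : τ → ℂ) (j : ℕ) :
    eval (Sum.elim z (fun _ => 0)) (vy τ m j) = 0 := by
  rw [eval_vy]; split_ifs <;> simp

lemma derD_idJ {f : MvPolynomial (τ ⊕ Fin 2 × Fin m) ℂ} (hf : f ∈ idJ τ m) (z : τ → ℂ) (c : ℕ)
    (h : c + 1 < m) : derD z c h f = 0 := by
  obtain ⟨a, ha, b, hb, rfl⟩ := Submodule.mem_sup.1 hf
  rw [derD_add]
  have h1 : derD z c h a = 0 := by
    unfold derD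
    rw [pderiv_idK ha, pderiv_idK ha, add_zero]
  rw [h1, zero_add]
  refine Submodule.span_induction ?_ ?_ ?_ ?_ hb
  · intro g hg
    rcases List.mem_cons.1 hg with rfl | hg
    · rw [derD_vx, if_neg (by omega)]
    · obtain ⟨k, hk, rfl⟩ := of_mem_tl _ _ _ hg
      rw [derD_sub, derD_vx, derD_vy, zero_add]
      by_cases hkc : k = c
      · simp [hkc]
      · rw [if_neg (by omega), if_neg hkc, sub_zero]
  · unfold derD; simp
  · intro x y _ _ hx hy
    rw [derD_add, hx, hy, add_zero]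
  · intro r x hx' hx
    rw [smul_eq_mul, derD_mul, hx, mul_zero, add_zero]
    have h2 : eval (Sum.elim z (fun _ => 0)) x = 0 := by
      refine Submodule.span_induction ?_ ?_ ?_ ?_ hx'
      · intro g hg
        rcases List.mem_cons.1 hg with rfl | hg
        · exact eval_vx_zero z 0
        · obtain ⟨k, hk, rfl⟩ := of_mem_tl _ _ _ hg
          rw [map_sub, eval_vx_zero, eval_vy_zero, sub_zero]
      · simp
      · intro x y _ _ hx hy
        rw [map_add, hx, hy, add_zero]
      · intro r x _ hx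
        rw [smul_eq_mul, map_mul, hx, mul_zero]
    rw [h2, mul_zero]

/-- `y₀, y₁` are independent modulo `J` -/
lemma indep (hm : 3 ≤ m) {α β : MvPolynomial (τ ⊕ Fin 2 × Fin m) ℂ}
    (h : β * vy τ m 1 - α * vy τ m 0 ∈ idJ τ m) : rho τ m α = 0 ∧ rho τ m β = 0 := by
  constructor
  · apply MvPolynomial.funext
    intro z
    rw [map_zero, eval_rho]
    have h1 := derD_idJ h z 0 (by omega)
    rw [derD_sub, derD_mul, derD_mul, derD_vy, derD_vy, eval_vy_zero, eval_vy_zero] at h1
    simpa using h1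
  · apply MvPolynomial.funext
    intro z
    rw [map_zero, eval_rho]
    have h1 := derD_idJ h z 1 (by omega)
    rw [derD_sub, derD_mul, derD_mul, derD_vy, derD_vy, eval_vy_zero, eval_vy_zero] at h1
    simpa using h1

/-- the prime ideal `(x, y)` of the coordinate ring -/
noncomputable def rhoBar (τ : Type) (m : ℕ) :
    (MvPolynomial (τ ⊕ Fin 2 × Fin m) ℂ ⧸ idK τ m 0) →+* MvPolynomial τ ℂ :=
  Ideal.Quotient.lift (idK τ m 0) (rho τ m).toRingHom (fun _ ha => idK_le_ker ha)

lemma rhoBar_mk (f : MvPolynomial (τ ⊕ Fin 2 × Fin m) ℂ) :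
    rhoBar τ m (Ideal.Quotient.mk _ f) = rho τ m f := rfl

/-- the coordinate ring -/
abbrev crd (τ : Type) (m : ℕ) : Type := MvPolynomial (τ ⊕ Fin 2 × Fin m) ℂ ⧸ idK τ m 0

theorem not_gor (hm : 3 ≤ m) (P : Ideal (crd τ m))
    [P.IsPrime] (hP : P = RingHom.ker (rhoBar τ m)) (R : Type) [CommRing R] [Algebra (crd τ m) R]
    [IsLocalization.AtPrime R P] [IsLocalRing R] : ¬ GorLoc R := by
  intro hG
  obtain ⟨hN, rs, hmem, hreg, -, hsoc⟩ := hG
  have hPmem : ∀ f : MvPolynomial (τ ⊕ Fin 2 × Fin m) ℂ,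
      (Ideal.Quotient.mk (idK τ m 0) f : crd τ m) ∈ P ↔ rho τ m f = 0 := by
    intro f
    rw [hP, RingHom.mem_ker, rhoBar_mk]
  -- the regular sequence in `R`
  set θ : List (crd τ m) := (theta τ m).map (Ideal.Quotient.mk (idK τ m 0)) with hθ
  have hwA : IsWeaklyRegular (crd τ m) θ :=
    (isWeaklyRegular_map_algebraMap_iff (crd τ m) (crd τ m) (theta τ m)).2
      (WR.isWeaklyRegular _ _ (wr_theta (by omega)))
  have hwR : IsWeaklyRegular R (θ.map (algebraMap (crd τ m) R)) :=
    hwA.of_isLocalization R P.primeCompl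
  -- membership in the ideal generated by `θ` in `R`
  have hmk : ∀ f : MvPolynomial (τ ⊕ Fin 2 × Fin m) ℂ,
      (Ideal.Quotient.mk (idK τ m 0) f : crd τ m) ∈ Ideal.ofList θ ↔ f ∈ idJ τ m := by
    intro f
    rw [hθ, ← Ideal.map_ofList, idJ, sup_comm]
    have h := Ideal.comap_map_of_surjective (Ideal.Quotient.mk (idK τ m 0))
      Ideal.Quotient.mk_surjective (Ideal.ofList (theta τ m))
    rw [← RingHom.ker_eq_comap_bot, Ideal.mk_ker] at h
    rw [← h, Ideal.mem_comap]
  set I : Ideal R := Ideal.ofList (θ.map (algebraMap (crd τ m) R)) with hI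
  have hloc0 : ∀ f : MvPolynomial (τ ⊕ Fin 2 × Fin m) ℂ,
      algebraMap (crd τ m) R (Ideal.Quotient.mk (idK τ m 0) f) ∈ I ↔
        ∃ c, rho τ m c ≠ 0 ∧ c * f ∈ idJ τ m := by
    intro f
    rw [hI, ← Ideal.map_ofList, IsLocalization.algebraMap_mem_map_algebraMap_iff P.primeCompl]
    constructor
    · rintro ⟨s, hs, hs'⟩
      obtain ⟨c, rfl⟩ := Ideal.Quotient.mk_surjective s
      refine ⟨c, fun h0 => hs ((hPmem c).2 h0), ?_⟩
      rw [← map_mul, hmk] at hs'
      exact hs'
    · rintro ⟨c, hc, hc'⟩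
      refine ⟨Ideal.Quotient.mk _ c, fun h0 => hc ((hPmem c).1 h0), ?_⟩
      rw [← map_mul, hmk]
      exact hc'
  -- a general element of `R`, cleared of its denominator
  have hclear : ∀ r : R, ∃ a g : MvPolynomial (τ ⊕ Fin 2 × Fin m) ℂ, rho τ m g ≠ 0 ∧
      algebraMap (crd τ m) R (Ideal.Quotient.mk (idK τ m 0) g) * r =
        algebraMap (crd τ m) R (Ideal.Quotient.mk (idK τ m 0) a) := by
    intro r
    obtain ⟨x, s, rfl⟩ := IsLocalization.exists_mk'_eq P.primeCompl r
    obtain ⟨a, rfl⟩ := Ideal.Quotient.mk_surjective x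
    obtain ⟨s, hs⟩ := s
    obtain ⟨g, rfl⟩ := Ideal.Quotient.mk_surjective s
    refine ⟨a, g, fun h0 => hs ((hPmem g).2 h0), ?_⟩
    exact IsLocalization.mk'_spec' (M := P.primeCompl) R (Ideal.Quotient.mk (idK τ m 0) a)
      ⟨Ideal.Quotient.mk (idK τ m 0) g, hs⟩
  have hunit : ∀ g : MvPolynomial (τ ⊕ Fin 2 × Fin m) ℂ, rho τ m g ≠ 0 →
      IsUnit (algebraMap (crd τ m) R (Ideal.Quotient.mk (idK τ m 0) g)) := by
    intro g hg
    exact IsLocalization.map_units (M := P.primeCompl) R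
      (⟨Ideal.Quotient.mk (idK τ m 0) g, fun h0 => hg ((hPmem g).1 h0)⟩ : P.primeCompl)
  have hmax : ∀ g : MvPolynomial (τ ⊕ Fin 2 × Fin m) ℂ,
      algebraMap (crd τ m) R (Ideal.Quotient.mk (idK τ m 0) g) ∈ maximalIdeal R ↔ rho τ m g = 0 := by
    intro g
    rw [← hPmem]
    exact IsLocalization.AtPrime.to_map_mem_maximal_iff R P _ inferInstance
  -- the two socle elements
  have hsocle : ∀ a, a < m → ∀ r ∈ maximalIdeal R,
      r * algebraMap (crd τ m) R (Ideal.Quotient.mk (idK τ m 0) (vy τ m a)) ∈ I := by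
    intro a ha r hr
    obtain ⟨b, g, hg, hb⟩ := hclear r
    have hb0 : rho τ m b = 0 := by
      rw [← hmax, ← hb]
      exact Ideal.mul_mem_left _ _ hr
    rw [← Ideal.unit_mul_mem_iff_mem _ (hunit g hg), ← mul_assoc, hb, ← map_mul, ← map_mul,
      hloc0]
    exact ⟨1, by simp, by rw [one_mul]; exact mul_vy_mem_idJ hb0 ha⟩
  have hne : ∀ α β : MvPolynomial (τ ⊕ Fin 2 × Fin m) ℂ, rho τ m α ≠ 0 ∨ rho τ m β ≠ 0 →
      algebraMap (crd τ m) R (Ideal.Quotient.mk (idK τ m 0) (β * vy τ m 1 - α * vy τ m 0)) ∉ I := by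
    intro α β h h0
    rw [hloc0] at h0
    obtain ⟨c, hc, hc'⟩ := h0
    rw [mul_sub, ← mul_assoc, ← mul_assoc] at hc'
    obtain ⟨h1, h2⟩ := indep hm hc'
    rw [map_mul] at h1 h2
    rcases h with h | h
    · exact (mul_ne_zero hc h) h1
    · exact (mul_ne_zero hc h) h2
  set y0 : R ⧸ I := Ideal.Quotient.mk I (algebraMap (crd τ m) R (Ideal.Quotient.mk (idK τ m 0) (vy τ m 0)))
    with hy0
  set y1 : R ⧸ I := Ideal.Quotient.mk I (algebraMap (crd τ m) R (Ideal.Quotient.mk (idK τ m 0) (vy τ m 1)))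
    with hy1
  have hy0ne : y0 ≠ 0 := by
    intro h
    rw [hy0, Ideal.Quotient.eq_zero_iff_mem] at h
    apply hne (-1) 0 (Or.inl (by simp))
    simpa using h
  have hy0s : ∀ r ∈ maximalIdeal R, r • y0 = 0 := by
    intro r hr
    have := hsocle 0 (by omega) r hr
    exact Ideal.Quotient.eq_zero_iff_mem.2 this
  have hy1s : ∀ r ∈ maximalIdeal R, r • y1 = 0 := by
    intro r hr
    have := hsocle 1 (by omega) r hr
    exact Ideal.Quotient.eq_zero_iff_mem.2 this
  have hnz : NonzeroSocle R (R ⧸ I) := ⟨y0, hy0ne, hy0s⟩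
  -- the elements of `θ` are in the maximal ideal
  have hθmem : ∀ r ∈ θ.map (algebraMap (crd τ m) R), r ∈ maximalIdeal R := by
    intro r hr
    rw [hθ, List.map_map] at hr
    obtain ⟨f, hf, rfl⟩ := List.mem_map.1 hr
    change algebraMap (crd τ m) R (Ideal.Quotient.mk (idK τ m 0) f) ∈ maximalIdeal R
    rw [hmax]
    rcases List.mem_cons.1 hf with rfl | hf
    · apply MvPolynomial.funext
      intro z
      rw [map_zero, eval_rho, eval_vx_zero]
    · obtain ⟨k, hk, rfl⟩ := of_mem_tl _ _ _ hf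
      apply MvPolynomial.funext
      intro z
      rw [map_zero, eval_rho, map_sub, eval_vx_zero, eval_vy_zero, sub_zero]
  have hkey := simpleSocle_unique rs.length R rs (θ.map (algebraMap (crd τ m) R)) rfl hmem
    hreg.toIsWeaklyRegular (hsoc.of_equiv (quotSelfEquiv rs).symm) hθmem hwR
    (hnz.of_equiv (quotSelfEquiv _).symm)
  have hkey2 : SimpleSocle R (R ⧸ I) := hkey.2.of_equiv (quotSelfEquiv _)
  obtain ⟨s, hs0, hs1, hs2⟩ := hkey2
  obtain ⟨c0, hc0⟩ := hs2 y0 hy0s
  obtain ⟨c1, hc1⟩ := hs2 y1 hy1s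
  have hc0u : IsUnit c0 := by
    by_contra hcon
    exact hy0ne (by rw [hc0]; exact hs1 c0 hcon)
  obtain ⟨a0, g0, hg0, ha0⟩ := hclear c0
  obtain ⟨a1, g1, hg1, ha1⟩ := hclear c1
  have ha0' : rho τ m a0 ≠ 0 := by
    intro h
    rw [← hmax, ← ha0] at h
    exact h ((hunit g0 hg0).mul hc0u)
  -- `c0 * y1 = c1 * y0`
  have hrel : c0 • y1 = c1 • y0 := by
    rw [hc0, hc1, smul_smul, smul_smul, mul_comm]
  -- multiply by `g0 * g1`
  apply hne (g0 * a1) (g1 * a0) (Or.inr (by rw [map_mul]; exact mul_ne_zero hg1 ha0'))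
  rw [← Ideal.Quotient.eq_zero_iff_mem]
  have e1 : (Ideal.Quotient.mk I) (algebraMap (crd τ m) R (Ideal.Quotient.mk (idK τ m 0)
      (g1 * a0 * vy τ m 1 - g0 * a1 * vy τ m 0))) =
      (algebraMap (crd τ m) R (Ideal.Quotient.mk (idK τ m 0) g1) *
        algebraMap (crd τ m) R (Ideal.Quotient.mk (idK τ m 0) g0)) • (c0 • y1 - c1 • y0) := by
    have e2 : algebraMap (crd τ m) R (Ideal.Quotient.mk (idK τ m 0)
      (g1 * a0 * vy τ m 1 - g0 * a1 * vy τ m 0)) =
      (algebraMap (crd τ m) R (Ideal.Quotient.mk (idK τ m 0) g1) *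
        algebraMap (crd τ m) R (Ideal.Quotient.mk (idK τ m 0) g0)) *
        (c0 * algebraMap (crd τ m) R (Ideal.Quotient.mk (idK τ m 0) (vy τ m 1)) -
          c1 * algebraMap (crd τ m) R (Ideal.Quotient.mk (idK τ m 0) (vy τ m 0))) := by
      simp only [map_sub, map_mul, ← ha0, ← ha1]
      ring
    rw [e2]
    rfl
  rw [e1, hrel, sub_self, smul_zero]

theorem segreNotGor : SegreNotGor := by
  intro τ _ m hm hG
  have hS : segreSet τ m = setT τ m 0 := by
    ext z
    simp [segreSet, setT]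
  rw [hS] at hG
  have h1 : ∀ (P : Ideal (crd τ m)) [P.IsPrime],
      IsGorensteinLocal (Localization.AtPrime P) := hG
  have hprime : (RingHom.ker (rhoBar τ m)).IsPrime := RingHom.ker_isPrime (rhoBar τ m)
  have h2 := h1 (RingHom.ker (rhoBar τ m))
  rw [gorLoc_iff] at h2
  exact not_gor hm (RingHom.ker (rhoBar τ m)) rfl (Localization.AtPrime (RingHom.ker (rhoBar τ m))) h2

end Segre

end ClanGor.Segre
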