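import Pool.Agent.ClanGor.Assembly
import Pool.Agent.ClanGor.ChartCoords
import Pool.Agent.ClanGor.ChartCover
import Pool.Agent.ClanGor.Clans
import Pool.Agent.ClanGor.CommAlg
import Pool.Agent.ClanGor.OrbitRank
import Pool.Agent.ClanGor.RankPos
import Pool.Agent.ClanGor.SegreNotGor
import Pool.Agent.ClanGor.ModelP2
import Pool.Agent.ClanGor.ModelP3
import Pool.Agent.ClanGor.ModelN1
import Pool.Agent.ClanGor.ModelN2
import Pool.Agent.ClanGor.ModelN3

/-!
# MP_fae1d7_ag: final assembly
-/

namespace ClanGor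

theorem main_theorem : MainStatement :=
  main_of ChartCoordsM.chartCoords OrbitRank.orbitRank RankPos.rankPos Clans.clanHasData
    Clans.avoidPos polyIsoGor (P1.modelP1 CommAlg.ciGorensteinPoly)
    (P2.modelP2 CommAlg.ciGorensteinPoly) modelP3 (modelN1 Segre.segreNotGor)
    (modelN2 Segre.segreNotGor) (modelN3 Segre.segreNotGor)

end ClanGor
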