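import Pool.Agent.ClanGor.Norm

/-!
# MP_fae1d7_ag: the models P1 and P2 (linked type)
-/

namespace ClanGor

open MvPolynomial

variable {n : ℕ}

/-- If the chart meets the orbit then `a₁ ≤ s ≤ b₁` and `a₂ ≤ t ≤ b₂`. -/
theorem rcSet_bounds {linked : Bool} {a₁ a₂ b₁ b₂ s t : Fin n} (hst : s < t) {v : RC n → ℂ}
    (hv : v ∈ rcSet linked a₁ a₂ b₁ b₂ s t) : a₁ ≤ s ∧ s ≤ b₁ ∧ a₂ ≤ t ∧ t ≤ b₂ := by
  obtain ⟨hn, hp⟩ := hv
  have hr1s := hn.r1s
  have hr0s := hn.r0s
  have hr1t := hn.r1t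
  have hr0t := hn.r0 t hst
  have hc0s := hn.c0s
  have hc1s := hn.c1 s hst
  have hc1t := hn.c1t
  refine ⟨?_, ?_, ?_, ?_⟩
  · by_contra h
    have := hp.rzero s (not_le.mp h) 0
    rw [hr0s] at this
    exact one_ne_zero this
  · by_contra h
    have h1 := hp.cline s (not_le.mp h)
    have h2 := hp.cline t ((not_le.mp h).trans hst)
    rw [hc0s, hc1s] at h1
    rw [hc1t] at h2
    apply hp.cdet
    have h3 : cMat v b₂ 1 = 0 := by linear_combination h1
    rw [h3] at h2
    have h4 : cMat v b₂ 0 = 0 := by linear_combination -h2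
    rw [h3, h4]; ring
  · by_contra h
    have h1 := hp.rline s (hst.trans (not_le.mp h))
    have h2 := hp.rline t (not_le.mp h)
    rw [hr0s, hr1s] at h1
    rw [hr1t, hr0t] at h2
    apply hp.rdet
    have h3 : rMat v 1 a₁ = 0 := by linear_combination h1
    have h4 : rMat v 0 a₁ = 0 := by linear_combination -h2
    rw [h3, h4]; ring
  · by_contra h
    have := hp.czero t (not_le.mp h) 1
    rw [hc1t] at this
    exact one_ne_zero this

namespace P1

/-- free coordinates for P1 -/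
def free (a₁ a₂ b₁ b₂ s t : Fin n) : RC n → Prop
  | Sum.inl (e, j) => if e = 0 then a₁ ≤ j ∧ j < s else a₂ ≤ j ∧ j < t ∧ j ≠ s
  | Sum.inr (e, k) => if e = 0 then s < k ∧ k ≠ t ∧ k ≤ b₁ else t < k ∧ k ≤ b₂

instance (a₁ a₂ b₁ b₂ s t : Fin n) : DecidablePred (free a₁ a₂ b₁ b₂ s t) := by
  intro x
  rcases x with ⟨e, j⟩ | ⟨e, k⟩
  · unfold free; infer_instance
  · unfold free; infer_instance

theorem free_may {a₁ a₂ b₁ b₂ s t : Fin n} {x : RC n} (h : free a₁ a₂ b₁ b₂ s t x) :
    MayFree s t x := by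
  rcases x with ⟨e, j⟩ | ⟨e, k⟩
  · fin_cases e <;> simp [free, MayFree] at h ⊢ <;> tauto
  · fin_cases e <;> simp [free, MayFree] at h ⊢ <;> tauto

theorem modelP1 (hCI : CIGorensteinPoly) : ModelP1 := by
  intro n a₁ a₂ b₁ b₂ s t B _ hab1 hba hab2 hst
  by_cases hne : (rcSet true a₁ a₂ b₁ b₂ s t).Nonempty
  swap
  · exact gorSet_cyl_of_empty B _ (Set.not_nonempty_iff_eq_empty.mp hne)
  obtain ⟨v0, hv0⟩ := hne
  obtain ⟨h1, h2, h3, h4⟩ := rcSet_bounds hst hv0
  have hiso := polyIso_nrm B s t hst (rcSet true a₁ a₂ b₁ b₂ s t) (free a₁ a₂ b₁ b₂ s t)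
    (fun x hx => free_may hx)
    (by
      rintro v ⟨hn, hp⟩
      refine ⟨hn, ?_⟩
      have e1 := hp.rline s (lt_of_le_of_lt h2 hba)
      rw [hn.r0s, hn.r1s] at e1
      have hr1a : rMat v 1 a₁ = 0 := by linear_combination e1
      have hr0a : rMat v 0 a₁ ≠ 0 := by
        intro h0; apply hp.rdet; rw [hr1a, h0]; ring
      have hlink := hp.link rfl
      rw [hr1a, mul_zero, add_zero] at hlink
      have hcb0 : cMat v b₂ 0 = 0 := (mul_eq_zero.mp hlink).resolve_right hr0a
      have hcb1 : cMat v b₂ 1 ≠ 0 := by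
        intro h0; apply hp.cdet; rw [hcb0, h0]; ring
      rintro (⟨e, j⟩ | ⟨e, k⟩) hx hx'
      · fin_cases e
        · simp only [MayFree, free, Fin.zero_eta, if_true] at hx hx'
          exact hp.rzero j (by
            by_contra hc
            exact hx' ⟨not_lt.mp hc, hx⟩) 0
        · simp [MayFree, free] at hx hx'
          have hj : j < a₂ := by
            by_contra hc
            exact hx.2 (hx' (not_lt.mp hc) hx.1)
          have := hp.rline j hj
          rw [hr1a, mul_zero] at this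
          exact (mul_eq_zero.mp this.symm).resolve_left hr0a
      · fin_cases e
        · simp only [MayFree, free, Fin.zero_eta, if_true] at hx hx'
          have hk : b₁ < k := by
            by_contra hc
            exact hx' ⟨hx.1, hx.2, not_lt.mp hc⟩
          have := hp.cline k hk
          rw [hcb0, zero_mul] at this
          exact (mul_eq_zero.mp this).resolve_right hcb1
        · simp [MayFree, free] at hx hx'
          exact hp.czero k (hx' hx) 1)
  refine hiso.symm.gorSet ?_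
  have hmay : ∀ (y : {x : RC n // free a₁ a₂ b₁ b₂ s t x} → ℂ) x, ¬ MayFree s t x →
      ext0 (free a₁ a₂ b₁ b₂ s t) y x = 0 := by
    intro y x hx
    exact ext0_of_not fun hf => hx (free_may hf)
  refine gorSet_cyl_affine hCI B _
    (phi s t (free a₁ a₂ b₁ b₂ s t) (Sum.inl (0, a₁)) * phi s t (free a₁ a₂ b₁ b₂ s t) (Sum.inl (1, a₂)) *
      (phi s t (free a₁ a₂ b₁ b₂ s t) (Sum.inr (0, b₁)) *
        phi s t (free a₁ a₂ b₁ b₂ s t) (Sum.inr (1, b₂)))) ?_ ?_
  · intro y hy
    simp only [map_mul, eval_phi] at hy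
    set Y := ext0 (free a₁ a₂ b₁ b₂ s t) y with hY
    have hy1 : nrm s t Y (Sum.inl (0, a₁)) ≠ 0 := fun h => hy (by rw [h]; ring)
    have hy2 : nrm s t Y (Sum.inl (1, a₂)) ≠ 0 := fun h => hy (by rw [h]; ring)
    have hy3 : nrm s t Y (Sum.inr (0, b₁)) ≠ 0 := fun h => hy (by rw [h]; ring)
    have hy4 : nrm s t Y (Sum.inr (1, b₂)) ≠ 0 := fun h => hy (by rw [h]; ring)
    have hYf : ∀ x, ¬ free a₁ a₂ b₁ b₂ s t x → Y x = 0 := fun x hx => ext0_of_not hx
    have r1small : ∀ j, j < a₂ → nrm s t Y (Sum.inl (1, j)) = 0 := by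
      intro j hj
      rw [nrm_r1, if_neg (hj.trans_le h3).ne, add_zero]
      apply hYf
      simp [free, not_le.mpr hj]
    have c0big : ∀ k, b₁ < k → nrm s t Y (Sum.inr (0, k)) = 0 := by
      intro k hk
      rw [nrm_c0, if_neg (h2.trans_lt hk).ne', add_zero]
      have e1 : Y (Sum.inr (0, k)) = 0 := by
        apply hYf; simp [free, not_le.mpr hk]
      rw [e1, zero_sub]
      have e2 : ∑ k', Y (Sum.inl (1, k')) * Y (Sum.inr (0, k')) = 0 := by
        apply Finset.sum_eq_zero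
        intro k' _
        by_cases hk' : a₂ ≤ k'
        · have : Y (Sum.inr (0, k')) = 0 := by
            apply hYf; simp [free, hba.trans_le hk']
          rw [this, mul_zero]
        · have : Y (Sum.inl (1, k')) = 0 := by
            apply hYf; simp [free, hk']
          rw [this, zero_mul]
      rw [e2]; simp
    have ha12 : a₁ < a₂ := hab1.trans_lt hba
    have hb12 : b₁ < b₂ := hba.trans_le hab2
    refine ⟨rcNorm_nrm hst _ (hmay y), ?_⟩
    constructor
    · intro j hj e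
      fin_cases e
      · change nrm s t Y (Sum.inl (0, j)) = 0
        rw [nrm_r0, if_neg (hj.trans_le h1).ne, add_zero]
        apply hYf; simp [free, not_le.mpr hj]
      · exact r1small j (hj.trans ha12)
    · intro j hj
      change nrm s t Y (Sum.inl (0, j)) * nrm s t Y (Sum.inl (1, a₁)) =
        nrm s t Y (Sum.inl (0, a₁)) * nrm s t Y (Sum.inl (1, j))
      rw [r1small j hj, r1small a₁ ha12]; ring
    · change nrm s t Y (Sum.inl (0, a₁)) * nrm s t Y (Sum.inl (1, a₂)) -
        nrm s t Y (Sum.inl (0, a₂)) * nrm s t Y (Sum.inl (1, a₁)) ≠ 0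
      rw [r1small a₁ ha12, mul_zero, sub_zero]
      exact mul_ne_zero hy1 hy2
    · intro k hk e
      fin_cases e
      · exact c0big k (hb12.trans hk)
      · change nrm s t Y (Sum.inr (1, k)) = 0
        rw [nrm_c1, if_neg (h4.trans_lt hk).ne', add_zero]
        apply hYf; simp [free, hk]
    · intro k hk
      change nrm s t Y (Sum.inr (0, k)) * nrm s t Y (Sum.inr (1, b₂)) =
        nrm s t Y (Sum.inr (0, b₂)) * nrm s t Y (Sum.inr (1, k))
      rw [c0big k hk, c0big b₂ hb12]; ring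
    · change nrm s t Y (Sum.inr (0, b₁)) * nrm s t Y (Sum.inr (1, b₂)) -
        nrm s t Y (Sum.inr (0, b₂)) * nrm s t Y (Sum.inr (1, b₁)) ≠ 0
      rw [c0big b₂ hb12, zero_mul, sub_zero]
      exact mul_ne_zero hy3 hy4
    · intro _
      change nrm s t Y (Sum.inr (0, b₂)) * nrm s t Y (Sum.inl (0, a₁)) +
        nrm s t Y (Sum.inr (1, b₂)) * nrm s t Y (Sum.inl (1, a₁)) = 0
      rw [c0big b₂ hb12, r1small a₁ ha12]; ring
    · intro h; exact absurd h (by simp)
  · refine ⟨fun _ => 1, ?_⟩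
    simp only [map_mul, eval_phi]
    have e1 : nrm s t (ext0 (free a₁ a₂ b₁ b₂ s t) fun _ => (1 : ℂ)) (Sum.inl (0, a₁)) = 1 := by
      rw [nrm_r0, ext0_restrict (fun _ => (1 : ℂ))]
      rcases h1.lt_or_eq with h | h
      · simp [free, h, h.ne]
      · simp [free, h]
    have e2 : nrm s t (ext0 (free a₁ a₂ b₁ b₂ s t) fun _ => (1 : ℂ)) (Sum.inl (1, a₂)) = 1 := by
      rw [nrm_r1, ext0_restrict (fun _ => (1 : ℂ))]
      rcases h3.lt_or_eq with h | h
      · simp [free, h, h.ne, (h2.trans_lt hba).ne']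
      · simp [free, h]
    have e3 : nrm s t (ext0 (free a₁ a₂ b₁ b₂ s t) fun _ => (1 : ℂ)) (Sum.inr (0, b₁)) = 1 := by
      have hbt : b₁ ≠ t := (hba.trans_le h3).ne
      rw [nrm_c0, if_neg hbt, sub_zero, ext0_restrict (fun _ => (1 : ℂ))]
      rcases h2.lt_or_eq with h | h
      · simp [free, h, h.ne', hbt]
      · simp [free, h]
    have e4 : nrm s t (ext0 (free a₁ a₂ b₁ b₂ s t) fun _ => (1 : ℂ)) (Sum.inr (1, b₂)) = 1 := by
      rw [nrm_c1, ext0_restrict (fun _ => (1 : ℂ))]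
      rcases h4.lt_or_eq with h | h
      · simp [free, h, h.ne']
      · simp [free, h]
    rw [e1, e2, e3, e4]; simp

end P1

end ClanGor
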