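import Pool.Agent.ClanGor.Tools

/-!
# MP_fae1d7_ag: Gorenstein models (affine spaces and hypersurfaces), elimination of coordinates
-/

namespace ClanGor

open MvPolynomial IsLocalRing

variable {σ τ : Type}

/-- Computation of a vanishing ideal: `J` prime, `S' ⊂ V(J)`, `V(J) ∩ {h ≠ 0} ⊂ S'`, `h ∉ J`. -/
theorem vanishingIdeal_eq_of_prime [Finite τ] (J : Ideal (MvPolynomial τ ℂ)) (hJ : J.IsPrime)
    (S' : Set (τ → ℂ)) (h : MvPolynomial τ ℂ) (h1 : ∀ y ∈ S', ∀ P ∈ J, eval y P = 0)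
    (h2 : ∀ y, (∀ P ∈ J, eval y P = 0) → eval y h ≠ 0 → y ∈ S') (h3 : h ∉ J) :
    (vanishingIdeal ℂ S' : Ideal (MvPolynomial τ ℂ)) = J := by
  apply le_antisymm
  · intro P hP
    rw [mem_vanIdeal] at hP
    have h4 : P * h ∈ (vanishingIdeal ℂ (zeroLocus ℂ J) : Ideal (MvPolynomial τ ℂ)) := by
      rw [mem_vanIdeal]
      intro y hy
      rw [map_mul]
      by_cases h0 : eval y h = 0
      · rw [h0, mul_zero]
      · rw [hP y (h2 y (fun Q hQ => by
          have := hy Q hQ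
          rwa [aeval_eq_eval] at this) h0), zero_mul]
    rw [vanishingIdeal_zeroLocus_eq_radical, hJ.radical] at h4
    exact (hJ.mem_or_mem h4).resolve_right h3
  · intro P hP
    rw [mem_vanIdeal]
    intro y hy
    exact h1 y hy P hP

/-- If the vanishing ideal is generated by a weakly regular sequence, the set is Gorenstein. -/
theorem gorSet_of_vanishingIdeal (hCI : CIGorensteinPoly) [Finite τ] (S' : Set (τ → ℂ))
    (qs : List (MvPolynomial τ ℂ))
    (hq : RingTheory.Sequence.IsWeaklyRegular (MvPolynomial τ ℂ) qs)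
    (h : (vanishingIdeal ℂ S' : Ideal (MvPolynomial τ ℂ)) = Ideal.ofList qs) : GorSet S' := by
  have h1 : GorRing (MvPolynomial τ ℂ ⧸ Ideal.ofList qs) := hCI τ qs hq
  exact GorRing.of_ringEquiv (Ideal.quotEquivOfEq h.symm) h1

theorem isWeaklyRegular_singleton [Finite τ] {q : MvPolynomial τ ℂ} (hq : q ≠ 0) :
    RingTheory.Sequence.IsWeaklyRegular (MvPolynomial τ ℂ) [q] := by
  rw [RingTheory.Sequence.isWeaklyRegular_singleton_iff]
  exact (IsSMulRegular.of_ne_zero hq)

/-- Zariski dense subsets of an affine space. -/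
theorem gorSet_affine (hCI : CIGorensteinPoly) [Finite τ] (S' : Set (τ → ℂ))
    (h : MvPolynomial τ ℂ) (h2 : ∀ y, eval y h ≠ 0 → y ∈ S') (h3 : ∃ y, eval y h ≠ 0) :
    GorSet S' := by
  refine gorSet_of_vanishingIdeal hCI S' [] (RingTheory.Sequence.IsWeaklyRegular.nil _ _) ?_
  rw [Ideal.ofList_nil]
  refine vanishingIdeal_eq_of_prime ⊥ Ideal.isPrime_bot S' h ?_ (fun y _ => h2 y) ?_
  · intro y _ P hP
    rw [Ideal.mem_bot.mp hP, map_zero]
  · intro hh
    obtain ⟨y, hy⟩ := h3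
    rw [Ideal.mem_bot.mp hh, map_zero] at hy
    exact hy rfl

/-- Zariski dense subsets of an irreducible hypersurface. -/
theorem gorSet_hyper (hCI : CIGorensteinPoly) [Finite τ] (S' : Set (τ → ℂ))
    (q h : MvPolynomial τ ℂ) (hq : Irreducible q) (h1 : ∀ y ∈ S', eval y q = 0)
    (h2 : ∀ y, eval y q = 0 → eval y h ≠ 0 → y ∈ S') (h3 : ∃ y, eval y q = 0 ∧ eval y h ≠ 0) :
    GorSet S' := by
  refine gorSet_of_vanishingIdeal hCI S' [q] (isWeaklyRegular_singleton hq.ne_zero) ?_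
  rw [Ideal.ofList_singleton]
  have hmem : ∀ y, eval y q = 0 ↔ ∀ P ∈ Ideal.span {q}, eval y P = 0 := by
    intro y
    constructor
    · intro hy P hP
      obtain ⟨a, rfl⟩ := Ideal.mem_span_singleton'.mp hP
      rw [map_mul, hy, mul_zero]
    · intro hy
      exact hy q (Ideal.mem_span_singleton_self q)
  refine vanishingIdeal_eq_of_prime _ ?_ S' h (fun y hy => (hmem y).mp (h1 y hy))
    (fun y hy => h2 y ((hmem y).mpr hy)) ?_
  · exact (Ideal.span_singleton_prime hq.ne_zero).mpr hq.prime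
  · intro hh
    obtain ⟨y, hy, hy'⟩ := h3
    exact hy' ((hmem y).mp hy h hh)

/-! ### Elimination of coordinates -/

/-- `S` is isomorphic to `{y : φ(y) ∈ S}` when the coordinates outside of the image of `ρ` are
determined by the others. -/
theorem polyIso_elim (S : Set (σ → ℂ)) (φ : σ → MvPolynomial τ ℂ) (ρ : τ → σ)
    (h1 : ∀ j, φ (ρ j) = X j)
    (h2 : ∀ z ∈ S, ∀ i, eval (fun j => z (ρ j)) (φ i) = z i) :
    PolyIso S {y : τ → ℂ | (fun i => eval y (φ i)) ∈ S} := by
  refine ⟨fun j => X (ρ j), φ, ?_, ?_, ?_, ?_⟩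
  · intro u hu
    simp only [eval_X]
    change (fun i => eval (fun j => u (ρ j)) (φ i)) ∈ S
    have : (fun i => eval (fun j => u (ρ j)) (φ i)) = u := funext fun i => h2 u hu i
    rw [this]; exact hu
  · intro z hz
    exact hz
  · intro u hu i
    simp only [eval_X]
    exact h2 u hu i
  · intro z _ j
    simp only [eval_X, h1]

/-- The same for cylinders. -/
theorem polyIso_cyl_elim (B : Type) (S : Set (σ → ℂ)) (φ : σ → MvPolynomial τ ℂ) (ρ : τ → σ)
    (h1 : ∀ j, φ (ρ j) = X j)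
    (h2 : ∀ z ∈ S, ∀ i, eval (fun j => z (ρ j)) (φ i) = z i) :
    PolyIso (cyl B S) (cyl B {y : τ → ℂ | (fun i => eval y (φ i)) ∈ S}) := by
  have := polyIso_elim (cyl B S)
    (φ := Sum.elim (fun b => X (Sum.inl b)) (fun i => rename Sum.inr (φ i)))
    (ρ := Sum.map id ρ) ?_ ?_
  · convert this using 1
    ext y
    simp only [cyl, Set.mem_ofPred_eq, Sum.elim_inr, eval_rename]
    rfl
  · rintro (b | j)
    · rfl
    · simp [h1]
  · rintro z hz (b | i)
    · simp
    · simp only [Sum.elim_inr, eval_rename]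
      exact h2 _ hz i

/-! ### Quadrics `X j * X i + g` -/

theorem irreducible_quad {κ : Type} (i j : κ) (g : MvPolynomial κ ℂ) (hij : i ≠ j)
    (hi : i ∉ g.vars) (hg : ∃ y : κ → ℂ, y j = 0 ∧ eval y g ≠ 0) :
    Irreducible (X j * X i + g) := by
  refine irreducible_mul_X_add (X j) g i (X_ne_zero j) ?_ hi ?_
  · rw [vars_X]; simpa using hij
  · rw [(X_prime (R := ℂ) (i := j)).irreducible.isRelPrime_iff_not_dvd]
    rintro ⟨r, hr⟩
    obtain ⟨y, hy, hgy⟩ := hg
    apply hgy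
    rw [hr, map_mul, eval_X, hy, zero_mul]

/-- Zariski dense subsets of `B × {y_j y_i + g(y) = 0}`. -/
theorem gorSet_quad (hCI : CIGorensteinPoly) (B : Type) [Finite B] [Finite τ] (S' : Set (τ → ℂ))
    (i j : τ) (g h : MvPolynomial τ ℂ) (hij : i ≠ j) (hi : i ∉ g.vars)
    (hg : ∃ y : τ → ℂ, y j = 0 ∧ eval y g ≠ 0)
    (h1 : ∀ y ∈ S', y j * y i + eval y g = 0)
    (h2 : ∀ y, y j * y i + eval y g = 0 → eval y h ≠ 0 → y ∈ S')
    (h3 : ∃ y, y j * y i + eval y g = 0 ∧ eval y h ≠ 0) : GorSet (cyl B S') := by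
  classical
  refine gorSet_hyper hCI (cyl B S') (X (Sum.inr j) * X (Sum.inr i) + rename Sum.inr g)
    (rename Sum.inr h) (irreducible_quad _ _ _ ?_ ?_ ?_) ?_ ?_ ?_
  · exact fun h => hij (Sum.inr_injective h)
  · intro hmem
    obtain ⟨x, hx, hx'⟩ := Finset.mem_image.mp (vars_rename _ _ hmem)
    rw [Sum.inr_injective hx'] at hx
    exact hi hx
  · obtain ⟨y, hy, hgy⟩ := hg
    refine ⟨Sum.elim (fun _ => 0) y, hy, ?_⟩
    rwa [eval_rename]
  · intro y hy
    rw [map_add, map_mul, eval_X, eval_X, eval_rename]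
    exact h1 _ hy
  · intro y hy hy'
    rw [map_add, map_mul, eval_X, eval_X, eval_rename] at hy
    rw [eval_rename] at hy'
    exact h2 _ hy hy'
  · obtain ⟨y, hy, hhy⟩ := h3
    refine ⟨Sum.elim (fun _ => 0) y, ?_, ?_⟩
    · rw [map_add, map_mul, eval_X, eval_X, eval_rename]
      exact hy
    · rw [eval_rename]; exact hhy

/-- Zariski dense subsets of `B × ℂ^τ`. -/
theorem gorSet_cyl_affine (hCI : CIGorensteinPoly) (B : Type) [Finite B] [Finite τ]
    (S' : Set (τ → ℂ)) (h : MvPolynomial τ ℂ) (h2 : ∀ y, eval y h ≠ 0 → y ∈ S')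
    (h3 : ∃ y, eval y h ≠ 0) : GorSet (cyl B S') := by
  refine gorSet_affine hCI (cyl B S') (rename Sum.inr h) ?_ ?_
  · intro y hy
    rw [eval_rename] at hy
    exact h2 _ hy
  · obtain ⟨y, hhy⟩ := h3
    refine ⟨Sum.elim (fun _ => 0) y, ?_⟩
    rw [eval_rename]; exact hhy

/-- The empty set. -/
theorem gorSet_of_empty (S : Set (σ → ℂ)) (h : S = ∅) : GorSet S := by
  intro P hP
  exfalso
  subst h
  have : Subsingleton (coordRing (∅ : Set (σ → ℂ))) := by
    rw [coordRing, Ideal.Quotient.subsingleton_iff, vanishingIdeal_empty]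
  exact hP.ne_top (Subsingleton.elim _ _)

theorem gorSet_cyl_of_empty (B : Type) (S : Set (σ → ℂ)) (h : S = ∅) : GorSet (cyl B S) := by
  apply gorSet_of_empty
  subst h
  ext z
  simp [cyl]

end ClanGor
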