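import Pool.Agent.ClanGor.Models

/-!
# MP_fae1d7_ag: Gorenstein models given by two quadrics `q₁`, `X j₂ * X i₂ + g₂`
-/

namespace ClanGor

open MvPolynomial IsLocalRing
open scoped Pointwise

section two

variable {κ : Type} {q g : MvPolynomial κ ℂ} {i j : κ}

/-- setting the variable `X j` to zero -/
noncomputable def kill (j : κ) : MvPolynomial κ ℂ →+* MvPolynomial κ ℂ := by
  classical
  exact (aeval (Function.update X j 0) : MvPolynomial κ ℂ →ₐ[ℂ] MvPolynomial κ ℂ).toRingHom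

theorem kill_X_self (j : κ) : kill j (X j) = 0 := by
  classical
  unfold kill
  simp

theorem kill_X_ne {j k : κ} (h : k ≠ j) : kill j (X k) = X k := by
  classical
  unfold kill
  simp [Function.update_of_ne h]

theorem kill_C (j : κ) (a : ℂ) : kill j (C a) = C a := by
  classical
  unfold kill
  simp

theorem dvd_sub_kill (j : κ) (f : MvPolynomial κ ℂ) : X j ∣ f - kill j f := by
  induction f using MvPolynomial.induction_on with
  | C a => rw [kill_C, sub_self]; exact dvd_zero _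
  | add p r hp hr =>
    rw [map_add, add_sub_add_comm]
    exact dvd_add hp hr
  | mul_X p k hp =>
    rw [map_mul]
    have e : p * X k - kill j p * kill j (X k) =
        (p - kill j p) * X k + kill j p * (X k - kill j (X k)) := by ring
    rw [e]
    refine dvd_add (dvd_mul_of_dvd_left hp _) (dvd_mul_of_dvd_right ?_ _)
    by_cases h : k = j
    · subst h; rw [kill_X_self, sub_zero]
    · rw [kill_X_ne h, sub_self]; exact dvd_zero _

theorem kill_eq_self {j : κ} {f : MvPolynomial κ ℂ} (h : j ∉ f.vars) : kill j f = f := by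
  have h2 : kill j f = (RingHom.id _) f := by
    refine MvPolynomial.hom_congr_vars ?_ ?_ rfl
    · ext a
      simp [kill_C]
    · intro k hk _
      have : k ≠ j := by rintro rfl; exact h hk
      rw [kill_X_ne this]; rfl
  exact h2

theorem eval_kill {j : κ} (f : MvPolynomial κ ℂ) {y : κ → ℂ} (hy : y j = 0) :
    eval y (kill j f) = eval y f := by
  obtain ⟨c, hc⟩ := dvd_sub_kill j f
  have := congrArg (eval y) hc
  rw [map_sub, map_mul, eval_X, hy, zero_mul, sub_eq_zero] at this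
  exact this.symm

/-- The hypotheses on the two polynomials `q` and `X j * X i + g`. -/
structure QuadPair (q g : MvPolynomial κ ℂ) (i j : κ) : Prop where
  irr : Irreducible q
  ne : i ≠ j
  gi : i ∉ g.vars
  qi : i ∉ q.vars
  qj : j ∉ q.vars
  pt : ∃ y : κ → ℂ, y j = 0 ∧ eval y q = 0 ∧ eval y g ≠ 0

theorem QuadPair.not_dvd (h : QuadPair q g i j) : ¬ X j ∣ q := by
  rintro ⟨c, hc⟩
  have h1 := kill_eq_self h.qj
  rw [hc, map_mul, kill_X_self, zero_mul, ← hc] at h1
  exact h.irr.ne_zero h1.symm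

theorem QuadPair.not_dvd' (h : QuadPair q g i j) : ¬ q ∣ X j := by
  intro hd
  have := (h.irr.dvd_irreducible_iff_associated (X_prime (R := ℂ) (i := j)).irreducible).mp hd
  exact h.not_dvd this.symm.dvd

theorem QuadPair.kill_q2 (_h : QuadPair q g i j) : kill j (X j * X i + g) = kill j g := by
  rw [map_add, map_mul, kill_X_self, zero_mul, zero_add]

theorem QuadPair.not_dvd_kill (h : QuadPair q g i j) : ¬ q ∣ kill j g := by
  rintro ⟨c, hc⟩
  obtain ⟨y, hy, hq, hg⟩ := h.pt
  apply hg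
  rw [← eval_kill g hy, hc, map_mul, hq, zero_mul]

theorem QuadPair.not_dvd_q2 (h : QuadPair q g i j) : ¬ q ∣ X j * X i + g := by
  rintro ⟨c, hc⟩
  obtain ⟨y, hy, hq, hg⟩ := h.pt
  apply hg
  have := congrArg (eval y) hc
  rw [map_add, map_mul, map_mul, eval_X, hy, zero_mul, zero_add, hq, zero_mul] at this
  exact this

/-- The ideal is saturated with respect to `X j`. -/
theorem QuadPair.sat (h : QuadPair q g i j) (f : MvPolynomial κ ℂ)
    (hf : X j * f ∈ Ideal.span {q, X j * X i + g}) : f ∈ Ideal.span {q, X j * X i + g} := by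
  have hq : Prime q := h.irr.prime
  rw [Ideal.mem_span_pair] at hf ⊢
  obtain ⟨a, b, hab⟩ := hf
  have h1 := congrArg (kill j) hab
  rw [map_add, map_mul, map_mul, h.kill_q2, map_mul, kill_X_self, zero_mul,
    kill_eq_self h.qj] at h1
  have h2 : q ∣ kill j b * kill j g := by
    refine ⟨- kill j a, ?_⟩
    linear_combination h1
  obtain ⟨c, hc⟩ := (hq.dvd_or_dvd h2).resolve_right h.not_dvd_kill
  obtain ⟨b', hb'⟩ := dvd_sub_kill j b
  have h3 : X j ∣ (a + c * (X j * X i + g)) * q := by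
    refine ⟨f - b' * (X j * X i + g), ?_⟩
    linear_combination hab - (X j * X i + g) * hb' - (X j * X i + g) * hc
  obtain ⟨d, hd⟩ := ((X_prime (R := ℂ) (i := j)).dvd_or_dvd h3).resolve_right h.not_dvd
  refine ⟨d, b', ?_⟩
  have hX : (X j : MvPolynomial κ ℂ) ≠ 0 := X_ne_zero j
  apply mul_left_cancel₀ hX
  linear_combination hab - (X j * X i + g) * hb' - (X j * X i + g) * hc - q * hd

theorem QuadPair.sat_pow (h : QuadPair q g i j) (f : MvPolynomial κ ℂ) (N : ℕ)
    (hf : X j ^ N * f ∈ Ideal.span {q, X j * X i + g}) :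
    f ∈ Ideal.span {q, X j * X i + g} := by
  induction N with
  | zero => simpa using hf
  | succ N ih =>
    apply ih
    apply h.sat
    rw [← mul_assoc, ← pow_succ']
    exact hf

theorem degreeOf_X_pow_ne {i j : κ} (h : i ≠ j) (N : ℕ) :
    degreeOf i ((X j : MvPolynomial κ ℂ) ^ N) = 0 := by
  classical
  have h1 := degreeOf_pow_le i (X j : MvPolynomial κ ℂ) N
  rw [degreeOf_X, if_neg h] at h1
  omega

theorem degreeOf_zero_of {i : κ} {f : MvPolynomial κ ℂ} (h : i ∉ f.vars) : degreeOf i f = 0 := by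
  by_contra h0
  exact h (mem_vars_iff_degreeOf_ne_zero.mpr h0)

/-- Reduction modulo `X j * X i + g`. -/
theorem QuadPair.red (h : QuadPair q g i j) (f : MvPolynomial κ ℂ) :
    ∃ (N : ℕ) (f₀ c : MvPolynomial κ ℂ), degreeOf i f₀ = 0 ∧
      X j ^ N * f = f₀ + c * (X j * X i + g) := by
  have hg0 : degreeOf i g = 0 := degreeOf_zero_of h.gi
  induction f using MvPolynomial.induction_on with
  | C a => exact ⟨0, C a, 0, degreeOf_C _ _, by ring⟩
  | add p r hp hr =>
    obtain ⟨N, p0, c, hp0, hpc⟩ := hp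
    obtain ⟨M, r0, d, hr0, hrd⟩ := hr
    refine ⟨N + M, X j ^ M * p0 + X j ^ N * r0, X j ^ M * c + X j ^ N * d, ?_, ?_⟩
    · have e1 := degreeOf_mul_le i (X j ^ M) p0
      have e2 := degreeOf_mul_le i (X j ^ N) r0
      rw [degreeOf_X_pow_ne h.ne, hp0] at e1
      rw [degreeOf_X_pow_ne h.ne, hr0] at e2
      have e3 := degreeOf_add_le i (X j ^ M * p0) (X j ^ N * r0)
      omega
    · linear_combination X j ^ M * hpc + X j ^ N * hrd
  | mul_X p k hp =>
    obtain ⟨N, p0, c, hp0, hpc⟩ := hp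
    by_cases hk : k = i
    · subst hk
      refine ⟨N + 1, - (p0 * g), p0 + c * (X j * X k), ?_, ?_⟩
      · rw [degreeOf_neg]
        have e1 := degreeOf_mul_le k p0 g
        omega
      · linear_combination (X j * X k) * hpc
    · refine ⟨N, p0 * X k, c * X k, ?_, ?_⟩
      · rw [degreeOf_mul_X_of_ne _ (Ne.symm hk)]; exact hp0
      · linear_combination X k * hpc

theorem QuadPair.degree_q2 (h : QuadPair q g i j) : degreeOf i (X j * X i + g) ≠ 0 := by
  intro h0
  have hg0 : degreeOf i g = 0 := degreeOf_zero_of h.gi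
  have h1 : degreeOf i (X j * X i : MvPolynomial κ ℂ) = degreeOf i (X j : MvPolynomial κ ℂ) + 1 :=
    (degreeOf_mul_X_eq_degreeOf_add_one_iff i _).mpr (X_ne_zero j)
  have h2 : (X j * X i : MvPolynomial κ ℂ) = (X j * X i + g) + (- g) := by ring
  have h3 := degreeOf_add_le i (X j * X i + g) (- g)
  rw [← h2, degreeOf_neg] at h3
  omega

/-- Elements of the ideal not involving `X i`. -/
theorem QuadPair.elim (h : QuadPair q g i j) (p : MvPolynomial κ ℂ)
    (hp : p ∈ Ideal.span {q, X j * X i + g}) (h0 : degreeOf i p = 0) : q ∣ p := by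
  have hq : Prime q := h.irr.prime
  rw [Ideal.mem_span_pair] at hp
  obtain ⟨a, b, hab⟩ := hp
  obtain ⟨N, a0, c, ha0, hac⟩ := h.red a
  have hq0 : degreeOf i q = 0 := degreeOf_zero_of h.qi
  have e : (c * q + X j ^ N * b) * (X j * X i + g) = X j ^ N * p + - (a0 * q) := by
    linear_combination X j ^ N * hab - q * hac
  have hb0 : c * q + X j ^ N * b = 0 := by
    by_contra hne
    have hq2 : X j * X i + g ≠ 0 := by
      intro h1
      apply h.degree_q2
      rw [h1, degreeOf_zero]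
    have e1 : degreeOf i ((c * q + X j ^ N * b) * (X j * X i + g)) =
        degreeOf i (c * q + X j ^ N * b) + degreeOf i (X j * X i + g) :=
      degreeOf_mul_eq hne hq2
    have e2 := degreeOf_add_le i (X j ^ N * p) (- (a0 * q))
    have e3 := degreeOf_mul_le i (X j ^ N) p
    have e4 := degreeOf_mul_le i a0 q
    rw [degreeOf_X_pow_ne h.ne] at e3
    rw [degreeOf_neg, ← e, e1] at e2
    have := h.degree_q2
    omega
  have h1 : q ∣ X j ^ N * p := by
    refine ⟨a0, ?_⟩
    rw [hb0, zero_mul] at e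
    linear_combination - e
  rcases hq.dvd_or_dvd h1 with h2 | h2
  · exact absurd (hq.dvd_of_dvd_pow h2) h.not_dvd'
  · exact h2

theorem QuadPair.isPrime (h : QuadPair q g i j) : (Ideal.span {q, X j * X i + g}).IsPrime := by
  have hq : Prime q := h.irr.prime
  constructor
  · intro htop
    have h1 : (1 : MvPolynomial κ ℂ) ∈ Ideal.span {q, X j * X i + g} := by rw [htop]; trivial
    have h2 := h.elim 1 h1 (by rw [← C_1]; exact degreeOf_C _ _)
    exact h.irr.not_isUnit (isUnit_of_dvd_one h2)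
  · intro f r hfr
    obtain ⟨N, f0, c, hf0, hfc⟩ := h.red f
    obtain ⟨M, r0, d, hr0, hrd⟩ := h.red r
    have hm : X j * X i + g ∈ Ideal.span {q, X j * X i + g} :=
      Ideal.subset_span (by simp)
    have hm' : q ∈ Ideal.span {q, X j * X i + g} :=
      Ideal.subset_span (by simp)
    have h1 : f0 * r0 ∈ Ideal.span {q, X j * X i + g} := by
      have e : f0 * r0 = X j ^ N * X j ^ M * (f * r) -
          (c * (X j ^ M * r) + d * f0) * (X j * X i + g) := by
        linear_combination - (X j ^ M * r) * hfc - f0 * hrd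
      rw [e]
      exact Ideal.sub_mem _ (Ideal.mul_mem_left _ _ hfr) (Ideal.mul_mem_left _ _ hm)
    have h2 : q ∣ f0 * r0 := by
      apply h.elim _ h1
      have := degreeOf_mul_le i f0 r0
      omega
    rcases hq.dvd_or_dvd h2 with ⟨k, hk⟩ | ⟨k, hk⟩
    · left
      apply h.sat_pow f N
      rw [hfc, hk]
      exact Ideal.add_mem _ (Ideal.mul_mem_right _ _ hm') (Ideal.mul_mem_left _ _ hm)
    · right
      apply h.sat_pow r M
      rw [hrd, hk]
      exact Ideal.add_mem _ (Ideal.mul_mem_right _ _ hm') (Ideal.mul_mem_left _ _ hm)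

theorem QuadPair.isWeaklyRegular (h : QuadPair q g i j) :
    RingTheory.Sequence.IsWeaklyRegular (MvPolynomial κ ℂ) [q, X j * X i + g] := by
  have hq : Prime q := h.irr.prime
  rw [RingTheory.Sequence.isWeaklyRegular_cons_iff,
    RingTheory.Sequence.isWeaklyRegular_singleton_iff]
  refine ⟨IsSMulRegular.of_ne_zero hq.ne_zero, ?_⟩
  have hmem : ∀ x : MvPolynomial κ ℂ,
      x ∈ (q • ⊤ : Submodule (MvPolynomial κ ℂ) (MvPolynomial κ ℂ)) ↔ q ∣ x := by
    intro x
    rw [Submodule.mem_smul_pointwise_iff_exists]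
    constructor
    · rintro ⟨b, _, rfl⟩; exact ⟨b, rfl⟩
    · rintro ⟨b, rfl⟩; exact ⟨b, trivial, rfl⟩
  show IsSMulRegular (MvPolynomial κ ℂ ⧸ (q • ⊤ : Submodule (MvPolynomial κ ℂ)
    (MvPolynomial κ ℂ))) _
  rw [isSMulRegular_on_quot_iff_lsmul_comap_le]
  intro x hx
  rw [Submodule.mem_comap, LinearMap.lsmul_apply, hmem, smul_eq_mul] at hx
  rw [hmem]
  exact (hq.dvd_or_dvd hx).resolve_left h.not_dvd_q2

end two

/-- Zariski dense subsets of the irreducible complete intersection `q = X j * X i + g = 0`. -/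
theorem gorSet_pair (hCI : CIGorensteinPoly) {κ : Type} [Finite κ] (S' : Set (κ → ℂ))
    (q g h : MvPolynomial κ ℂ) (i j : κ) (hp : QuadPair q g i j)
    (h1 : ∀ y ∈ S', eval y q = 0 ∧ y j * y i + eval y g = 0)
    (h2 : ∀ y, eval y q = 0 → y j * y i + eval y g = 0 → eval y h ≠ 0 → y ∈ S')
    (h3 : ∃ y, eval y q = 0 ∧ y j * y i + eval y g = 0 ∧ eval y h ≠ 0) : GorSet S' := by
  have hl : Ideal.ofList [q, X j * X i + g] = Ideal.span {q, X j * X i + g} := by
    rw [Ideal.ofList_cons, Ideal.ofList_singleton, ← Ideal.span_union]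
    rfl
  refine gorSet_of_vanishingIdeal hCI S' [q, X j * X i + g] hp.isWeaklyRegular ?_
  rw [hl]
  have hmem : ∀ y, (eval y q = 0 ∧ y j * y i + eval y g = 0) ↔
      ∀ P ∈ Ideal.span {q, X j * X i + g}, eval y P = 0 := by
    intro y
    constructor
    · rintro ⟨hy, hy'⟩ P hP
      obtain ⟨a, b, rfl⟩ := Ideal.mem_span_pair.mp hP
      simp only [map_add, map_mul, eval_X]
      rw [hy, hy', mul_zero, mul_zero, add_zero]
    · intro hy
      refine ⟨hy q (Ideal.subset_span (by simp)), ?_⟩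
      have := hy (X j * X i + g) (Ideal.subset_span (by simp))
      simpa using this
  refine vanishingIdeal_eq_of_prime _ hp.isPrime S' h (fun y hy => (hmem y).mp (h1 y hy))
    (fun y hy => h2 y ((hmem y).mpr hy).1 ((hmem y).mpr hy).2) ?_
  intro hh
  obtain ⟨y, hy, hy', hy''⟩ := h3
  exact hy'' ((hmem y).mp ⟨hy, hy'⟩ h hh)

/-- Zariski dense subsets of `B × {y_{j₁} y_{i₁} + g₁(y) = y_{j₂} y_{i₂} + g₂(y) = 0}`. -/
theorem gorSet_quad2 (hCI : CIGorensteinPoly) {τ : Type} (B : Type) [Finite B] [Finite τ]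
    (S' : Set (τ → ℂ)) (i1 j1 i2 j2 : τ) (g1 g2 h : MvPolynomial τ ℂ)
    (h11 : i1 ≠ j1) (hi1 : i1 ∉ g1.vars) (hg1 : ∃ y : τ → ℂ, y j1 = 0 ∧ eval y g1 ≠ 0)
    (h22 : i2 ≠ j2) (hi2 : i2 ∉ g2.vars)
    (h21 : i2 ≠ i1) (h21' : i2 ≠ j1) (h21'' : i2 ∉ g1.vars)
    (h31 : j2 ≠ i1) (h31' : j2 ≠ j1) (h31'' : j2 ∉ g1.vars)
    (hg2 : ∃ y : τ → ℂ, y j2 = 0 ∧ y j1 * y i1 + eval y g1 = 0 ∧ eval y g2 ≠ 0)
    (h1 : ∀ y ∈ S', y j1 * y i1 + eval y g1 = 0 ∧ y j2 * y i2 + eval y g2 = 0)
    (h2 : ∀ y, y j1 * y i1 + eval y g1 = 0 → y j2 * y i2 + eval y g2 = 0 → eval y h ≠ 0 → y ∈ S')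
    (h3 : ∃ y, y j1 * y i1 + eval y g1 = 0 ∧ y j2 * y i2 + eval y g2 = 0 ∧ eval y h ≠ 0) :
    GorSet (cyl B S') := by
  classical
  have ev : ∀ z : B ⊕ τ → ℂ, eval z (X (Sum.inr j1) * X (Sum.inr i1) + rename Sum.inr g1) =
      z (Sum.inr j1) * z (Sum.inr i1) + eval (fun k => z (Sum.inr k)) g1 := by
    intro z
    rw [map_add, map_mul, eval_X, eval_X, eval_rename]
    rfl
  have hren : ∀ (k : τ) (g : MvPolynomial τ ℂ), k ∉ g.vars →
      (Sum.inr k : B ⊕ τ) ∉ (rename Sum.inr g).vars := by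
    intro k g hk hmem
    obtain ⟨x, hx, hx'⟩ := Finset.mem_image.mp (vars_rename _ _ hmem)
    rw [Sum.inr_injective hx'] at hx
    exact hk hx
  have hvars : ∀ k : τ, k ≠ i1 → k ≠ j1 → k ∉ g1.vars →
      (Sum.inr k : B ⊕ τ) ∉ (X (Sum.inr j1) * X (Sum.inr i1) + rename Sum.inr g1 :
        MvPolynomial (B ⊕ τ) ℂ).vars := by
    intro k hk1 hk2 hk3 hmem
    rcases Finset.mem_union.mp (vars_add_subset _ _ hmem) with h4 | h4
    · rcases Finset.mem_union.mp (vars_mul _ _ h4) with h5 | h5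
      · rw [vars_X, Finset.mem_singleton] at h5
        exact hk2 (Sum.inr_injective h5)
      · rw [vars_X, Finset.mem_singleton] at h5
        exact hk1 (Sum.inr_injective h5)
    · exact hren k g1 hk3 h4
  refine gorSet_pair hCI (cyl B S') (X (Sum.inr j1) * X (Sum.inr i1) + rename Sum.inr g1)
    (rename Sum.inr g2) (rename Sum.inr h) (Sum.inr i2) (Sum.inr j2) ?_ ?_ ?_ ?_
  · refine ⟨?_, ?_, hren i2 g2 hi2, hvars i2 h21 h21' h21'', hvars j2 h31 h31' h31'', ?_⟩
    · refine irreducible_quad _ _ _ ?_ (hren i1 g1 hi1) ?_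
      · exact fun h => h11 (Sum.inr_injective h)
      · obtain ⟨y, hy, hgy⟩ := hg1
        refine ⟨Sum.elim (fun _ => 0) y, hy, ?_⟩
        rwa [eval_rename]
    · exact fun h => h22 (Sum.inr_injective h)
    · obtain ⟨y, hy, hy', hy''⟩ := hg2
      refine ⟨Sum.elim (fun _ => 0) y, hy, ?_, ?_⟩
      · rw [ev]
        exact hy'
      · rw [eval_rename]; exact hy''
  · intro z hz
    rw [ev, eval_rename]
    exact h1 _ hz
  · intro z hz hz' hz''
    rw [ev] at hz
    rw [eval_rename] at hz' hz''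
    exact h2 _ hz hz' hz''
  · obtain ⟨y, hy, hy', hy''⟩ := h3
    refine ⟨Sum.elim (fun _ => 0) y, ?_, ?_, ?_⟩
    · rw [ev]; exact hy
    · rw [eval_rename]; exact hy'
    · rw [eval_rename]; exact hy''

end ClanGor
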