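import Pool.Agent.ClanGor.Models

/-!
# MP_fae1d7_ag: explicit coordinates on the sets `rcSet`

`nrm s t Y` is the pair `(r,c)` normalised at `s < t` with free coordinates `Y`.
-/

namespace ClanGor

open MvPolynomial

variable {n : ℕ}

/-- The normalised pair `(r,c)` with free coordinates `Y` (`Y` should vanish at the coordinates which
are not free). -/
def nrm {A : Type*} [CommRing A] (s t : Fin n) (Y : RC n → A) : RC n → A
  | Sum.inl (e, j) => Y (Sum.inl (e, j)) + (if (e = 0 ∧ j = s) ∨ (e = 1 ∧ j = t) then 1 else 0)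
  | Sum.inr (e, k) => Y (Sum.inr (e, k)) + (if (e = 0 ∧ k = s) ∨ (e = 1 ∧ k = t) then 1 else 0) -
      (if e = 0 ∧ k = t then ∑ k', Y (Sum.inl (1, k')) * Y (Sum.inr (0, k')) else 0)

/-- The coordinates of `(r,c)` which may be free. -/
def MayFree (s t : Fin n) : RC n → Prop
  | Sum.inl (e, j) => if e = 0 then j < s else j < t ∧ j ≠ s
  | Sum.inr (e, k) => if e = 0 then s < k ∧ k ≠ t else t < k

section nrm_apply

variable {A : Type*} [CommRing A] {s t : Fin n} {Y : RC n → A}

theorem nrm_r0 (j : Fin n) :
    nrm s t Y (Sum.inl (0, j)) = Y (Sum.inl (0, j)) + (if j = s then 1 else 0) := by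
  simp [nrm]

theorem nrm_r1 (j : Fin n) :
    nrm s t Y (Sum.inl (1, j)) = Y (Sum.inl (1, j)) + (if j = t then 1 else 0) := by
  simp [nrm]

theorem nrm_c0 (k : Fin n) :
    nrm s t Y (Sum.inr (0, k)) = Y (Sum.inr (0, k)) + (if k = s then 1 else 0) -
      (if k = t then ∑ k', Y (Sum.inl (1, k')) * Y (Sum.inr (0, k')) else 0) := by
  simp [nrm]

theorem nrm_c1 (k : Fin n) :
    nrm s t Y (Sum.inr (1, k)) = Y (Sum.inr (1, k)) + (if k = t then 1 else 0) := by
  simp [nrm]

theorem map_nrm {A' : Type*} [CommRing A'] (f : A →+* A') (x : RC n) :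
    f (nrm s t Y x) = nrm s t (fun x => f (Y x)) x := by
  rcases x with ⟨e, j⟩ | ⟨e, k⟩
  · simp only [nrm, map_add]
    congr 1
    split_ifs <;> simp
  · simp only [nrm, map_add, map_sub]
    congr 1
    · congr 1
      split_ifs <;> simp
    · split_ifs <;> simp [map_sum]

end nrm_apply

/-- `nrm` produces normalised pairs. -/
theorem rcNorm_nrm {s t : Fin n} (hst : s < t) (Y : RC n → ℂ)
    (hY : ∀ x, ¬ MayFree s t x → Y x = 0) :
    RCNorm s t (rMat (nrm s t Y)) (cMat (nrm s t Y)) := by
  have h0 : ∀ j, ¬ j < s → Y (Sum.inl (0, j)) = 0 := fun j hj => hY _ (by simpa [MayFree] using hj)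
  have h1 : ∀ j, ¬ (j < t ∧ j ≠ s) → Y (Sum.inl (1, j)) = 0 :=
    fun j hj => hY _ (by simpa [MayFree] using hj)
  have h2 : ∀ k, ¬ (s < k ∧ k ≠ t) → Y (Sum.inr (0, k)) = 0 :=
    fun k hk => hY _ (by simpa [MayFree] using hk)
  have h3 : ∀ k, ¬ t < k → Y (Sum.inr (1, k)) = 0 := fun k hk => hY _ (by simpa [MayFree] using hk)
  constructor
  · simp only [rMat, nrm_r0, if_true, h0 s (lt_irrefl _), zero_add]
  · intro j hj
    simp only [rMat, nrm_r0, if_neg hj.ne', h0 j (not_lt.mpr hj.le), add_zero]
  · simp only [rMat, nrm_r1, if_neg hst.ne, h1 s (by simp), add_zero]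
  · simp only [rMat, nrm_r1, if_true, h1 t (by simp), zero_add]
  · intro j hj
    simp only [rMat, nrm_r1, if_neg hj.ne', h1 j (by simp [hj.le]), add_zero]
  · simp only [cMat, nrm_c0, if_true, if_neg hst.ne, h2 s (by simp), zero_add, sub_zero]
  · intro k hk
    simp only [cMat, nrm_c0, if_neg hk.ne, if_neg (hk.trans hst).ne, h2 k (by simp [hk.le]),
      add_zero, sub_zero]
  · simp only [cMat, nrm_c1, if_true, h3 t (lt_irrefl _), zero_add]
  · intro k hk
    simp only [cMat, nrm_c1, if_neg hk.ne, h3 k (not_lt.mpr hk.le), add_zero]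
  · simp only [rMat, cMat, nrm_r1, nrm_c0]
    set T := ∑ k', Y (Sum.inl (1, k')) * Y (Sum.inr (0, k')) with hT
    have e : ∀ k, (Y (Sum.inl (1, k)) + (if k = t then 1 else 0)) *
        (Y (Sum.inr (0, k)) + (if k = s then 1 else 0) - (if k = t then T else 0)) =
        Y (Sum.inl (1, k)) * Y (Sum.inr (0, k)) + (if k = t then -T else 0) := by
      intro k
      by_cases hkt : k = t
      · subst hkt
        rw [h1 k (by simp), h2 k (by simp)]
        simp [hst.ne']
      · by_cases hks : k = s
        · subst hks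
          rw [h1 k (by simp), h2 k (by simp)]
          simp [hst.ne]
        · simp [hkt, hks]
    rw [Finset.sum_congr rfl fun k _ => e k, Finset.sum_add_distrib, ← hT]
    simp

/-- A normalised pair is recovered from its free coordinates. -/
theorem nrm_eq_of_norm {s t : Fin n} (v : RC n → ℂ)
    (hv : RCNorm s t (rMat v) (cMat v)) (Y : RC n → ℂ)
    (hY : ∀ x, MayFree s t x → Y x = v x) (hY' : ∀ x, ¬ MayFree s t x → Y x = 0) (hst : s < t) :
    nrm s t Y = v := by
  have g0 : ∀ j, j < s → Y (Sum.inl (0, j)) = v (Sum.inl (0, j)) :=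
    fun j hj => hY _ (by simpa [MayFree] using hj)
  have g1 : ∀ j, (j < t ∧ j ≠ s) → Y (Sum.inl (1, j)) = v (Sum.inl (1, j)) :=
    fun j hj => hY _ (by simpa [MayFree] using hj)
  have g2 : ∀ k, (s < k ∧ k ≠ t) → Y (Sum.inr (0, k)) = v (Sum.inr (0, k)) :=
    fun k hk => hY _ (by simpa [MayFree] using hk)
  have g3 : ∀ k, t < k → Y (Sum.inr (1, k)) = v (Sum.inr (1, k)) :=
    fun k hk => hY _ (by simpa [MayFree] using hk)
  have h0 : ∀ j, ¬ j < s → Y (Sum.inl (0, j)) = 0 :=
    fun j hj => hY' _ (by simpa [MayFree] using hj)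
  have h1 : ∀ j, ¬ (j < t ∧ j ≠ s) → Y (Sum.inl (1, j)) = 0 :=
    fun j hj => hY' _ (by simpa [MayFree] using hj)
  have h2 : ∀ k, ¬ (s < k ∧ k ≠ t) → Y (Sum.inr (0, k)) = 0 :=
    fun k hk => hY' _ (by simpa [MayFree] using hk)
  have h3 : ∀ k, ¬ t < k → Y (Sum.inr (1, k)) = 0 :=
    fun k hk => hY' _ (by simpa [MayFree] using hk)
  have e0 : ∀ j, nrm s t Y (Sum.inl (0, j)) = v (Sum.inl (0, j)) := by
    intro j
    rw [nrm_r0]
    rcases lt_trichotomy j s with h | h | h
    · rw [g0 j h, if_neg h.ne, add_zero]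
    · subst h
      rw [h0 j (lt_irrefl _), if_pos rfl, zero_add]
      exact hv.r0s.symm
    · rw [h0 j (not_lt.mpr h.le), if_neg h.ne', add_zero]
      exact (hv.r0 j h).symm
  have e1 : ∀ j, nrm s t Y (Sum.inl (1, j)) = v (Sum.inl (1, j)) := by
    intro j
    rw [nrm_r1]
    by_cases hjs : j = s
    · subst hjs
      rw [h1 j (by simp), if_neg hst.ne, add_zero]
      exact hv.r1s.symm
    rcases lt_trichotomy j t with h | h | h
    · rw [g1 j ⟨h, hjs⟩, if_neg h.ne, add_zero]
    · subst h
      rw [h1 j (by simp), if_pos rfl, zero_add]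
      exact hv.r1t.symm
    · rw [h1 j (by simp [h.le]), if_neg h.ne', add_zero]
      exact (hv.r1 j h).symm
  have e3 : ∀ k, nrm s t Y (Sum.inr (1, k)) = v (Sum.inr (1, k)) := by
    intro k
    rw [nrm_c1]
    rcases lt_trichotomy k t with h | h | h
    · rw [h3 k (not_lt.mpr h.le), if_neg h.ne, add_zero]
      exact (hv.c1 k h).symm
    · subst h
      rw [h3 k (lt_irrefl _), if_pos rfl, zero_add]
      exact hv.c1t.symm
    · rw [g3 k h, if_neg h.ne', add_zero]
  have e2 : ∀ k, nrm s t Y (Sum.inr (0, k)) = v (Sum.inr (0, k)) := by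
    intro k
    rw [nrm_c0]
    by_cases hkt : k = t
    · subst hkt
      rw [h2 k (by simp), if_neg hst.ne', if_pos rfl, add_zero, zero_sub]
      have hrel := hv.rel
      simp only [rMat, cMat] at hrel
      have e : ∀ k', v (Sum.inl (1, k')) * v (Sum.inr (0, k')) =
          Y (Sum.inl (1, k')) * Y (Sum.inr (0, k')) +
            (if k' = k then v (Sum.inr (0, k)) else 0) := by
        intro k'
        by_cases h4 : k' = k
        · subst h4
          rw [h1 k' (by simp), if_pos rfl]
          have := hv.r1t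
          simp only [rMat] at this
          rw [this]; ring
        · rw [if_neg h4, add_zero]
          by_cases h5 : k' = s
          · subst h5
            have := hv.r1s
            simp only [rMat] at this
            rw [this, h1 k' (by simp)]; ring
          · rcases lt_or_gt_of_ne h4 with h6 | h6
            · rw [g1 k' ⟨h6, h5⟩]
              rcases lt_or_gt_of_ne h5 with h7 | h7
              · have := hv.c0 k' h7
                simp only [cMat] at this
                rw [this, h2 k' (by simp [h7.le])]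
              · rw [g2 k' ⟨h7, h4⟩]
            · have := hv.r1 k' h6
              simp only [rMat] at this
              rw [this, h1 k' (by simp [h6.le])]; ring
      rw [Finset.sum_congr rfl fun k' _ => e k', Finset.sum_add_distrib] at hrel
      simp only [Finset.sum_ite_eq', Finset.mem_univ, if_true] at hrel
      linear_combination -hrel
    · rw [if_neg hkt, sub_zero]
      rcases lt_trichotomy k s with h | h | h
      · rw [h2 k (by simp [h.le]), if_neg h.ne, add_zero]
        exact (hv.c0 k h).symm
      · subst h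
        rw [h2 k (by simp), if_pos rfl, zero_add]
        exact hv.c0s.symm
      · rw [g2 k ⟨h, hkt⟩, if_neg h.ne', add_zero]
  funext x
  rcases x with ⟨e, j⟩ | ⟨e, k⟩
  · fin_cases e
    · exact e0 j
    · exact e1 j
  · fin_cases e
    · exact e2 k
    · exact e3 k

/-- Extension by zero of a function on the free coordinates. -/
def ext0 {A : Type*} [Zero A] (free : RC n → Prop) [DecidablePred free]
    (y : {x : RC n // free x} → A) : RC n → A :=
  fun x => if h : free x then y ⟨x, h⟩ else 0

/-- the polynomials giving `nrm` -/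
noncomputable def phi (s t : Fin n) (free : RC n → Prop) [DecidablePred free] (x : RC n) :
    MvPolynomial {x : RC n // free x} ℂ :=
  nrm s t (ext0 free X) x

theorem eval_phi (s t : Fin n) (free : RC n → Prop) [DecidablePred free]
    (y : {x : RC n // free x} → ℂ) (x : RC n) :
    eval y (phi s t free x) = nrm s t (ext0 free y) x := by
  rw [phi, map_nrm]
  congr 1
  funext x
  unfold ext0
  split_ifs with h
  · rw [eval_X]
  · rw [map_zero]

/-- Elimination of the coordinates which are not free. -/
theorem polyIso_nrm (B : Type) (s t : Fin n) (hst : s < t) (S : Set (RC n → ℂ))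
    (free : RC n → Prop) [DecidablePred free] (hfree : ∀ x, free x → MayFree s t x)
    (hS : ∀ v ∈ S, RCNorm s t (rMat v) (cMat v) ∧ ∀ x, MayFree s t x → ¬ free x → v x = 0) :
    PolyIso (cyl B S)
      (cyl B {y : {x : RC n // free x} → ℂ | nrm s t (ext0 free y) ∈ S}) := by
  have key := polyIso_cyl_elim B S (phi s t free) (fun x : {x : RC n // free x} => x.1) ?_ ?_
  · convert key using 3
    ext y
    simp only [eval_phi]
  · rintro ⟨x, hx⟩
    have hm := hfree x hx
    have e : ext0 free (X : {x : RC n // free x} → MvPolynomial {x : RC n // free x} ℂ) x =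
        X ⟨x, hx⟩ := by
      unfold ext0; rw [dif_pos hx]
    simp only [phi]
    rcases x with ⟨a, j⟩ | ⟨a, k⟩
    · fin_cases a
      · simp only [MayFree, Fin.zero_eta, if_true] at hm
        change nrm s t _ (Sum.inl (0, j)) = _
        rw [nrm_r0, if_neg hm.ne, add_zero]; exact e
      · simp [MayFree] at hm
        change nrm s t _ (Sum.inl (1, j)) = _
        rw [nrm_r1, if_neg hm.1.ne, add_zero]; exact e
    · fin_cases a
      · simp [MayFree] at hm
        change nrm s t _ (Sum.inr (0, k)) = _
        rw [nrm_c0, if_neg hm.1.ne', if_neg hm.2, add_zero, sub_zero]; exact e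
      · simp [MayFree] at hm
        change nrm s t _ (Sum.inr (1, k)) = _
        rw [nrm_c1, if_neg hm.ne', add_zero]; exact e
  · intro v hv i
    obtain ⟨h1, h2⟩ := hS v hv
    rw [eval_phi]
    refine congrFun (nrm_eq_of_norm v h1 _ ?_ ?_ hst) i
    · intro x hx
      unfold ext0
      split_ifs with h
      · rfl
      · exact (h2 x hx h).symm
    · intro x hx
      unfold ext0
      rw [dif_neg fun h => hx (hfree x h)]

theorem ext0_of_not {A : Type*} [Zero A] {free : RC n → Prop} [DecidablePred free]
    {y : {x : RC n // free x} → A} {x : RC n} (h : ¬ free x) : ext0 free y x = 0 := by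
  unfold ext0; rw [dif_neg h]

theorem ext0_of {A : Type*} [Zero A] {free : RC n → Prop} [DecidablePred free]
    {y : {x : RC n // free x} → A} {x : RC n} (h : free x) : ext0 free y x = y ⟨x, h⟩ := by
  unfold ext0; rw [dif_pos h]

theorem ext0_restrict {A : Type*} [Zero A] {free : RC n → Prop} [DecidablePred free]
    (Y : RC n → A) (x : RC n) :
    ext0 free (fun z => Y z.1) x = if free x then Y x else 0 := by
  unfold ext0; split_ifs <;> rfl

end ClanGor
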