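import Pool.Agent.ClanGor.Defs

/-!
# MP_fae1d7_ag: statements of the modules (all as `Prop` definitions, nothing is assumed)
-/

namespace ClanGor

open MvPolynomial

/-! ### Commutative algebra -/

/-- (G1) The socle of `R/(rs)` being simple does not depend on the regular sequence of given
length. -/
def SocleIndep : Prop :=
  ∀ (R : Type) [CommRing R] [IsLocalRing R] [IsNoetherianRing R] (rs rs' : List R),
    (∀ r ∈ rs, r ∈ IsLocalRing.maximalIdeal R) → (∀ r ∈ rs', r ∈ IsLocalRing.maximalIdeal R) →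
    RingTheory.Sequence.IsRegular R rs → RingTheory.Sequence.IsRegular R rs' →
    rs.length = rs'.length →
    IsSimpleModule R (socle R (Ideal.ofList rs)) → IsSimpleModule R (socle R (Ideal.ofList rs'))

/-- (G2) A complete intersection in a regular local ring is a Gorenstein local ring. -/
def CIGorenstein : Prop :=
  ∀ (R : Type) [CommRing R] [IsRegularLocalRing R] (qs : List R),
    (∀ q ∈ qs, q ∈ IsLocalRing.maximalIdeal R) → RingTheory.Sequence.IsRegular R qs →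
    IsGorensteinLocal (R ⧸ Ideal.ofList qs)

/-- (G3) All local rings of `ℂ[τ]/(q₁,…,q_r)`, `q` weakly regular, are Gorenstein. -/
def CIGorensteinPoly : Prop :=
  ∀ (τ : Type) [Finite τ] (qs : List (MvPolynomial τ ℂ)),
    RingTheory.Sequence.IsWeaklyRegular (MvPolynomial τ ℂ) qs →
    ∀ (P : Ideal (MvPolynomial τ ℂ ⧸ Ideal.ofList qs)) [P.IsPrime],
      IsGorensteinLocal (Localization.AtPrime P)

/-- The cone over `ℙ¹ × ℙ^{m-1}` (`2 × m` matrices of rank at most one), times the affine space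
`ℂ^τ`. -/
def segreSet (τ : Type) (m : ℕ) : Set (τ ⊕ Fin 2 × Fin m → ℂ) :=
  {z | ∃ (l : Fin 2 → ℂ) (s : Fin m → ℂ), ∀ a j, z (Sum.inr (a, j)) = l a * s j}

/-- (G4) For `m ≥ 3` this variety is not Gorenstein (at the origin). -/
def SegreNotGor : Prop :=
  ∀ (τ : Type) [Finite τ] (m : ℕ), 3 ≤ m → ¬ GorSet (segreSet τ m)

/-! ### Polynomially isomorphic sets -/

/-- `S` and `S'` are isomorphic by polynomial maps (defined on the whole affine spaces, inverse to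
each other on `S` and `S'`). -/
def PolyIso {σ τ : Type} (S : Set (σ → ℂ)) (S' : Set (τ → ℂ)) : Prop :=
  ∃ (f : τ → MvPolynomial σ ℂ) (g : σ → MvPolynomial τ ℂ),
    (∀ u ∈ S, (fun j => eval u (f j)) ∈ S') ∧ (∀ z ∈ S', (fun i => eval z (g i)) ∈ S) ∧
    (∀ u ∈ S, ∀ i, eval (fun j => eval u (f j)) (g i) = u i) ∧
    (∀ z ∈ S', ∀ j, eval (fun i => eval z (g i)) (f j) = z j)

/-- (P0) Gorensteinness only depends on the set up to polynomial isomorphism. -/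
def PolyIsoGor : Prop :=
  ∀ (σ τ : Type) [Finite σ] [Finite τ] (S : Set (σ → ℂ)) (S' : Set (τ → ℂ)),
    PolyIso S S' → (GorSet S ↔ GorSet S')

/-- `ℂ^B × S`. -/
def cyl {σ : Type} (B : Type) (S : Set (σ → ℂ)) : Set (B ⊕ σ → ℂ) :=
  {z | (fun i => z (Sum.inr i)) ∈ S}

/-! ### The sets of pairs `(r, c)` -/

/-- Index set of the entries of a `2 × n` matrix `r` and an `n × 2` matrix `c` (given by its two
columns). -/
abbrev RC (n : ℕ) : Type := (Fin 2 × Fin n) ⊕ (Fin 2 × Fin n)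

/-- the matrix `r` -/
def rMat {n : ℕ} (v : RC n → ℂ) : Matrix (Fin 2) (Fin n) ℂ := fun a j => v (Sum.inl (a, j))

/-- the matrix `c` -/
def cMat {n : ℕ} (v : RC n → ℂ) : Matrix (Fin n) (Fin 2) ℂ := fun k a => v (Sum.inr (a, k))

/-- The normalisation of `(r,c)` in the chart with positions `s < t`: row `0` of `r` ends with a
`1` at position `s`, row `1` of `r` ends with a `1` at position `t` and has a `0` at position `s`,
column `0` of `c` starts with a `1` at position `s`, column `1` of `c` starts with a `1` at position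
`t`, and `r c = 1`, i.e. `∑ r₁ₖ cₖ₀ = 0`. -/
structure RCNorm {n : ℕ} (s t : Fin n) (r : Matrix (Fin 2) (Fin n) ℂ)
    (c : Matrix (Fin n) (Fin 2) ℂ) : Prop where
  r0s : r 0 s = 1
  r0 : ∀ j, s < j → r 0 j = 0
  r1s : r 1 s = 0
  r1t : r 1 t = 1
  r1 : ∀ j, t < j → r 1 j = 0
  c0s : c s 0 = 1
  c0 : ∀ k, k < s → c k 0 = 0
  c1t : c t 1 = 1
  c1 : ∀ k, k < t → c k 1 = 0
  rel : ∑ k, r 1 k * c k 0 = 0

/-- The rank conditions defining `Q_γ`, in terms of the positions `a₁ < a₂` (where `dim ρ(F_i)`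
jumps) and `b₁ < b₂` (where `dim (F_j ∩ E')` jumps) and of the type (`linked = true`:
`1212`, `1122`, …; `linked = false`: `1221`, `1-1`). -/
structure PosCond {n : ℕ} (linked : Bool) (a₁ a₂ b₁ b₂ : Fin n) (r : Matrix (Fin 2) (Fin n) ℂ)
    (c : Matrix (Fin n) (Fin 2) ℂ) : Prop where
  rzero : ∀ j, j < a₁ → ∀ a, r a j = 0
  rline : ∀ j, j < a₂ → r 0 j * r 1 a₁ = r 0 a₁ * r 1 j
  rdet : r 0 a₁ * r 1 a₂ - r 0 a₂ * r 1 a₁ ≠ 0
  czero : ∀ k, b₂ < k → ∀ a, c k a = 0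
  cline : ∀ k, b₁ < k → c k 0 * c b₂ 1 = c b₂ 0 * c k 1
  cdet : c b₁ 0 * c b₂ 1 - c b₂ 0 * c b₁ 1 ≠ 0
  link : linked = true → c b₂ 0 * r 0 a₁ + c b₂ 1 * r 1 a₁ = 0
  nest : linked = false → c b₂ 0 * r 0 a₁ + c b₂ 1 * r 1 a₁ ≠ 0

/-- The set of `(r,c)` normalised at `s < t` and satisfying the rank conditions. -/
def rcSet {n : ℕ} (linked : Bool) (a₁ a₂ b₁ b₂ s t : Fin n) : Set (RC n → ℂ) :=
  {v | RCNorm s t (rMat v) (cMat v) ∧ PosCond linked a₁ a₂ b₁ b₂ (rMat v) (cMat v)}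

/-! ### Charts -/

/-- (C1) Coordinates on a chart: for every condition `Φ` on `(r, c)` invariant under `GL₂`, the set
of `u ∈ N⁻` such that `Φ` holds for `r` = rows `s, t` of `u` and `c` = columns `s, t` of `u⁻¹`
is polynomially isomorphic to (affine space) × {normalised `(r,c)` with `Φ`}. -/
def ChartCoords : Prop :=
  ∀ (n : ℕ) (s t : Fin n), s < t →
    ∃ B : Type, Finite B ∧
      ∀ Φ : Matrix (Fin 2) (Fin n) ℂ → Matrix (Fin n) (Fin 2) ℂ → Prop,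
        (∀ (r : Matrix (Fin 2) (Fin n) ℂ) (c : Matrix (Fin n) (Fin 2) ℂ)
          (k : Matrix (Fin 2) (Fin 2) ℂ), IsUnit k.det → Φ r c → Φ (k * r) (c * k⁻¹)) →
        PolyIso
          {u : Low n → ℂ | Φ ((unip u).submatrix ![s, t] id) ((unip u)⁻¹.submatrix id ![s, t])}
          (cyl B {v : RC n → ℂ | RCNorm s t (rMat v) (cMat v) ∧ Φ (rMat v) (cMat v)})

/-- The rank conditions for `(r,c)` given by a clan. -/
structure RankCond {n : ℕ} (cl : Fin n → Letter) (r : Matrix (Fin 2) (Fin n) ℂ)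
    (c : Matrix (Fin n) (Fin 2) ℂ) : Prop where
  r_rank : ∀ i ≤ n, (r.submatrix id (fun a : {a : Fin n // a.val < i} => a.1)).rank +
    gPlus cl i = i
  c_rank : ∀ i ≤ n, (c.submatrix (fun a : {a : Fin n // i ≤ a.val} => a.1) id).rank +
    gMinus cl i = 2
  rc_rank : ∀ i j, i < j → j ≤ n →
    (c.submatrix (fun a : {a : Fin n // j ≤ a.val} => a.1) id *
      r.submatrix id (fun a : {a : Fin n // a.val < i} => a.1)).rank = gPair cl i j

/-- (C2a) `InOrbit` in terms of ranks, for `g = w u`: `r` = last two rows of `g`, `c` = last two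
columns of `g⁻¹`. -/
def OrbitRank : Prop :=
  ∀ (p : ℕ) (cl : Fin (p + 2) → Letter) (g : Matrix (Fin (p + 2)) (Fin (p + 2)) ℂ),
    IsUnit g.det →
    (InOrbit p cl g ↔
      RankCond cl (g.submatrix ![Fin.natAdd p 0, Fin.natAdd p 1] id)
        (g⁻¹.submatrix id ![Fin.natAdd p 0, Fin.natAdd p 1]))

/-- Combinatorial data of a `(p,2)`-clan: the four positions and the type. -/
structure ClanData {n : ℕ} (cl : Fin n → Letter) (linked : Bool) (a₁ a₂ b₁ b₂ : Fin n) :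
    Prop where
  a_lt : a₁ < a₂
  b_lt : b₁ < b₂
  plus : ∀ x, x ≠ a₁ → x ≠ a₂ → x ≠ b₁ → x ≠ b₂ → cl x = Letter.plus
  /-- linked: `(a₁,b₁)` and `(a₂,b₂)` are equal-integer pairs or single minus signs -/
  link : linked = true →
    ((a₁ = b₁ ∧ cl a₁ = Letter.minus) ∨ IsPair cl a₁ b₁) ∧
    ((a₂ = b₂ ∧ cl a₂ = Letter.minus) ∨ IsPair cl a₂ b₂) ∧ a₂ ≠ b₁
  /-- nested: `(a₁,b₂)` is a pair and `(a₂,b₁)` is a pair or a minus sign inside it -/
  nest : linked = false → IsPair cl a₁ b₂ ∧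
    ((a₂ = b₁ ∧ cl a₂ = Letter.minus) ∨ IsPair cl a₂ b₁)
  /-- different pairs carry different integers -/
  diff : ∀ x y, IsPair cl x y →
    if linked = true then (x = a₁ ∧ y = b₁) ∨ (x = a₂ ∧ y = b₂)
    else (x = a₁ ∧ y = b₂) ∨ (x = a₂ ∧ y = b₁)

/-- (C3) Every `(p,2)`-clan has such data. -/
def ClanHasData : Prop :=
  ∀ (p : ℕ) (cl : Fin (p + 2) → Letter), IsClan p 2 cl →
    ∃ (linked : Bool) (a₁ a₂ b₁ b₂ : Fin (p + 2)), ClanData cl linked a₁ a₂ b₁ b₂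

/-- (C2b) Rank conditions in terms of positions (for `(r,c)` with `r c = 1`). -/
def RankPos : Prop :=
  ∀ (n : ℕ) (cl : Fin n → Letter) (linked : Bool) (a₁ a₂ b₁ b₂ : Fin n),
    ClanData cl linked a₁ a₂ b₁ b₂ →
    ∀ (r : Matrix (Fin 2) (Fin n) ℂ) (c : Matrix (Fin n) (Fin 2) ℂ), r * c = 1 →
      (RankCond cl r c ↔ PosCond linked a₁ a₂ b₁ b₂ r c)

/-- (C4) Pattern avoidance in terms of positions. -/
def AvoidPos : Prop :=
  ∀ (n : ℕ) (cl : Fin n → Letter) (linked : Bool) (a₁ a₂ b₁ b₂ : Fin n),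
    ClanData cl linked a₁ a₂ b₁ b₂ →
    (AvoidsAll cl ↔
      if linked = true then
        (a₂ < b₁ → a₂.val = a₁.val + 1 ∧ b₂.val = b₁.val + 1)
      else a₂.val ≤ a₁.val + 2 ∧ b₂.val ≤ b₁.val + 2)

/-! ### The local models -/

/-- (P1) linked, not `1212` -/
def ModelP1 : Prop :=
  ∀ (n : ℕ) (a₁ a₂ b₁ b₂ s t : Fin n) (B : Type) [Finite B],
    a₁ ≤ b₁ → b₁ < a₂ → a₂ ≤ b₂ → s < t → GorSet (cyl B (rcSet true a₁ a₂ b₁ b₂ s t))

/-- (P2) linked, `1212`, `a₂ = a₁ + 1`, `b₂ = b₁ + 1` -/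
def ModelP2 : Prop :=
  ∀ (n : ℕ) (a₁ a₂ b₁ b₂ s t : Fin n) (B : Type) [Finite B],
    a₂.val = a₁.val + 1 → a₂ < b₁ → b₂.val = b₁.val + 1 → s < t →
      GorSet (cyl B (rcSet true a₁ a₂ b₁ b₂ s t))

/-- (P3) nested, `a₂ ≤ a₁ + 2`, `b₂ ≤ b₁ + 2` -/
def ModelP3 : Prop :=
  ∀ (n : ℕ) (a₁ a₂ b₁ b₂ s t : Fin n) (B : Type) [Finite B],
    a₁ < a₂ → a₂ ≤ b₁ → b₁ < b₂ → a₂.val ≤ a₁.val + 2 → b₂.val ≤ b₁.val + 2 → s < t →
      GorSet (cyl B (rcSet false a₁ a₂ b₁ b₂ s t))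

/-- (N1) linked `1212` with `(a₂ - a₁) + (b₂ - b₁) ≥ 3`, chart `s = a₂`, `t = b₁` -/
def ModelN1 : Prop :=
  ∀ (n : ℕ) (a₁ a₂ b₁ b₂ : Fin n) (B : Type) [Finite B],
    a₁ < a₂ → a₂ < b₁ → b₁ < b₂ → 3 + a₁.val + b₁.val ≤ a₂.val + b₂.val →
      ¬ GorSet (cyl B (rcSet true a₁ a₂ b₁ b₂ a₂ b₁))

/-- (N2) nested with `b₂ - b₁ ≥ 3`, chart `s = a₁`, `t = b₁` -/
def ModelN2 : Prop :=
  ∀ (n : ℕ) (a₁ a₂ b₁ b₂ : Fin n) (B : Type) [Finite B],
    a₁ < a₂ → a₂ ≤ b₁ → b₁.val + 3 ≤ b₂.val →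
      ¬ GorSet (cyl B (rcSet false a₁ a₂ b₁ b₂ a₁ b₁))

/-- (N3) nested with `a₂ - a₁ ≥ 3`, chart `s = a₂`, `t = b₂` -/
def ModelN3 : Prop :=
  ∀ (n : ℕ) (a₁ a₂ b₁ b₂ : Fin n) (B : Type) [Finite B],
    a₁.val + 3 ≤ a₂.val → a₂ ≤ b₁ → b₁ < b₂ →
      ¬ GorSet (cyl B (rcSet false a₁ a₂ b₁ b₂ a₂ b₂))

end ClanGor
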