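import Pool.Agent.ClanGor.Stmts

/-!
# MP_fae1d7_ag: tools

* `isSimpleModule_socle_iff`: elementary form of the statement that the socle of `R/I` is simple;
* `IsGorensteinLocal.of_ringEquiv`, `gorRing_of_ringEquiv`;
* `polyIsoGor : PolyIsoGor`;
* `vanishingIdeal_eq_of_prime`: computation of vanishing ideals.
-/

namespace ClanGor

open MvPolynomial IsLocalRing

/-! ### Socle -/

theorem mem_socle_mk {R : Type*} [CommRing R] [IsLocalRing R] {I : Ideal R} {z : R} :
    (Ideal.Quotient.mk I z) ∈ socle R I ↔ ∀ a ∈ maximalIdeal R, a * z ∈ I := by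
  change (∀ a ∈ maximalIdeal R, a • (Ideal.Quotient.mk I z) = 0) ↔ _
  refine forall₂_congr fun a _ => ?_
  rw [← Ideal.Quotient.eq_zero_iff_mem, map_mul]
  rfl

theorem isSimpleModule_socle_iff {R : Type*} [CommRing R] [IsLocalRing R] {I : Ideal R} :
    IsSimpleModule R (socle R I) ↔
      ∃ z : R, z ∉ I ∧ (∀ a ∈ maximalIdeal R, a * z ∈ I) ∧
        ∀ z' : R, (∀ a ∈ maximalIdeal R, a * z' ∈ I) → ∃ r : R, z' - r * z ∈ I := by
  constructor
  · intro h
    rw [isSimpleModule_iff_toSpanSingleton_surjective] at h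
    obtain ⟨hnt, hs⟩ := h
    obtain ⟨x, hx⟩ := exists_ne (0 : socle R I)
    obtain ⟨x, hxm⟩ := x
    obtain ⟨z, rfl⟩ := Ideal.Quotient.mk_surjective x
    refine ⟨z, ?_, mem_socle_mk.mp hxm, ?_⟩
    · intro hz
      apply hx
      ext
      simpa using Ideal.Quotient.eq_zero_iff_mem.mpr hz
    · intro z' hz'
      obtain ⟨r, hr⟩ := hs _ hx ⟨Ideal.Quotient.mk I z', mem_socle_mk.mpr hz'⟩
      refine ⟨r, ?_⟩
      have h2 : r • (Ideal.Quotient.mk I z) = Ideal.Quotient.mk I z' := congrArg Subtype.val hr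
      rw [← Ideal.Quotient.eq_zero_iff_mem, map_sub, map_mul, ← h2]
      exact sub_self _
  · rintro ⟨z, hz, hzm, hs⟩
    rw [isSimpleModule_iff_toSpanSingleton_surjective]
    refine ⟨⟨⟨⟨Ideal.Quotient.mk I z, mem_socle_mk.mpr hzm⟩, 0, ?_⟩⟩, ?_⟩
    · intro h
      apply hz
      rw [← Ideal.Quotient.eq_zero_iff_mem]
      exact congrArg Subtype.val h
    · rintro ⟨x, hxm⟩ hx ⟨y, hym⟩
      obtain ⟨x', rfl⟩ := Ideal.Quotient.mk_surjective x
      obtain ⟨y', rfl⟩ := Ideal.Quotient.mk_surjective y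
      obtain ⟨r, hr⟩ := hs x' (mem_socle_mk.mp hxm)
      obtain ⟨r', hr'⟩ := hs y' (mem_socle_mk.mp hym)
      have hru : IsUnit r := by
        by_contra hu
        apply hx
        ext
        simp only [ZeroMemClass.coe_zero]
        rw [Ideal.Quotient.eq_zero_iff_mem]
        have h1 := hzm r (by rwa [mem_maximalIdeal, mem_nonunits_iff])
        have h2 := I.add_mem hr h1
        rwa [sub_add_cancel] at h2
      obtain ⟨v, hv⟩ := hru.exists_left_inv
      refine ⟨r' * v, ?_⟩
      apply Subtype.ext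
      change Ideal.Quotient.mk I ((r' * v) * x') = Ideal.Quotient.mk I y'
      rw [Ideal.Quotient.eq]
      have e : r' * v * x' - y' = (r' * v) * (x' - r * z) - (y' - r' * z) +
          r' * z * (v * r - 1) := by ring
      rw [e, hv, sub_self, mul_zero, add_zero]
      exact I.sub_mem (I.mul_mem_left _ hr) hr'

/-! ### Transport along ring isomorphisms -/

theorem IsGorensteinLocal.of_ringEquiv {R R' : Type*} [CommRing R] [CommRing R'] (e : R ≃+* R')
    (h : IsGorensteinLocal R) : IsGorensteinLocal R' := by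
  obtain ⟨hl, hn, rs, hrs, hreg, hdim, hsoc⟩ := h
  have hl' : IsLocalRing R' := e.isLocalRing
  refine ⟨hl', isNoetherianRing_of_ringEquiv R e, rs.map e, ?_, ?_, ?_, ?_⟩
  · intro r hr
    obtain ⟨x, hx, rfl⟩ := List.mem_map.mp hr
    have := hrs x hx
    rw [mem_maximalIdeal, mem_nonunits_iff] at this ⊢
    simpa using this
  · refine (e.toAddEquiv.isRegular_congr (M := R) (M₂ := R') (as := rs) (bs := rs.map e) ?_).mp hreg
    exact List.forall₂_map_right_iff.mpr (List.forall₂_same.mpr fun r _ x => by simp)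
  · rw [List.length_map, hdim]
    exact ringKrullDim_eq_of_ringEquiv e
  · rw [isSimpleModule_socle_iff] at hsoc ⊢
    obtain ⟨z, hz, hzm, hs⟩ := hsoc
    have hI : Ideal.ofList (rs.map e) = (Ideal.ofList rs).map (e : R →+* R') := by
      rw [Ideal.map_ofList]; rfl
    have hmem : ∀ x : R', x ∈ Ideal.ofList (rs.map e) ↔ e.symm x ∈ Ideal.ofList rs := by
      intro x
      rw [hI]
      constructor
      · intro hx
        rw [Ideal.mem_map_iff_of_surjective (e : R →+* R') e.surjective] at hx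
        obtain ⟨y, hy, rfl⟩ := hx
        simpa using hy
      · intro hx
        have := Ideal.mem_map_of_mem (e : R →+* R') hx
        simpa using this
    have hmax : ∀ a : R', a ∈ maximalIdeal R' ↔ e.symm a ∈ maximalIdeal R := by
      intro a
      rw [mem_maximalIdeal, mem_nonunits_iff, mem_maximalIdeal, mem_nonunits_iff]
      simp
    refine ⟨e z, ?_, ?_, ?_⟩
    · rw [hmem]; simpa using hz
    · intro a ha
      rw [hmem]
      have := hzm _ ((hmax a).mp ha)
      simpa using this
    · intro z' hz'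
      obtain ⟨r, hr⟩ := hs (e.symm z') (by
        intro a ha
        have h1 := hz' (e a) ((hmax _).mpr (by simpa using ha))
        rw [hmem] at h1
        simpa using h1)
      refine ⟨e r, ?_⟩
      rw [hmem]
      simpa using hr

/-- All localizations of `A` at primes are Gorenstein. -/
def GorRing (A : Type*) [CommRing A] : Prop :=
  ∀ (P : Ideal A) [P.IsPrime], IsGorensteinLocal (Localization.AtPrime P)

theorem GorRing.of_ringEquiv {A A' : Type*} [CommRing A] [CommRing A'] (e : A ≃+* A')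
    (h : GorRing A) : GorRing A' := by
  intro P hP
  have h1 := h (P.comap (e : A →+* A'))
  refine h1.of_ringEquiv ?_
  refine IsLocalization.ringEquivOfRingEquiv (M := (P.comap (e : A →+* A')).primeCompl)
    (T := P.primeCompl) _ _ e ?_
  ext x
  simp only [Submonoid.mem_map, Ideal.mem_primeCompl_iff, Ideal.mem_comap]
  constructor
  · rintro ⟨y, hy, rfl⟩
    exact hy
  · intro hx
    exact ⟨e.symm x, by simpa using hx, by simp⟩

theorem gorSet_iff {σ : Type*} (S : Set (σ → ℂ)) : GorSet S ↔ GorRing (coordRing S) := Iff.rfl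

/-! ### Polynomial isomorphisms -/

section

variable {σ τ : Type}

theorem mem_vanIdeal {S : Set (σ → ℂ)} {P : MvPolynomial σ ℂ} :
    P ∈ (vanishingIdeal ℂ S : Ideal (MvPolynomial σ ℂ)) ↔ ∀ x ∈ S, eval x P = 0 := by
  rw [mem_vanishingIdeal_iff]
  refine forall₂_congr fun x _ => ?_
  rw [aeval_eq_eval]

/-- The map of coordinate rings induced by a polynomial map. -/
noncomputable def coordMap {S : Set (σ → ℂ)} {S' : Set (τ → ℂ)} (g : σ → MvPolynomial τ ℂ)
    (hg : ∀ z ∈ S', (fun i => eval z (g i)) ∈ S) : coordRing S →+* coordRing S' :=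
  Ideal.Quotient.lift _ ((Ideal.Quotient.mk _).comp (aeval g).toRingHom) (by
    intro P hP
    rw [mem_vanIdeal] at hP
    rw [RingHom.comp_apply, Ideal.Quotient.eq_zero_iff_mem, mem_vanIdeal]
    intro z hz
    have := hP _ (hg z hz)
    change eval z (aeval g P) = 0
    have e : eval z (aeval g P) = eval (fun i => eval z (g i)) P := by
      have h1 := MvPolynomial.comp_aeval_apply (φ := (aeval z : MvPolynomial τ ℂ →ₐ[ℂ] ℂ)) g P
      simp only [aeval_eq_eval] at h1
      exact h1
    rw [e]; exact this)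

theorem coordMap_comp {S : Set (σ → ℂ)} {S' : Set (τ → ℂ)} (f : τ → MvPolynomial σ ℂ)
    (g : σ → MvPolynomial τ ℂ)
    (hf : ∀ u ∈ S, (fun j => eval u (f j)) ∈ S') (hg : ∀ z ∈ S', (fun i => eval z (g i)) ∈ S)
    (h : ∀ u ∈ S, ∀ i, eval (fun j => eval u (f j)) (g i) = u i) :
    (coordMap f hf).comp (coordMap g hg) = RingHom.id (coordRing S) := by
  apply Ideal.Quotient.ringHom_ext
  apply MvPolynomial.ringHom_ext
  · intro c
    simp only [RingHom.comp_apply, coordMap, Ideal.Quotient.lift_mk, RingHom.id_apply]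
    congr 1
    change aeval f (aeval g (C c)) = C c
    simp
  · intro i
    simp only [RingHom.comp_apply, coordMap, Ideal.Quotient.lift_mk, RingHom.id_apply]
    change Ideal.Quotient.mk _ (aeval f (aeval g (X i))) = Ideal.Quotient.mk _ (X i)
    rw [Ideal.Quotient.eq, mem_vanIdeal]
    intro u hu
    rw [aeval_X, map_sub, eval_X]
    have e : eval u (aeval f (g i)) = eval (fun j => eval u (f j)) (g i) := by
      have h1 := MvPolynomial.comp_aeval_apply (φ := (aeval u : MvPolynomial σ ℂ →ₐ[ℂ] ℂ)) f (g i)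
      simp only [aeval_eq_eval] at h1
      exact h1
    rw [e, h u hu i, sub_self]

theorem PolyIso.ringEquiv {S : Set (σ → ℂ)} {S' : Set (τ → ℂ)} (h : PolyIso S S') :
    Nonempty (coordRing S ≃+* coordRing S') := by
  obtain ⟨f, g, hf, hg, hgf, hfg⟩ := h
  exact ⟨RingEquiv.ofRingHom (coordMap g hg) (coordMap f hf)
    (coordMap_comp g f hg hf hfg) (coordMap_comp f g hf hg hgf)⟩

theorem PolyIso.symm {S : Set (σ → ℂ)} {S' : Set (τ → ℂ)} (h : PolyIso S S') : PolyIso S' S := by
  obtain ⟨f, g, hf, hg, hgf, hfg⟩ := h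
  exact ⟨g, f, hg, hf, hfg, hgf⟩

theorem PolyIso.gorSet {S : Set (σ → ℂ)} {S' : Set (τ → ℂ)} (h : PolyIso S S') (hS : GorSet S) :
    GorSet S' := by
  obtain ⟨e⟩ := h.ringEquiv
  exact GorRing.of_ringEquiv e hS

end

theorem polyIsoGor : PolyIsoGor := by
  intro σ τ _ _ S S' h
  exact ⟨fun hS => h.gorSet hS, fun hS => h.symm.gorSet hS⟩

end ClanGor
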